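import Pool.Agent.W_2cf66e_h65.Defs

/-!
# MP_2cf66e_nt, part E: closure properties of semialgebraic sets (helper65)
-/

set_option autoImplicit false

noncomputable section

open MvPolynomial

namespace Pool.Agent.CVol

variable {ι κ : Type}

theorem IsSA.univ : IsSA (Set.univ : Set (ι → ℝ)) := by
  have h := IsSA.pos (ι := ι) 1
  have e : {x : ι → ℝ | 0 < aeval x (1 : MvPolynomial ι ℚ)} = Set.univ := by
    ext x
    simp
  rwa [e] at h

theorem IsSA.empty : IsSA (∅ : Set (ι → ℝ)) := by
  have h := (IsSA.univ (ι := ι)).compl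
  rwa [Set.compl_univ] at h

theorem IsSA.union {s t : Set (ι → ℝ)} (hs : IsSA s) (ht : IsSA t) : IsSA (s ∪ t) := by
  have h := (hs.compl.inter ht.compl).compl
  rwa [Set.compl_inter, compl_compl, compl_compl] at h

theorem ESA_biInter {α : Type} (T : Finset α) (S : α → Set (ι → ℝ)) (h : ∀ c, IsSA (S c)) :
    IsSA (⋂ c ∈ T, S c) := by
  classical
  induction T using Finset.induction_on with
  | empty => simpa using IsSA.univ
  | insert a T _ ih =>
    rw [Finset.set_biInter_insert]
    exact (h a).inter ih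

theorem ESA_biUnion {α : Type} (T : Finset α) (S : α → Set (ι → ℝ)) (h : ∀ c, IsSA (S c)) :
    IsSA (⋃ c ∈ T, S c) := by
  classical
  induction T using Finset.induction_on with
  | empty => simpa using IsSA.empty
  | insert a T _ ih =>
    rw [Finset.set_biUnion_insert]
    exact (h a).union ih

theorem IsSA.iInter {k : ℕ} (S : Fin k → Set (ι → ℝ)) (h : ∀ c, IsSA (S c)) :
    IsSA (⋂ c, S c) := by
  have h1 := ESA_biInter (Finset.univ : Finset (Fin k)) S h
  simpa using h1

theorem IsSA.iUnion {k : ℕ} (S : Fin k → Set (ι → ℝ)) (h : ∀ c, IsSA (S c)) :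
    IsSA (⋃ c, S c) := by
  have h1 := ESA_biUnion (Finset.univ : Finset (Fin k)) S h
  simpa using h1

/-- Unions over a finite set of indices of any type. -/
theorem IsSA.biUnion {α : Type} (T : Finset α) (S : α → Set (ι → ℝ)) (h : ∀ c, IsSA (S c)) :
    IsSA (⋃ c ∈ T, S c) := ESA_biUnion T S h

/-- Intersections over a finite set of indices of any type. -/
theorem IsSA.biInter {α : Type} (T : Finset α) (S : α → Set (ι → ℝ)) (h : ∀ c, IsSA (S c)) :
    IsSA (⋂ c ∈ T, S c) := ESA_biInter T S h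

theorem IsSA.nonneg (p : MvPolynomial ι ℚ) : IsSA {x : ι → ℝ | 0 ≤ aeval x p} := by
  have h := (IsSA.pos (-p)).compl
  have e : {x : ι → ℝ | 0 < aeval x (-p)}ᶜ = {x : ι → ℝ | 0 ≤ aeval x p} := by
    ext x
    simp
  rwa [e] at h

theorem IsSA.ne_zero (p : MvPolynomial ι ℚ) : IsSA {x : ι → ℝ | aeval x p ≠ 0} := by
  have h := (IsSA.pos p).union (IsSA.pos (-p))
  have e : {x : ι → ℝ | 0 < aeval x p} ∪ {x : ι → ℝ | 0 < aeval x (-p)} =
      {x : ι → ℝ | aeval x p ≠ 0} := by
    ext x
    simp only [Set.mem_union, Set.mem_setOf_eq, map_neg, Left.neg_pos_iff]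
    constructor
    · rintro (h | h)
      · exact h.ne'
      · exact h.ne
    · intro h
      rcases lt_or_gt_of_ne h with h | h
      · exact Or.inr h
      · exact Or.inl h
  rwa [e] at h

/-- Preimages under polynomial maps. Proof: induction on `IsSA`; for `{0 < p}` use
`MvPolynomial.bind₁` (`aeval_bind₁`): `aeval (fun k => aeval z (φ k)) p = aeval z (bind₁ φ p)`. -/
theorem IsSA.preimage {s : Set (κ → ℝ)} (hs : IsSA s) (φ : κ → MvPolynomial ι ℚ) :
    IsSA {z : ι → ℝ | (fun k => aeval z (φ k)) ∈ s} := by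
  induction hs with
  | pos p =>
    have h := IsSA.pos (bind₁ φ p)
    have e : {x : ι → ℝ | 0 < aeval x (bind₁ φ p)} =
        {z : ι → ℝ | (fun k => aeval z (φ k)) ∈ {x : κ → ℝ | 0 < aeval x p}} := by
      ext z
      simp only [Set.mem_setOf_eq, aeval_bind₁]
    rwa [e] at h
  | compl _ ih => exact ih.compl
  | inter _ _ ih1 ih2 => exact ih1.inter ih2

/-- The cube is semialgebraic. -/
theorem IsSA.box [Fintype ι] : IsSA (box ι) := by
  have h := ESA_biInter (Finset.univ : Finset ι)
    (fun i => {x : ι → ℝ | 0 ≤ aeval x (X i + 1 : MvPolynomial ι ℚ)} ∩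
      {x : ι → ℝ | 0 ≤ aeval x (1 - X i : MvPolynomial ι ℚ)})
    (fun i => (IsSA.nonneg _).inter (IsSA.nonneg _))
  have e : (⋂ i ∈ (Finset.univ : Finset ι), ({x : ι → ℝ | 0 ≤ aeval x (X i + 1 : MvPolynomial ι ℚ)} ∩
      {x : ι → ℝ | 0 ≤ aeval x (1 - X i : MvPolynomial ι ℚ)})) = CVol.box ι := by
    rw [box_eq]
    ext x
    simp only [Set.mem_iInter, Set.mem_inter_iff, Set.mem_setOf_eq, map_add, map_sub, aeval_X,
      map_one, Finset.mem_univ, forall_true_left]
    refine forall_congr' fun i => ?_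
    constructor
    · rintro ⟨h1, h2⟩
      exact ⟨by linarith, by linarith⟩
    · rintro ⟨h1, h2⟩
      exact ⟨by linarith, by linarith⟩
  rwa [e] at h

/-- The open cube is semialgebraic. -/
theorem IsSA.obox [Fintype ι] : IsSA {x : ι → ℝ | ∀ i, |x i| < 1} := by
  have h := ESA_biInter (Finset.univ : Finset ι)
    (fun i => {x : ι → ℝ | 0 < aeval x (X i + 1 : MvPolynomial ι ℚ)} ∩
      {x : ι → ℝ | 0 < aeval x (1 - X i : MvPolynomial ι ℚ)})
    (fun i => (IsSA.pos _).inter (IsSA.pos _))
  have e : (⋂ i ∈ (Finset.univ : Finset ι), ({x : ι → ℝ | 0 < aeval x (X i + 1 : MvPolynomial ι ℚ)} ∩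
      {x : ι → ℝ | 0 < aeval x (1 - X i : MvPolynomial ι ℚ)})) = {x : ι → ℝ | ∀ i, |x i| < 1} := by
    ext x
    simp only [Set.mem_iInter, Set.mem_inter_iff, Set.mem_setOf_eq, map_add, map_sub, aeval_X,
      map_one, Finset.mem_univ, forall_true_left]
    refine forall_congr' fun i => ?_
    rw [abs_lt]
    constructor
    · rintro ⟨h1, h2⟩
      exact ⟨by linarith, by linarith⟩
    · rintro ⟨h1, h2⟩
      exact ⟨by linarith, by linarith⟩
  rwa [e] at h

/-- Semialgebraic sets are measurable (polynomials are continuous). -/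
theorem IsSA.measurable [Fintype ι] {s : Set (ι → ℝ)} (hs : IsSA s) : MeasurableSet s := by
  induction hs with
  | pos p =>
    have hc : Continuous fun x : ι → ℝ => aeval x p := by
      have h := MvPolynomial.continuous_eval (re p)
      simpa only [eval_re] using h
    exact (isOpen_lt continuous_const hc).measurableSet
  | compl _ ih => exact ih.compl
  | inter _ _ ih1 ih2 => exact ih1.inter ih2

end Pool.Agent.CVol
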