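import Pool.Agent.W_2cf66e_h65.Defs

/-!
# MP_2cf66e_nt, part B: analytic continuation (helper65)
-/

set_option autoImplicit false

noncomputable section

open MeasureTheory

namespace Pool.Agent.CVol

/-- (B10) The Mellin type integral `∫ φ G^s` is holomorphic for `Re s > 0`.

Proof. `hasDerivAt_integral_of_dominated_loc_of_deriv_le` at `s` with `Re s > 0` on the ball of
radius `Re s / 2`: the integrand is `φ exp(s log G)`, its derivative in `s` is
`φ log G exp(s log G)`, of absolute value `≤ |φ| |log G| G^(Re s/2) ≤ C |φ|` as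
`|log y| y^ε ≤ 1/ε` for `0 < y ≤ 1` (e.g. `Real.abs_log_mul_self_rpow_lt`), and at `s` itself the
integrand is bounded by `|φ|`. -/
theorem mellin_diff {α : Type} [MeasurableSpace α] (ν : Measure α) (G φ : α → ℝ)
    (hG : Measurable G) (h0 : ∀ᵐ x ∂ν, 0 < G x) (h1 : ∀ᵐ x ∂ν, G x ≤ 1)
    (hφ : Integrable φ ν) :
    DifferentiableOn ℂ
      (fun s : ℂ => ∫ x, (φ x : ℂ) * Complex.exp (s * (Real.log (G x) : ℂ)) ∂ν)
      {s : ℂ | 0 < s.re} := by
  intro s0 hs0
  have hs0' : 0 < s0.re := hs0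
  have hε : 0 < s0.re / 2 := by linarith
  have hφm : AEStronglyMeasurable (fun x => (φ x : ℂ)) ν := hφ.ofReal.aestronglyMeasurable
  have hlm : Measurable fun x => ((Real.log (G x) : ℝ) : ℂ) :=
    Complex.measurable_ofReal.comp (Real.measurable_log.comp hG)
  have hem : ∀ s : ℂ, AEStronglyMeasurable
      (fun x => (φ x : ℂ) * Complex.exp (s * (Real.log (G x) : ℂ))) ν := fun s =>
    hφm.mul (Complex.measurable_exp.comp (hlm.const_mul s)).aestronglyMeasurable
  have hre : ∀ (s : ℂ) (l : ℝ), ‖Complex.exp (s * (l : ℂ))‖ = Real.exp (s.re * l) := by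
    intro s l
    rw [Complex.norm_exp, Complex.re_mul_ofReal]
  have hmain := hasDerivAt_integral_of_dominated_loc_of_deriv_le (μ := ν) (x₀ := s0)
    (s := Metric.ball s0 (s0.re / 2))
    (F := fun (s : ℂ) x => (φ x : ℂ) * Complex.exp (s * (Real.log (G x) : ℂ)))
    (F' := fun (s : ℂ) x => (φ x : ℂ) * (Complex.exp (s * (Real.log (G x) : ℂ)) *
      (Real.log (G x) : ℂ)))
    (bound := fun x => ‖φ x‖ * (1 / (s0.re / 2)))
    (Metric.ball_mem_nhds s0 hε) (Filter.Eventually.of_forall hem) ?_ ?_ ?_ ?_ ?_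
  · exact hmain.2.differentiableAt.differentiableWithinAt
  · refine Integrable.mono' hφ.norm (hem s0) ?_
    filter_upwards [h0, h1] with x hx0 hx1
    rw [norm_mul, hre, Complex.norm_real]
    refine mul_le_of_le_one_right (norm_nonneg _) ?_
    rw [Real.exp_le_one_iff]
    exact mul_nonpos_of_nonneg_of_nonpos hs0'.le (Real.log_nonpos hx0.le hx1)
  · exact hφm.mul ((Complex.measurable_exp.comp (hlm.const_mul s0)).mul hlm).aestronglyMeasurable
  · filter_upwards [h0, h1] with x hx0 hx1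
    intro s hs
    have hsre : s0.re / 2 ≤ s.re := by
      have h2 : |(s - s0).re| ≤ ‖s - s0‖ := Complex.abs_re_le_norm _
      have h3 : ‖s - s0‖ < s0.re / 2 := by
        rw [← dist_eq_norm]
        exact hs
      have h4 := (abs_le.1 (h2.trans h3.le)).1
      rw [Complex.sub_re] at h4
      linarith
    rw [norm_mul, norm_mul, hre, Complex.norm_real, Complex.norm_real]
    refine mul_le_mul_of_nonneg_left ?_ (norm_nonneg _)
    have h5 := Real.abs_log_mul_self_rpow_lt (G x) (s0.re / 2) hx0 hx1 hε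
    rw [abs_mul] at h5
    have h6 : |G x ^ (s0.re / 2)| = Real.exp (s0.re / 2 * Real.log (G x)) := by
      rw [abs_of_pos (Real.rpow_pos_of_pos hx0 _), Real.rpow_def_of_pos hx0, mul_comm]
    rw [h6] at h5
    have h7 : Real.exp (s.re * Real.log (G x)) ≤ Real.exp (s0.re / 2 * Real.log (G x)) := by
      apply Real.exp_le_exp.2
      exact mul_le_mul_of_nonpos_right hsre (Real.log_nonpos hx0.le hx1)
    rw [Real.norm_eq_abs]
    calc Real.exp (s.re * Real.log (G x)) * |Real.log (G x)|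
        ≤ Real.exp (s0.re / 2 * Real.log (G x)) * |Real.log (G x)| :=
          mul_le_mul_of_nonneg_right h7 (abs_nonneg _)
      _ = |Real.log (G x)| * Real.exp (s0.re / 2 * Real.log (G x)) := mul_comm _ _
      _ ≤ 1 / (s0.re / 2) := h5.le
  · exact hφ.norm.mul_const _
  · refine Filter.Eventually.of_forall fun x s _ => ?_
    have h2 : HasDerivAt (fun s : ℂ => s * (Real.log (G x) : ℂ)) (Real.log (G x) : ℂ) s := by
      have h3 := (hasDerivAt_id s).mul_const (Real.log (G x) : ℂ)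
      rwa [one_mul] at h3
    exact (h2.cexp).const_mul _

/-- (B11) Identity principle on the positive half line.

Proof. The function `Z(s) = ∑ p_k(s) ∫ φ_k exp(s log G)` is holomorphic on the (convex, so
preconnected) open half plane `Re s > 0` by `mellin_diff`, and for real `σ > 0` equals the real
sum (`Real.rpow_def_of_pos`, `Complex.ofReal_exp`, `integral_ofReal`). It vanishes at all real
`σ ≥ σ0`, which accumulate at `max σ0 1 + 1`; by
`AnalyticOnNhd.eqOn_zero_of_preconnected_of_frequently_eq_zero`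
(`DifferentiableOn.analyticOnNhd`) it vanishes on the half plane. -/
theorem ident {α : Type} [MeasurableSpace α] (ν : Measure α) (G : α → ℝ)
    (hG : Measurable G) (h0 : ∀ᵐ x ∂ν, 0 < G x) (h1 : ∀ᵐ x ∂ν, G x ≤ 1)
    (m : ℕ) (p : Fin m → Polynomial ℝ) (φ : Fin m → α → ℝ) (hφ : ∀ k, Integrable (φ k) ν)
    (σ0 : ℝ) (h : ∀ σ : ℝ, σ0 ≤ σ → 0 < σ →
      ∑ k, (p k).eval σ * ∫ x, φ k x * (G x) ^ σ ∂ν = 0) (σ : ℝ) (hσ : 0 < σ) :
    ∑ k, (p k).eval σ * ∫ x, φ k x * (G x) ^ σ ∂ν = 0 := by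
  let Z : ℂ → ℂ := fun s => ∑ k, ((p k).map Complex.ofRealHom).eval s *
    ∫ x, (φ k x : ℂ) * Complex.exp (s * (Real.log (G x) : ℂ)) ∂ν
  have hZreal : ∀ t : ℝ, Z t = ((∑ k, (p k).eval t * ∫ x, φ k x * (G x) ^ t ∂ν : ℝ) : ℂ) := by
    intro t
    change ∑ k, ((p k).map Complex.ofRealHom).eval (t : ℂ) *
      ∫ x, (φ k x : ℂ) * Complex.exp ((t : ℂ) * (Real.log (G x) : ℂ)) ∂ν = _
    rw [Complex.ofReal_sum]
    refine Finset.sum_congr rfl fun k _ => ?_
    have h2 : ((p k).map Complex.ofRealHom).eval (t : ℂ) = (((p k).eval t : ℝ) : ℂ) := by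
      rw [Polynomial.eval_map]
      exact Polynomial.eval₂_at_apply Complex.ofRealHom t
    have h3 : ∫ x, (φ k x : ℂ) * Complex.exp ((t : ℂ) * (Real.log (G x) : ℂ)) ∂ν =
        ((∫ x, φ k x * (G x) ^ t ∂ν : ℝ) : ℂ) := by
      refine Eq.trans ?_ integral_complex_ofReal
      apply integral_congr_ae
      filter_upwards [h0] with x hx
      rw [Real.rpow_def_of_pos hx]
      push_cast
      rw [mul_comm (t : ℂ)]
    rw [h2, h3, Complex.ofReal_mul]
  have hopen : IsOpen {s : ℂ | 0 < s.re} := isOpen_lt continuous_const Complex.continuous_re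
  have hdiff : DifferentiableOn ℂ Z {s : ℂ | 0 < s.re} := by
    apply DifferentiableOn.fun_sum
    intro k _
    exact (Polynomial.differentiable _).differentiableOn.mul
      (mellin_diff ν G (φ k) hG h0 h1 (hφ k))
  have han : AnalyticOnNhd ℂ Z {s : ℂ | 0 < s.re} := hdiff.analyticOnNhd hopen
  have hpre : IsPreconnected {s : ℂ | 0 < s.re} := (convex_halfSpace_re_gt 0).isPreconnected
  have ht0 : ((max σ0 1 + 1 : ℝ) : ℂ) ∈ {s : ℂ | 0 < s.re} := by
    change 0 < ((max σ0 1 + 1 : ℝ) : ℂ).re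
    rw [Complex.ofReal_re]
    have := le_max_right σ0 1
    linarith
  have hfreq : ∃ᶠ z in nhdsWithin ((max σ0 1 + 1 : ℝ) : ℂ) {((max σ0 1 + 1 : ℝ) : ℂ)}ᶜ,
      Z z = 0 := by
    have htend : Filter.Tendsto (fun t : ℝ => (t : ℂ))
        (nhdsWithin (max σ0 1 + 1) {max σ0 1 + 1}ᶜ)
        (nhdsWithin ((max σ0 1 + 1 : ℝ) : ℂ) {((max σ0 1 + 1 : ℝ) : ℂ)}ᶜ) := by
      rw [tendsto_nhdsWithin_iff]
      refine ⟨(Complex.continuous_ofReal.tendsto _).mono_left nhdsWithin_le_nhds, ?_⟩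
      filter_upwards [self_mem_nhdsWithin] with t ht
      have ht' : t ≠ max σ0 1 + 1 := ht
      exact fun h => ht' (Complex.ofReal_injective h)
    apply htend.frequently
    apply Filter.Eventually.frequently
    have hlt : ∀ᶠ t in nhdsWithin (max σ0 1 + 1) {max σ0 1 + 1}ᶜ, max σ0 1 < t :=
      mem_nhdsWithin_of_mem_nhds (isOpen_Ioi.mem_nhds (by simp))
    filter_upwards [hlt] with t ht
    rw [hZreal, h t ((le_max_left _ _).trans ht.le)
      (lt_of_lt_of_le one_pos ((le_max_right _ _).trans ht.le)), Complex.ofReal_zero]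
  have hzero := han.eqOn_zero_of_preconnected_of_frequently_eq_zero hpre ht0 hfreq
  have hσZ : Z σ = 0 := hzero (show (σ : ℂ) ∈ {s : ℂ | 0 < s.re} by
    change 0 < (σ : ℂ).re
    rwa [Complex.ofReal_re])
  rw [hZreal] at hσZ
  exact_mod_cast hσZ

end Pool.Agent.CVol
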