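import Pool.Agent.W_2cf66e_h65.Defs

/-!
# MP_2cf66e_nt, part B: order of vanishing, coefficients in `s` (helper65)
-/

set_option autoImplicit false

noncomputable section

open MeasureTheory

namespace Pool.Agent.CVol

theorem BOrd_count {α : Type*} [DecidableEq α] (m : Multiset α) (s : Finset α) :
    ∑ a ∈ s, m.count a ≤ m.card := by
  rw [← Multiset.sum_count_eq_card (s := s ∪ m.toFinset) (m := m)
    (fun a ha => Finset.mem_union_right _ (Multiset.mem_toFinset.2 ha))]
  exact Finset.sum_le_sum_of_subset Finset.subset_union_left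

theorem BOrd_deg (b : Polynomial ℚ) (K : ℕ) :
    ∑ l ∈ Finset.range K, b.rootMultiplicity (l : ℚ) ≤ b.natDegree := by
  classical
  have h1 : ∑ l ∈ Finset.range K, b.rootMultiplicity (l : ℚ) =
      ∑ a ∈ (Finset.range K).image (fun l : ℕ => (l : ℚ)), b.roots.count a := by
    rw [Finset.sum_image (fun x _ y _ h => Nat.cast_injective h)]
    exact Finset.sum_congr rfl fun l _ => (Polynomial.count_roots b).symm
  rw [h1]
  exact (BOrd_count _ _).trans (Polynomial.card_roots' b)

theorem BOrd_prod (b : Polynomial ℚ) (hb : b ≠ 0) (K : ℕ) :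
    ∃ b1 : Polynomial ℚ, b1.eval 0 ≠ 0 ∧
      ∏ l ∈ Finset.range K, b.comp (Polynomial.X + Polynomial.C (l : ℚ)) =
        Polynomial.X ^ (∑ l ∈ Finset.range K, b.rootMultiplicity (l : ℚ)) * b1 := by
  induction K with
  | zero => exact ⟨1, by simp, by simp⟩
  | succ K ih =>
    obtain ⟨b1, h1, h2⟩ := ih
    have h3 : b.comp (Polynomial.X + Polynomial.C (K : ℚ)) ≠ 0 := by
      intro h0
      apply hb
      have h4 := congrArg (fun q : Polynomial ℚ => q.comp (Polynomial.X - Polynomial.C (K : ℚ))) h0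
      simpa [Polynomial.comp_assoc] using h4
    obtain ⟨q, hq1, hq2⟩ :=
      Polynomial.exists_eq_pow_rootMultiplicity_mul_and_not_dvd _ h3 (0 : ℚ)
    have hq0 : q.eval 0 ≠ 0 := by
      intro h0
      exact hq2 (Polynomial.dvd_iff_isRoot.2 h0)
    refine ⟨b1 * q, ?_, ?_⟩
    · rw [Polynomial.eval_mul]
      exact mul_ne_zero h1 hq0
    · rw [Finset.prod_range_succ, h2, Finset.sum_range_succ, hq1,
        ← Polynomial.rootMultiplicity_eq_rootMultiplicity, Polynomial.C_0, sub_zero, pow_add]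
      ring

/-- (B15) The order of vanishing at `0` of `b(s) b(s+1) ... b(s+K-1)` is at most `deg b`,
for every `K`.

Proof: `rootMultiplicity 0 (b.comp (X + C l)) = rootMultiplicity l b`, the multiplicity of a
product is the sum, and `∑_{l<K} rootMultiplicity l b ≤ card b.roots ≤ natDegree b`
(`Polynomial.count_roots`, `Multiset.count` of distinct elements, `Polynomial.card_roots'`); then
`Polynomial.exists_eq_pow_rootMultiplicity_mul_and_not_dvd` (with `X - C 0 = X`). -/
theorem ord_bound (b : Polynomial ℚ) (hb : b ≠ 0) (K : ℕ) :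
    ∃ (μ : ℕ) (b1 : Polynomial ℚ), μ ≤ b.natDegree ∧ b1.eval 0 ≠ 0 ∧
      ∀ σ : ℝ, ∏ l ∈ Finset.range K, Polynomial.aeval (σ + l) b =
        σ ^ μ * Polynomial.aeval σ b1 := by
  obtain ⟨b1, h1, h2⟩ := BOrd_prod b hb K
  refine ⟨_, b1, BOrd_deg b K, h1, fun σ => ?_⟩
  have h3 := congrArg (fun q : Polynomial ℚ => Polynomial.aeval σ q) h2
  simp only [map_prod, map_mul, map_pow, Polynomial.aeval_X, Polynomial.aeval_comp, map_add,
    Polynomial.aeval_C] at h3
  rw [← h3]
  refine Finset.prod_congr rfl fun l _ => ?_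
  congr 1

theorem BOrd_expand {n : ℕ} (h : RS n) :
    ∃ N : ℕ, ∀ M : ℕ, N ≤ M → ∃ a : ℕ → MvPolynomial (Fin n) ℚ,
      ∀ σ : ℝ, spec σ h = ∑ k ∈ Finset.range M, MvPolynomial.C (σ ^ k) * re (a k) := by
  induction h using MvPolynomial.induction_on' with
  | monomial u p =>
    refine ⟨p.natDegree + 1, fun M hM => ⟨fun k => MvPolynomial.monomial u (p.coeff k),
      fun σ => ?_⟩⟩
    have h1 : spec σ (MvPolynomial.monomial u p) =
        MvPolynomial.monomial u (Polynomial.aeval σ p) := by
      unfold spec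
      rw [MvPolynomial.map_monomial]
      rfl
    rw [h1, Polynomial.aeval_eq_sum_range' (by omega : p.natDegree < M), map_sum]
    refine Finset.sum_congr rfl fun k _ => ?_
    unfold re
    rw [MvPolynomial.map_monomial, MvPolynomial.C_mul_monomial, Algebra.smul_def, mul_comm]
  | add p q hp hq =>
    obtain ⟨N1, h1⟩ := hp
    obtain ⟨N2, h2⟩ := hq
    refine ⟨max N1 N2, fun M hM => ?_⟩
    obtain ⟨a1, ha1⟩ := h1 M ((le_max_left _ _).trans hM)
    obtain ⟨a2, ha2⟩ := h2 M ((le_max_right _ _).trans hM)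
    refine ⟨fun k => a1 k + a2 k, fun σ => ?_⟩
    rw [map_add, ha1 σ, ha2 σ, ← Finset.sum_add_distrib]
    refine Finset.sum_congr rfl fun k _ => ?_
    rw [map_add, mul_add]

/-- (B16) Expansion of a specialization in powers of `s`, with as many terms as we like.

Proof: induction on `h` (`MvPolynomial.induction_on'`, monomials `monomial α (p(s))`:
`h_k = monomial α (p.coeff k)`, `N > natDegree p`; sums), or directly with the linear map
`MvPolynomial ... → ...` taking coefficientwise `Polynomial.coeff k`. -/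
theorem spec_expand {n : ℕ} (h : RS n) (N0 : ℕ) :
    ∃ (N : ℕ) (a : ℕ → MvPolynomial (Fin n) ℚ), N0 ≤ N ∧
      ∀ σ : ℝ, spec σ h = ∑ k ∈ Finset.range N, MvPolynomial.C (σ ^ k) * re (a k) := by
  obtain ⟨N, hN⟩ := BOrd_expand h
  obtain ⟨a, ha⟩ := hN (max N N0) (le_max_left _ _)
  exact ⟨max N N0, a, le_max_right _ _, ha⟩

end Pool.Agent.CVol
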