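import Pool.Agent.W_2cf66e_h65.Defs

/-!
# MP_2cf66e_nt, part B: Taylor expansion at `s = 0` (helper65)
-/

set_option autoImplicit false

noncomputable section

open MeasureTheory Filter Topology

namespace Pool.Agent.CVol

theorem BTaylor_exp (t : ℝ) (n : ℕ) :
    |Real.exp t - ∑ m ∈ Finset.range n, t ^ m / (m.factorial : ℝ)| ≤ |t| ^ n * Real.exp |t| := by
  have h := Complex.norm_exp_sub_sum_le_norm_mul_exp (t : ℂ) n
  rw [Complex.norm_real, Real.norm_eq_abs] at h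
  have h2 : Complex.exp (t : ℂ) - ∑ m ∈ Finset.range n, (t : ℂ) ^ m / (m.factorial : ℂ) =
      ((Real.exp t - ∑ m ∈ Finset.range n, t ^ m / (m.factorial : ℝ) : ℝ) : ℂ) := by
    push_cast
    rfl
  rw [h2, Complex.norm_real, Real.norm_eq_abs] at h
  exact h

theorem BTaylor_pt (y : ℝ) (hy : 0 < y) (hy1 : y ≤ 1) (σ : ℝ) (h0 : 0 < σ) (h1 : σ ≤ 1) (μ : ℕ) :
    |y ^ σ - ∑ i ∈ Finset.range (μ + 1), (Real.log y) ^ i * σ ^ i / (i.factorial : ℝ)| ≤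
      |Real.log y| ^ (μ + 1) * y⁻¹ * σ ^ (μ + 1) := by
  have hlog : Real.log y ≤ 0 := Real.log_nonpos hy.le hy1
  have h2 := BTaylor_exp (Real.log y * σ) (μ + 1)
  rw [← Real.rpow_def_of_pos hy] at h2
  have h3 : ∀ i ∈ Finset.range (μ + 1), (Real.log y * σ) ^ i / (i.factorial : ℝ) =
      (Real.log y) ^ i * σ ^ i / (i.factorial : ℝ) := fun i _ => by rw [mul_pow]
  rw [Finset.sum_congr rfl h3] at h2
  refine h2.trans ?_
  rw [abs_mul, abs_of_pos h0, mul_pow]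
  have h4 : Real.exp (|Real.log y| * σ) ≤ y⁻¹ := by
    rw [← Real.exp_log (inv_pos.2 hy), Real.log_inv]
    refine Real.exp_le_exp.2 ?_
    rw [abs_of_nonpos hlog]
    nlinarith
  calc |Real.log y| ^ (μ + 1) * σ ^ (μ + 1) * Real.exp (|Real.log y| * σ) ≤
        |Real.log y| ^ (μ + 1) * σ ^ (μ + 1) * y⁻¹ :=
        mul_le_mul_of_nonneg_left h4 (by positivity)
    _ = _ := by ring

theorem BTaylor_int {α : Type} [MeasurableSpace α] (ν : Measure α) (G ψ : α → ℝ)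
    (hG : Measurable G) (h0 : ∀ᵐ x ∂ν, 0 < G x) (h1 : ∀ᵐ x ∂ν, G x ≤ 1)
    (hψ : Integrable ψ ν) (σ : ℝ) (hσ : 0 < σ) :
    Integrable (fun x => ψ x * (G x) ^ σ) ν := by
  refine hψ.mono (hψ.aestronglyMeasurable.mul (hG.pow_const σ).aestronglyMeasurable) ?_
  filter_upwards [h0, h1] with x hx0 hx1
  rw [norm_mul, Real.norm_eq_abs (G x ^ σ), abs_of_nonneg (Real.rpow_nonneg hx0.le _)]
  have h2 : G x ^ σ ≤ 1 := Real.rpow_le_one hx0.le hx1 hσ.le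
  have h3 := norm_nonneg (ψ x)
  nlinarith

theorem BTaylor_le {α : Type} [MeasurableSpace α] (ν : Measure α) (G ψ : α → ℝ)
    (hG : Measurable G) (h0 : ∀ᵐ x ∂ν, 0 < G x) (h1 : ∀ᵐ x ∂ν, G x ≤ 1)
    (hψ : Integrable ψ ν) (σ : ℝ) (hσ : 0 < σ) :
    |∫ x, ψ x * (G x) ^ σ ∂ν| ≤ ∫ x, |ψ x| ∂ν := by
  refine (abs_integral_le_integral_abs).trans ?_
  refine integral_mono_ae (BTaylor_int ν G ψ hG h0 h1 hψ σ hσ).abs hψ.abs ?_
  filter_upwards [h0, h1] with x hx0 hx1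
  rw [abs_mul, abs_of_nonneg (Real.rpow_nonneg hx0.le σ)]
  have h2 : G x ^ σ ≤ 1 := Real.rpow_le_one hx0.le hx1 hσ.le
  have h3 := abs_nonneg (ψ x)
  nlinarith

/-- (B12) Taylor expansion of `∫ ψ G^σ` at `σ = 0+`.

Proof. For `0 < y ≤ 1`, `0 < σ ≤ 1`, with `t = σ log y ≤ 0`:
`|y^σ - ∑_{i ≤ μ} t^i / i!| ≤ |t|^(μ+1) exp |t| ≤ σ^(μ+1) |log y|^(μ+1) y⁻¹`
(`Complex.norm_exp_sub_sum_le_norm_mul_exp` or the real analogue). Multiply by `|ψ|` and
integrate; `C = ∫ |ψ| |log G|^(μ+1) G⁻¹`. -/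
theorem taylor_one {α : Type} [MeasurableSpace α] (ν : Measure α) (G ψ : α → ℝ)
    (hG : Measurable G) (h0 : ∀ᵐ x ∂ν, 0 < G x) (h1 : ∀ᵐ x ∂ν, G x ≤ 1) (μ : ℕ)
    (hψ : ∀ i, Integrable (fun x => ψ x * (Real.log (G x)) ^ i) ν)
    (hψ' : Integrable (fun x => ψ x * |Real.log (G x)| ^ (μ + 1) * (G x)⁻¹) ν) :
    ∃ C : ℝ, ∀ σ : ℝ, 0 < σ → σ ≤ 1 →
      |(∫ x, ψ x * (G x) ^ σ ∂ν) - ∑ i ∈ Finset.range (μ + 1),
        (∫ x, ψ x * (Real.log (G x)) ^ i ∂ν) * σ ^ i / (i.factorial : ℝ)| ≤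
          C * σ ^ (μ + 1) := by
  have hψ0 : Integrable ψ ν := by simpa using hψ 0
  refine ⟨∫ x, |ψ x * |Real.log (G x)| ^ (μ + 1) * (G x)⁻¹| ∂ν, fun σ hσ0 hσ1 => ?_⟩
  have e1 : ∀ i ∈ Finset.range (μ + 1),
      (∫ x, ψ x * (Real.log (G x)) ^ i ∂ν) * σ ^ i / (i.factorial : ℝ) =
      ∫ x, ψ x * (Real.log (G x)) ^ i * (σ ^ i / (i.factorial : ℝ)) ∂ν := fun i _ => by
    rw [integral_mul_const]
    ring
  have e2 : ∀ i ∈ Finset.range (μ + 1),
      Integrable (fun x => ψ x * (Real.log (G x)) ^ i * (σ ^ i / (i.factorial : ℝ))) ν :=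
    fun i _ => (hψ i).mul_const _
  have hI := BTaylor_int ν G ψ hG h0 h1 hψ0 σ hσ0
  rw [Finset.sum_congr rfl e1, ← integral_finsetSum _ e2,
    ← integral_sub hI (integrable_finsetSum _ e2), ← integral_mul_const]
  refine (abs_integral_le_integral_abs).trans ?_
  refine integral_mono_ae (hI.sub (integrable_finsetSum _ e2)).abs (hψ'.abs.mul_const _) ?_
  filter_upwards [h0, h1] with x hx0 hx1
  have h2 := BTaylor_pt (G x) hx0 hx1 σ hσ0 hσ1 μ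
  have h3 : ψ x * G x ^ σ - ∑ i ∈ Finset.range (μ + 1),
      ψ x * (Real.log (G x)) ^ i * (σ ^ i / (i.factorial : ℝ)) =
      ψ x * (G x ^ σ - ∑ i ∈ Finset.range (μ + 1),
        (Real.log (G x)) ^ i * σ ^ i / (i.factorial : ℝ)) := by
    rw [mul_sub, Finset.mul_sum]
    congr 1
    refine Finset.sum_congr rfl fun i _ => ?_
    ring
  rw [h3, abs_mul, abs_mul, abs_mul, abs_of_pos (inv_pos.2 hx0),
    abs_of_nonneg (pow_nonneg (abs_nonneg (Real.log (G x))) (μ + 1))]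
  calc |ψ x| * |G x ^ σ - ∑ i ∈ Finset.range (μ + 1),
        (Real.log (G x)) ^ i * σ ^ i / (i.factorial : ℝ)| ≤
        |ψ x| * (|Real.log (G x)| ^ (μ + 1) * (G x)⁻¹ * σ ^ (μ + 1)) :=
        mul_le_mul_of_nonneg_left h2 (abs_nonneg _)
    _ = _ := by ring

theorem BTaylor_coeffs (μ : ℕ) (b : ℕ → ℝ) (v : ℝ → ℝ)
    (hv : ∀ i ≤ μ, Tendsto (fun σ => v σ / σ ^ i) (𝓝[>] 0) (𝓝 0))
    (h : ∀ σ : ℝ, 0 < σ → σ ≤ 1 → v σ = ∑ i ∈ Finset.range (μ + 1), b i * σ ^ i) :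
    ∀ i ≤ μ, b i = 0 := by
  intro i
  induction i using Nat.strong_induction_on with
  | _ i ih =>
    intro hi
    have h1 := hv i hi
    have h2 : Tendsto (fun σ : ℝ => ∑ j ∈ Finset.range (μ + 1 - i), b (i + j) * σ ^ j)
        (𝓝[>] 0) (𝓝 (b i)) := by
      have h3 : Continuous (fun σ : ℝ => ∑ j ∈ Finset.range (μ + 1 - i), b (i + j) * σ ^ j) := by
        fun_prop
      have h4 := h3.tendsto 0
      have h5 : ∑ j ∈ Finset.range (μ + 1 - i), b (i + j) * (0 : ℝ) ^ j = b i := by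
        rw [Finset.sum_eq_single 0]
        · simp
        · intro j _ hj
          rw [zero_pow hj, mul_zero]
        · intro h6
          exfalso
          apply h6
          rw [Finset.mem_range]
          omega
      rw [h5] at h4
      exact h4.mono_left nhdsWithin_le_nhds
    refine tendsto_nhds_unique (h2.congr' ?_) h1
    have h6 : ∀ᶠ σ : ℝ in 𝓝[>] 0, σ ≤ 1 :=
      nhdsWithin_le_nhds (Iic_mem_nhds (by norm_num))
    filter_upwards [self_mem_nhdsWithin, h6] with σ hσ0 hσ1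
    have hσ : (0 : ℝ) < σ := hσ0
    have h7 : ∑ k ∈ Finset.range (μ + 1), b k * σ ^ k =
        ∑ j ∈ Finset.range (μ + 1 - i), b (i + j) * σ ^ (i + j) := by
      have h8 := Finset.sum_range_add (fun k => b k * σ ^ k) i (μ + 1 - i)
      have h9 : i + (μ + 1 - i) = μ + 1 := by omega
      rw [h9] at h8
      rw [h8, Finset.sum_eq_zero, zero_add]
      intro k hk
      rw [Finset.mem_range] at hk
      rw [ih k hk (by omega), zero_mul]
    rw [h σ hσ hσ1, h7, Finset.sum_div]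
    refine Finset.sum_congr rfl fun j _ => ?_
    rw [pow_add]
    field_simp

/-- (B13) Comparison of coefficients: if a polynomial in `σ` plus `O(σ^(μ+1))` equals
`σ^μ u(σ)` with `u(σ) → L` as `σ → 0+`, then the coefficient of `σ^μ` is `L`.

Proof: first, by induction on `i < μ`, the coefficients `a_0, ..., a_(μ-1)` vanish (divide by
`σ^i` and let `σ → 0+`: everything else tends to `0`); then divide by `σ^μ`. -/
theorem coeff_limit (μ : ℕ) (a : ℕ → ℝ) (u E : ℝ → ℝ) (L C : ℝ)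
    (hu : Tendsto u (𝓝[>] 0) (𝓝 L))
    (hE : ∀ σ : ℝ, 0 < σ → σ ≤ 1 → |E σ| ≤ C * σ ^ (μ + 1))
    (h : ∀ σ : ℝ, 0 < σ → σ ≤ 1 →
      σ ^ μ * u σ = ∑ i ∈ Finset.range (μ + 1), a i * σ ^ i + E σ) : a μ = L := by
  have key := BTaylor_coeffs μ (fun i => if i = μ then a μ - L else a i)
    (fun σ => σ ^ μ * (u σ - L) - E σ) ?_ ?_ μ le_rfl
  · simp only [if_true] at key
    linarith
  · intro i hi
    have hσ0 : Tendsto (fun σ : ℝ => σ) (𝓝[>] 0) (𝓝 0) :=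
      tendsto_id.mono_left nhdsWithin_le_nhds
    have h1 : Tendsto (fun σ : ℝ => σ ^ (μ - i) * (u σ - L)) (𝓝[>] 0) (𝓝 0) := by
      have h2 := (hσ0.pow (μ - i)).mul (hu.sub_const L)
      rwa [sub_self, mul_zero] at h2
    have h3 : Tendsto (fun σ : ℝ => E σ / σ ^ i) (𝓝[>] 0) (𝓝 0) := by
      have h4 : Tendsto (fun σ : ℝ => |C| * σ) (𝓝[>] 0) (𝓝 0) := by
        have := hσ0.const_mul |C|
        rwa [mul_zero] at this
      refine squeeze_zero_norm' ?_ h4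
      have h6 : ∀ᶠ σ : ℝ in 𝓝[>] 0, σ ≤ 1 :=
        nhdsWithin_le_nhds (Iic_mem_nhds (by norm_num))
      filter_upwards [self_mem_nhdsWithin, h6] with σ hσ0 hσ1
      have hσ : (0 : ℝ) < σ := hσ0
      have h7 := hE σ hσ hσ1
      rw [norm_div, Real.norm_eq_abs, Real.norm_eq_abs, abs_of_pos (pow_pos hσ i),
        div_le_iff₀ (pow_pos hσ i)]
      have h8 : σ ^ (μ + 1) ≤ σ * σ ^ i := by
        rw [← pow_succ']
        exact pow_le_pow_of_le_one hσ.le hσ1 (by omega)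
      calc |E σ| ≤ C * σ ^ (μ + 1) := h7
        _ ≤ |C| * σ ^ (μ + 1) := mul_le_mul_of_nonneg_right (le_abs_self C) (by positivity)
        _ ≤ |C| * (σ * σ ^ i) := mul_le_mul_of_nonneg_left h8 (abs_nonneg C)
        _ = _ := by ring
    have h9 := h1.sub h3
    rw [sub_zero] at h9
    refine h9.congr' ?_
    filter_upwards [self_mem_nhdsWithin] with σ hσ0
    have hσ : (0 : ℝ) < σ := hσ0
    have h10 : σ ^ μ = σ ^ (μ - i) * σ ^ i := by
      rw [← pow_add]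
      congr 1
      omega
    rw [h10]
    field_simp
  · intro σ hσ0 hσ1
    have h1 := h σ hσ0 hσ1
    rw [Finset.sum_range_succ] at h1 ⊢
    simp only [if_true]
    have h2 : ∑ i ∈ Finset.range μ, (if i = μ then a μ - L else a i) * σ ^ i =
        ∑ i ∈ Finset.range μ, a i * σ ^ i := by
      refine Finset.sum_congr rfl fun i hi => ?_
      rw [Finset.mem_range] at hi
      rw [if_neg (by omega)]
    rw [h2]
    linarith

/-- (B14) The limit formula.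

Proof. `u(σ) = b1(σ) ∫ φ G^σ → b1(0) ∫ φ` as `σ → 0+` (dominated convergence: `|G^σ| ≤ 1`,
`G^σ → 1`). The right side is `∑_{k<N} σ^k (∑_{i≤μ} c_{k,i} σ^i/i! + O(σ^(μ+1)))` with
`c_{k,i} = ∫ ψ_k (log G)^i` (`taylor_one`), i.e. `∑_{m≤μ} a_m σ^m + O(σ^(μ+1))` with
`a_m = ∑_{k ≤ m} c_{k,m-k}/(m-k)!` (the terms with `k + i > μ` are `O(σ^(μ+1))` for `σ ≤ 1`;
`N > μ`). Conclude with `coeff_limit`. -/
theorem taylor_limit {α : Type} [MeasurableSpace α] (ν : Measure α) (G φ : α → ℝ)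
    (ψ : ℕ → α → ℝ) (hG : Measurable G) (h0 : ∀ᵐ x ∂ν, 0 < G x) (h1 : ∀ᵐ x ∂ν, G x ≤ 1)
    (hφ : Integrable φ ν) (μ N : ℕ) (hN : μ < N)
    (hψ : ∀ k i, Integrable (fun x => ψ k x * (Real.log (G x)) ^ i) ν)
    (hψ' : ∀ k i, Integrable (fun x => ψ k x * |Real.log (G x)| ^ i * (G x)⁻¹) ν)
    (b1 : Polynomial ℝ)
    (h : ∀ σ : ℝ, 0 < σ → σ ^ μ * b1.eval σ * ∫ x, φ x * (G x) ^ σ ∂ν =
      ∑ k ∈ Finset.range N, σ ^ k * ∫ x, ψ k x * (G x) ^ σ ∂ν) :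
    b1.eval 0 * ∫ x, φ x ∂ν = ∑ k ∈ Finset.range (μ + 1),
      (∫ x, ψ k x * (Real.log (G x)) ^ (μ - k) ∂ν) / ((μ - k).factorial : ℝ) := by
  have hψ0 : ∀ k, Integrable (ψ k) ν := fun k => by simpa using hψ k 0
  -- the limit of `u`
  have hu : Tendsto (fun σ : ℝ => b1.eval σ * ∫ x, φ x * (G x) ^ σ ∂ν) (𝓝[>] 0)
      (𝓝 (b1.eval 0 * ∫ x, φ x ∂ν)) := by
    refine Tendsto.mul ((b1.continuous.tendsto 0).mono_left nhdsWithin_le_nhds) ?_
    refine tendsto_integral_filter_of_dominated_convergence (fun x => |φ x|) ?_ ?_ hφ.abs ?_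
    · filter_upwards [self_mem_nhdsWithin] with σ hσ
      exact (BTaylor_int ν G φ hG h0 h1 hφ σ hσ).aestronglyMeasurable
    · filter_upwards [self_mem_nhdsWithin] with σ hσ
      have hσ' : (0 : ℝ) < σ := hσ
      filter_upwards [h0, h1] with x hx0 hx1
      rw [norm_mul, Real.norm_eq_abs, Real.norm_eq_abs,
        abs_of_nonneg (Real.rpow_nonneg hx0.le σ)]
      have h2 : G x ^ σ ≤ 1 := Real.rpow_le_one hx0.le hx1 hσ'.le
      have h3 := abs_nonneg (φ x)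
      nlinarith
    · filter_upwards [h0] with x hx0
      have h2 : Tendsto (fun σ : ℝ => G x ^ σ) (𝓝 0) (𝓝 (G x ^ (0 : ℝ))) :=
        (Real.continuousAt_const_rpow hx0.ne').tendsto
      rw [Real.rpow_zero] at h2
      have h3 := (h2.mono_left (nhdsWithin_le_nhds (s := Set.Ioi 0))).const_mul (φ x)
      rwa [mul_one] at h3
  -- the Taylor expansions
  have hT : ∀ k, ∃ C : ℝ, ∀ σ : ℝ, 0 < σ → σ ≤ 1 →
      |(∫ x, ψ k x * (G x) ^ σ ∂ν) - ∑ i ∈ Finset.range (μ - k + 1),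
        (∫ x, ψ k x * (Real.log (G x)) ^ i ∂ν) * σ ^ i / (i.factorial : ℝ)| ≤
          C * σ ^ (μ - k + 1) := fun k =>
    taylor_one ν G (ψ k) hG h0 h1 (μ - k) (hψ k) (hψ' k (μ - k + 1))
  choose C hC using hT
  obtain ⟨f, hf⟩ : ∃ f : ℝ → ℕ → ℕ → ℝ, f = fun σ k i =>
    σ ^ k * ((∫ x, ψ k x * (Real.log (G x)) ^ i ∂ν) * σ ^ i / (i.factorial : ℝ)) := ⟨_, rfl⟩
  obtain ⟨D, hD⟩ : ∃ D : ℕ → ℝ, D = fun k => ∫ x, |ψ k x| ∂ν := ⟨_, rfl⟩
  have hD0 : ∀ k, 0 ≤ D k := fun k => by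
    rw [hD]
    exact integral_nonneg fun x => abs_nonneg _
  obtain ⟨a, ha⟩ : ∃ a : ℕ → ℝ, a = fun m => ∑ k ∈ Finset.range (m + 1),
    (∫ x, ψ k x * (Real.log (G x)) ^ (m - k) ∂ν) / ((m - k).factorial : ℝ) := ⟨_, rfl⟩
  have hsum : ∀ σ : ℝ, ∑ m ∈ Finset.range (μ + 1), a m * σ ^ m =
      ∑ k ∈ Finset.range (μ + 1), ∑ i ∈ Finset.range (μ + 1 - k), f σ k i := by
    intro σ
    rw [← Finset.sum_range_diag_flip]
    refine Finset.sum_congr rfl fun m _ => ?_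
    rw [ha, hf]
    simp only
    rw [Finset.sum_mul]
    refine Finset.sum_congr rfl fun k hk => ?_
    rw [Finset.mem_range] at hk
    have h2 : σ ^ m = σ ^ k * σ ^ (m - k) := by
      rw [← pow_add]
      congr 1
      omega
    rw [h2]
    ring
  obtain ⟨M, rfl⟩ : ∃ M, N = μ + 1 + M := ⟨N - (μ + 1), by omega⟩
  have hres := coeff_limit μ a (fun σ : ℝ => b1.eval σ * ∫ x, φ x * (G x) ^ σ ∂ν)
    (fun σ => σ ^ μ * (b1.eval σ * ∫ x, φ x * (G x) ^ σ ∂ν) -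
      ∑ i ∈ Finset.range (μ + 1), a i * σ ^ i) (b1.eval 0 * ∫ x, φ x ∂ν)
    (∑ k ∈ Finset.range (μ + 1), C k + ∑ j ∈ Finset.range M, D (μ + 1 + j)) hu ?_
    (fun σ _ _ => by ring)
  · rw [← hres, ha]
  · intro σ hσ0 hσ1
    rw [← mul_assoc, h σ hσ0, Finset.sum_range_add, hsum σ]
    have e1 : ∑ k ∈ Finset.range (μ + 1), σ ^ k * (∫ x, ψ k x * (G x) ^ σ ∂ν) +
        ∑ j ∈ Finset.range M, σ ^ (μ + 1 + j) * (∫ x, ψ (μ + 1 + j) x * (G x) ^ σ ∂ν) -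
        ∑ k ∈ Finset.range (μ + 1), ∑ i ∈ Finset.range (μ + 1 - k), f σ k i =
        ∑ k ∈ Finset.range (μ + 1), σ ^ k * ((∫ x, ψ k x * (G x) ^ σ ∂ν) -
          ∑ i ∈ Finset.range (μ - k + 1),
            (∫ x, ψ k x * (Real.log (G x)) ^ i ∂ν) * σ ^ i / (i.factorial : ℝ)) +
        ∑ j ∈ Finset.range M, σ ^ (μ + 1 + j) * (∫ x, ψ (μ + 1 + j) x * (G x) ^ σ ∂ν) := by
      have e2 : ∑ k ∈ Finset.range (μ + 1), ∑ i ∈ Finset.range (μ + 1 - k), f σ k i =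
          ∑ k ∈ Finset.range (μ + 1), σ ^ k * ∑ i ∈ Finset.range (μ - k + 1),
            (∫ x, ψ k x * (Real.log (G x)) ^ i ∂ν) * σ ^ i / (i.factorial : ℝ) := by
        refine Finset.sum_congr rfl fun k hk => ?_
        rw [Finset.mem_range] at hk
        have e3 : μ + 1 - k = μ - k + 1 := by omega
        rw [e3, Finset.mul_sum, hf]
      rw [e2]
      simp only [mul_sub, Finset.sum_sub_distrib]
      ring
    rw [e1]
    refine (abs_add_le _ _).trans ?_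
    rw [add_mul, Finset.sum_mul, Finset.sum_mul]
    refine add_le_add ((Finset.abs_sum_le_sum_abs _ _).trans (Finset.sum_le_sum fun k hk => ?_))
      ((Finset.abs_sum_le_sum_abs _ _).trans (Finset.sum_le_sum fun j _ => ?_))
    · rw [Finset.mem_range] at hk
      rw [abs_mul, abs_of_pos (pow_pos hσ0 k)]
      have h2 : σ ^ (μ + 1) = σ ^ k * σ ^ (μ - k + 1) := by
        rw [← pow_add]
        congr 1
        omega
      rw [h2]
      calc σ ^ k * |(∫ x, ψ k x * (G x) ^ σ ∂ν) - ∑ i ∈ Finset.range (μ - k + 1),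
          (∫ x, ψ k x * (Real.log (G x)) ^ i ∂ν) * σ ^ i / (i.factorial : ℝ)| ≤
          σ ^ k * (C k * σ ^ (μ - k + 1)) :=
          mul_le_mul_of_nonneg_left (hC k σ hσ0 hσ1) (pow_pos hσ0 k).le
        _ = _ := by ring
    · rw [abs_mul, abs_of_pos (pow_pos hσ0 _)]
      have h2 : |∫ x, ψ (μ + 1 + j) x * (G x) ^ σ ∂ν| ≤ D (μ + 1 + j) := by
        rw [hD]
        exact BTaylor_le ν G _ hG h0 h1 (hψ0 _) σ hσ0
      have h3 : σ ^ (μ + 1 + j) ≤ σ ^ (μ + 1) := pow_le_pow_of_le_one hσ0.le hσ1 (by omega)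
      calc σ ^ (μ + 1 + j) * |∫ x, ψ (μ + 1 + j) x * (G x) ^ σ ∂ν| ≤
          σ ^ (μ + 1) * D (μ + 1 + j) :=
          mul_le_mul h3 h2 (abs_nonneg _) (by positivity)
        _ = _ := by ring

end Pool.Agent.CVol
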