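import Pool.Agent.W_2cf66e_h65.BFun
import Pool.Agent.W_2cf66e_h65.BAna
import Pool.Agent.W_2cf66e_h65.BTaylor
import Pool.Agent.W_2cf66e_h65.BOrd

/-!
# MP_2cf66e_nt, part B: a cell integral is a combination of `∫ h F^K (log F)^i` (helper65)
-/

set_option autoImplicit false

noncomputable section

open MeasureTheory

namespace Pool.Agent.CVol

theorem BLog_cont {n : ℕ} (g : MvPolynomial (Fin n) ℚ) :
    Continuous fun x : Fin n → ℝ => MvPolynomial.aeval x g := by
  have h : (fun x : Fin n → ℝ => MvPolynomial.aeval x g) =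
      fun x : Fin n → ℝ => MvPolynomial.eval x (re g) := by
    funext x
    exact (eval_re x g).symm
  rw [h]
  exact MvPolynomial.continuous_eval _

theorem BLog_int {n : ℕ} {U : Set (Fin n → ℝ)} {F : MvPolynomial (Fin n) ℚ} (hc : IsCell U F)
    (g : MvPolynomial (Fin n) ℚ) :
    IntegrableOn (fun x : Fin n → ℝ => MvPolynomial.aeval x g) U := by
  have h1 : IsCompact (box (Fin n)) := isCompact_Icc
  exact ((BLog_cont g).continuousOn.integrableOn_compact h1).mono_set hc.sub

/-- polynomial times a bounded measurable function -/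
theorem BLog_bdd {n : ℕ} {U : Set (Fin n → ℝ)} {F : MvPolynomial (Fin n) ℚ} (hc : IsCell U F)
    (g : MvPolynomial (Fin n) ℚ) (w : (Fin n → ℝ) → ℝ) (hw : Measurable w) (C : ℝ)
    (hC : ∀ x ∈ U, |w x| ≤ C) :
    IntegrableOn (fun x : Fin n → ℝ => MvPolynomial.aeval x g * w x) U := by
  refine Integrable.mul_bdd (c := C) (BLog_int hc g) hw.aestronglyMeasurable ?_
  exact ae_restrict_of_forall_mem hc.isOpen.measurableSet fun x hx => hC x hx

theorem BLog_rpow_meas {n : ℕ} (F : MvPolynomial (Fin n) ℚ) (σ : ℝ) :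
    Measurable fun x : Fin n → ℝ => (MvPolynomial.aeval x F : ℝ) ^ σ :=
  (BLog_cont F).measurable.pow_const σ

theorem BLog_rpow_le {n : ℕ} {U : Set (Fin n → ℝ)} {F : MvPolynomial (Fin n) ℚ}
    (hc : IsCell U F) {σ : ℝ} (hσ : 0 < σ) {x : Fin n → ℝ} (hx : x ∈ U) :
    |(MvPolynomial.aeval x F : ℝ) ^ σ| ≤ 1 := by
  have h0 := hc.pos x hx
  rw [abs_of_nonneg (Real.rpow_nonneg h0.le _)]
  exact Real.rpow_le_one h0.le (hc.le_one x hx) hσ.le

/-- `y |log y|^i ≤ i!` for `0 < y ≤ 1` -/
theorem BLog_log (i : ℕ) {y : ℝ} (h0 : 0 < y) (h1 : y ≤ 1) :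
    y * |Real.log y| ^ i ≤ (i.factorial : ℝ) := by
  have h2 : Real.log y ≤ 0 := Real.log_nonpos h0.le h1
  rw [abs_of_nonpos h2]
  have h3 := Real.pow_div_factorial_le_exp (-Real.log y) (by linarith) i
  have h4 : Real.exp (-Real.log y) = y⁻¹ := by
    rw [Real.exp_neg, Real.exp_log h0]
  rw [h4, div_le_iff₀ (by positivity)] at h3
  calc y * (-Real.log y) ^ i ≤ y * (y⁻¹ * i.factorial) := by gcongr
    _ = i.factorial := by field_simp

/-- the functional equation for large `σ` in the form needed for `ident` -/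
theorem BLog_large {n : ℕ} {U : Set (Fin n → ℝ)} {F : MvPolynomial (Fin n) ℚ} (hc : IsCell U F)
    (f : MvPolynomial (Fin n) ℚ) (K N : ℕ) (a : ℕ → MvPolynomial (Fin n) ℚ) (h : RS n) (σ : ℝ)
    (hσ : 0 < σ)
    (hexp : spec σ h = ∑ k ∈ Finset.range N, MvPolynomial.C (σ ^ k) * re (a k)) (B : ℝ)
    (heq : B * ∫ x in U, MvPolynomial.aeval x f * (MvPolynomial.aeval x F) ^ (σ - 1) =
        ∫ x in U, MvPolynomial.eval x (spec σ h) *
          (MvPolynomial.aeval x f * (MvPolynomial.aeval x F) ^ (σ - 1 + (K + 1 : ℕ)))) :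
    B * ∫ x in U, (MvPolynomial.aeval x f / MvPolynomial.aeval x F) *
          (MvPolynomial.aeval x F) ^ σ =
        ∑ k ∈ Finset.range N, σ ^ k * ∫ x in U,
          (MvPolynomial.aeval x (a k * f) * (MvPolynomial.aeval x F) ^ K) *
            (MvPolynomial.aeval x F) ^ σ := by
  have hm := hc.isOpen.measurableSet
  have h1 : ∫ x in U, (MvPolynomial.aeval x f / MvPolynomial.aeval x F : ℝ) *
      (MvPolynomial.aeval x F : ℝ) ^ σ =
      ∫ x in U, (MvPolynomial.aeval x f : ℝ) * (MvPolynomial.aeval x F : ℝ) ^ (σ - 1) := by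
    refine setIntegral_congr_fun hm fun x hx => ?_
    have h0 := hc.pos x hx
    rw [Real.rpow_sub_one h0.ne']
    ring
  rw [h1, heq]
  have h2 : ∀ k ∈ Finset.range N, Integrable (fun x : Fin n → ℝ => σ ^ k *
      ((MvPolynomial.aeval x (a k * f) * (MvPolynomial.aeval x F) ^ K) *
            (MvPolynomial.aeval x F : ℝ) ^ σ)) (volume.restrict U) := by
    intro k _
    have h3 := BLog_bdd hc (a k * f * F ^ K) (fun x => (MvPolynomial.aeval x F : ℝ) ^ σ)
      (BLog_rpow_meas F σ) 1 (fun x hx => BLog_rpow_le hc hσ hx)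
    have h4 := Integrable.const_mul h3 (σ ^ k)
    refine h4.congr (Filter.Eventually.of_forall fun x => ?_)
    simp only [map_mul, map_pow]
  rw [Finset.sum_congr rfl fun k _ => (integral_const_mul _ _).symm,
    ← integral_finsetSum _ h2]
  refine setIntegral_congr_fun hm fun x hx => ?_
  have h0 := hc.pos x hx
  have h5 : (MvPolynomial.aeval x F : ℝ) ^ (σ - 1 + (K + 1 : ℕ)) =
      (MvPolynomial.aeval x F : ℝ) ^ K * (MvPolynomial.aeval x F : ℝ) ^ σ := by
    have e : σ - 1 + (K + 1 : ℕ) = (K : ℝ) + σ := by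
      push_cast
      ring
    rw [e, Real.rpow_add h0, Real.rpow_natCast]
  rw [h5, hexp, map_sum, Finset.sum_mul]
  refine Finset.sum_congr rfl fun k _ => ?_
  rw [map_mul, MvPolynomial.eval_C, eval_re, map_mul]
  ring

theorem BLog_prod (b : Polynomial ℚ) (K : ℕ) (σ : ℝ) :
    (∏ l ∈ Finset.range K, (b.map (algebraMap ℚ ℝ)).comp
      (Polynomial.X + Polynomial.C (l : ℝ))).eval σ =
      ∏ l ∈ Finset.range K, Polynomial.aeval (σ + l) b := by
  rw [Polynomial.eval_prod]
  refine Finset.prod_congr rfl fun l _ => ?_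
  rw [Polynomial.eval_comp, Polynomial.eval_map_algebraMap]
  simp

/-- (B17) The functional equation for all `σ > 0`.

Proof. `fe_iter` for `K + 1` gives `h, σ0`, and `spec_expand` gives `a_k`, `k < N`. Let
`ν = volume.restrict U`, `G = F`. For `σ ≥ max σ0 1`:
`∏ b(σ+l) ∫ (f/F) F^σ - ∑_k σ^k ∫ (a_k f F^K) F^σ = 0` (on `U`: `F^(σ-1) = F^σ/F`,
`F^(σ-1+K+1) = F^K F^σ`). All the functions `f/F` and `a_k f F^K` are integrable on `U`
(hypothesis; bounded). So `ident` (the indices are `Option (Fin N)` or `Fin (N+1)`; the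
polynomials are `∏ b(X+l)` and `- X^k`) gives the identity for all `σ > 0`. -/
theorem fe_all {n : ℕ} {U : Set (Fin n → ℝ)} {F : MvPolynomial (Fin n) ℚ} (hc : IsCell U F)
    (hF : F ≠ 0) (f : MvPolynomial (Fin n) ℚ)
    (hf : IntegrableOn (fun x => MvPolynomial.aeval x f / MvPolynomial.aeval x F) U) :
    ∃ b : Polynomial ℚ, b ≠ 0 ∧ ∀ K N0 : ℕ, ∃ (N : ℕ) (a : ℕ → MvPolynomial (Fin n) ℚ),
      N0 ≤ N ∧ ∀ σ : ℝ, 0 < σ →
      (∏ l ∈ Finset.range (K + 1), Polynomial.aeval (σ + l) b) * ∫ x in U,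
          (MvPolynomial.aeval x f / MvPolynomial.aeval x F) * (MvPolynomial.aeval x F) ^ σ =
        ∑ k ∈ Finset.range N, σ ^ k * ∫ x in U,
          (MvPolynomial.aeval x (a k * f) * (MvPolynomial.aeval x F) ^ K) *
            (MvPolynomial.aeval x F) ^ σ := by
  obtain ⟨b, hb, hit⟩ := fe_iter hc hF f
  refine ⟨b, hb, fun K N0 => ?_⟩
  obtain ⟨h, σ0, hh⟩ := hit (K + 1)
  obtain ⟨N, a, hN, ha⟩ := spec_expand h N0
  refine ⟨N, a, hN, fun σ hσ => ?_⟩
  have hm := hc.isOpen.measurableSet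
  set P0 : Polynomial ℝ := ∏ l ∈ Finset.range (K + 1), (b.map (algebraMap ℚ ℝ)).comp
      (Polynomial.X + Polynomial.C (l : ℝ)) with hP0
  have hlarge : ∀ s : ℝ, σ0 ≤ s → 0 < s →
      P0.eval s * ∫ x in U, (MvPolynomial.aeval x f / MvPolynomial.aeval x F : ℝ) *
          (MvPolynomial.aeval x F : ℝ) ^ s =
        ∑ k ∈ Finset.range N, s ^ k * ∫ x in U,
          (MvPolynomial.aeval x (a k * f) * (MvPolynomial.aeval x F) ^ K) *
            (MvPolynomial.aeval x F : ℝ) ^ s := by
    intro s hs hs0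
    refine BLog_large hc f K N a h s hs0 (ha s) _ ?_
    rw [hP0, BLog_prod]
    exact hh s hs
  have key := ident (volume.restrict U) (fun x : Fin n → ℝ => (MvPolynomial.aeval x F : ℝ))
    (BLog_cont F).measurable (ae_restrict_of_forall_mem hm fun x hx => hc.pos x hx)
    (ae_restrict_of_forall_mem hm fun x hx => hc.le_one x hx) (N + 1)
    (Fin.cons P0 fun k : Fin N => -(Polynomial.X ^ (k : ℕ)))
    (Fin.cons (fun x : Fin n → ℝ => (MvPolynomial.aeval x f / MvPolynomial.aeval x F : ℝ))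
      fun (k : Fin N) (x : Fin n → ℝ) =>
        (MvPolynomial.aeval x (a k * f) * (MvPolynomial.aeval x F) ^ K : ℝ)) ?_ σ0 ?_ σ hσ
  · rw [Fin.sum_univ_succ] at key
    simp only [Fin.cons_zero, Fin.cons_succ, Polynomial.eval_neg, Polynomial.eval_pow,
      Polynomial.eval_X] at key
    rw [← BLog_prod b (K + 1) σ, ← hP0, Finset.sum_range]
    have e1 : ∀ k : Fin N, -σ ^ (k : ℕ) * (∫ x in U,
          (MvPolynomial.aeval x (a k * f) * (MvPolynomial.aeval x F) ^ K) *
            (MvPolynomial.aeval x F : ℝ) ^ σ) = -(σ ^ (k : ℕ) * (∫ x in U,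
          (MvPolynomial.aeval x (a k * f) * (MvPolynomial.aeval x F) ^ K) *
            (MvPolynomial.aeval x F : ℝ) ^ σ)) := fun k => neg_mul _ _
    rw [Finset.sum_congr rfl fun k _ => e1 k, Finset.sum_neg_distrib] at key
    linarith
  · intro k
    refine Fin.cases ?_ (fun k => ?_) k
    · exact hf
    · have h1 := BLog_int hc (a k * f * F ^ K)
      refine Integrable.congr h1 (Filter.Eventually.of_forall fun x => ?_)
      simp only [Fin.cons_succ, map_mul, map_pow]
  · intro s hs hs0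
    rw [Fin.sum_univ_succ]
    simp only [Fin.cons_zero, Fin.cons_succ, Polynomial.eval_neg, Polynomial.eval_pow,
      Polynomial.eval_X]
    rw [hlarge s hs hs0, Finset.sum_range]
    have e1 : ∀ k : Fin N, -s ^ (k : ℕ) * (∫ x in U,
          (MvPolynomial.aeval x (a k * f) * (MvPolynomial.aeval x F) ^ K) *
            (MvPolynomial.aeval x F : ℝ) ^ s) = -(s ^ (k : ℕ) * (∫ x in U,
          (MvPolynomial.aeval x (a k * f) * (MvPolynomial.aeval x F) ^ K) *
            (MvPolynomial.aeval x F : ℝ) ^ s)) := fun k => neg_mul _ _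
    rw [Finset.sum_congr rfl fun k _ => e1 k, Finset.sum_neg_distrib, add_neg_cancel]

/-- (B18) A cell integral is a combination of integrals `∫ h F^K (log F)^i`, `i ≤ μ`, with `μ`
independent of `K`.

Proof. If `U = ∅` everything is `0`. Otherwise `F ≠ 0`. Take `b` from `fe_all`,
`μ = natDegree b`. Given `K ≥ 2`: `ord_bound` for `K + 1` gives `μ' ≤ μ` and `b1`; `fe_all` with
`N0 = μ' + 1` gives `N`, `a`. `taylor_limit` with `ν = volume.restrict U`, `G = F`,
`φ = f/F`, `ψ_k = a_k f F^K` (the integrability conditions: `U` has finite measure and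
`F^(K-1) |log F|^i` is bounded on `U` as `K ≥ 2`, `0 < F ≤ 1`), gives
`b1(0) ∫ f/F = ∑_{k ≤ μ'} (1/(μ'-k)!) ∫ a_k f F^K (log F)^(μ'-k)`. So
`h i = (b1(0) i!)⁻¹ a_(μ'-i) f` for `i ≤ μ'` and `h i = 0` for `i > μ'`. -/
theorem cell_log {n : ℕ} {U : Set (Fin n → ℝ)} {F : MvPolynomial (Fin n) ℚ} (hc : IsCell U F)
    (f : MvPolynomial (Fin n) ℚ)
    (hf : IntegrableOn (fun x => MvPolynomial.aeval x f / MvPolynomial.aeval x F) U) :
    ∃ μ : ℕ, ∀ K : ℕ, 2 ≤ K → ∃ h : ℕ → MvPolynomial (Fin n) ℚ,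
      ∫ x in U, MvPolynomial.aeval x f / MvPolynomial.aeval x F =
        ∑ i ∈ Finset.range (μ + 1), ∫ x in U, MvPolynomial.aeval x (h i) *
          (MvPolynomial.aeval x F) ^ K * (Real.log (MvPolynomial.aeval x F)) ^ i := by
  rcases U.eq_empty_or_nonempty with hU | ⟨x0, hx0⟩
  · refine ⟨0, fun K _ => ⟨fun _ => 0, ?_⟩⟩
    rw [hU]
    simp
  have hF : F ≠ 0 := by
    rintro rfl
    have h1 := hc.pos x0 hx0
    simp at h1
  have hm := hc.isOpen.measurableSet
  obtain ⟨b, hb, hfe⟩ := fe_all hc hF f hf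
  refine ⟨b.natDegree, fun K hK => ?_⟩
  obtain ⟨μ', b1, hμ', hb1, hord⟩ := ord_bound b hb (K + 1)
  obtain ⟨N, a, hN, ha⟩ := hfe K (μ' + 1)
  have hcont := (BLog_cont F).measurable
  have hlogm : Measurable fun x : Fin n → ℝ => Real.log (MvPolynomial.aeval x F : ℝ) :=
    Real.measurable_log.comp hcont
  obtain ⟨K', rfl⟩ : ∃ K', K = K' + 1 := ⟨K - 1, by omega⟩
  have hK' : 1 ≤ K' := by omega
  -- the bound `F ^ (K'' + 1) |log F| ^ i ≤ i!`
  have hbd : ∀ (j i : ℕ), 1 ≤ j → ∀ x ∈ U,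
      (MvPolynomial.aeval x F : ℝ) ^ j * |Real.log (MvPolynomial.aeval x F : ℝ)| ^ i ≤
        (i.factorial : ℝ) := by
    intro j i hj x hx
    have h0 := hc.pos x hx
    have h1 := hc.le_one x hx
    refine le_trans ?_ (BLog_log i h0 h1)
    apply mul_le_mul_of_nonneg_right _ (by positivity)
    exact pow_le_of_le_one h0.le h1 (by omega)
  have key := taylor_limit (volume.restrict U) (fun x : Fin n → ℝ => (MvPolynomial.aeval x F : ℝ))
    (fun x : Fin n → ℝ => (MvPolynomial.aeval x f / MvPolynomial.aeval x F : ℝ))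
    (fun k x => (MvPolynomial.aeval x (a k * f) * (MvPolynomial.aeval x F) ^ (K' + 1) : ℝ))
    hcont (ae_restrict_of_forall_mem hm fun x hx => hc.pos x hx)
    (ae_restrict_of_forall_mem hm fun x hx => hc.le_one x hx) hf μ' N (by omega) ?_ ?_
    (b1.map (algebraMap ℚ ℝ)) ?_
  · set β : ℚ := b1.eval 0 with hβ
    have hβR : ((b1.map (algebraMap ℚ ℝ)).eval 0 : ℝ) = (β : ℝ) := by
      rw [← Polynomial.coeff_zero_eq_eval_zero, Polynomial.coeff_map, hβ,
        ← Polynomial.coeff_zero_eq_eval_zero]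
      rfl
    rw [hβR] at key
    have hβ0 : (β : ℝ) ≠ 0 := by exact_mod_cast hb1
    set h : ℕ → MvPolynomial (Fin n) ℚ := fun i => if i ≤ μ' then
      MvPolynomial.C ((β * i.factorial)⁻¹) * (a (μ' - i) * f) else 0 with hh
    refine ⟨h, ?_⟩
    have hsub : Finset.range (μ' + 1) ⊆ Finset.range (b.natDegree + 1) := by
      intro i hi
      rw [Finset.mem_range] at hi ⊢
      omega
    have hzero : ∀ i ∈ Finset.range (b.natDegree + 1), i ∉ Finset.range (μ' + 1) →
        ∫ x in U, MvPolynomial.aeval x (h i) * (MvPolynomial.aeval x F) ^ (K' + 1) *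
          (Real.log (MvPolynomial.aeval x F : ℝ)) ^ i = 0 := by
      intro i _ hi
      rw [Finset.mem_range, not_lt] at hi
      have h1 : h i = 0 := by
        rw [hh]
        simp only
        rw [if_neg (by omega)]
      rw [h1]
      simp
    rw [← Finset.sum_subset hsub hzero]
    have hterm : ∀ i ∈ Finset.range (μ' + 1),
        ∫ x in U, MvPolynomial.aeval x (h i) * (MvPolynomial.aeval x F) ^ (K' + 1) *
          (Real.log (MvPolynomial.aeval x F : ℝ)) ^ i =
        (β : ℝ)⁻¹ * ((∫ x in U, (MvPolynomial.aeval x (a (μ' - i) * f) *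
          (MvPolynomial.aeval x F) ^ (K' + 1)) *
          (Real.log (MvPolynomial.aeval x F : ℝ)) ^ i) / (i.factorial : ℝ)) := by
      intro i hi
      rw [Finset.mem_range] at hi
      have h1 : h i = MvPolynomial.C ((β * i.factorial)⁻¹) * (a (μ' - i) * f) := by
        rw [hh]
        simp only
        rw [if_pos (by omega)]
      have e3 : ∀ x ∈ U, MvPolynomial.aeval x (h i) * (MvPolynomial.aeval x F) ^ (K' + 1) *
          (Real.log (MvPolynomial.aeval x F : ℝ)) ^ i =
          ((β : ℝ)⁻¹ * (i.factorial : ℝ)⁻¹) * ((MvPolynomial.aeval x (a (μ' - i) * f) *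
          (MvPolynomial.aeval x F) ^ (K' + 1)) *
          (Real.log (MvPolynomial.aeval x F : ℝ)) ^ i) := by
        intro x _
        rw [h1, map_mul (MvPolynomial.aeval x) (MvPolynomial.C _), MvPolynomial.aeval_C, eq_ratCast]
        push_cast
        rw [mul_inv]
        ring
      rw [setIntegral_congr_fun hm e3, integral_const_mul, div_eq_inv_mul]
      ring
    rw [Finset.sum_congr rfl hterm, ← Finset.mul_sum]
    have hrefl := Finset.sum_range_reflect (fun k => (∫ x in U,
      (MvPolynomial.aeval x (a k * f) * (MvPolynomial.aeval x F) ^ (K' + 1)) *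
          (Real.log (MvPolynomial.aeval x F : ℝ)) ^ (μ' - k)) / ((μ' - k).factorial : ℝ)) (μ' + 1)
    rw [← hrefl] at key
    have hcong : ∑ i ∈ Finset.range (μ' + 1), (∫ x in U, (MvPolynomial.aeval x (a (μ' - i) * f) *
          (MvPolynomial.aeval x F) ^ (K' + 1)) *
          (Real.log (MvPolynomial.aeval x F : ℝ)) ^ i) / (i.factorial : ℝ) =
        (β : ℝ) * ∫ x in U, (MvPolynomial.aeval x f / MvPolynomial.aeval x F : ℝ) := by
      rw [key]
      refine Finset.sum_congr rfl fun i hi => ?_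
      rw [Finset.mem_range] at hi
      have e1 : μ' + 1 - 1 - i = μ' - i := by omega
      have e2 : μ' - (μ' - i) = i := by omega
      rw [e1, e2]
    rw [hcong, ← mul_assoc, inv_mul_cancel₀ hβ0, one_mul]
  · intro k i
    have h1 := BLog_bdd hc (a k * f) (fun x => (MvPolynomial.aeval x F : ℝ) ^ (K' + 1) *
      (Real.log (MvPolynomial.aeval x F : ℝ)) ^ i) ((hcont.pow_const _).mul (hlogm.pow_const i))
      (i.factorial : ℝ) ?_
    · refine Integrable.congr h1 (Filter.Eventually.of_forall fun x => ?_)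
      simp only
      ring
    · intro x hx
      have h0 := hc.pos x hx
      rw [abs_mul, abs_pow (Real.log _), abs_of_pos (pow_pos h0 _)]
      exact hbd (K' + 1) i (by omega) x hx
  · intro k i
    have h1 := BLog_bdd hc (a k * f) (fun x => (MvPolynomial.aeval x F : ℝ) ^ (K' + 1) *
      |Real.log (MvPolynomial.aeval x F : ℝ)| ^ i * (MvPolynomial.aeval x F : ℝ)⁻¹)
      (((hcont.pow_const _).mul (hlogm.abs.pow_const i)).mul hcont.inv) (i.factorial : ℝ) ?_
    · refine Integrable.congr h1 (Filter.Eventually.of_forall fun x => ?_)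
      simp only
      ring
    · intro x hx
      have h0 := hc.pos x hx
      have e : (MvPolynomial.aeval x F : ℝ) ^ (K' + 1) *
          |Real.log (MvPolynomial.aeval x F : ℝ)| ^ i * (MvPolynomial.aeval x F : ℝ)⁻¹ =
          (MvPolynomial.aeval x F : ℝ) ^ K' * |Real.log (MvPolynomial.aeval x F : ℝ)| ^ i := by
        rw [pow_succ]
        field_simp
      rw [e, abs_of_nonneg (by positivity)]
      exact hbd K' i hK' x hx
  · intro σ hσ
    rw [Polynomial.eval_map_algebraMap, ← hord σ]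
    exact ha σ hσ

end Pool.Agent.CVol
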