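import Pool.Agent.W_2cf66e_h65.Defs

/-!
# MP_2cf66e_nt, part C: integrals over cubes (helper65)
-/

set_option autoImplicit false

noncomputable section

open MeasureTheory

namespace Pool.Agent.CVol

/-- (C3) Fubini on the cube for a sum of index types. The measurable equivalence
`MeasurableEquiv.sumPiEquivProdPi` is measure preserving
(`MeasureTheory.measurePreserving_sumPiEquivProdPi`), maps the cube to the product of the cubes;
the function is integrable on the compact cube because it is continuous
(`ContinuousOn.integrableOn_compact`); `MeasureTheory.integral_prod` /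
`setIntegral_prod`. -/
theorem int_box_sum {ι κ : Type} [Fintype ι] [Fintype κ] (G : (ι ⊕ κ → ℝ) → ℝ)
    (hG : Continuous G) :
    ∫ z in box (ι ⊕ κ), G z = ∫ x in box ι, ∫ u in box κ, G (Sum.elim x u) := by
  have hm := volume_measurePreserving_sumPiEquivProdPi_symm (fun _ : ι ⊕ κ => ℝ)
  have hval : ∀ p : (ι → ℝ) × (κ → ℝ),
      (MeasurableEquiv.sumPiEquivProdPi (fun _ : ι ⊕ κ => ℝ)).symm p = Sum.elim p.1 p.2 := by
    intro p
    funext i
    cases i <;> rfl
  have hpre : (MeasurableEquiv.sumPiEquivProdPi (fun _ : ι ⊕ κ => ℝ)).symm ⁻¹' box (ι ⊕ κ) =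
      box ι ×ˢ box κ := by
    ext p
    rw [Set.mem_preimage, hval, Set.mem_prod, box_eq, box_eq, box_eq]
    simp only [Set.mem_ofPred_eq, Sum.forall, Sum.elim_inl, Sum.elim_inr]
  have h := hm.setIntegral_preimage_emb
    (MeasurableEquiv.sumPiEquivProdPi (fun _ : ι ⊕ κ => ℝ)).symm.measurableEmbedding G (box (ι ⊕ κ))
  rw [← h, hpre, Measure.volume_eq_prod, setIntegral_prod]
  · simp only [hval]
  · simp only [hval]
    refine ContinuousOn.integrableOn_compact ?_ ?_
    · exact isCompact_Icc.prod isCompact_Icc
    · refine Continuous.continuousOn (hG.comp ?_)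
      refine continuous_pi fun i => ?_
      cases i with
      | inl i => exact (continuous_apply i).comp continuous_fst
      | inr i => exact (continuous_apply i).comp continuous_snd

/-- (C4) Reindexing. -/
theorem int_box_equiv {ι κ : Type} [Fintype ι] [Fintype κ] (e : ι ≃ κ) (G : (ι → ℝ) → ℝ) :
    ∫ z in box κ, G (fun i => z (e i)) = ∫ x in box ι, G x := by
  have hm := volume_measurePreserving_piCongrLeft (fun _ : ι => ℝ) e.symm
  have hval : ∀ z : κ → ℝ,
      (MeasurableEquiv.piCongrLeft (fun _ : ι => ℝ) e.symm) z = fun i => z (e i) := by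
    intro z
    funext i
    have h1 := Equiv.piCongrLeft_apply_apply (fun _ : ι => ℝ) e.symm z (e i)
    simp only [Equiv.symm_apply_apply] at h1
    exact h1
  have hpre : (MeasurableEquiv.piCongrLeft (fun _ : ι => ℝ) e.symm) ⁻¹' box ι = box κ := by
    ext z
    rw [Set.mem_preimage, hval, box_eq, box_eq]
    simp only [Set.mem_ofPred_eq]
    constructor
    · intro h j
      have := h (e.symm j)
      simpa using this
    · intro h i
      exact h (e i)
  have h := hm.setIntegral_preimage_emb
    (MeasurableEquiv.piCongrLeft (fun _ : ι => ℝ) e.symm).measurableEmbedding G (box ι)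
  rw [← h, hpre]
  simp only [hval]

/-- (C5) Volume of the cube. -/
theorem volume_box (ι : Type) [Fintype ι] :
    volume (box ι) = ENNReal.ofReal (2 ^ (Fintype.card ι)) := by
  rw [box, Real.volume_Icc_pi]
  have e : ∀ i : ι, ENNReal.ofReal ((fun _ : ι => (1 : ℝ)) i - (fun _ : ι => (-1 : ℝ)) i) =
      ENNReal.ofReal 2 := by
    intro i
    congr 1
    norm_num
  rw [Finset.prod_congr rfl fun i _ => e i, Finset.prod_const, Finset.card_univ,
    ENNReal.ofReal_pow (by norm_num)]

end Pool.Agent.CVol
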