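import Pool.Agent.W_2cf66e_h65.Defs

/-!
# MP_2cf66e_nt, part C: the logarithm as an integral of a rational function (helper65)
-/

set_option autoImplicit false

noncomputable section

open MeasureTheory

namespace Pool.Agent.CVol

/-- The kernel. -/
def kap (u y : ℝ) : ℝ := 2 * (1 + u) * (y - 1) / (4 * y + (1 + u) ^ 2 * (1 - y))

theorem CKer_den {y : ℝ} (h0 : 0 < y) (h1 : y ≤ 1) (u : ℝ) :
    0 < 4 * y + (1 + u) ^ 2 * (1 - y) := by
  have := mul_nonneg (sq_nonneg (1 + u)) (sub_nonneg.mpr h1)
  linarith

theorem CKer_cont {y : ℝ} (h0 : 0 < y) (h1 : y ≤ 1) : Continuous fun u => kap u y := by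
  unfold kap
  refine Continuous.div ?_ ?_ fun u => (CKer_den h0 h1 u).ne'
  · fun_prop
  · fun_prop

/-- (C1) `∫_{-1}^1 κ(u, y) du = log y` for `0 < y ≤ 1`.

Proof. The denominator is `≥ 4y > 0` for all real `u`; a primitive of `κ` in `u` is
`- log (4y + (1+u)^2 (1-y))`, with value `- log 4` at `u = 1` and `- log (4y)` at `u = -1`
(`intervalIntegral.integral_eq_sub_of_hasDerivAt`; the integrand is continuous). -/
theorem int_kap (y : ℝ) (h0 : 0 < y) (h1 : y ≤ 1) :
    ∫ u in (-1 : ℝ)..1, kap u y = Real.log y := by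
  have hd : ∀ u ∈ Set.uIcc (-1 : ℝ) 1,
      HasDerivAt (fun u : ℝ => -Real.log (4 * y + (1 + u) ^ 2 * (1 - y))) (kap u y) u := by
    intro u _
    have h2 : HasDerivAt (fun u : ℝ => 4 * y + (1 + u) ^ 2 * (1 - y))
        (2 * (1 + u) * (1 - y)) u := by
      have h3 : HasDerivAt (fun u : ℝ => 1 + u) 1 u := by
        simpa using (hasDerivAt_id u).const_add (1 : ℝ)
      have h4 := ((h3.pow 2).mul_const (1 - y)).const_add (4 * y)
      refine h4.congr_deriv ?_
      push_cast
      ring
    have h5 := (h2.log (CKer_den h0 h1 u).ne').neg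
    refine h5.congr_deriv ?_
    unfold kap
    ring
  rw [intervalIntegral.integral_eq_sub_of_hasDerivAt hd
    ((CKer_cont h0 h1).intervalIntegrable _ _)]
  have e1 : 4 * y + (1 + (1 : ℝ)) ^ 2 * (1 - y) = 4 := by ring
  have e2 : 4 * y + (1 + (-1 : ℝ)) ^ 2 * (1 - y) = 4 * y := by ring
  rw [e1, e2, Real.log_mul (by norm_num) h0.ne']
  ring

/-- (C2) Product form: for `i ≤ μ`, integrating over the cube of dimension `μ` the product of `i`
kernels and `μ - i` factors `1/2` gives `(log y)^i`.

Proof. `box (Fin μ) = Set.pi univ (fun _ => Icc (-1) 1)` up to `Set.pi_univ_Icc`; the restriction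
of `volume` to this product set is the product of the restrictions
(`MeasureTheory.Measure.restrict_pi_pi` or `Measure.pi` of restricted measures), and
`MeasureTheory.integral_fintype_prod_eq_prod`; the factors are `log y` (`int_kap`,
`intervalIntegral.integral_of_le`, `integral_Icc_eq_integral_Ioc`) and `1`. -/
theorem int_kap_prod (μ i : ℕ) (hi : i ≤ μ) (y : ℝ) (h0 : 0 < y) (h1 : y ≤ 1) :
    ∫ u in box (Fin μ), ∏ a : Fin μ, (if (a : ℕ) < i then kap (u a) y else 1 / 2) =
      (Real.log y) ^ i := by
  have hb : ∀ u : Fin μ → ℝ, u ∈ box (Fin μ) ↔ ∀ a, u a ∈ Set.Icc (-1 : ℝ) 1 := by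
    intro u
    rw [box_eq]
    exact Iff.rfl
  have hmeas : MeasurableSet (box (Fin μ)) := by
    unfold box
    exact measurableSet_Icc
  have h2 : (box (Fin μ)).indicator
      (fun u => ∏ a : Fin μ, (if (a : ℕ) < i then kap (u a) y else 1 / 2)) =
      fun u => ∏ a : Fin μ, (Set.Icc (-1 : ℝ) 1).indicator
        (fun v => if (a : ℕ) < i then kap v y else 1 / 2) (u a) := by
    funext u
    by_cases hu : u ∈ box (Fin μ)
    · rw [Set.indicator_of_mem hu]
      refine Finset.prod_congr rfl fun a _ => ?_
      rw [Set.indicator_of_mem ((hb u).mp hu a)]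
    · rw [Set.indicator_of_notMem hu]
      rw [hb] at hu
      push Not at hu
      obtain ⟨a, ha⟩ := hu
      symm
      refine Finset.prod_eq_zero (Finset.mem_univ a) ?_
      rw [Set.indicator_of_notMem ha]
  rw [← integral_indicator hmeas, h2, MeasureTheory.integral_fintype_prod_volume_eq_prod]
  have h3 : ∀ a : Fin μ, ∫ v : ℝ, (Set.Icc (-1 : ℝ) 1).indicator
      (fun v => if (a : ℕ) < i then kap v y else 1 / 2) v =
      if (a : ℕ) < i then Real.log y else 1 := by
    intro a
    rw [integral_indicator measurableSet_Icc, integral_Icc_eq_integral_Ioc,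
      ← intervalIntegral.integral_of_le (by norm_num)]
    split_ifs with h4
    · exact int_kap y h0 h1
    · rw [intervalIntegral.integral_const]
      norm_num
  rw [Finset.prod_congr rfl fun a _ => h3 a,
    Fin.prod_univ_eq_prod_range (fun a => if a < i then Real.log y else 1) μ,
    ← Finset.prod_filter]
  have h5 : (Finset.range μ).filter (fun a => a < i) = Finset.range i := by
    ext a
    rw [Finset.mem_filter, Finset.mem_range, Finset.mem_range]
    omega
  rw [h5, Finset.prod_const, Finset.card_range]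

end Pool.Agent.CVol
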