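import Pool.Agent.W_2cf66e_h65.DCellA
import Pool.Agent.W_2cf66e_h65.CKer
import Pool.Agent.W_2cf66e_h65.CBox
import Pool.Agent.W_2cf66e_h65.BLog

/-!
# MP_2cf66e_nt, part D: a cell integral is a `Smooth k` number (helper65)
-/

set_option autoImplicit false

noncomputable section

open MeasureTheory MvPolynomial

namespace Pool.Agent.CVol

theorem DCell_Fx {n : ℕ} (μ : ℕ) (F : MvPolynomial (Fin n) ℚ) (x : Fin n → ℝ) (u : Fin μ → ℝ) :
    eval (Sum.elim x u) (re (Fx μ F)) = aeval x F := by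
  rw [eval_re]
  unfold Fx
  rw [aeval_rename, Sum.elim_comp_inl]

theorem DCell_Dx {n : ℕ} (μ : ℕ) (F : MvPolynomial (Fin n) ℚ) (a : Fin μ) (x : Fin n → ℝ)
    (u : Fin μ → ℝ) : eval (Sum.elim x u) (re (Dx μ F a)) =
      4 * aeval x F + (1 + u a) ^ 2 * (1 - aeval x F) := by
  have h1 := DCell_Fx μ F x u
  rw [eval_re] at h1 ⊢
  unfold Dx
  simp only [map_add, map_mul, map_pow, map_sub, map_one, aeval_X, h1, Sum.elim_inr]
  norm_num

theorem DCell_Px {n : ℕ} (μ : ℕ) (F h : MvPolynomial (Fin n) ℚ) (i : ℕ) (x : Fin n → ℝ)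
    (u : Fin μ → ℝ) : eval (Sum.elim x u) (re (Px μ F h i)) =
      aeval x h * ∏ a : Fin μ, (if (a : ℕ) < i then 2 * (1 + u a) * (aeval x F - 1)
        else 1 / 2) := by
  have h1 := DCell_Fx μ F x u
  rw [eval_re] at h1 ⊢
  unfold Px
  rw [map_mul, aeval_rename, Sum.elim_comp_inl, map_prod]
  congr 1
  refine Finset.prod_congr rfl fun a _ => ?_
  split_ifs with h2
  · simp only [map_add, map_mul, map_sub, map_one, aeval_X, h1, Sum.elim_inr]
    norm_num
  · rw [aeval_C]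
    norm_num

theorem DCell_gx {n : ℕ} (μ : ℕ) {U : Set (Fin n → ℝ)} (F h : MvPolynomial (Fin n) ℚ) (K i : ℕ)
    (x : Fin n → ℝ) (hx : x ∈ U) (u : Fin μ → ℝ) : gx μ U F h K i (Sum.elim x u) =
      (aeval x h * (aeval x F) ^ K) *
        ∏ a : Fin μ, (if (a : ℕ) < i then kap (u a) (aeval x F) else 1 / 2) := by
  have hz : (Sum.elim x u : Fin n ⊕ Fin μ → ℝ) ∈ Ux μ U := hx
  unfold gx flat
  rw [Set.indicator_of_mem hz]
  simp only [DCell_Fx, DCell_Dx, DCell_Px]
  have h1 : ∏ a : Fin μ, (if (a : ℕ) < i then kap (u a) (aeval x F) else 1 / 2) =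
      (∏ a : Fin μ, (if (a : ℕ) < i then 2 * (1 + u a) * (aeval x F - 1) else 1 / 2)) /
        ∏ a : Fin μ, (4 * aeval x F + (1 + u a) ^ 2 * (1 - aeval x F)) ^ cx μ i a := by
    rw [← Finset.prod_div_distrib]
    refine Finset.prod_congr rfl fun a _ => ?_
    unfold cx kap
    split_ifs with h2
    · rw [pow_one]
    · rw [pow_zero, div_one]
  rw [h1]
  ring

theorem DCell_gx0 {n : ℕ} (μ : ℕ) {U : Set (Fin n → ℝ)} (F h : MvPolynomial (Fin n) ℚ) (K i : ℕ)
    (x : Fin n → ℝ) (hx : x ∉ U) (u : Fin μ → ℝ) : gx μ U F h K i (Sum.elim x u) = 0 := by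
  have hz : (Sum.elim x u : Fin n ⊕ Fin μ → ℝ) ∉ Ux μ U := hx
  unfold gx flat
  rw [Set.indicator_of_notMem hz]

theorem DCell_cont {n : ℕ} (μ : ℕ) {U : Set (Fin n → ℝ)} {F : MvPolynomial (Fin n) ℚ}
    (hc : IsCell U F) (h : MvPolynomial (Fin n) ℚ) (K i : ℕ) (hK : μ + 1 ≤ K) :
    Continuous (gx μ U F h K i) := (gx_contDiff μ hc h K i 0 (by omega)).continuous

/-- (D8) The integral of a piece. (`int_box_sum`; for fixed `x ∈ U` the inner function is
`h F^K ∏_a (if a < i then kap (u_a) F else 1/2)`, so `int_kap_prod`; it is `0` for `x ∉ U`;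
`U ⊆ box`.) -/
theorem int_gx {n : ℕ} (μ : ℕ) {U : Set (Fin n → ℝ)} {F : MvPolynomial (Fin n) ℚ}
    (hc : IsCell U F) (h : MvPolynomial (Fin n) ℚ) (K i : ℕ) (hi : i ≤ μ) (hK : μ + 1 ≤ K) :
    ∫ z in box (Fin n ⊕ Fin μ), gx μ U F h K i z =
      ∫ x in U, aeval x h * (aeval x F) ^ K * (Real.log (aeval x F)) ^ i := by
  rw [int_box_sum _ (DCell_cont μ hc h K i hK)]
  have h1 : ∀ x : Fin n → ℝ, ∫ u in box (Fin μ), gx μ U F h K i (Sum.elim x u) =
      U.indicator (fun x : Fin n → ℝ =>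
        aeval x h * (aeval x F) ^ K * (Real.log (aeval x F)) ^ i) x := by
    intro x
    by_cases hx : x ∈ U
    · rw [Set.indicator_of_mem hx]
      simp only [DCell_gx μ F h K i x hx]
      rw [integral_const_mul, int_kap_prod μ i hi _ (hc.pos x hx) (hc.le_one x hx)]
    · rw [Set.indicator_of_notMem hx]
      simp only [DCell_gx0 μ F h K i x hx]
      simp
  simp only [h1]
  rw [setIntegral_indicator hc.isOpen.measurableSet, Set.inter_eq_self_of_subset_right hc.sub]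

/-- (D9) A cell integral is a `Smooth k` number. Proof: `cell_log` gives `μ`; take
`K = μ + k + 2`, `ι = Fin n ⊕ Fin μ`, `g = ∑_{i ≤ μ} gx μ U F (h i) K i`. -/
theorem cell_smooth {n : ℕ} {U : Set (Fin n → ℝ)} {F : MvPolynomial (Fin n) ℚ}
    (hc : IsCell U F) (f : MvPolynomial (Fin n) ℚ)
    (hf : IntegrableOn (fun x => aeval x f / aeval x F) U) (k : ℕ) :
    Smooth k (∫ x in U, aeval x f / aeval x F) := by
  obtain ⟨μ, hμ⟩ := cell_log hc f hf
  obtain ⟨h, hh⟩ := hμ (μ + k + 2) (by omega)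
  refine ⟨Fin n ⊕ Fin μ, inferInstance,
    fun z => ∑ i ∈ Finset.range (μ + 1), gx μ U F (h i) (μ + k + 2) i z, ?_, ?_, ?_⟩
  · exact IsPR.sum _ _ fun i _ => gx_isPR μ hc (h i) (μ + k + 2) i
  · exact ContDiff.sum fun i _ => gx_contDiff μ hc (h i) (μ + k + 2) i k (by omega)
  · have hcomp : IsCompact (box (Fin n ⊕ Fin μ)) := isCompact_Icc
    rw [integral_finsetSum _ fun i _ =>
      (DCell_cont μ hc (h i) (μ + k + 2) i (by omega)).continuousOn.integrableOn_compact hcomp, hh]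
    refine Finset.sum_congr rfl fun i hi => ?_
    rw [Finset.mem_range] at hi
    exact int_gx μ hc (h i) (μ + k + 2) i (by omega) (by omega)

end Pool.Agent.CVol
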