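import Pool.Agent.W_2cf66e_h65.HSub
import Pool.Agent.W_2cf66e_h65.ESA

/-!
# MP_2cf66e_nt, part H: cells from polynomials (helper65)
-/

set_option autoImplicit false

noncomputable section

open MeasureTheory MvPolynomial

namespace Pool.Agent.CVol

theorem HCell_cont {ι : Type} (p : MvPolynomial ι ℚ) :
    Continuous fun x : ι → ℝ => aeval x p := by
  have h := MvPolynomial.continuous_eval (re p)
  simpa only [eval_re] using h

/-- (H8) A polynomial is bounded by a positive rational number on the cube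
(compactness, continuity). -/
theorem exists_bound {ι : Type} [Fintype ι] (p : MvPolynomial ι ℚ) :
    ∃ M : ℚ, 0 < M ∧ ∀ y ∈ box ι, |aeval y p| ≤ M := by
  have hc : IsCompact (box ι) := isCompact_Icc
  obtain ⟨C, hC⟩ := hc.exists_bound_of_continuousOn (HCell_cont p).continuousOn
  obtain ⟨M, hM⟩ := exists_rat_gt (max C 0)
  refine ⟨M, ?_, ?_⟩
  · have h1 : (0 : ℝ) < M := lt_of_le_of_lt (le_max_right _ _) hM
    exact_mod_cast h1
  · intro y hy
    have h1 := hC y hy
    rw [Real.norm_eq_abs] at h1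
    exact h1.trans ((le_max_left _ _).trans hM.le)

theorem HCell_den {n : ℕ} (y : Fin n → ℝ) : aeval y (den n) = ∏ i, (1 - (y i) ^ 2) := by
  simp [den]

/-- (H9) The cell attached to finitely many polynomials and a denominator.

Proof. `H = q^2 ∏ p_k den`, `M` from `exists_bound H`, `F = C (1/M) * H`,
`f = C (1/M) * (r q ∏ p_k den)`. On `U` all factors are positive, so `0 < F ≤ 1`, and
`f / F = r / q`. `U` is open (finitely many strict inequalities and `q ≠ 0`), contained in the
open cube, semialgebraic (`IsSA.obox`, `IsSA.inter`, `IsSA.iInter`, `IsSA.ne_zero`). A point `y`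
of the frontier is in the closure, so all `p_k(y) ≥ 0`, `|y_i| ≤ 1`, and not in `U`, so one of the
factors `p_k(y)`, `q(y)`, `1 - y_i^2` vanishes (otherwise all are positive and `y ∈ U`); hence
`F(y) = 0`. -/
theorem exists_cell {n m : ℕ} (p : Fin m → MvPolynomial (Fin n) ℚ)
    (r q : MvPolynomial (Fin n) ℚ) :
    ∃ F f : MvPolynomial (Fin n) ℚ,
      IsCell {y : Fin n → ℝ | y ∈ ocube n ∧ (∀ k, 0 < aeval y (p k)) ∧ aeval y q ≠ 0} F ∧
      ∀ y ∈ {y : Fin n → ℝ | y ∈ ocube n ∧ (∀ k, 0 < aeval y (p k)) ∧ aeval y q ≠ 0},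
        aeval y r / aeval y q = aeval y f / aeval y F := by
  obtain ⟨H, hH⟩ : ∃ H : MvPolynomial (Fin n) ℚ, H = q ^ 2 * (∏ k, p k) * den n := ⟨_, rfl⟩
  obtain ⟨M, hM, hMb⟩ := exists_bound H
  have hMr : (0 : ℝ) < M := by exact_mod_cast hM
  have hHe : ∀ y : Fin n → ℝ, aeval y H =
      (aeval y q) ^ 2 * (∏ k, aeval y (p k)) * aeval y (den n) := by
    intro y
    rw [hH]
    simp only [map_mul, map_pow, map_prod]
  have hFe : ∀ y : Fin n → ℝ, aeval y (C (1 / M) * H) = 1 / (M : ℝ) * aeval y H := by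
    intro y
    rw [map_mul, aeval_C]
    congr 1
    simp
  have hsub : ∀ y ∈ ocube n, y ∈ box (Fin n) := by
    intro y hy
    rw [box_eq]
    intro i
    have h1 := abs_lt.1 (hy i)
    exact ⟨h1.1.le, h1.2.le⟩
  have hpos : ∀ y ∈ {y : Fin n → ℝ | y ∈ ocube n ∧ (∀ k, 0 < aeval y (p k)) ∧ aeval y q ≠ 0},
      0 < aeval y H := by
    intro y hy
    rw [hHe]
    have h1 : 0 < (aeval y q) ^ 2 := by
      have := hy.2.2
      positivity
    have h2 : 0 < ∏ k, aeval y (p k) := Finset.prod_pos fun k _ => hy.2.1 k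
    have h3 := den_pos hy.1
    positivity
  have hU : {y : Fin n → ℝ | y ∈ ocube n ∧ (∀ k, 0 < aeval y (p k)) ∧ aeval y q ≠ 0} =
      {y : Fin n → ℝ | ∀ i, |y i| < 1} ∩ ((⋂ k, {y : Fin n → ℝ | 0 < aeval y (p k)}) ∩
        {y : Fin n → ℝ | aeval y q ≠ 0}) := by
    ext y
    simp only [Set.mem_ofPred_eq, Set.mem_inter_iff, Set.mem_iInter, ocube]
  have hopen : IsOpen {y : Fin n → ℝ | y ∈ ocube n ∧ (∀ k, 0 < aeval y (p k)) ∧
      aeval y q ≠ 0} := by
    rw [hU]
    refine IsOpen.inter ?_ (IsOpen.inter ?_ ?_)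
    · have h1 : {y : Fin n → ℝ | ∀ i, |y i| < 1} = ⋂ i, {y : Fin n → ℝ | |y i| < 1} := by
        ext y
        simp only [Set.mem_ofPred_eq, Set.mem_iInter]
      rw [h1]
      exact isOpen_iInter_of_finite fun i =>
        isOpen_lt ((continuous_apply i).abs) continuous_const
    · exact isOpen_iInter_of_finite fun k => isOpen_lt continuous_const (HCell_cont (p k))
    · exact isOpen_ne_fun (HCell_cont q) continuous_const
  refine ⟨C (1 / M) * H, C (1 / M) * (r * q * (∏ k, p k) * den n), ⟨hopen, ?_, ?_, ?_, ?_, ?_⟩, ?_⟩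
  · intro y hy
    exact hsub y hy.1
  · rw [hU]
    exact IsSA.obox.inter ((IsSA.iInter _ fun k => IsSA.pos (p k)).inter (IsSA.ne_zero q))
  · intro y hy
    rw [hFe]
    have := hpos y hy
    positivity
  · intro y hy
    rw [hFe, one_div, ← div_eq_inv_mul, div_le_one hMr]
    exact (le_abs_self _).trans (hMb y (hsub y hy.1))
  · intro x hx
    rw [hopen.frontier_eq] at hx
    obtain ⟨hx1, hx2⟩ := hx
    by_contra hne
    apply hx2
    rw [hFe] at hne
    have hH0 : aeval x H ≠ 0 := fun h => hne (by rw [h, mul_zero])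
    rw [hHe] at hH0
    have hd0 : aeval x (den n) ≠ 0 := right_ne_zero_of_mul hH0
    have hqp := left_ne_zero_of_mul hH0
    have hp0 : ∏ k, aeval x (p k) ≠ 0 := right_ne_zero_of_mul hqp
    have hq0 : aeval x q ≠ 0 := fun h => left_ne_zero_of_mul hqp (by rw [h]; ring)
    rw [HCell_den] at hd0
    refine ⟨?_, ?_, hq0⟩
    · intro i
      have h1 : |x i| ≤ 1 := by
        have h2 : IsClosed {y : Fin n → ℝ | |y i| ≤ 1} :=
          isClosed_le ((continuous_apply i).abs) continuous_const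
        exact closure_minimal (fun y hy => (hy.1 i).le) h2 hx1
      refine lt_of_le_of_ne h1 fun h2 => ?_
      have h3 : 1 - (x i) ^ 2 ≠ 0 := Finset.prod_ne_zero_iff.1 hd0 i (Finset.mem_univ i)
      apply h3
      rw [← sq_abs, h2]
      norm_num
    · intro k
      have h1 : 0 ≤ aeval x (p k) := by
        have h2 : IsClosed {y : Fin n → ℝ | 0 ≤ aeval y (p k)} :=
          isClosed_le continuous_const (HCell_cont (p k))
        exact closure_minimal (fun y hy => (hy.2.1 k).le) h2 hx1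
      exact lt_of_le_of_ne h1 (Finset.prod_ne_zero_iff.1 hp0 k (Finset.mem_univ k)).symm
  · intro y hy
    rw [hFe, hHe, map_mul, aeval_C]
    simp only [map_mul, map_prod]
    have h1 : aeval y q ≠ 0 := hy.2.2
    have h2 : ∏ k, aeval y (p k) ≠ 0 := (Finset.prod_pos fun k _ => hy.2.1 k).ne'
    have h3 : aeval y (den n) ≠ 0 := (den_pos hy.1).ne'
    have h4 : (algebraMap ℚ ℝ) (1 / M) = 1 / (M : ℝ) := by simp
    rw [h4]
    field_simp

end Pool.Agent.CVol
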