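import Pool.Agent.W_2cf66e_h65.HNull

/-!
# MP_2cf66e_nt, part H: decomposition into sign cells (helper65)
-/

set_option autoImplicit false

noncomputable section

open MeasureTheory MvPolynomial

namespace Pool.Agent.CVol

/-- The sign attached to a Boolean. -/
def sg {n : ℕ} (b : Bool) : MvPolynomial (Fin n) ℚ := if b then 1 else -1

/-- A sign cell. -/
def scell {n k m : ℕ} (p : Fin k → Fin m → MvPolynomial (Fin n) ℚ) (s : Fin k → Fin m → Bool) :
    Set (Fin n → ℝ) := {x | ∀ j i, 0 < aeval x (sg (s j i) * p j i)}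

/-- The good sign vectors. -/
def good (k m : ℕ) : Finset (Fin k → Fin m → Bool) :=
  Finset.univ.filter fun s => ∃ j, ∀ i, s j i = true

theorem HSign_true {n : ℕ} (q : MvPolynomial (Fin n) ℚ) (x : Fin n → ℝ) :
    aeval x (sg true * q) = aeval x q := by
  simp [sg]

theorem HSign_false {n : ℕ} (q : MvPolynomial (Fin n) ℚ) (x : Fin n → ℝ) :
    aeval x (sg false * q) = -aeval x q := by
  simp [sg]

theorem HSign_cont {n : ℕ} (q : MvPolynomial (Fin n) ℚ) :
    Continuous (fun x : Fin n → ℝ => aeval x q) := by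
  have h : (fun x : Fin n → ℝ => aeval x q) =
      fun x => eval x (map (algebraMap ℚ ℝ) q) := by
    funext x
    rw [aeval_def, eval₂_eq_eval_map]
  rw [h]
  exact continuous_eval _

theorem HSign_meas {n k m : ℕ} (p : Fin k → Fin m → MvPolynomial (Fin n) ℚ)
    (s : Fin k → Fin m → Bool) : MeasurableSet (scell p s) := by
  have h : scell p s = ⋂ j, ⋂ i, {x : Fin n → ℝ | 0 < aeval x (sg (s j i) * p j i)} := by
    ext x
    simp [scell]
  rw [h]
  refine MeasurableSet.iInter fun j => MeasurableSet.iInter fun i => ?_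
  exact (isOpen_lt continuous_const (HSign_cont _)).measurableSet

theorem HSign_disj {n k m : ℕ} (p : Fin k → Fin m → MvPolynomial (Fin n) ℚ)
    (s t : Fin k → Fin m → Bool) (hst : s ≠ t) : Disjoint (scell p s) (scell p t) := by
  rw [Set.disjoint_left]
  intro x hs ht
  apply hst
  funext j i
  have h1 := hs j i
  have h2 := ht j i
  rcases h3 : s j i with _ | _ <;> rcases h4 : t j i with _ | _
  · rfl
  · rw [h3, HSign_false] at h1
    rw [h4, HSign_true] at h2
    linarith
  · rw [h3, HSign_true] at h1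
    rw [h4, HSign_false] at h2
    linarith
  · rfl

theorem HSign_sub {n k m : ℕ} (p : Fin k → Fin m → MvPolynomial (Fin n) ℚ)
    (s : Fin k → Fin m → Bool) (hs : s ∈ good k m) :
    scell p s ⊆ {x : Fin n → ℝ | ∃ j, ∀ i, 0 < aeval x (p j i)} := by
  intro x hx
  obtain ⟨j, hj⟩ := (Finset.mem_filter.1 hs).2
  refine ⟨j, fun i => ?_⟩
  have h1 := hx j i
  rwa [hj i, HSign_true] at h1

theorem HSign_cover {n k m : ℕ} (p : Fin k → Fin m → MvPolynomial (Fin n) ℚ) :
    {x : Fin n → ℝ | ∃ j, ∀ i, 0 < aeval x (p j i)} \ (⋃ s ∈ good k m, scell p s) ⊆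
      ⋃ j, ⋃ i, {x : Fin n → ℝ | aeval x (p j i) = 0} := by
  classical
  rintro x ⟨⟨j, hj⟩, hx⟩
  by_contra hne
  apply hx
  have hne' : ∀ j i, aeval x (p j i) ≠ 0 := fun j i h =>
    hne (Set.mem_iUnion.2 ⟨j, Set.mem_iUnion.2 ⟨i, h⟩⟩)
  obtain ⟨s, hs⟩ : ∃ s : Fin k → Fin m → Bool, s = fun j i => decide (0 < aeval x (p j i)) :=
    ⟨_, rfl⟩
  refine Set.mem_iUnion₂.2 ⟨s, Finset.mem_filter.2 ⟨Finset.mem_univ _, j, fun i => ?_⟩, ?_⟩
  · rw [hs]
    exact decide_eq_true (hj i)
  · intro j' i'
    rcases lt_or_gt_of_ne (hne' j' i') with h1 | h1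
    · have h2 : s j' i' = false := by
        rw [hs]
        exact decide_eq_false (not_lt.2 h1.le)
      rw [h2, HSign_false]
      linarith
    · have h2 : s j' i' = true := by
        rw [hs]
        exact decide_eq_true h1
      rw [h2, HSign_true]
      exact h1

/-- (H10) Decomposition of an integral over the set of the frozen statement into integrals over
sign cells.

Proof. The sign cells are open, pairwise disjoint (a point determines its sign vector), the good
ones are contained in `σ = {x | ∃ j, ∀ i, 0 < p j i x}`, and a point of `σ` which is in no good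
sign cell is a zero of some `p j i`, so these points form a null set (`null_rat`, finite union).
Hence `∫_σ Φ = ∫_{⋃ good cells} Φ = ∑ ∫` (`setIntegral_congr_set`,
`MeasureTheory.integral_biUnion_finset` or the like). -/
theorem int_sign {n k m : ℕ} (p : Fin k → Fin m → MvPolynomial (Fin n) ℚ)
    (hp : ∀ j i, p j i ≠ 0) (Φ : (Fin n → ℝ) → ℝ)
    (hΦ : IntegrableOn Φ {x : Fin n → ℝ | ∃ j, ∀ i, 0 < aeval x (p j i)}) :
    (∀ s ∈ good k m, IntegrableOn Φ (scell p s)) ∧
    ∫ x in {x : Fin n → ℝ | ∃ j, ∀ i, 0 < aeval x (p j i)}, Φ x =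
      ∑ s ∈ good k m, ∫ x in scell p s, Φ x := by
  have hint : ∀ s ∈ good k m, IntegrableOn Φ (scell p s) := fun s hs =>
    hΦ.mono_set (HSign_sub p s hs)
  refine ⟨hint, ?_⟩
  rw [← integral_biUnion_finset (good k m) (fun s _ => HSign_meas p s)
    (fun s _ t _ hst => HSign_disj p s t hst) hint]
  refine setIntegral_congr_set ?_
  rw [ae_eq_set]
  constructor
  · refine measure_mono_null (HSign_cover p) ?_
    exact measure_iUnion_null fun j => measure_iUnion_null fun i => null_rat (p j i) (hp j i)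
  · have h : (⋃ s ∈ good k m, scell p s) \
        {x : Fin n → ℝ | ∃ j, ∀ i, 0 < aeval x (p j i)} = ∅ :=
      Set.sdiff_eq_empty.2 (Set.iUnion₂_subset fun s hs => HSign_sub p s hs)
    rw [h, measure_empty]

end Pool.Agent.CVol
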