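import Pool.Agent.W_2cf66e_h65.Defs

/-!
# MP_2cf66e_nt, part H: zero sets of polynomials are null sets (helper65)
-/

set_option autoImplicit false

noncomputable section

open MeasureTheory MvPolynomial

namespace Pool.Agent.CVol

/-- (H1) The zero set of a nonzero real polynomial is a null set.

Proof: induction on `n` with Fubini. `n = 0`: the polynomial is a nonzero constant, the set is
empty. Step: `MvPolynomial.finSuccEquiv` writes `p` as a polynomial in the variable `x_0` with
coefficients in `MvPolynomial (Fin n) ℝ`; some coefficient `c` is nonzero and by induction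
`c(x') ≠ 0` for almost all `x'`; for such `x'` the set of `x_0` with `p(x_0, x') = 0` is finite,
hence null. Use the measure preserving equivalence
`MeasureTheory.volume_preserving_piFinSuccAbove (fun _ => ℝ) 0`, measurability (closed set), and
`MeasureTheory.Measure.measure_prod_null`
(`MvPolynomial.eval_eq_eval_mv_eval'` for the evaluation). -/
theorem null_real {n : ℕ} (p : MvPolynomial (Fin n) ℝ) (hp : p ≠ 0) :
    volume {x : Fin n → ℝ | eval x p = 0} = 0 := by
  induction n with
  | zero =>
    have h0 : {x : Fin 0 → ℝ | eval x p = 0} = ∅ := by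
      ext x
      simp only [Set.mem_ofPred_eq, Set.mem_empty_iff_false, iff_false]
      intro hx
      apply hp
      rw [eq_C_of_isEmpty p] at hx ⊢
      rw [eval_C] at hx
      rw [hx, C_0]
    rw [h0, measure_empty]
  | succ n ih =>
    set q : Polynomial (MvPolynomial (Fin n) ℝ) := finSuccEquiv ℝ n p with hq
    have hq0 : q ≠ 0 := by
      rw [hq]
      intro h
      exact hp ((finSuccEquiv ℝ n).injective (h.trans (map_zero _).symm))
    have hev : ∀ (t : ℝ) (x : Fin n → ℝ),
        eval (Fin.cons t x : Fin (n + 1) → ℝ) p = eval x (Polynomial.eval (C t) q) := by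
      intro t x
      rw [eval_eq_eval_mv_eval', ← hq, Polynomial.eval_map]
      have h := Polynomial.eval₂_at_apply (eval x) (p := q) (C t)
      rw [eval_C] at h
      exact h
    set T : Set (ℝ × (Fin n → ℝ)) := {z | eval (Fin.cons z.1 z.2 : Fin (n + 1) → ℝ) p = 0}
      with hT
    have hcont : Continuous fun z : ℝ × (Fin n → ℝ) =>
        eval (Fin.cons z.1 z.2 : Fin (n + 1) → ℝ) p := by
      have h1 : Continuous fun z : ℝ × (Fin n → ℝ) => (Fin.cons z.1 z.2 : Fin (n + 1) → ℝ) := by
        refine continuous_pi fun i => ?_
        refine Fin.cases ?_ (fun j => ?_) i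
        · exact continuous_fst
        · exact (continuous_apply j).comp continuous_snd
      exact (MvPolynomial.continuous_eval p).comp h1
    have hTm : MeasurableSet T := (isClosed_singleton.preimage hcont).measurableSet
    have hT0 : volume T = 0 := by
      rw [Measure.volume_eq_prod, Measure.measure_prod_null hTm]
      have hfin : {t : ℝ | Polynomial.eval (C t) q = 0}.Finite := by
        have h1 : {t : ℝ | Polynomial.eval (C t) q = 0} ⊆
            (fun t : ℝ => (C t : MvPolynomial (Fin n) ℝ)) ⁻¹'
              (q.roots.toFinset : Set (MvPolynomial (Fin n) ℝ)) := by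
          intro t ht
          simp only [Set.mem_preimage, Finset.mem_coe, Multiset.mem_toFinset]
          rw [Polynomial.mem_roots hq0]
          exact ht
        exact (Set.Finite.preimage (C_injective (Fin n) ℝ).injOn
          q.roots.toFinset.finite_toSet).subset h1
      have hae : ∀ᵐ t : ℝ, Polynomial.eval (C t) q ≠ 0 := by
        rw [ae_iff]
        simp only [ne_eq, not_not]
        exact hfin.measure_zero _
      filter_upwards [hae] with t ht
      have h2 : (Prod.mk t ⁻¹' T : Set (Fin n → ℝ)) =
          {x : Fin n → ℝ | eval x (Polynomial.eval (C t) q) = 0} := by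
        ext x
        simp only [hT, Set.mem_preimage, Set.mem_ofPred_eq, hev]
      rw [h2]
      exact ih _ ht
    have hpre : {x : Fin (n + 1) → ℝ | eval x p = 0} =
        (MeasurableEquiv.piFinSuccAbove (fun _ => ℝ) 0) ⁻¹' T := by
      ext x
      have h3 : (Fin.cons ((MeasurableEquiv.piFinSuccAbove (fun _ => ℝ) 0) x).1
          ((MeasurableEquiv.piFinSuccAbove (fun _ => ℝ) 0) x).2 : Fin (n + 1) → ℝ) = x := by
        funext i
        refine Fin.cases ?_ (fun j => ?_) i
        · rfl
        · rfl
      simp only [hT, Set.mem_preimage, Set.mem_ofPred_eq]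
      rw [h3]
    rw [hpre, (volume_preserving_piFinSuccAbove (fun _ => ℝ) 0).measure_preimage
      hTm.nullMeasurableSet, hT0]

/-- (H2) The same for rational polynomials and any finite index type. (`re` is injective; reindex
with `Fintype.equivFin`, `MvPolynomial.rename`, `volume_measurePreserving_piCongrLeft`; or apply
the same proof.) -/
theorem null_rat {ι : Type} [Fintype ι] (p : MvPolynomial ι ℚ) (hp : p ≠ 0) :
    volume {x : ι → ℝ | aeval x p = 0} = 0 := by
  classical
  set e := Fintype.equivFin ι with he
  set q : MvPolynomial (Fin (Fintype.card ι)) ℝ := re (rename e p) with hq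
  have hq0 : q ≠ 0 := by
    intro h
    have h1 : rename e p = 0 := by
      have h2 : Function.Injective (re : MvPolynomial (Fin (Fintype.card ι)) ℚ → _) :=
        map_injective _ (algebraMap ℚ ℝ).injective
      exact h2 (h.trans (map_zero _).symm)
    exact hp (rename_injective e e.injective (h1.trans (map_zero _).symm))
  have hpre : {x : ι → ℝ | aeval x p = 0} =
      (MeasurableEquiv.piCongrLeft (fun _ : Fin (Fintype.card ι) => ℝ) e) ⁻¹'
        {y | eval y q = 0} := by
    ext x
    simp only [Set.mem_preimage, Set.mem_ofPred_eq]
    rw [hq, eval_re, aeval_rename]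
    have h3 : (MeasurableEquiv.piCongrLeft (fun _ : Fin (Fintype.card ι) => ℝ) e) x ∘ e = x := by
      funext i
      exact Equiv.piCongrLeft_apply_apply (fun _ : Fin (Fintype.card ι) => ℝ) e x i
    rw [h3]
  have hm : MeasurableSet {y : Fin (Fintype.card ι) → ℝ | eval y q = 0} :=
    (isClosed_singleton.preimage (MvPolynomial.continuous_eval q)).measurableSet
  rw [hpre, (volume_measurePreserving_piCongrLeft
    (fun _ : Fin (Fintype.card ι) => ℝ) e).measure_preimage hm.nullMeasurableSet]
  exact null_real q hq0

end Pool.Agent.CVol
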