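import Pool.Agent.W_2cf66e_h65.ESA

/-!
# MP_2cf66e_nt, part E: closure properties of piecewise rational functions (helper65)
-/

set_option autoImplicit false

noncomputable section

open MvPolynomial

namespace Pool.Agent.CVol

variable {ι κ : Type}

/-- One piece. -/
theorem IsPR.piece {S : Set (ι → ℝ)} (hS : IsSA S) (P Q : MvPolynomial ι ℚ)
    (hQ : ∀ z ∈ S, aeval z Q ≠ 0) :
    IsPR (S.indicator fun z : ι → ℝ => aeval z P / aeval z Q) := by
  refine ⟨1, fun _ => S, fun _ => P, fun _ => Q, fun _ => hS, fun _ => hQ, fun z => ?_⟩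
  rw [Fin.sum_univ_one]

theorem IsPR.poly (p : MvPolynomial ι ℚ) : IsPR (fun z : ι → ℝ => aeval z p) := by
  refine ⟨1, fun _ => Set.univ, fun _ => p, fun _ => 1, fun _ => IsSA.univ, fun _ z _ => ?_,
    fun z => ?_⟩
  · rw [map_one]
    exact one_ne_zero
  · rw [Fin.sum_univ_one, Set.indicator_univ, map_one, div_one]

theorem EPR_zero : IsPR (fun _ : ι → ℝ => (0 : ℝ)) := by
  refine ⟨0, Fin.elim0, Fin.elim0, Fin.elim0, fun c => c.elim0, fun c => c.elim0, fun z => ?_⟩
  rw [Finset.univ_eq_empty, Finset.sum_empty]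

/-- Sums: concatenate the two lists of pieces (`Fin.append`, `Fin.sum_univ_add`). -/
theorem IsPR.add {f g : (ι → ℝ) → ℝ} (hf : IsPR f) (hg : IsPR g) :
    IsPR (fun z => f z + g z) := by
  obtain ⟨k, S, P, Q, hS, hQ, hf⟩ := hf
  obtain ⟨l, S', P', Q', hS', hQ', hg⟩ := hg
  refine ⟨k + l, Fin.append S S', Fin.append P P', Fin.append Q Q', ?_, ?_, fun z => ?_⟩
  · intro c
    refine Fin.addCases (fun i => ?_) (fun i => ?_) c
    · rw [Fin.append_left]
      exact hS i
    · rw [Fin.append_right]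
      exact hS' i
  · intro c
    refine Fin.addCases (fun i => ?_) (fun i => ?_) c
    · rw [Fin.append_left, Fin.append_left]
      exact hQ i
    · rw [Fin.append_right, Fin.append_right]
      exact hQ' i
  · show f z + g z = _
    rw [Fin.sum_univ_add, hf, hg]
    simp only [Fin.append_left, Fin.append_right]

theorem IsPR.sum {α : Type} (T : Finset α) (f : α → (ι → ℝ) → ℝ) (h : ∀ a ∈ T, IsPR (f a)) :
    IsPR (fun z => ∑ a ∈ T, f a z) := by
  classical
  induction T using Finset.induction_on with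
  | empty =>
    simp only [Finset.sum_empty]
    exact EPR_zero
  | insert a T ha ih =>
    simp only [Finset.sum_insert ha]
    exact (h a (Finset.mem_insert_self a T)).add (ih fun b hb => h b (Finset.mem_insert_of_mem hb))

/-- Product with a rational constant. -/
theorem IsPR.smul {f : (ι → ℝ) → ℝ} (hf : IsPR f) (q : ℚ) : IsPR (fun z => (q : ℝ) * f z) := by
  classical
  obtain ⟨k, S, P, Q, hS, hQ, hf⟩ := hf
  refine ⟨k, S, fun c => C q * P c, Q, hS, hQ, fun z => ?_⟩
  show (q : ℝ) * f z = _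
  rw [hf, Finset.mul_sum]
  refine Finset.sum_congr rfl fun c _ => ?_
  simp only [Set.indicator_apply]
  split_ifs with h
  · rw [map_mul, aeval_C, mul_div_assoc]
    rfl
  · rw [mul_zero]

/-- Composition with a polynomial map: preimages of the pieces, `bind₁`. -/
theorem IsPR.comp {f : (κ → ℝ) → ℝ} (hf : IsPR f) (φ : κ → MvPolynomial ι ℚ) :
    IsPR (fun z : ι → ℝ => f (fun k => aeval z (φ k))) := by
  classical
  obtain ⟨k, S, P, Q, hS, hQ, hf⟩ := hf
  refine ⟨k, fun c => {z : ι → ℝ | (fun j => aeval z (φ j)) ∈ S c}, fun c => bind₁ φ (P c),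
    fun c => bind₁ φ (Q c), fun c => (hS c).preimage φ, fun c z hz => ?_, fun z => ?_⟩
  · rw [aeval_bind₁]
    exact hQ c _ hz
  · show f (fun k => aeval z (φ k)) = _
    rw [hf]
    refine Finset.sum_congr rfl fun c _ => ?_
    simp only [Set.indicator_apply, Set.mem_setOf_eq, aeval_bind₁]

/-- The set where a piecewise rational function is nonnegative is semialgebraic.

Proof. For a subset `T` of `Fin k` let `A_T` be the set of the `z` with
`z ∈ S c ↔ c ∈ T`; the `A_T` cover the space and are semialgebraic, and on `A_T`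
`f = ∑_{c ∈ T} P_c / Q_c`, which is `≥ 0` iff
`∑_{c ∈ T} P_c Q_c ∏_{c' ∈ T, c' ≠ c} Q_{c'}^2 ≥ 0` (multiply by the positive number
`∏_{c ∈ T} Q_c^2`). So the set is the union over `T` of `A_T ∩ {0 ≤ N_T}`
(`IsSA.biUnion`, `IsSA.nonneg`). -/
theorem IsPR.nonneg {f : (ι → ℝ) → ℝ} (hf : IsPR f) : IsSA {z | 0 ≤ f z} := by
  classical
  obtain ⟨k, S, P, Q, hS, hQ, hf⟩ := hf
  have h1 : IsSA (⋃ T ∈ (Finset.univ : Finset (Finset (Fin k))),
      ((⋂ c, (if c ∈ T then S c else (S c)ᶜ)) ∩
        {z : ι → ℝ | 0 ≤ aeval z (∑ c ∈ T, P c * Q c * ∏ c' ∈ T.erase c, Q c' ^ 2)})) := by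
    refine IsSA.biUnion _ _ fun T => IsSA.inter (IsSA.iInter _ fun c => ?_) (IsSA.nonneg _)
    split_ifs
    · exact hS c
    · exact (hS c).compl
  have key : ∀ (z : ι → ℝ) (T : Finset (Fin k)), (∀ c, z ∈ S c ↔ c ∈ T) →
      (0 ≤ f z ↔ 0 ≤ aeval z (∑ c ∈ T, P c * Q c * ∏ c' ∈ T.erase c, Q c' ^ 2)) := by
    intro z T hT
    have e1 : f z = ∑ c ∈ T, aeval z (P c) / aeval z (Q c) := by
      rw [hf, ← Finset.sum_filter_add_sum_filter_not Finset.univ (fun c => c ∈ T)]
      have e2 : ∑ c ∈ Finset.univ.filter (fun c => c ∉ T), (S c).indicator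
          (fun z => aeval z (P c) / aeval z (Q c)) z = 0 := by
        refine Finset.sum_eq_zero fun c hc => ?_
        rw [Finset.mem_filter] at hc
        rw [Set.indicator_of_notMem]
        rw [hT]
        exact hc.2
      rw [e2, add_zero]
      have e3 : Finset.univ.filter (fun c => c ∈ T) = T := by
        ext c
        simp
      rw [e3]
      refine Finset.sum_congr rfl fun c hc => ?_
      rw [Set.indicator_of_mem ((hT c).2 hc)]
    have hq : ∀ c ∈ T, aeval z (Q c) ≠ 0 := fun c hc => hQ c z ((hT c).2 hc)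
    have hD : 0 < ∏ c ∈ T, (aeval z (Q c)) ^ 2 :=
      Finset.prod_pos fun c hc => by
        have := hq c hc
        positivity
    have e4 : aeval z (∑ c ∈ T, P c * Q c * ∏ c' ∈ T.erase c, Q c' ^ 2) =
        (∏ c ∈ T, (aeval z (Q c)) ^ 2) * f z := by
      rw [e1, Finset.mul_sum, map_sum]
      refine Finset.sum_congr rfl fun c hc => ?_
      rw [← Finset.mul_prod_erase T (fun c => (aeval z (Q c)) ^ 2) hc]
      simp only [map_mul, map_prod, map_pow]
      have h3 := hq c hc
      field_simp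
    rw [e4]
    constructor
    · intro h
      exact mul_nonneg hD.le h
    · intro h
      exact nonneg_of_mul_nonneg_right h hD
  have e : (⋃ T ∈ (Finset.univ : Finset (Finset (Fin k))),
      ((⋂ c, (if c ∈ T then S c else (S c)ᶜ)) ∩
        {z : ι → ℝ | 0 ≤ aeval z (∑ c ∈ T, P c * Q c * ∏ c' ∈ T.erase c, Q c' ^ 2)})) =
      {z | 0 ≤ f z} := by
    ext z
    simp only [Finset.mem_univ, Set.iUnion_true, Set.mem_iUnion, Set.mem_inter_iff, Set.mem_iInter]
    constructor
    · rintro ⟨T, hT, h⟩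
      refine (key z T fun c => ?_).2 h
      have hc := hT c
      by_cases hcT : c ∈ T
      · rw [if_pos hcT] at hc
        exact ⟨fun _ => hcT, fun _ => hc⟩
      · rw [if_neg hcT] at hc
        exact ⟨fun h => absurd h hc, fun h => absurd h hcT⟩
    · intro h
      refine ⟨Finset.univ.filter fun c => z ∈ S c, fun c => ?_,
        (key z _ fun c => ?_).1 h⟩
      · by_cases hc : z ∈ S c
        · rw [if_pos (by simp [hc])]
          exact hc
        · rw [if_neg (by simp [hc])]
          exact hc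
      · simp
  rwa [e] at h1

/-- Piecewise rational functions are measurable. -/
theorem IsPR.measurable [Fintype ι] {f : (ι → ℝ) → ℝ} (hf : IsPR f) : Measurable f := by
  obtain ⟨k, S, P, Q, hS, hQ, hf⟩ := hf
  have hc : ∀ p : MvPolynomial ι ℚ, Measurable fun x : ι → ℝ => aeval x p := by
    intro p
    have h := MvPolynomial.continuous_eval (re p)
    simp only [eval_re] at h
    exact h.measurable
  have e : f = fun z => ∑ c, (S c).indicator
      (fun z => MvPolynomial.aeval z (P c) / MvPolynomial.aeval z (Q c)) z := funext hf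
  rw [e]
  refine Finset.measurable_fun_sum _ fun c _ => ?_
  exact ((hc (P c)).div (hc (Q c))).indicator (hS c).measurable

end Pool.Agent.CVol
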