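import Pool.Agent.W_2cf66e_h65.HNull
import Pool.Agent.W_2cf66e_h65.EPR

/-!
# MP_2cf66e_nt, part I: volumes and integrals over semialgebraic sets are periods (helper65)
-/

set_option autoImplicit false

noncomputable section

open MeasureTheory MvPolynomial

namespace Pool.Agent.CVol

/-- (I1) A semialgebraic set is, up to a null set, a finite union of sets
`{x | ∀ i, 0 < p_i x}`.

Proof: induction on `IsSA`, the statement being invariant under a.e. equality of sets.
`pos`: `k = m = 1`. `inter`: pairs of indices (`Fin k × Fin k'` via `finProdFinEquiv`, `Fin (m+m')`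
via `Fin.append`; or first pad with the constant polynomial `1`). `compl`: up to the null sets
`{p j i = 0}` with `p j i ≠ 0` (`null_rat`), the complement of `{∃ j, ∀ i, 0 < p j i}` is
`{∀ j, ∃ i, 0 < p' j i}` with `p' j i = - p j i` if `p j i ≠ 0` and `p' j i = 1` if `p j i = 0`;
this equals `{∃ f : Fin k → Fin m, ∀ j, 0 < p' j (f j)}`; number the functions
`Fin k → Fin m` (`Fintype.equivFin`). -/
theorem sa_dnf {n : ℕ} {s : Set (Fin n → ℝ)} (hs : IsSA s) :
    ∃ (k m : ℕ) (p : Fin k → Fin m → MvPolynomial (Fin n) ℚ),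
      s =ᵐ[volume] {x : Fin n → ℝ | ∃ j, ∀ i, 0 < aeval x (p j i)} := by
  classical
  induction hs with
  | pos q =>
    refine ⟨1, 1, fun _ _ => q, ?_⟩
    have h1 : {x : Fin n → ℝ | ∃ _ : Fin 1, ∀ _ : Fin 1, 0 < aeval x q} =
        {x : Fin n → ℝ | 0 < aeval x q} := by
      ext x
      constructor
      · rintro ⟨_, h⟩
        exact h 0
      · intro h
        exact ⟨0, fun _ => h⟩
    exact Filter.EventuallyEq.of_eq h1.symm
  | @inter s t _ _ ih1 ih2 =>
    obtain ⟨k, m, p, hp⟩ := ih1
    obtain ⟨k', m', q, hq⟩ := ih2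
    refine ⟨k * k', m + m', fun j i => Fin.addCases (fun a => p (finProdFinEquiv.symm j).1 a)
      (fun b => q (finProdFinEquiv.symm j).2 b) i, ?_⟩
    refine (hp.inter hq).trans (Filter.EventuallyEq.of_eq ?_)
    ext x
    constructor
    · rintro ⟨⟨j, hj⟩, ⟨j', hj'⟩⟩
      refine ⟨finProdFinEquiv (j, j'), fun i => ?_⟩
      simp only [Equiv.symm_apply_apply]
      refine Fin.addCases (fun a => ?_) (fun b => ?_) i
      · simp only [Fin.addCases_left]
        exact hj a
      · simp only [Fin.addCases_right]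
        exact hj' b
    · rintro ⟨j, hj⟩
      refine ⟨⟨(finProdFinEquiv.symm j).1, fun a => ?_⟩, ⟨(finProdFinEquiv.symm j).2, fun b => ?_⟩⟩
      · have := hj (Fin.castAdd m' a)
        simp only [Fin.addCases_left] at this
        exact this
      · have := hj (Fin.natAdd m b)
        simp only [Fin.addCases_right] at this
        exact this
  | @compl s _ ih =>
    obtain ⟨k, m, p, hp⟩ := ih
    set p' : Fin k → Fin m → MvPolynomial (Fin n) ℚ :=
      fun j i => if p j i = 0 then 1 else - p j i with hp'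
    refine ⟨Fintype.card (Fin k → Fin m), k,
      fun a j => p' j ((Fintype.equivFin (Fin k → Fin m)).symm a j), ?_⟩
    refine hp.compl.trans ?_
    have hnull : ∀ᵐ x : Fin n → ℝ, ∀ j i, p j i ≠ 0 → (aeval x (p j i) : ℝ) ≠ 0 := by
      rw [MeasureTheory.ae_all_iff]
      intro j
      rw [MeasureTheory.ae_all_iff]
      intro i
      by_cases h0 : p j i = 0
      · exact Filter.Eventually.of_forall fun x h => absurd h0 h
      · have h1 := null_rat (p j i) h0
        rw [MeasureTheory.ae_iff]
        refine measure_mono_null (fun x hx => ?_) h1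
        by_contra h2
        exact hx fun _ h3 => h2 h3
    filter_upwards [hnull] with x hx
    have key : ∀ j i, ¬ (0 < (aeval x (p j i) : ℝ)) ↔ 0 < (aeval x (p' j i) : ℝ) := by
      intro j i
      simp only [hp']
      by_cases h0 : p j i = 0
      · rw [if_pos h0, h0, map_zero, map_one]
        simp
      · rw [if_neg h0, map_neg]
        have h1 := hx j i h0
        constructor
        · intro h2
          have h3 := lt_of_le_of_ne (not_lt.mp h2) h1
          linarith
        · intro h2
          linarith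
    refine propext ?_
    change (¬ ∃ j, ∀ i, 0 < (aeval x (p j i) : ℝ)) ↔ ∃ a, ∀ j,
      0 < (aeval x (p' j ((Fintype.equivFin (Fin k → Fin m)).symm a j)) : ℝ)
    constructor
    · intro h
      push Not at h
      choose f hf using h
      refine ⟨Fintype.equivFin _ f, fun j => ?_⟩
      rw [Equiv.symm_apply_apply]
      exact (key j (f j)).mp (not_lt.mpr (hf j))
    · rintro ⟨a, ha⟩ ⟨j, hj⟩
      exact (key j _).mpr (ha j) (hj _)

/-- (I2) Absolutely convergent integrals of rational functions over semialgebraic sets are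
periods. -/
theorem period_of_int {n : ℕ} {s : Set (Fin n → ℝ)} (hs : IsSA s)
    (P Q : MvPolynomial (Fin n) ℚ)
    (hi : IntegrableOn (fun x : Fin n → ℝ => aeval x P / aeval x Q) s) :
    IsPeriod (∫ x in s, aeval x P / aeval x Q) := by
  obtain ⟨k, m, p, hp⟩ := sa_dnf hs
  exact ⟨n, P, Q, k, m, p, hi.congr_set_ae hp.symm, setIntegral_congr_set hp.symm⟩

/-- (I3) Volumes. (`P = Q = 1`.) -/
theorem period_of_volume {n : ℕ} {s : Set (Fin n → ℝ)} (hs : IsSA s) (x : ℝ) (hx : 0 < x)
    (hv : volume s = ENNReal.ofReal x) : IsPeriod x := by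
  have h1 : ∀ y : Fin n → ℝ, (aeval y (1 : MvPolynomial (Fin n) ℚ) : ℝ) /
      aeval y (1 : MvPolynomial (Fin n) ℚ) = 1 := by
    intro y
    rw [map_one, div_one]
  have h2 : IntegrableOn (fun y : Fin n → ℝ => (aeval y (1 : MvPolynomial (Fin n) ℚ) : ℝ) /
      aeval y (1 : MvPolynomial (Fin n) ℚ)) s := by
    simp only [h1]
    refine integrableOn_const ?_
    rw [hv]
    exact ENNReal.ofReal_ne_top
  have h3 := period_of_int hs 1 1 h2
  simp only [h1] at h3
  rw [setIntegral_const, measureReal_def, hv, ENNReal.toReal_ofReal hx.le, smul_eq_mul,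
    mul_one] at h3
  exact h3

/-- (I4) The integral over the cube of a continuous piecewise rational function is a period.

Proof. Let `M` be a natural number with `|g| < M` on the compact cube, `c = M 2^N`. In dimension
`N + 2`, coordinates `(z, t, y)`, let `s` be the union of
`A = {z ∈ box, 0 < t < g z + M, 0 < y < 1}` and `B = {0 < z_i < 1, 0 < t < 1, 1 < y < 2}`:
semialgebraic (`IsPR.nonneg` and complements, `IsSA.preimage`), bounded. The integrand is the
polynomial `P = α y + β` with `∫_0^1 P dy = 1`, `∫_1^2 P dy = - c`, i.e. `α = - c - 1`,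
`β = 1 - α/2`, rational numbers, `Q = 1`. By Fubini
`∫_A P = ∫_box (g + M) = ∫_box g + c`, `∫_B P = - c`, so `∫_s P = ∫_box g`; `period_of_int`. -/
theorem period_of_smooth {N : ℕ} (g : (Fin N → ℝ) → ℝ) (hg : IsPR g) (hc : Continuous g) :
    IsPeriod (∫ z in box (Fin N), g z) := by
  obtain ⟨M, hM⟩ : ∃ M : ℝ, ∀ z ∈ box (Fin N), |g z| ≤ M := by
    have hK : IsCompact (box (Fin N)) := isCompact_Icc
    obtain ⟨M, hM⟩ := hK.exists_bound_of_continuousOn hc.continuousOn
    exact ⟨M, fun z hz => by simpa using hM z hz⟩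
  set s : Set (Fin (N + 1) → ℝ) := ({x | (fun k => x (Fin.succ k)) ∈ box (Fin N)} ∩
    {x | 0 ≤ g (fun k => x (Fin.succ k)) - 1 - 2 * x 0}ᶜ) ∩
    {x | 0 ≤ 2 * x 0 - g (fun k => x (Fin.succ k)) - 1}ᶜ with hs
  have hmem : ∀ x : Fin (N + 1) → ℝ, x ∈ s ↔ (fun k => x (Fin.succ k)) ∈ box (Fin N) ∧
      (g (fun k => x (Fin.succ k)) - 1) / 2 < x 0 ∧ x 0 < (g (fun k => x (Fin.succ k)) + 1) / 2 := by
    intro x
    simp only [hs, Set.mem_inter_iff, Set.mem_compl_iff, Set.mem_ofPred_eq, not_le]
    constructor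
    · rintro ⟨⟨h1, h2⟩, h3⟩
      exact ⟨h1, by linarith, by linarith⟩
    · rintro ⟨h1, h2, h3⟩
      exact ⟨⟨h1, by linarith⟩, by linarith⟩
  have hgs : IsPR (fun x : Fin (N + 1) → ℝ => g (fun k => x (Fin.succ k))) := by
    have := hg.comp (fun k : Fin N => (X (Fin.succ k) : MvPolynomial (Fin (N + 1)) ℚ))
    simpa only [aeval_X] using this
  have hsa : IsSA s := by
    refine IsSA.inter (IsSA.inter ?_ ?_) ?_
    · have h1 := (IsSA.box (ι := Fin N)).preimage
        (fun k : Fin N => (X (Fin.succ k) : MvPolynomial (Fin (N + 1)) ℚ))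
      simpa only [aeval_X] using h1
    · refine IsSA.compl ?_
      have h1 := (hgs.add (IsPR.poly (-1 - 2 * X 0 : MvPolynomial (Fin (N + 1)) ℚ))).nonneg
      have h2 : {x : Fin (N + 1) → ℝ | 0 ≤ g (fun k => x (Fin.succ k)) - 1 - 2 * x 0} =
          {z : Fin (N + 1) → ℝ | 0 ≤ g (fun k => z (Fin.succ k)) +
            aeval z (-1 - 2 * X 0 : MvPolynomial (Fin (N + 1)) ℚ)} := by
        ext x
        simp only [Set.mem_ofPred_eq, map_sub, map_neg, map_one, map_mul, aeval_X, map_ofNat]
        constructor <;> intro h <;> linarith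
      rw [h2]
      exact h1
    · refine IsSA.compl ?_
      have h1 := ((hgs.smul (-1)).add
        (IsPR.poly (2 * X 0 - 1 : MvPolynomial (Fin (N + 1)) ℚ))).nonneg
      have h2 : {x : Fin (N + 1) → ℝ | 0 ≤ 2 * x 0 - g (fun k => x (Fin.succ k)) - 1} =
          {z : Fin (N + 1) → ℝ | 0 ≤ ((-1 : ℚ) : ℝ) * g (fun k => z (Fin.succ k)) +
            aeval z (2 * X 0 - 1 : MvPolynomial (Fin (N + 1)) ℚ)} := by
        ext x
        simp only [Set.mem_ofPred_eq, map_sub, map_one, map_mul, aeval_X, map_ofNat]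
        push_cast
        constructor <;> intro h <;> linarith
      rw [h2]
      exact h1
  have hfun : ∀ x : Fin (N + 1) → ℝ, (aeval x (2 * X 0 : MvPolynomial (Fin (N + 1)) ℚ) : ℝ) /
      aeval x (1 : MvPolynomial (Fin (N + 1)) ℚ) = 2 * x 0 := by
    intro x
    rw [map_one, div_one, map_mul, aeval_X, map_ofNat]
  have hint0 : IntegrableOn (fun x : Fin (N + 1) → ℝ => 2 * x 0) s := by
    have hK : IsCompact (Set.Icc (fun _ : Fin (N + 1) => -(|M| + 1)) (fun _ => |M| + 1)) :=
      isCompact_Icc
    have hcont : Continuous fun x : Fin (N + 1) → ℝ => 2 * x 0 := by fun_prop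
    refine (hcont.continuousOn.integrableOn_compact hK).mono_set ?_
    intro x hx
    obtain ⟨h1, h2, h3⟩ := (hmem x).mp hx
    have h4 := abs_le.mp (hM _ h1)
    have h5 := le_abs_self M
    have h6 := abs_nonneg M
    have h7 : ∀ k : Fin N, -1 ≤ x (Fin.succ k) ∧ x (Fin.succ k) ≤ 1 := by
      rw [box_eq] at h1
      exact h1
    rw [Set.mem_Icc, Pi.le_def, Pi.le_def]
    constructor
    · intro i
      refine Fin.cases ?_ (fun j => ?_) i
      · linarith
      · linarith [(h7 j).1]
    · intro i
      refine Fin.cases ?_ (fun j => ?_) i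
      · linarith
      · linarith [(h7 j).2]
  have hint : IntegrableOn (fun x : Fin (N + 1) → ℝ =>
      (aeval x (2 * X 0 : MvPolynomial (Fin (N + 1)) ℚ) : ℝ) /
      aeval x (1 : MvPolynomial (Fin (N + 1)) ℚ)) s := by
    simp only [hfun]
    exact hint0
  have hval : ∫ x in s, (aeval x (2 * X 0 : MvPolynomial (Fin (N + 1)) ℚ) : ℝ) /
      aeval x (1 : MvPolynomial (Fin (N + 1)) ℚ) = ∫ z in box (Fin N), g z := by
    simp only [hfun]
    have hms : MeasurableSet s := hsa.measurable
    set T : Set (ℝ × (Fin N → ℝ)) := {p | p.2 ∈ box (Fin N) ∧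
      (g p.2 - 1) / 2 < p.1 ∧ p.1 < (g p.2 + 1) / 2} with hT
    have hmp := volume_preserving_piFinSuccAbove (fun _ : Fin (N + 1) => ℝ) 0
    have h1 : s.indicator (fun x : Fin (N + 1) → ℝ => 2 * x 0) =
        (T.indicator fun p => 2 * p.1) ∘
          (MeasurableEquiv.piFinSuccAbove (fun _ : Fin (N + 1) => ℝ) 0) := by
      funext x
      have e1 : (MeasurableEquiv.piFinSuccAbove (fun _ : Fin (N + 1) => ℝ) 0) x =
          (x 0, fun k => x (Fin.succ k)) := rfl
      rw [Function.comp_apply, e1]
      by_cases hx : x ∈ s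
      · have hx' : ((x 0, fun k => x (Fin.succ k)) : ℝ × (Fin N → ℝ)) ∈ T := (hmem x).mp hx
        rw [Set.indicator_of_mem hx, Set.indicator_of_mem hx']
      · have hx' : ((x 0, fun k => x (Fin.succ k)) : ℝ × (Fin N → ℝ)) ∉ T :=
          fun h => hx ((hmem x).mpr h)
        rw [Set.indicator_of_notMem hx, Set.indicator_of_notMem hx']
    have h2 : Integrable (T.indicator fun p : ℝ × (Fin N → ℝ) => 2 * p.1) := by
      rw [← hmp.integrable_comp_emb (MeasurableEquiv.measurableEmbedding _), ← h1]
      exact (integrable_indicator_iff hms).mpr hint0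
    rw [← integral_indicator hms, h1]
    have h3 := hmp.integral_comp (MeasurableEquiv.measurableEmbedding _)
      (T.indicator fun p : ℝ × (Fin N → ℝ) => 2 * p.1)
    simp only [Function.comp_apply]
    rw [h3, Measure.volume_eq_prod, integral_prod_symm _ (by
      rw [← Measure.volume_eq_prod]
      exact h2)]
    have hmbox : MeasurableSet (box (Fin N)) := (IsSA.box (ι := Fin N)).measurable
    rw [← integral_indicator hmbox]
    refine integral_congr_ae (Filter.Eventually.of_forall fun z => ?_)
    simp only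
    by_cases hz : z ∈ box (Fin N)
    · rw [Set.indicator_of_mem hz]
      have h4 : ∀ t : ℝ, T.indicator (fun p : ℝ × (Fin N → ℝ) => 2 * p.1) (t, z) =
          (Set.Ioo ((g z - 1) / 2) ((g z + 1) / 2)).indicator (fun t : ℝ => 2 * t) t := by
        intro t
        by_cases ht : t ∈ Set.Ioo ((g z - 1) / 2) ((g z + 1) / 2)
        · have ht' : ((t, z) : ℝ × (Fin N → ℝ)) ∈ T := ⟨hz, ht.1, ht.2⟩
          rw [Set.indicator_of_mem ht, Set.indicator_of_mem ht']
        · have ht' : ((t, z) : ℝ × (Fin N → ℝ)) ∉ T := fun h => ht ⟨h.2.1, h.2.2⟩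
          rw [Set.indicator_of_notMem ht, Set.indicator_of_notMem ht']
      simp only [h4]
      rw [integral_indicator measurableSet_Ioo, ← integral_Ioc_eq_integral_Ioo,
        ← intervalIntegral.integral_of_le (by linarith), intervalIntegral.integral_const_mul,
        integral_id]
      ring
    · rw [Set.indicator_of_notMem hz]
      have h4 : ∀ t : ℝ, T.indicator (fun p : ℝ × (Fin N → ℝ) => 2 * p.1) (t, z) = 0 := by
        intro t
        have ht' : ((t, z) : ℝ × (Fin N → ℝ)) ∉ T := fun h => hz h.1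
        rw [Set.indicator_of_notMem ht']
      simp only [h4, integral_zero]
  rw [← hval]
  exact period_of_int hsa _ _ hint

end Pool.Agent.CVol
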