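import Pool.Agent.W_2cf66e_h65.KVal
import Pool.Agent.W_2cf66e_h65.ISet

/-!
# MP_2cf66e_nt, part K: constant term values are periods up to powers of `π` (helper65)
-/

set_option autoImplicit false

noncomputable section

open MeasureTheory MvPolynomial

namespace Pool.Agent.CVol

theorem KPer_ren {n : ℕ} (q : MvPolynomial (Fin n) ℚ) (x : Fin (n + 1) → ℝ) :
    (aeval x (rename Fin.succ q) : ℝ) = aeval (fun k => x (Fin.succ k)) q := by
  rw [aeval_rename]
  rfl

/-- (K15) Multiplication by `π`: if `x` is a period then so is `π x`.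

Proof. `π = ∫_ℝ dt/(1+t^2)` (`integral_univ_inv_one_add_sq`). In dimension `n + 1` (coordinates
`(t, x)`, `Fin.cons`/`Fin.snoc`) take the same inequalities in the variables `x`, and
`P/(Q (1+t^2))`; the set is `ℝ × σ`, Fubini (`MeasureTheory.integral_prod_mul`,
`Integrable.mul_prod`, `volume_preserving_piFinSuccAbove`). -/
theorem period_pi {x : ℝ} (h : IsPeriod x) : IsPeriod (Real.pi * x) := by
  obtain ⟨n, P, Q, k, m, p, hi, hx⟩ := h
  set S : Set (Fin n → ℝ) := {x : Fin n → ℝ | ∃ j, ∀ i, 0 < aeval x (p j i)} with hS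
  set e := MeasurableEquiv.piFinSuccAbove (fun _ : Fin (n + 1) => ℝ) 0 with he
  have hmp : MeasurePreserving e := volume_preserving_piFinSuccAbove (fun _ : Fin (n + 1) => ℝ) 0
  have hea : ∀ x : Fin (n + 1) → ℝ, e x = (x 0, fun k => x (Fin.succ k)) := fun _ => rfl
  have hS' : {x : Fin (n + 1) → ℝ | ∃ j, ∀ i, 0 < (aeval x (rename Fin.succ (p j i)) : ℝ)} =
      e ⁻¹' (Set.univ ×ˢ S) := by
    ext x
    simp only [Set.mem_ofPred_eq, Set.mem_preimage, Set.mem_prod, Set.mem_univ, true_and, hea,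
      KPer_ren, hS]
  have hfun : ∀ x : Fin (n + 1) → ℝ, (aeval x (rename Fin.succ P) : ℝ) /
      aeval x (rename Fin.succ Q * (1 + X 0 ^ 2)) =
      (fun z : ℝ × (Fin n → ℝ) => (1 + z.1 ^ 2)⁻¹ * ((aeval z.2 P : ℝ) / aeval z.2 Q)) (e x) := by
    intro x
    simp only [hea, map_mul, map_add, map_one, map_pow, aeval_X, KPer_ren]
    rw [div_mul_eq_div_div, div_eq_mul_inv _ (1 + x 0 ^ 2), mul_comm]
  have hi1 : IntegrableOn (fun z : ℝ × (Fin n → ℝ) =>
      (1 + z.1 ^ 2)⁻¹ * ((aeval z.2 P : ℝ) / aeval z.2 Q)) (Set.univ ×ˢ S) := by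
    have h1 : Integrable (fun t : ℝ => (1 + t ^ 2)⁻¹) (volume.restrict Set.univ) := by
      rw [Measure.restrict_univ]
      exact integrable_inv_one_add_sq
    have h2 := Integrable.mul_prod h1 hi
    rw [Measure.prod_restrict, ← Measure.volume_eq_prod] at h2
    exact h2
  refine ⟨n + 1, rename Fin.succ P, rename Fin.succ Q * (1 + X 0 ^ 2), k, m,
    fun j i => rename Fin.succ (p j i), ?_, ?_⟩
  · rw [hS']
    simp only [hfun]
    exact (hmp.integrableOn_comp_preimage e.measurableEmbedding).mpr hi1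
  · rw [hS']
    simp only [hfun]
    rw [hmp.setIntegral_preimage_emb e.measurableEmbedding (fun z : ℝ × (Fin n → ℝ) =>
      (1 + z.1 ^ 2)⁻¹ * ((aeval z.2 P : ℝ) / aeval z.2 Q)) (Set.univ ×ˢ S),
      Measure.volume_eq_prod, setIntegral_prod_mul (fun t : ℝ => (1 + t ^ 2)⁻¹)
      (fun z : Fin n → ℝ => (aeval z P : ℝ) / aeval z Q) Set.univ S, hx, Measure.restrict_univ,
      integral_univ_inv_one_add_sq]

/-- The substitution `θ = 1/2 + arctan t / π`. -/
def KPer_tau {n : ℕ} (t : Fin n → ℝ) : Fin n → ℝ := fun i => 1 / 2 + Real.arctan (t i) / Real.pi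

/-- The cosines. -/
def KPer_psi {n : ℕ} (t : Fin n → ℝ) : Fin n → ℝ :=
  fun i => ((t i) ^ 2 - 1) / (1 + (t i) ^ 2)

theorem KPer_cs {n : ℕ} (t : Fin n → ℝ) : cs (KPer_tau t) = KPer_psi t := by
  funext i
  have hpi := Real.pi_ne_zero
  have h1 : 2 * Real.pi * (1 / 2 + Real.arctan (t i) / Real.pi) =
      2 * Real.arctan (t i) + Real.pi := by
    field_simp
    ring
  change Real.cos (2 * Real.pi * (1 / 2 + Real.arctan (t i) / Real.pi)) = _
  rw [h1, Real.cos_add_pi, Real.cos_two_mul, Real.cos_arctan, div_pow, Real.sq_sqrt (by positivity)]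
  have h2 : (1 + (t i) ^ 2) ≠ 0 := by positivity
  change _ = ((t i) ^ 2 - 1) / (1 + (t i) ^ 2)
  field_simp
  ring

theorem KPer_range {n : ℕ} : KPer_tau (n := n) '' Set.univ =
    Set.univ.pi fun _ : Fin n => Set.Ioo (0 : ℝ) 1 := by
  have hpi := Real.pi_pos
  ext θ
  simp only [Set.image_univ, Set.mem_range, Set.mem_pi, Set.mem_univ, forall_true_left]
  constructor
  · rintro ⟨t, rfl⟩ i
    have h1 := Real.arctan_lt_pi_div_two (t i)
    have h2 := Real.neg_pi_div_two_lt_arctan (t i)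
    have h3 : Real.arctan (t i) / Real.pi < 1 / 2 := by
      rw [div_lt_iff₀ hpi]
      linarith
    have h4 : -(1 / 2) < Real.arctan (t i) / Real.pi := by
      rw [lt_div_iff₀ hpi]
      linarith
    change 0 < 1 / 2 + Real.arctan (t i) / Real.pi ∧ 1 / 2 + Real.arctan (t i) / Real.pi < 1
    constructor <;> linarith
  · intro h
    refine ⟨fun i => Real.tan (Real.pi * (θ i - 1 / 2)), ?_⟩
    funext i
    obtain ⟨h1, h2⟩ := h i
    change 1 / 2 + Real.arctan (Real.tan (Real.pi * (θ i - 1 / 2))) / Real.pi = θ i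
    rw [Real.arctan_tan (by nlinarith) (by nlinarith), mul_div_cancel_left₀ _ hpi.ne']
    ring

theorem KPer_inj {n : ℕ} : Set.InjOn (KPer_tau (n := n)) Set.univ := by
  intro s _ t _ h
  funext i
  have h1 : 1 / 2 + Real.arctan (s i) / Real.pi = 1 / 2 + Real.arctan (t i) / Real.pi :=
    congrFun h i
  have h2 : Real.arctan (s i) / Real.pi = Real.arctan (t i) / Real.pi := by linarith
  rw [div_left_inj' Real.pi_ne_zero] at h2
  exact Real.arctan_injective h2

theorem KPer_change {n : ℕ} (Φ : (Fin n → ℝ) → ℝ) :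
    (IntegrableOn Φ (Set.univ.pi fun _ : Fin n => Set.Ioo (0 : ℝ) 1) ↔ IntegrableOn
      (fun t => (∏ i, (1 / (1 + (t i) ^ 2) / Real.pi)) * Φ (KPer_tau t)) Set.univ) ∧
    ∫ x in (Set.univ.pi fun _ : Fin n => Set.Ioo (0 : ℝ) 1), Φ x =
      ∫ t in Set.univ, (∏ i, (1 / (1 + (t i) ^ 2) / Real.pi)) * Φ (KPer_tau t) := by
  set φ' : (Fin n → ℝ) → ((Fin n → ℝ) →L[ℝ] (Fin n → ℝ)) := fun y =>
    ContinuousLinearMap.pi fun i =>
      (1 / (1 + (y i) ^ 2) / Real.pi) • ContinuousLinearMap.proj i with hφ'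
  have hder : ∀ y ∈ (Set.univ : Set (Fin n → ℝ)),
      HasFDerivWithinAt (KPer_tau (n := n)) (φ' y) Set.univ y := by
    intro y _
    apply HasFDerivAt.hasFDerivWithinAt
    rw [hasFDerivAt_pi']
    intro i
    have h2 : HasDerivAt (fun t : ℝ => 1 / 2 + Real.arctan t / Real.pi)
        (1 / (1 + (y i) ^ 2) / Real.pi) (y i) :=
      ((Real.hasDerivAt_arctan (y i)).div_const Real.pi).const_add (1 / 2)
    have h4 : HasFDerivAt (fun z : Fin n → ℝ => z i) (ContinuousLinearMap.proj i) y :=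
      (ContinuousLinearMap.proj (R := ℝ) (φ := fun _ : Fin n => ℝ) i).hasFDerivAt
    have h5 := h2.comp_hasFDerivAt y h4
    refine h5.congr_fderiv ?_
    ext v
    simp [hφ']
  have hdet : ∀ y : Fin n → ℝ, |(φ' y).det| = ∏ i, (1 / (1 + (y i) ^ 2) / Real.pi) := by
    intro y
    have h1 : ((φ' y : (Fin n → ℝ) →L[ℝ] (Fin n → ℝ)) : (Fin n → ℝ) →ₗ[ℝ] (Fin n → ℝ)) =
        Matrix.toLin' (Matrix.diagonal fun i => 1 / (1 + (y i) ^ 2) / Real.pi) := by
      apply LinearMap.ext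
      intro v
      funext i
      rw [Matrix.toLin'_apply, Matrix.mulVec_diagonal]
      rfl
    have h2 : (φ' y).det = ∏ i, (1 / (1 + (y i) ^ 2) / Real.pi) := by
      rw [ContinuousLinearMap.det, h1, LinearMap.det_toLin', Matrix.det_diagonal]
    have h3 : 0 ≤ ∏ i, (1 / (1 + (y i) ^ 2) / Real.pi) :=
      Finset.prod_nonneg fun i _ => by positivity
    rw [h2, abs_of_nonneg h3]
  have key1 := integrableOn_image_iff_integrableOn_abs_det_fderiv_smul volume
    MeasurableSet.univ hder KPer_inj Φ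
  have key2 := integral_image_eq_integral_abs_det_fderiv_smul volume
    MeasurableSet.univ hder KPer_inj Φ
  rw [KPer_range] at key1 key2
  simp only [hdet, smul_eq_mul] at key1 key2
  exact ⟨key1, key2⟩

theorem KPer_num_pos {n : ℕ} (y : Fin n → ℝ) : 0 < (aeval y (num n) : ℝ) := by
  rw [HSub_num]
  exact Finset.prod_pos fun i _ => by positivity

theorem KPer_pull {n : ℕ} (p : MvPolynomial (Fin n) ℚ) :
    ∃ (d : ℕ) (q : MvPolynomial (Fin n) ℚ), ∀ y : Fin n → ℝ,
      aeval y q = aeval (KPer_psi y) p * (aeval y (num n)) ^ d := by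
  induction p using MvPolynomial.induction_on with
  | C a =>
    refine ⟨0, C a, fun y => ?_⟩
    rw [pow_zero, mul_one, aeval_C, aeval_C]
  | add p q hp hq =>
    obtain ⟨d1, q1, h1⟩ := hp
    obtain ⟨d2, q2, h2⟩ := hq
    refine ⟨d1 + d2, q1 * num n ^ d2 + q2 * num n ^ d1, fun y => ?_⟩
    rw [map_add, map_mul, map_mul, map_pow, map_pow, h1 y, h2 y, map_add, pow_add]
    ring
  | mul_X p i hp =>
    obtain ⟨d, q, h⟩ := hp
    refine ⟨d + 1, q * ((X i ^ 2 - 1) * ∏ j ∈ Finset.univ.erase i, (1 + (X j) ^ 2)), fun y => ?_⟩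
    have h1 : (1 + (y i) ^ 2) ≠ 0 := by positivity
    have h2 : aeval y (num n) = (1 + (y i) ^ 2) * ∏ j ∈ Finset.univ.erase i, (1 + (y j) ^ 2) := by
      rw [HSub_num]
      exact (Finset.mul_prod_erase Finset.univ (fun j => 1 + (y j) ^ 2) (Finset.mem_univ i)).symm
    have h3 : aeval y (∏ j ∈ Finset.univ.erase i, (1 + (X j : MvPolynomial (Fin n) ℚ) ^ 2)) =
        ∏ j ∈ Finset.univ.erase i, (1 + (y j) ^ 2) := by
      simp
    rw [map_mul, map_mul, h y, h3, map_mul, map_sub, map_pow, map_one, aeval_X, aeval_X]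
    have h4 : KPer_psi y i = ((y i) ^ 2 - 1) / (1 + (y i) ^ 2) := rfl
    have h5 : (aeval y (num n) : ℝ) ^ (d + 1) = (aeval y (num n)) ^ d *
        ((1 + (y i) ^ 2) * ∏ j ∈ Finset.univ.erase i, (1 + (y j) ^ 2)) := by
      rw [pow_succ, ← h2]
    rw [h4, h5]
    field_simp

/-- (K16) `π^M` times a torus integral in dimension `M` is a period.

Proof. The substitution `t = tan (πθ)`, `θ ∈ (-1/2, 1/2)`: `cos 2πθ = (1-t^2)/(1+t^2)`,
`π dθ = dt/(1+t^2)`. By periodicity the integral over `[0,1]^M` is the integral over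
`(-1/2,1/2)^M`. So `π^M ∫ R(cos 2πθ) dθ = ∫_{ℝ^M} R((1-t_i^2)/(1+t_i^2)) ∏ dt_i/(1+t_i^2)`
(measure form: the image of `dt/(1+t^2)` on `ℝ` under `t ↦ (1-t^2)/(1+t^2)` is `π` times the image
of `dθ` on `[0,1]` under `cos 2πθ`; then products). The integrand is a rational function with
rational coefficients: `A((1-t^2)/(1+t^2)) ∏ (1+t_i^2)^d` is a polynomial for large `d` (as in
`exists_pull`). Then `period_of_int` with `s = univ`. -/
theorem ct_period {M : ℕ} (A T : MvPolynomial (Fin M) ℚ)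
    (hi : IntegrableOn (fun θ => aeval (cs θ) A / (1 - aeval (cs θ) T)) (ucube (Fin M))) :
    IsPeriod (Real.pi ^ M * ∫ θ in ucube (Fin M), aeval (cs θ) A / (1 - aeval (cs θ) T)) := by
  have hpi := Real.pi_ne_zero
  obtain ⟨dA, qA, hA⟩ := KPer_pull A
  obtain ⟨dB, qB, hB⟩ := KPer_pull (1 - T)
  have hae : (Set.univ.pi fun _ : Fin M => Set.Ioo (0 : ℝ) 1) =ᵐ[volume] ucube (Fin M) := by
    have h1 := Measure.univ_pi_Ioo_ae_eq_Icc (μ := fun _ : Fin M => (volume : Measure ℝ))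
      (f := fun _ => 0) (g := fun _ => 1)
    exact h1
  have hval : ∀ t : Fin M → ℝ,
      Real.pi ^ M * ((∏ i, (1 / (1 + (t i) ^ 2) / Real.pi)) *
        ((aeval (cs (KPer_tau t)) A : ℝ) / (1 - aeval (cs (KPer_tau t)) T))) =
      (aeval t (qA * num M ^ dB) : ℝ) / aeval t (qB * num M ^ (dA + 1)) := by
    intro t
    have hN := (KPer_num_pos t).ne'
    have h1 : ∏ i, (1 / (1 + (t i) ^ 2) / Real.pi) =
        (aeval t (num M) : ℝ)⁻¹ * (Real.pi ^ M)⁻¹ := by
      rw [Finset.prod_div_distrib, Finset.prod_div_distrib, HSub_num]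
      simp [div_eq_mul_inv]
    have h2 : (aeval (KPer_psi t) A : ℝ) = aeval t qA / (aeval t (num M)) ^ dA := by
      rw [hA t, mul_div_cancel_right₀ _ (pow_ne_zero _ hN)]
    have h3 : (1 - aeval (KPer_psi t) T : ℝ) = aeval t qB / (aeval t (num M)) ^ dB := by
      rw [hB t, mul_div_cancel_right₀ _ (pow_ne_zero _ hN), map_sub, map_one]
    rw [KPer_cs, h1, h2, h3, map_mul, map_mul, map_pow, map_pow]
    by_cases hq : (aeval t qB : ℝ) = 0
    · rw [hq]
      simp
    · have hpM : Real.pi ^ M ≠ 0 := pow_ne_zero _ hpi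
      field_simp
      ring
  have hc := KPer_change (n := M) fun θ => (aeval (cs θ) A : ℝ) / (1 - aeval (cs θ) T)
  have hi1 := hc.1.mp (hi.congr_set_ae hae)
  have hi2 : IntegrableOn (fun t : Fin M → ℝ => (aeval t (qA * num M ^ dB) : ℝ) /
      aeval t (qB * num M ^ (dA + 1))) Set.univ := by
    have h1 := hi1.const_mul (Real.pi ^ M)
    simp only [hval] at h1
    exact h1
  have h2 : Real.pi ^ M * ∫ θ in ucube (Fin M), (aeval (cs θ) A : ℝ) / (1 - aeval (cs θ) T) =
      ∫ t in Set.univ, (aeval t (qA * num M ^ dB) : ℝ) / aeval t (qB * num M ^ (dA + 1)) := by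
    rw [← setIntegral_congr_set hae, hc.2, ← integral_const_mul]
    simp only [hval]
  rw [h2]
  exact period_of_int IsSA.univ _ _ hi2

end Pool.Agent.CVol
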