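import Pool.Agent.W_2cf66e_h65.Stmt

/-!
# MP_2cf66e_nt, constant term series: definitions (helper65)
-/

set_option autoImplicit false

noncomputable section

open MeasureTheory

namespace Pool.Agent.CVol

/-- The point `(cos 2πθ_i)_i`. -/
def cs {ι : Type} (θ : ι → ℝ) : ι → ℝ := fun i => Real.cos (2 * Real.pi * θ i)

/-- The cube `[0,1]^ι`. -/
def ucube (ι : Type) : Set (ι → ℝ) := Set.Icc (fun _ => (0 : ℝ)) (fun _ => (1 : ℝ))

/-- The constant term of `((z + 1/z)/2)^k`: it is `binom(2j, j)/4^j` for `k = 2j` and `0` for odd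
`k`. -/
def lam1 (k : ℕ) : ℚ := if Even k then (Nat.centralBinom (k / 2) : ℚ) / 4 ^ (k / 2) else 0

/-- The constant term of the Laurent polynomial `p((z_1 + 1/z_1)/2, ..., (z_M + 1/z_M)/2)`. -/
def Lam {ι : Type} [Fintype ι] (p : MvPolynomial ι ℚ) : ℚ :=
  ∑ α ∈ p.support, p.coeff α * ∏ i, lam1 (α i)

end Pool.Agent.CVol
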