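import Pool.Agent.W_2cf66e_h65.Defs
import Pool.Agent.W_2cf66e_h65.KDefs
import Pool.Agent.W_2cf66e_h65.HNull

/-!
# MP_2cf66e_nt, part K: the substitution `z = cos 2πθ` (helper65)
-/

set_option autoImplicit false

noncomputable section

open MeasureTheory MvPolynomial

namespace Pool.Agent.CVol

theorem KCos_deriv (θ : ℝ) : HasDerivAt (fun θ : ℝ => Real.cos (2 * Real.pi * θ))
    (-Real.sin (2 * Real.pi * θ) * (2 * Real.pi)) θ := by
  have h1 : HasDerivAt (fun θ : ℝ => 2 * Real.pi * θ) (2 * Real.pi) θ := by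
    simpa using (hasDerivAt_id θ).const_mul (2 * Real.pi)
  exact h1.cos

theorem KCos_piece (S : Set ℝ) (hS : MeasurableSet S)
    (hinj : Set.InjOn (fun θ : ℝ => Real.cos (2 * Real.pi * θ)) S) :
    ∫⁻ θ in S, ENNReal.ofReal (Real.pi * |Real.sin (2 * Real.pi * θ)|) =
      (1 / 2) * volume ((fun θ : ℝ => Real.cos (2 * Real.pi * θ)) '' S) := by
  have h1 := lintegral_image_eq_lintegral_abs_deriv_mul hS
    (fun x _ => (KCos_deriv x).hasDerivWithinAt) hinj (fun _ => (1 / 2 : ENNReal))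
  rw [setLIntegral_const] at h1
  rw [h1]
  refine lintegral_congr fun θ => ?_
  have h2 : (1 / 2 : ENNReal) = ENNReal.ofReal (1 / 2) := by
    rw [ENNReal.ofReal_div_of_pos (by norm_num)]
    simp
  rw [h2, ← ENNReal.ofReal_mul (abs_nonneg _)]
  congr 1
  rw [abs_mul, abs_neg, abs_of_pos (by positivity : (0 : ℝ) < 2 * Real.pi)]
  ring

theorem KCos_inj1 : Set.InjOn (fun θ : ℝ => Real.cos (2 * Real.pi * θ)) (Set.Icc 0 (1 / 2)) := by
  intro x hx y hy hxy
  have hpi := Real.pi_pos
  have h1 : 2 * Real.pi * x ∈ Set.Icc 0 Real.pi := by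
    constructor
    · have := hx.1
      positivity
    · nlinarith [hx.2]
  have h2 : 2 * Real.pi * y ∈ Set.Icc 0 Real.pi := by
    constructor
    · have := hy.1
      positivity
    · nlinarith [hy.2]
  have h3 := Real.injOn_cos h1 h2 hxy
  exact mul_left_cancel₀ (by positivity) h3

theorem KCos_refl (θ : ℝ) : Real.cos (2 * Real.pi * (1 - θ)) = Real.cos (2 * Real.pi * θ) := by
  have : 2 * Real.pi * (1 - θ) = 2 * Real.pi - 2 * Real.pi * θ := by ring
  rw [this, Real.cos_two_pi_sub]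

theorem KCos_inj2 : Set.InjOn (fun θ : ℝ => Real.cos (2 * Real.pi * θ)) (Set.Ioc (1 / 2) 1) := by
  intro x hx y hy hxy
  have h1 : (1 - x) ∈ Set.Icc (0 : ℝ) (1 / 2) := ⟨by linarith [hx.2], by linarith [hx.1]⟩
  have h2 : (1 - y) ∈ Set.Icc (0 : ℝ) (1 / 2) := ⟨by linarith [hy.2], by linarith [hy.1]⟩
  have h3 := KCos_inj1 h1 h2 (by
    show Real.cos (2 * Real.pi * (1 - x)) = Real.cos (2 * Real.pi * (1 - y))
    rw [KCos_refl, KCos_refl]
    exact hxy)
  linarith

theorem KCos_img1 :
    (fun θ : ℝ => Real.cos (2 * Real.pi * θ)) '' Set.Icc 0 (1 / 2) = Set.Icc (-1) 1 := by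
  have hpi := Real.pi_pos
  ext y
  constructor
  · rintro ⟨x, _, rfl⟩
    exact ⟨Real.neg_one_le_cos _, Real.cos_le_one _⟩
  · rintro ⟨h1, h2⟩
    refine ⟨Real.arccos y / (2 * Real.pi), ⟨?_, ?_⟩, ?_⟩
    · have := Real.arccos_nonneg y
      positivity
    · rw [div_le_iff₀ (by positivity)]
      have := Real.arccos_le_pi y
      linarith
    · show Real.cos (2 * Real.pi * (Real.arccos y / (2 * Real.pi))) = y
      rw [mul_div_cancel₀ _ (by positivity : (2 * Real.pi) ≠ 0), Real.cos_arccos h1 h2]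

theorem KCos_img2 :
    (fun θ : ℝ => Real.cos (2 * Real.pi * θ)) '' Set.Ioc (1 / 2) 1 = Set.Ioc (-1) 1 := by
  have hpi := Real.pi_pos
  ext y
  constructor
  · rintro ⟨x, hx, rfl⟩
    refine ⟨lt_of_le_of_ne (Real.neg_one_le_cos _) fun h => ?_, Real.cos_le_one _⟩
    have h1 : (1 - x) ∈ Set.Icc (0 : ℝ) (1 / 2) := ⟨by linarith [hx.2], by linarith [hx.1]⟩
    have h2 : (1 / 2 : ℝ) ∈ Set.Icc (0 : ℝ) (1 / 2) := ⟨by norm_num, le_refl _⟩
    have h3 := KCos_inj1 h1 h2 (by
      show Real.cos (2 * Real.pi * (1 - x)) = Real.cos (2 * Real.pi * (1 / 2))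
      have h' : -1 = Real.cos (2 * Real.pi * x) := h
      rw [KCos_refl, ← h']
      have : 2 * Real.pi * (1 / 2) = Real.pi := by ring
      rw [this, Real.cos_pi])
    have := hx.1
    linarith
  · rintro ⟨h1, h2⟩
    have h3 : y ∈ (fun θ : ℝ => Real.cos (2 * Real.pi * θ)) '' Set.Icc 0 (1 / 2) := by
      rw [KCos_img1]
      exact ⟨h1.le, h2⟩
    obtain ⟨x, hx, rfl⟩ := h3
    refine ⟨1 - x, ⟨?_, by linarith [hx.1]⟩, KCos_refl x⟩
    have h4 : x < 1 / 2 := by
      refine lt_of_le_of_ne hx.2 fun h => ?_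
      rw [h] at h1
      have : 2 * Real.pi * (1 / 2) = Real.pi := by ring
      simp only [this, Real.cos_pi, lt_self_iff_false] at h1
    linarith

/-- (K4) One variable: the image of the measure `π |sin 2πθ| dθ` on `[0,1]` under `cos 2πθ` is
Lebesgue measure on `[-1,1]`.

Proof. For a measurable set (or a nonnegative measurable function) use the change of variables
`z = cos 2πθ` on `[0, 1/2]` and on `[1/2, 1]` (monotone pieces,
`MeasureTheory.lintegral_image_eq_lintegral_abs_deriv_mul`), each giving one half. -/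
theorem map_cos : Measure.map (fun θ : ℝ => Real.cos (2 * Real.pi * θ))
    ((volume.restrict (Set.Icc (0 : ℝ) 1)).withDensity
      (fun θ => ENNReal.ofReal (Real.pi * |Real.sin (2 * Real.pi * θ)|))) =
    volume.restrict (Set.Icc (-1 : ℝ) 1) := by
  have hcm : Measurable (fun θ : ℝ => Real.cos (2 * Real.pi * θ)) := by fun_prop
  ext A hA
  rw [Measure.map_apply hcm hA, withDensity_apply _ (hcm hA), Measure.restrict_restrict (hcm hA),
    Measure.restrict_apply hA]
  have hI : Set.Icc (0 : ℝ) 1 = Set.Icc 0 (1 / 2) ∪ Set.Ioc (1 / 2) 1 :=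
    (Set.Icc_union_Ioc_eq_Icc (by norm_num) (by norm_num)).symm
  have hdis : Disjoint (Set.Icc (0 : ℝ) (1 / 2)) (Set.Ioc (1 / 2) 1) := by
    rw [Set.disjoint_left]
    intro x hx hx'
    exact absurd hx.2 (not_le.2 hx'.1)
  rw [hI, Set.inter_union_distrib_left,
    lintegral_union ((hcm hA).inter measurableSet_Ioc)
      (hdis.mono Set.inter_subset_right Set.inter_subset_right),
    KCos_piece _ ((hcm hA).inter measurableSet_Icc) (KCos_inj1.mono Set.inter_subset_right),
    KCos_piece _ ((hcm hA).inter measurableSet_Ioc) (KCos_inj2.mono Set.inter_subset_right),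
    Set.inter_comm _ (Set.Icc (0 : ℝ) (1 / 2)), Set.inter_comm _ (Set.Ioc (1 / 2 : ℝ) 1),
    Set.image_inter_preimage, Set.image_inter_preimage, KCos_img1, KCos_img2]
  have h1 : volume (Set.Ioc (-1 : ℝ) 1 ∩ A) = volume (Set.Icc (-1 : ℝ) 1 ∩ A) :=
    measure_congr (Ioc_ae_eq_Icc.inter (ae_eq_refl A))
  rw [h1, ← add_mul, ENNReal.add_halves, one_mul, Set.inter_comm]

theorem KCos_lint {n : ℕ} (ν : Fin n → Measure ℝ) [∀ i, IsFiniteMeasure (ν i)] (g : ℝ → ℝ)
    (hg : Measurable g) (h0 : ∀ t, 0 ≤ g t) (C : ℝ) (hC : ∀ t, g t ≤ C) :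
    ∫⁻ θ, ∏ i, ENNReal.ofReal (g (θ i)) ∂(Measure.pi ν) =
      ∏ i, ∫⁻ t, ENNReal.ofReal (g t) ∂(ν i) := by
  have hint : ∀ i, Integrable g (ν i) := fun i =>
    Integrable.of_bound hg.aestronglyMeasurable C (Filter.Eventually.of_forall fun t => by
      rw [Real.norm_eq_abs, abs_of_nonneg (h0 t)]
      exact hC t)
  have h1 : ∀ θ : Fin n → ℝ, ∏ i, ENNReal.ofReal (g (θ i)) = ENNReal.ofReal (∏ i, g (θ i)) :=
    fun θ => (ENNReal.ofReal_prod_of_nonneg fun i _ => h0 _).symm
  simp only [h1]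
  rw [← ofReal_integral_eq_lintegral_ofReal (Integrable.fin_nat_prod (f := fun _ => g) hint)
    (Filter.Eventually.of_forall fun θ => Finset.prod_nonneg fun i _ => h0 _),
    integral_fin_nat_prod_eq_prod (fun _ => g),
    ENNReal.ofReal_prod_of_nonneg fun i _ => integral_nonneg h0]
  refine Finset.prod_congr rfl fun i _ => ?_
  exact ofReal_integral_eq_lintegral_ofReal (hint i) (Filter.Eventually.of_forall h0)

theorem KCos_pi {n : ℕ} (ν : Measure ℝ) [IsFiniteMeasure ν] (g : ℝ → ℝ)
    (hg : Measurable g) (h0 : ∀ t, 0 ≤ g t) (C : ℝ) (hC : ∀ t, g t ≤ C)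
    [SigmaFinite (ν.withDensity fun t => ENNReal.ofReal (g t))] :
    Measure.pi (fun _ : Fin n => ν.withDensity fun t => ENNReal.ofReal (g t)) =
      (Measure.pi (fun _ : Fin n => ν)).withDensity
        fun θ => ∏ i, ENNReal.ofReal (g (θ i)) := by
  refine Measure.pi_eq fun s hs => ?_
  rw [withDensity_apply _ (MeasurableSet.univ_pi hs), Measure.restrict_pi_pi,
    KCos_lint _ g hg h0 C hC]
  refine Finset.prod_congr rfl fun i _ => ?_
  rw [withDensity_apply _ (hs i)]

theorem KCos_ucube {n : ℕ} : Measure.pi (fun _ : Fin n => volume.restrict (Set.Icc (0 : ℝ) 1)) =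
    volume.restrict (ucube (Fin n)) := by
  rw [← Measure.restrict_pi_pi]
  congr 1
  rw [ucube]
  exact Set.pi_univ_Icc _ _

theorem KCos_box {n : ℕ} : Measure.pi (fun _ : Fin n => volume.restrict (Set.Icc (-1 : ℝ) 1)) =
    volume.restrict (box (Fin n)) := by
  rw [← Measure.restrict_pi_pi]
  congr 1
  rw [box]
  exact Set.pi_univ_Icc _ _

theorem KCos_map {n : ℕ} : Measure.map (cs : (Fin n → ℝ) → Fin n → ℝ)
    ((volume.restrict (ucube (Fin n))).withDensity
      fun θ => ∏ i, ENNReal.ofReal (Real.pi * |Real.sin (2 * Real.pi * θ i)|)) =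
    volume.restrict (box (Fin n)) := by
  have hcm : Measurable (fun θ : ℝ => Real.cos (2 * Real.pi * θ)) := by fun_prop
  have hg : Measurable (fun t : ℝ => Real.pi * |Real.sin (2 * Real.pi * t)|) := by fun_prop
  have h0 : ∀ t : ℝ, 0 ≤ Real.pi * |Real.sin (2 * Real.pi * t)| := fun t => by positivity
  have hC : ∀ t : ℝ, Real.pi * |Real.sin (2 * Real.pi * t)| ≤ Real.pi := fun t => by
    have h1 := Real.abs_sin_le_one (2 * Real.pi * t)
    have h2 := Real.pi_pos
    nlinarith
  have hfin : IsFiniteMeasure ((volume.restrict (Set.Icc (0 : ℝ) 1)).withDensity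
      (fun θ => ENNReal.ofReal (Real.pi * |Real.sin (2 * Real.pi * θ)|))) := by
    refine isFiniteMeasure_withDensity ?_
    refine ne_of_lt (lt_of_le_of_lt (lintegral_mono fun t => ENNReal.ofReal_le_ofReal (hC t)) ?_)
    rw [lintegral_const]
    exact ENNReal.mul_lt_top ENNReal.ofReal_lt_top (measure_lt_top _ _)
  have h1 := KCos_pi (n := n) (volume.restrict (Set.Icc (0 : ℝ) 1)) _ hg h0 Real.pi hC
  rw [KCos_ucube] at h1
  rw [← h1]
  have hmap := map_cos
  have hsf : ∀ _ : Fin n, SigmaFinite (Measure.map (fun θ : ℝ => Real.cos (2 * Real.pi * θ))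
      ((volume.restrict (Set.Icc (0 : ℝ) 1)).withDensity
        (fun θ => ENNReal.ofReal (Real.pi * |Real.sin (2 * Real.pi * θ)|)))) := fun _ => by
    rw [hmap]
    infer_instance
  have h2 := Measure.pi_map_pi (hμ := hsf) (f := fun (_ : Fin n) (θ : ℝ) => Real.cos (2 * Real.pi * θ))
    (μ := fun _ : Fin n => (volume.restrict (Set.Icc (0 : ℝ) 1)).withDensity
      (fun θ => ENNReal.ofReal (Real.pi * |Real.sin (2 * Real.pi * θ)|)))
    (fun _ => hcm.aemeasurable)
  have h3 : (fun _ : Fin n => Measure.map (fun θ : ℝ => Real.cos (2 * Real.pi * θ))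
      ((volume.restrict (Set.Icc (0 : ℝ) 1)).withDensity
        (fun θ => ENNReal.ofReal (Real.pi * |Real.sin (2 * Real.pi * θ)|)))) =
      fun _ : Fin n => volume.restrict (Set.Icc (-1 : ℝ) 1) := by
    funext _
    exact hmap
  rw [h3, KCos_box] at h2
  exact h2

theorem KCos_meas {n : ℕ} : Measurable (cs : (Fin n → ℝ) → Fin n → ℝ) := by
  unfold cs
  fun_prop

/-- (K5) Several variables. Proof: `map_cos` in each variable: the product measure
`Measure.pi (fun _ => μ)` with `μ` = the weighted measure is the weighted product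
(`Measure.pi` of `withDensity`; or prove the statement by induction on `n` with Fubini), and
`MeasureTheory.Measure.pi_map_pi` or `measurePreserving_pi`. -/
theorem int_cos {n : ℕ} (f : (Fin n → ℝ) → ℝ) (hf : Measurable f) (C : ℝ)
    (hb : ∀ z, |f z| ≤ C) :
    ∫ z in box (Fin n), f z =
      ∫ θ in ucube (Fin n), f (cs θ) * ∏ i, (Real.pi * |Real.sin (2 * Real.pi * θ i)|) := by
  have hdm : Measurable (fun θ : Fin n → ℝ =>
      ∏ i, ENNReal.ofReal (Real.pi * |Real.sin (2 * Real.pi * θ i)|)) :=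
    Finset.measurable_prod _ fun i _ => by fun_prop
  have hlt : ∀ θ : Fin n → ℝ,
      ∏ i, ENNReal.ofReal (Real.pi * |Real.sin (2 * Real.pi * θ i)|) < ⊤ := fun θ =>
    ENNReal.prod_lt_top fun i _ => ENNReal.ofReal_lt_top
  rw [← KCos_map, integral_map KCos_meas.aemeasurable hf.aestronglyMeasurable,
    integral_withDensity_eq_integral_toReal_smul hdm (Filter.Eventually.of_forall hlt)]
  refine integral_congr_ae (Filter.Eventually.of_forall fun θ => ?_)
  show (∏ i, ENNReal.ofReal (Real.pi * |Real.sin (2 * Real.pi * θ i)|)).toReal • f (cs θ) =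
    f (cs θ) * ∏ i, (Real.pi * |Real.sin (2 * Real.pi * θ i)|)
  rw [ENNReal.toReal_prod, smul_eq_mul, mul_comm]
  congr 1
  refine Finset.prod_congr rfl fun i _ => ?_
  rw [ENNReal.toReal_ofReal (by positivity)]

/-- (K6) The zero set of a nonzero polynomial in the variables `cos 2πθ_i` is a null set in the
unit cube. Proof: `int_cos` for the indicator of the zero set (`null_rat`): the integral of a
nonnegative function vanishes, and `∏ |sin 2πθ_i| > 0` almost everywhere. -/
theorem null_cos {n : ℕ} (p : MvPolynomial (Fin n) ℚ) (hp : p ≠ 0) :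
    ∀ᵐ θ ∂(volume.restrict (ucube (Fin n))), aeval (cs θ) p ≠ 0 := by
  have hpi := Real.pi_pos
  have hdm : Measurable (fun θ : Fin n → ℝ =>
      ∏ i, ENNReal.ofReal (Real.pi * |Real.sin (2 * Real.pi * θ i)|)) :=
    Finset.measurable_prod _ fun i _ => by fun_prop
  have hZm : MeasurableSet {z : Fin n → ℝ | aeval z p = 0} := by
    have h1 : {z : Fin n → ℝ | aeval z p = 0} = {z | eval z (re p) = 0} := by
      ext z
      simp only [Set.mem_ofPred_eq, eval_re]
    rw [h1]
    exact (isClosed_singleton.preimage (MvPolynomial.continuous_eval (re p))).measurableSet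
  have hZ : (volume.restrict (box (Fin n))) {z : Fin n → ℝ | aeval z p = 0} = 0 :=
    le_antisymm ((Measure.restrict_apply_le _ _).trans (null_rat p hp).le) zero_le
  rw [← KCos_map, Measure.map_apply KCos_meas hZm,
    withDensity_apply_eq_zero' hdm.aemeasurable] at hZ
  -- the density vanishes on a null set only
  have hS : ∀ᵐ θ : Fin n → ℝ ∂(volume.restrict (ucube (Fin n))),
      ∏ i, ENNReal.ofReal (Real.pi * |Real.sin (2 * Real.pi * θ i)|) ≠ 0 := by
    refine ae_restrict_of_ae ?_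
    have h1 : ∀ i : Fin n, ∀ᵐ θ : Fin n → ℝ, Real.sin (2 * Real.pi * θ i) ≠ 0 := by
      intro i
      have hc : volume {t : ℝ | Real.sin (2 * Real.pi * t) = 0} = 0 := by
        have h2 : {t : ℝ | Real.sin (2 * Real.pi * t) = 0} ⊆
            Set.range (fun k : ℤ => (k : ℝ) / 2) := by
          intro t ht
          obtain ⟨k, hk⟩ := Real.sin_eq_zero_iff.1 ht
          refine ⟨k, ?_⟩
          have h3 : Real.pi * (k : ℝ) = Real.pi * (2 * t) := by linarith
          have h4 := mul_left_cancel₀ hpi.ne' h3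
          show (k : ℝ) / 2 = t
          rw [h4]
          ring
        exact ((Set.countable_range _).mono h2).measure_zero _
      have h5 := Measure.pi_eval_preimage_null (μ := fun _ : Fin n => (volume : Measure ℝ))
        (i := i) hc
      rw [ae_iff]
      simp only [ne_eq, not_not]
      exact h5
    have h2 := ae_all_iff.2 h1
    filter_upwards [h2] with θ hθ
    rw [Finset.prod_ne_zero_iff]
    intro i _
    have h3 : 0 < Real.pi * |Real.sin (2 * Real.pi * θ i)| := mul_pos hpi (abs_pos.2 (hθ i))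
    exact (ENNReal.ofReal_pos.2 h3).ne'
  rw [ae_iff] at hS ⊢
  simp only [ne_eq, not_not] at hS ⊢
  refine measure_mono_null ?_ (measure_union_null hZ hS)
  intro θ hθ
  by_cases h : ∏ i, ENNReal.ofReal (Real.pi * |Real.sin (2 * Real.pi * θ i)|) = 0
  · exact Or.inr h
  · exact Or.inl ⟨h, hθ⟩

end Pool.Agent.CVol
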