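import Pool.Agent.W_2cf66e_h65.Defs
import Pool.Agent.W_2cf66e_h65.KCos

/-!
# MP_2cf66e_nt, part K: the series (helper65)
-/

set_option autoImplicit false

noncomputable section

open MeasureTheory MvPolynomial

namespace Pool.Agent.CVol

theorem KSer_aux1 (k : ℕ) :
    ∫ x in (0 : ℝ)..(2 * Real.pi), Real.cos x ^ (k + 2) =
      ((k : ℝ) + 1) / (k + 2) * ∫ x in (0 : ℝ)..(2 * Real.pi), Real.cos x ^ k := by
  rw [integral_cos_pow]
  simp

theorem KSer_aux2 (k : ℕ) : lam1 (k + 2) = ((k : ℚ) + 1) / (k + 2) * lam1 k := by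
  unfold lam1
  by_cases hk : Even k
  · have hk2 : Even (k + 2) := hk.add even_two
    rw [if_pos hk, if_pos hk2]
    obtain ⟨j, rfl⟩ := hk
    have e1 : (j + j + 2) / 2 = j + 1 := by omega
    have e2 : (j + j) / 2 = j := by omega
    rw [e1, e2]
    have h := Nat.succ_mul_centralBinom_succ j
    have h' : ((j : ℚ) + 1) * (Nat.centralBinom (j + 1) : ℚ) =
        2 * (2 * j + 1) * (Nat.centralBinom j : ℚ) := by
      exact_mod_cast h
    have hj : (j : ℚ) + 1 ≠ 0 := by positivity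
    have h4 : (4 : ℚ) ^ j ≠ 0 := by positivity
    have hj2 : (((j + j : ℕ) : ℚ) + 2) ≠ 0 := by positivity
    rw [div_mul_div_comm, div_eq_div_iff (by positivity) (by positivity)]
    push_cast
    rw [pow_succ]
    linear_combination (2 * 4 ^ j) * h'
  · have hk2 : ¬ Even (k + 2) := by
      intro h
      apply hk
      rcases h with ⟨j, hj⟩
      exact ⟨j - 1, by omega⟩
    rw [if_neg hk, if_neg hk2, mul_zero]

theorem KSer_aux3 (k : ℕ) :
    ∫ x in (0 : ℝ)..(2 * Real.pi), Real.cos x ^ k = 2 * Real.pi * (lam1 k : ℝ) := by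
  induction k using Nat.twoStepInduction with
  | zero =>
    simp [lam1]
  | one =>
    simp [lam1]
  | more k ih _ =>
    rw [KSer_aux1, ih, KSer_aux2]
    push_cast
    ring

/-- (K11) One variable moments. Proof: `∫_0^1 cos^k (2πθ) dθ`; for odd `k` it is `0` and for
`k = 2j` it is `binom(2j,j)/4^j` (Mathlib has reduction formulas `integral_cos_pow`,
`integral_sin_pow_even`..., or expand `cos = (e^{ix} + e^{-ix})/2` by the binomial theorem). -/
theorem int_cos_pow (k : ℕ) :
    ∫ θ in (0 : ℝ)..1, (Real.cos (2 * Real.pi * θ)) ^ k = (lam1 k : ℝ) := by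
  have h := intervalIntegral.integral_comp_mul_left (a := (0 : ℝ)) (b := 1)
    (fun x => Real.cos x ^ k) (c := 2 * Real.pi) (by positivity)
  rw [h, mul_zero, mul_one, KSer_aux3, smul_eq_mul]
  have hpi : (2 * Real.pi) ≠ 0 := by positivity
  rw [← mul_assoc, inv_mul_cancel₀ hpi, one_mul]

theorem KSer_cont {n : ℕ} (p : MvPolynomial (Fin n) ℚ) :
    Continuous fun θ : Fin n → ℝ => aeval (cs θ) p := by
  have h : (fun θ : Fin n → ℝ => aeval (cs θ) p) = fun θ =>
      ∑ α ∈ p.support, (algebraMap ℚ ℝ (p.coeff α)) * ∏ i, (cs θ i) ^ α i := by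
    funext θ
    rw [aeval_def, eval₂_eq']
  rw [h]
  unfold cs
  fun_prop

theorem KSer_int {n : ℕ} {f : (Fin n → ℝ) → ℝ} (hf : Continuous f) :
    IntegrableOn f (ucube (Fin n)) :=
  hf.continuousOn.integrableOn_compact isCompact_Icc

theorem KSer_mono {n : ℕ} (α : Fin n → ℕ) :
    ∫ θ in ucube (Fin n), ∏ i, (cs θ i) ^ α i = ((∏ i, lam1 (α i) : ℚ) : ℝ) := by
  have h1 : ucube (Fin n) = Set.univ.pi fun _ => Set.Icc (0 : ℝ) 1 := by
    unfold ucube
    rw [Set.pi_univ_Icc]
  rw [h1, volume_pi, Measure.restrict_pi_pi]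
  have h2 := integral_fintype_prod_eq_prod (𝕜 := ℝ)
    (μ := fun _ : Fin n => (volume : Measure ℝ).restrict (Set.Icc (0 : ℝ) 1))
    (fun (i : Fin n) (x : ℝ) => (Real.cos (2 * Real.pi * x)) ^ α i)
  unfold cs
  rw [h2]
  push_cast
  refine Finset.prod_congr rfl fun i _ => ?_
  rw [← int_cos_pow, intervalIntegral.integral_of_le zero_le_one, integral_Icc_eq_integral_Ioc]

/-- (K12) The constant term is the mean value over the torus. Proof: linearity over the monomials
(`MvPolynomial.as_sum` / `MvPolynomial.aeval_def`, `eval₂_eq'`), and for a monomial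
`MeasureTheory.integral_fintype_prod_eq_prod` with the restricted measures, `int_cos_pow`. -/
theorem int_Lam {n : ℕ} (p : MvPolynomial (Fin n) ℚ) :
    ∫ θ in ucube (Fin n), aeval (cs θ) p = (Lam p : ℝ) := by
  have h : (fun θ : Fin n → ℝ => aeval (cs θ) p) = fun θ =>
      ∑ α ∈ p.support, (algebraMap ℚ ℝ (p.coeff α)) * ∏ i, (cs θ i) ^ α i := by
    funext θ
    rw [aeval_def, eval₂_eq']
  rw [h, integral_finsetSum]
  · unfold Lam
    push_cast
    refine Finset.sum_congr rfl fun α _ => ?_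
    rw [integral_const_mul, KSer_mono]
    push_cast
    rfl
  · intro α _
    refine KSer_int ?_
    unfold cs
    fun_prop

theorem KSer_cs_mem {n : ℕ} (θ : Fin n → ℝ) : cs θ ∈ box (Fin n) := by
  refine ⟨fun i => ?_, fun i => ?_⟩
  · exact Real.neg_one_le_cos _
  · exact Real.cos_le_one _

/-- (K13) Integrability of `A/(1-T)` is the same as summability of the integrals of `|A| T^m`, and
then the integral is the sum of the constant terms of `A T^m`.

Proof. `0 ≤ T ≤ 1` on the cube and `T < 1` almost everywhere (`null_cos` for `1 - T`), so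
`∑_m |A| T^m = |A|/(1 - T)` a.e. If the right side is integrable, the finite sums of
`∑ ∫ |A| T^m` are bounded by its integral, so summable. Conversely by
`MeasureTheory.hasSum_integral_of_summable_integral_norm` (integrable terms: continuous functions
on a compact cube) the function `∑_m A T^m = A/(1-T)` is integrable
(`MeasureTheory.integrable_of_summable_norm...`, or monotone convergence for `|A| T^m`) with
integral `∑ ∫ A T^m = ∑ Lam (A T^m)` (`int_Lam`). -/
theorem series_iff {n : ℕ} (A T : MvPolynomial (Fin n) ℚ) (hT1 : T ≠ 1)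
    (hT : ∀ c ∈ box (Fin n), 0 ≤ aeval c T ∧ aeval c T ≤ 1) :
    (IntegrableOn (fun θ => aeval (cs θ) A / (1 - aeval (cs θ) T)) (ucube (Fin n)) ↔
      Summable fun m : ℕ => ∫ θ in ucube (Fin n), |aeval (cs θ) A| * (aeval (cs θ) T) ^ m) ∧
    (IntegrableOn (fun θ => aeval (cs θ) A / (1 - aeval (cs θ) T)) (ucube (Fin n)) →
      ∫ θ in ucube (Fin n), aeval (cs θ) A / (1 - aeval (cs θ) T) =
        ∑' m : ℕ, (Lam (A * T ^ m) : ℝ)) := by
  obtain ⟨A', hA'⟩ : ∃ A' : (Fin n → ℝ) → ℝ, A' = fun θ => aeval (cs θ) A := ⟨_, rfl⟩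
  obtain ⟨T', hT'⟩ : ∃ T' : (Fin n → ℝ) → ℝ, T' = fun θ => aeval (cs θ) T := ⟨_, rfl⟩
  have hAc : Continuous A' := hA' ▸ KSer_cont A
  have hTc : Continuous T' := hT' ▸ KSer_cont T
  have hAe : ∀ θ, aeval (cs θ) A = A' θ := fun θ => by rw [hA']
  have hTe : ∀ θ, aeval (cs θ) T = T' θ := fun θ => by rw [hT']
  have hT0 : ∀ θ, 0 ≤ T' θ := fun θ => hTe θ ▸ (hT _ (KSer_cs_mem θ)).1
  have hT1' : ∀ θ, T' θ ≤ 1 := fun θ => hTe θ ▸ (hT _ (KSer_cs_mem θ)).2
  have hae : ∀ᵐ θ ∂(volume.restrict (ucube (Fin n))), T' θ < 1 := by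
    have h1T : (1 : MvPolynomial (Fin n) ℚ) - T ≠ 0 := fun h => hT1 (sub_eq_zero.1 h).symm
    filter_upwards [null_cos _ h1T] with θ hθ
    rw [map_sub, map_one, hTe] at hθ
    exact lt_of_le_of_ne (hT1' θ) fun h => hθ (by rw [h, sub_self])
  have hFc : ∀ m : ℕ, Continuous fun θ => A' θ * T' θ ^ m := fun m => by fun_prop
  have hFi : ∀ m : ℕ, Integrable (fun θ => A' θ * T' θ ^ m) (volume.restrict (ucube (Fin n))) :=
    fun m => KSer_int (hFc m)
  have hGi : ∀ m : ℕ, Integrable (fun θ => |A' θ| * T' θ ^ m) (volume.restrict (ucube (Fin n))) :=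
    fun m => KSer_int (by fun_prop)
  have hnorm : ∀ (m : ℕ) (θ : Fin n → ℝ), ‖A' θ * T' θ ^ m‖ = |A' θ| * T' θ ^ m := by
    intro m θ
    rw [norm_mul, Real.norm_eq_abs, Real.norm_eq_abs, abs_of_nonneg (pow_nonneg (hT0 θ) m)]
  have hsumG : ∀ᵐ θ ∂(volume.restrict (ucube (Fin n))),
      HasSum (fun m : ℕ => |A' θ| * T' θ ^ m) (|A' θ| / (1 - T' θ)) := by
    filter_upwards [hae] with θ hθ
    rw [div_eq_mul_inv]
    exact (hasSum_geometric_of_lt_one (hT0 θ) hθ).mul_left _
  have hsumF : ∀ᵐ θ ∂(volume.restrict (ucube (Fin n))),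
      HasSum (fun m : ℕ => A' θ * T' θ ^ m) (A' θ / (1 - T' θ)) := by
    filter_upwards [hae] with θ hθ
    rw [div_eq_mul_inv]
    exact (hasSum_geometric_of_lt_one (hT0 θ) hθ).mul_left _
  have hnf : ∀ θ, ‖A' θ / (1 - T' θ)‖ = |A' θ| / (1 - T' θ) := by
    intro θ
    rw [norm_div, Real.norm_eq_abs, Real.norm_eq_abs,
      abs_of_nonneg (sub_nonneg.2 (hT1' θ))]
  have hmeas : AEStronglyMeasurable (fun θ => A' θ / (1 - T' θ))
      (volume.restrict (ucube (Fin n))) :=
    (hAc.measurable.div (measurable_const.sub hTc.measurable)).aestronglyMeasurable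
  simp only [hAe, hTe]
  have hfwd : IntegrableOn (fun θ => A' θ / (1 - T' θ)) (ucube (Fin n)) →
      Summable fun m : ℕ => ∫ θ in ucube (Fin n), |A' θ| * T' θ ^ m := by
    intro hf
    refine summable_of_sum_le (c := ∫ θ in ucube (Fin n), |A' θ| / (1 - T' θ)) ?_ ?_
    · intro m
      exact integral_nonneg fun θ => mul_nonneg (abs_nonneg _) (pow_nonneg (hT0 θ) m)
    · intro u
      rw [← integral_finsetSum _ fun m _ => hGi m]
      refine integral_mono_ae (integrable_finsetSum _ fun m _ => hGi m) ?_ ?_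
      · refine hf.norm.congr (Filter.Eventually.of_forall fun θ => ?_)
        exact hnf θ
      · filter_upwards [hsumG] with θ hθ
        exact sum_le_hasSum u (fun m _ => mul_nonneg (abs_nonneg _) (pow_nonneg (hT0 θ) m)) hθ
  have hbwd : (Summable fun m : ℕ => ∫ θ in ucube (Fin n), |A' θ| * T' θ ^ m) →
      IntegrableOn (fun θ => A' θ / (1 - T' θ)) (ucube (Fin n)) := by
    intro hs
    refine ⟨hmeas, ?_⟩
    rw [hasFiniteIntegral_iff_norm]
    have h1 : ∫⁻ θ in ucube (Fin n), ENNReal.ofReal ‖A' θ / (1 - T' θ)‖ =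
        ∫⁻ θ in ucube (Fin n), ∑' m : ℕ, ENNReal.ofReal (|A' θ| * T' θ ^ m) := by
      refine lintegral_congr_ae ?_
      filter_upwards [hsumG] with θ hθ
      rw [hnf, ← hθ.tsum_eq]
      exact ENNReal.ofReal_tsum_of_nonneg
        (fun m => mul_nonneg (abs_nonneg _) (pow_nonneg (hT0 θ) m)) hθ.summable
    rw [h1, lintegral_tsum fun m => by
      exact ((hAc.abs.mul (hTc.pow m)).measurable.ennreal_ofReal).aemeasurable]
    have h2 : ∀ m : ℕ, ∫⁻ θ in ucube (Fin n), ENNReal.ofReal (|A' θ| * T' θ ^ m) =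
        ENNReal.ofReal (∫ θ in ucube (Fin n), |A' θ| * T' θ ^ m) := by
      intro m
      rw [ofReal_integral_eq_lintegral_ofReal (hGi m)]
      exact Filter.Eventually.of_forall fun θ =>
        mul_nonneg (abs_nonneg _) (pow_nonneg (hT0 θ) m)
    simp only [h2]
    rw [← ENNReal.ofReal_tsum_of_nonneg _ hs]
    · exact ENNReal.ofReal_lt_top
    · intro m
      exact integral_nonneg fun θ => mul_nonneg (abs_nonneg _) (pow_nonneg (hT0 θ) m)
  refine ⟨⟨hfwd, hbwd⟩, fun hf => ?_⟩
  have hs := hfwd hf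
  have hs' : Summable fun m : ℕ => ∫ θ in ucube (Fin n), ‖A' θ * T' θ ^ m‖ := by
    simpa only [hnorm] using hs
  have h3 := integral_tsum_of_summable_integral_norm hFi hs'
  have h4 : ∫ θ in ucube (Fin n), A' θ / (1 - T' θ) =
      ∫ θ in ucube (Fin n), ∑' m : ℕ, A' θ * T' θ ^ m := by
    refine integral_congr_ae ?_
    filter_upwards [hsumF] with θ hθ
    exact hθ.tsum_eq.symm
  rw [h4, ← h3]
  refine tsum_congr fun m => ?_
  rw [← int_Lam]
  refine integral_congr_ae (Filter.Eventually.of_forall fun θ => ?_)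
  change A' θ * T' θ ^ m = aeval (cs θ) (A * T ^ m)
  rw [map_mul, map_pow, hAe, hTe]

/-- (K14) The degenerate case `T = 1`: if the series of integrals of `|A|` converges then
`A(cos)` vanishes almost everywhere and all constant terms vanish (the terms are constant, so
`∫ |A| = 0`; `Lam A = ∫ A = 0`). -/
theorem series_one {n : ℕ} (A : MvPolynomial (Fin n) ℚ)
    (h : Summable fun m : ℕ => ∫ θ in ucube (Fin n), |aeval (cs θ) A| *
      (aeval (cs θ) (1 : MvPolynomial (Fin n) ℚ)) ^ m) :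
    ∑' m : ℕ, (Lam (A * 1 ^ m) : ℝ) = 0 := by
  simp only [map_one, one_pow, mul_one] at h ⊢
  have h0 : ∫ θ in ucube (Fin n), |aeval (cs θ) A| = 0 := (summable_const_iff _).1 h
  have h1 : (Lam A : ℝ) = 0 := by
    rw [← int_Lam, ← abs_eq_zero]
    refine le_antisymm ?_ (abs_nonneg _)
    rw [← h0]
    exact abs_integral_le_integral_abs
  simp [h1]

end Pool.Agent.CVol
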