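import Pool.Agent.W_2cf66e_h65.Defs

/-!
# MP_2cf66e_nt, part G: integrals of rational polynomials over cubes (helper65)
-/

set_option autoImplicit false

noncomputable section

open MeasureTheory MvPolynomial

namespace Pool.Agent.CVol

theorem GAvg_restrict (n : ℕ) : (volume : Measure (Fin n → ℝ)).restrict (box (Fin n)) =
    Measure.pi (fun _ : Fin n => (volume : Measure ℝ).restrict (Set.Icc (-1) 1)) := by
  rw [box, ← Set.pi_univ_Icc, volume_pi, Measure.restrict_pi_pi]

theorem GAvg_pow (k : ℕ) : ∫ t in Set.Icc (-1 : ℝ) 1, t ^ k =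
    (((1 - (-1) ^ (k + 1)) / (k + 1) : ℚ) : ℝ) := by
  rw [integral_Icc_eq_integral_Ioc, ← intervalIntegral.integral_of_le (by norm_num), integral_pow]
  push_cast
  ring

theorem GAvg_mon {n : ℕ} (α : Fin n →₀ ℕ) : ∫ z in box (Fin n), ∏ i, z i ^ α i =
    ((∏ i, ((1 - (-1) ^ (α i + 1)) / ((α i : ℕ) + 1) : ℚ) : ℚ) : ℝ) := by
  rw [GAvg_restrict, integral_fintype_prod_eq_prod (fun (i : Fin n) (t : ℝ) => t ^ α i),
    Rat.cast_prod]
  exact Finset.prod_congr rfl fun i _ => GAvg_pow (α i)

/-- (G1) The integral of a rational polynomial over the cube is rational.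

Proof: linear in the polynomial (`MvPolynomial.induction_on'`, continuous functions are integrable
on the compact cube); for a monomial it is the coefficient times
`∏_i ∫_{-1}^1 t^(α_i) dt` (as in `MeasureTheory.integral_fintype_prod_eq_prod` for the product of
the restricted measures, `integral_pow`). -/
theorem int_rat {n : ℕ} (q : MvPolynomial (Fin n) ℚ) :
    ∃ r : ℚ, ∫ z in box (Fin n), aeval z q = (r : ℝ) := by
  refine ⟨∑ α ∈ q.support, q.coeff α *
    ∏ i, ((1 - (-1) ^ (α i + 1)) / ((α i : ℕ) + 1) : ℚ), ?_⟩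
  have h1 : ∀ z : Fin n → ℝ, aeval z q =
      ∑ α ∈ q.support, ((q.coeff α : ℚ) : ℝ) * ∏ i, z i ^ α i := by
    intro z
    rw [aeval_def, eval₂_eq']
    rfl
  simp only [h1]
  rw [integral_finsetSum, Rat.cast_sum]
  · refine Finset.sum_congr rfl fun α _ => ?_
    rw [integral_const_mul, GAvg_mon, Rat.cast_mul]
  · intro α _
    refine ContinuousOn.integrableOn_compact isCompact_Icc (Continuous.continuousOn ?_)
    exact continuous_const.mul (continuous_finsetProd _ fun i _ => (continuous_apply i).pow _)

/-- (G2) The volume of the cube as a real number. -/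
theorem int_one (n : ℕ) : ∫ _z in box (Fin n), (1 : ℝ) = 2 ^ n := by
  have h := GAvg_mon (n := n) 0
  simp only [Finsupp.coe_zero, Pi.zero_apply, pow_zero, Finset.prod_const_one] at h
  rw [h]
  norm_num

/-- (G3) Invariance of the integral over the cube under sign changes. -/
theorem int_sign_box {n : ℕ} (G : (Fin n → ℝ) → ℝ) (ε : Fin n → ℝ)
    (hε : ∀ i, ε i = 1 ∨ ε i = -1) :
    ∫ z in box (Fin n), G (fun i => ε i * z i) = ∫ z in box (Fin n), G z := by
  have hsq : ∀ i, ε i * ε i = 1 := by
    intro i
    rcases hε i with h | h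
    · rw [h, one_mul]
    · rw [h]
      norm_num
  have hmp1 : ∀ i, MeasurePreserving (fun t : ℝ => ε i * t) := by
    intro i
    rcases hε i with h | h
    · have e : (fun t : ℝ => ε i * t) = id := by
        funext t
        rw [h, one_mul]
        rfl
      rw [e]
      exact MeasurePreserving.id _
    · have e : (fun t : ℝ => ε i * t) = fun t => -t := by
        funext t
        rw [h, neg_one_mul]
      rw [e]
      exact Measure.measurePreserving_neg _
  have hmp := volume_preserving_pi (f := fun (i : Fin n) (t : ℝ) => ε i * t) hmp1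
  have hinv : Function.Involutive (fun (z : Fin n → ℝ) (i : Fin n) => ε i * z i) := by
    intro z
    funext i
    change ε i * (ε i * z i) = z i
    rw [← mul_assoc, hsq, one_mul]
  have hmeas : Measurable (fun (z : Fin n → ℝ) (i : Fin n) => ε i * z i) := hmp.measurable
  let e : (Fin n → ℝ) ≃ᵐ (Fin n → ℝ) :=
    { toEquiv := hinv.toPerm
      measurable_toFun := hmeas
      measurable_invFun := hmeas }
  have hemb : MeasurableEmbedding (fun (z : Fin n → ℝ) (i : Fin n) => ε i * z i) :=
    e.measurableEmbedding
  have hpre : (fun (z : Fin n → ℝ) (i : Fin n) => ε i * z i) ⁻¹' box (Fin n) = box (Fin n) := by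
    ext z
    rw [Set.mem_preimage, box_eq]
    refine forall_congr' fun i => ?_
    change (-1 ≤ ε i * z i ∧ ε i * z i ≤ 1) ↔ (-1 ≤ z i ∧ z i ≤ 1)
    rcases hε i with h | h
    · rw [h, one_mul]
    · rw [h, neg_one_mul]
      constructor
      · rintro ⟨h1, h2⟩
        constructor <;> linarith
      · rintro ⟨h1, h2⟩
        constructor <;> linarith
  have h := hmp.setIntegral_preimage_emb hemb G (box (Fin n))
  rw [hpre] at h
  exact h

end Pool.Agent.CVol
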