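import Pool.Agent.W_2cf66e_h65.Defs

/-!
# MP_2cf66e_nt, part H: the substitution `x_i = y_i / (1 - y_i^2)` (helper65)
-/

set_option autoImplicit false

noncomputable section

open MeasureTheory MvPolynomial

namespace Pool.Agent.CVol

/-- The substitution. -/
def phi {n : ℕ} (y : Fin n → ℝ) : Fin n → ℝ := fun i => y i / (1 - (y i) ^ 2)

/-- The open cube. -/
def ocube (n : ℕ) : Set (Fin n → ℝ) := {y | ∀ i, |y i| < 1}

/-- The polynomial `∏ (1 - y_i^2)`. -/
def den (n : ℕ) : MvPolynomial (Fin n) ℚ := ∏ i, (1 - (X i) ^ 2)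

/-- The polynomial `∏ (1 + y_i^2)`. -/
def num (n : ℕ) : MvPolynomial (Fin n) ℚ := ∏ i, (1 + (X i) ^ 2)

theorem HSub_den {n : ℕ} (y : Fin n → ℝ) : aeval y (den n) = ∏ i, (1 - (y i) ^ 2) := by
  simp [den]

theorem HSub_num {n : ℕ} (y : Fin n → ℝ) : aeval y (num n) = ∏ i, (1 + (y i) ^ 2) := by
  simp [num]

theorem HSub_sq {n : ℕ} {y : Fin n → ℝ} (hy : y ∈ ocube n) (i : Fin n) : 0 < 1 - (y i) ^ 2 := by
  have h1 := hy i
  have h2 : (y i) ^ 2 < 1 := (sq_lt_one_iff_abs_lt_one _).2 h1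
  linarith

theorem den_pos {n : ℕ} {y : Fin n → ℝ} (hy : y ∈ ocube n) : 0 < aeval y (den n) := by
  rw [HSub_den]
  exact Finset.prod_pos fun i _ => HSub_sq hy i

/-- (H5) `phi` is a bijection of the open cube onto `ℝ^n`: in one variable `y / (1 - y^2)` is
strictly increasing and continuous on `(-1, 1)`, with inverse
`x ↦ 2x / (1 + √(1 + 4x^2))`. -/
theorem phi_inj (n : ℕ) : Set.InjOn (phi (n := n)) (ocube n) := by
  intro y hy z hz h
  funext i
  have h1 : y i / (1 - (y i) ^ 2) = z i / (1 - (z i) ^ 2) := congrFun h i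
  have hy1 := HSub_sq hy i
  have hz1 := HSub_sq hz i
  rw [div_eq_div_iff hy1.ne' hz1.ne'] at h1
  have h2 : (y i - z i) * (1 + y i * z i) = 0 := by linear_combination h1
  have h3 : |y i * z i| < 1 := by
    rw [abs_mul]
    exact mul_lt_one_of_nonneg_of_lt_one_left (abs_nonneg _) (hy i) (hz i).le
  have h4 : 0 < 1 + y i * z i := by
    have := (abs_lt.1 h3).1
    linarith
  exact sub_eq_zero.1 ((mul_eq_zero.1 h2).resolve_right h4.ne')

theorem phi_surj (n : ℕ) (x : Fin n → ℝ) : ∃ y ∈ ocube n, phi y = x := by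
  have hs : ∀ t : ℝ, |2 * t| < √(1 + 4 * t ^ 2) := by
    intro t
    apply Real.lt_sqrt_of_sq_lt
    rw [sq_abs]
    linarith [show (2 * t) ^ 2 = 4 * t ^ 2 by ring]
  refine ⟨fun i => 2 * x i / (1 + √(1 + 4 * (x i) ^ 2)), fun i => ?_, ?_⟩
  · have h1 := hs (x i)
    have h2 : 0 < 1 + √(1 + 4 * (x i) ^ 2) := by positivity
    simp only
    rw [abs_div, abs_of_pos h2, div_lt_one h2]
    linarith
  · funext i
    have h2 : 0 < 1 + √(1 + 4 * (x i) ^ 2) := by positivity
    have h3 : √(1 + 4 * (x i) ^ 2) ^ 2 = 1 + 4 * (x i) ^ 2 := Real.sq_sqrt (by positivity)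
    simp only [phi]
    set s := √(1 + 4 * (x i) ^ 2)
    have h4 : 1 - (2 * x i / (1 + s)) ^ 2 = 2 / (1 + s) := by
      field_simp
      linear_combination h3
    rw [h4]
    field_simp

/-- (H6) Change of variables.

Proof. `phi` has at `y ∈ ocube n` the derivative `v ↦ (i ↦ (1 + y_i^2)/(1 - y_i^2)^2 v_i)`, whose
determinant is the product of the factors (`Matrix.det_diagonal`, `LinearMap.det_toLin'`, or
`ContinuousLinearMap.det` of a diagonal map), positive. Let `B = ocube n ∩ phi ⁻¹' A`; `phi '' B =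
A` by `phi_surj`. Use `MeasureTheory.integrableOn_image_iff_integrableOn_abs_det_fderiv_smul` and
`MeasureTheory.integral_image_eq_integral_abs_det_fderiv_smul`; finally
`∏ (1 + y_i^2)/(1 - y_i^2)^2 = num y / (den y)^2`. -/
theorem change {n : ℕ} {A : Set (Fin n → ℝ)} (hA : MeasurableSet A) (Φ : (Fin n → ℝ) → ℝ) :
    (IntegrableOn Φ A ↔ IntegrableOn
      (fun y => aeval y (num n) / (aeval y (den n)) ^ 2 * Φ (phi y))
      (ocube n ∩ {y | phi y ∈ A})) ∧
    ∫ x in A, Φ x = ∫ y in ocube n ∩ {y | phi y ∈ A},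
      aeval y (num n) / (aeval y (den n)) ^ 2 * Φ (phi y) := by
  have hm1 : MeasurableSet (ocube n) := by
    have h1 : IsOpen (ocube n) := by
      have h2 : ocube n = ⋂ i, {y : Fin n → ℝ | |y i| < 1} := by
        ext y
        simp [ocube]
      rw [h2]
      exact isOpen_iInter_of_finite fun i =>
        isOpen_lt (continuous_abs.comp (continuous_apply i)) continuous_const
    exact h1.measurableSet
  have hphi : Measurable (phi (n := n)) := by
    refine measurable_pi_iff.2 fun i => ?_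
    exact (measurable_pi_apply i).div (measurable_const.sub ((measurable_pi_apply i).pow_const 2))
  set B : Set (Fin n → ℝ) := ocube n ∩ {y | phi y ∈ A} with hB
  have hmB : MeasurableSet B := hm1.inter (hphi hA)
  have himg : phi '' B = A := by
    ext x
    constructor
    · rintro ⟨y, hy, rfl⟩
      exact hy.2
    · intro hx
      obtain ⟨y, hy, rfl⟩ := phi_surj n x
      exact ⟨y, ⟨hy, hx⟩, rfl⟩
  have hinj : Set.InjOn (phi (n := n)) B := (phi_inj n).mono Set.inter_subset_left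
  set φ' : (Fin n → ℝ) → ((Fin n → ℝ) →L[ℝ] (Fin n → ℝ)) := fun y =>
    ContinuousLinearMap.pi fun i =>
      ((1 + (y i) ^ 2) / (1 - (y i) ^ 2) ^ 2) • ContinuousLinearMap.proj i with hφ'
  have hder : ∀ y ∈ B, HasFDerivWithinAt (phi (n := n)) (φ' y) B y := by
    intro y hy
    apply HasFDerivAt.hasFDerivWithinAt
    rw [hasFDerivAt_pi']
    intro i
    have h1 := (HSub_sq hy.1 i).ne'
    have h2 : HasDerivAt (fun t : ℝ => t / (1 - t ^ 2)) ((1 + (y i) ^ 2) / (1 - (y i) ^ 2) ^ 2)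
        (y i) := by
      have h3 := (hasDerivAt_id' (y i)).fun_div ((hasDerivAt_pow 2 (y i)).const_sub 1) h1
      refine h3.congr_deriv ?_
      congr 1
      push_cast
      ring
    have h4 : HasFDerivAt (fun z : Fin n → ℝ => z i) (ContinuousLinearMap.proj i) y :=
      (ContinuousLinearMap.proj (R := ℝ) (φ := fun _ : Fin n => ℝ) i).hasFDerivAt
    have h5 := h2.comp_hasFDerivAt y h4
    refine h5.congr_fderiv ?_
    ext v
    simp [hφ']
  have hdet : ∀ y ∈ B, |(φ' y).det| = aeval y (num n) / (aeval y (den n)) ^ 2 := by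
    intro y hy
    have h1 : ((φ' y : (Fin n → ℝ) →L[ℝ] (Fin n → ℝ)) : (Fin n → ℝ) →ₗ[ℝ] (Fin n → ℝ)) =
        Matrix.toLin' (Matrix.diagonal fun i => (1 + (y i) ^ 2) / (1 - (y i) ^ 2) ^ 2) := by
      apply LinearMap.ext
      intro v
      funext i
      rw [Matrix.toLin'_apply, Matrix.mulVec_diagonal]
      rfl
    have h2 : (φ' y).det = ∏ i, (1 + (y i) ^ 2) / (1 - (y i) ^ 2) ^ 2 := by
      rw [ContinuousLinearMap.det, h1, LinearMap.det_toLin', Matrix.det_diagonal]
    have h3 : 0 ≤ ∏ i, (1 + (y i) ^ 2) / (1 - (y i) ^ 2) ^ 2 :=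
      Finset.prod_nonneg fun i _ => by positivity
    rw [h2, abs_of_nonneg h3, Finset.prod_div_distrib, Finset.prod_pow, HSub_num, HSub_den]
  have key1 := integrableOn_image_iff_integrableOn_abs_det_fderiv_smul volume hmB hder hinj Φ
  have key2 := integral_image_eq_integral_abs_det_fderiv_smul volume hmB hder hinj Φ
  rw [himg] at key1 key2
  constructor
  · rw [key1]
    refine integrableOn_congr_fun (fun y hy => ?_) hmB
    simp only [smul_eq_mul]
    rw [hdet y hy]
  · rw [key2]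
    refine setIntegral_congr_fun hmB fun y hy => ?_
    simp only [smul_eq_mul]
    rw [hdet y hy]

/-- (H7) Pull back of a polynomial. Proof: induction on `p` (`MvPolynomial.induction_on`):
constants `d = 0`; sums: multiply by powers of `den` to get a common `d`; `p * X i`:
`d + 1`, `q * X i * ∏_{j ≠ i} (1 - X j ^ 2)`. -/
theorem exists_pull {n : ℕ} (p : MvPolynomial (Fin n) ℚ) :
    ∃ (d : ℕ) (q : MvPolynomial (Fin n) ℚ), ∀ y ∈ ocube n,
      aeval y q = aeval (phi y) p * (aeval y (den n)) ^ d := by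
  induction p using MvPolynomial.induction_on with
  | C a =>
    refine ⟨0, C a, fun y _ => ?_⟩
    rw [pow_zero, mul_one, aeval_C, aeval_C]
  | add p q hp hq =>
    obtain ⟨d1, q1, h1⟩ := hp
    obtain ⟨d2, q2, h2⟩ := hq
    refine ⟨d1 + d2, q1 * den n ^ d2 + q2 * den n ^ d1, fun y hy => ?_⟩
    rw [map_add, map_mul, map_mul, map_pow, map_pow, h1 y hy, h2 y hy, map_add, pow_add]
    ring
  | mul_X p i hp =>
    obtain ⟨d, q, h⟩ := hp
    refine ⟨d + 1, q * (X i * ∏ j ∈ Finset.univ.erase i, (1 - (X j) ^ 2)), fun y hy => ?_⟩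
    have h1 := (HSub_sq hy i).ne'
    have h2 : aeval y (den n) = (1 - (y i) ^ 2) * ∏ j ∈ Finset.univ.erase i, (1 - (y j) ^ 2) := by
      rw [HSub_den]
      exact (Finset.mul_prod_erase Finset.univ (fun j => 1 - (y j) ^ 2) (Finset.mem_univ i)).symm
    have h3 : aeval y (∏ j ∈ Finset.univ.erase i, (1 - (X j : MvPolynomial (Fin n) ℚ) ^ 2)) =
        ∏ j ∈ Finset.univ.erase i, (1 - (y j) ^ 2) := by
      simp
    rw [map_mul, map_mul, h y hy, h3, map_mul, aeval_X, aeval_X, pow_succ]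
    nth_rewrite 3 [h2]
    have h4 : phi y i = y i / (1 - (y i) ^ 2) := rfl
    rw [h4]
    field_simp

end Pool.Agent.CVol
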