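import Pool.Agent.W_2cf66e_h65.Stmt

/-!
# MP_2cf66e_nt (periods): definitions (helper65)

Paper proof: table `proofs`, row 297.
-/

set_option autoImplicit false

noncomputable section

open MeasureTheory

namespace Pool.Agent.CVol

/-- The cube `[-1,1]^ι`. -/
def box (ι : Type) : Set (ι → ℝ) := Set.Icc (fun _ => (-1 : ℝ)) (fun _ => (1 : ℝ))

/-- `x` is the integral over a cube `[-1,1]^N` of a piecewise rational function of class `C^k` on
`ℝ^N`. -/
def Smooth (k : ℕ) (x : ℝ) : Prop :=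
  ∃ (ι : Type) (_ : Fintype ι) (g : (ι → ℝ) → ℝ),
    IsPR g ∧ ContDiff ℝ k g ∧ ∫ z in box ι, g z = x

/-- A cell: `U` is an open semialgebraic subset of the cube, `F` a polynomial with
`0 < F ≤ 1` on `U` and `F = 0` on the frontier of `U`. -/
structure IsCell {n : ℕ} (U : Set (Fin n → ℝ)) (F : MvPolynomial (Fin n) ℚ) : Prop where
  isOpen : IsOpen U
  sub : U ⊆ box (Fin n)
  sa : IsSA U
  pos : ∀ x ∈ U, 0 < MvPolynomial.aeval x F
  le_one : ∀ x ∈ U, MvPolynomial.aeval x F ≤ 1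
  front : ∀ x ∈ frontier U, MvPolynomial.aeval x F = 0

/-- The convexity defect of `u` on `S` is at most `C a b ‖x - y‖ ^ 2`. -/
def EB {ι : Type} [Fintype ι] (S : Set (ι → ℝ)) (u : (ι → ℝ) → ℝ) (C : ℝ) : Prop :=
  ∀ x ∈ S, ∀ y ∈ S, ∀ a b : ℝ, 0 ≤ a → 0 ≤ b → a + b = 1 →
    |u (a • x + b • y) - a * u x - b * u y| ≤ C * (a * b) * ‖x - y‖ ^ 2

/-- The Weyl relations for two families of operators of a vector space. -/
structure IsWeyl {K V : Type} [Field K] [AddCommGroup V] [Module K V] {n : ℕ}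
    (X D : Fin n → Module.End K V) : Prop where
  xx : ∀ i j, X i * X j = X j * X i
  dd : ∀ i j, D i * D j = D j * D i
  dx : ∀ i j, D i * X j - X j * D i = if i = j then 1 else 0

/-- One differentiation of `f F^(s-c)`, in terms of the pair `(f, c)`. -/
def lev {A : Type} [CommRing A] {n : ℕ} (s : A) (F : MvPolynomial (Fin n) A) (i : Fin n)
    (p : MvPolynomial (Fin n) A × ℕ) : MvPolynomial (Fin n) A × ℕ :=
  (F * MvPolynomial.pderiv i p.1 +
    (MvPolynomial.C s - MvPolynomial.C (p.2 : A)) * p.1 * MvPolynomial.pderiv i F, p.2 + 1)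

/-- Iterated differentiation of `f F^(s-c)` along a word. -/
def word {A : Type} [CommRing A] {n : ℕ} (s : A) (F : MvPolynomial (Fin n) A)
    (l : List (Fin n)) (p : MvPolynomial (Fin n) A × ℕ) : MvPolynomial (Fin n) A × ℕ :=
  l.foldr (fun i q => lev s F i q) p

/-- The transposed operator: minus the derivatives along the word, first letter first. -/
def dual {A : Type} [CommRing A] {n : ℕ} (l : List (Fin n)) (r : MvPolynomial (Fin n) A) :
    MvPolynomial (Fin n) A :=
  l.foldl (fun q i => - MvPolynomial.pderiv i q) r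

/-- The ring `ℚ[s][x]`. -/
abbrev RS (n : ℕ) : Type := MvPolynomial (Fin n) (Polynomial ℚ)

/-- The inclusion `ℚ[x] → ℚ[s][x]`. -/
def up {n : ℕ} : MvPolynomial (Fin n) ℚ →+* RS n := MvPolynomial.map Polynomial.C

/-- The specialization `s ↦ σ` of `ℚ[s][x]` to `ℝ[x]`. -/
def spec {n : ℕ} (σ : ℝ) : RS n →+* MvPolynomial (Fin n) ℝ :=
  MvPolynomial.map (Polynomial.aeval σ : Polynomial ℚ →ₐ[ℚ] ℝ).toRingHom

/-- Real polynomial attached to a rational polynomial. -/
def re {ι : Type} : MvPolynomial ι ℚ →+* MvPolynomial ι ℝ :=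
  MvPolynomial.map (algebraMap ℚ ℝ)

theorem box_eq (ι : Type) : box ι = {x : ι → ℝ | ∀ i, -1 ≤ x i ∧ x i ≤ 1} := by
  ext x
  simp [box, Pi.le_def, forall_and]

theorem eval_re {ι : Type} (x : ι → ℝ) (p : MvPolynomial ι ℚ) :
    MvPolynomial.eval x (re p) = MvPolynomial.aeval x p := by
  simp [re, MvPolynomial.eval_map, MvPolynomial.aeval_def]

theorem spec_up {n : ℕ} (σ : ℝ) (p : MvPolynomial (Fin n) ℚ) : spec σ (up p) = re p := by
  have h : ((Polynomial.aeval σ : Polynomial ℚ →ₐ[ℚ] ℝ).toRingHom).comp Polynomial.C =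
      algebraMap ℚ ℝ := Subsingleton.elim _ _
  simp only [spec, up, re, MvPolynomial.map_map]
  exact congrArg (fun φ : ℚ →+* ℝ => MvPolynomial.map φ p) h

end Pool.Agent.CVol
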