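import Pool.Agent.W_2cf66e_h65.CBox
import Pool.Agent.W_2cf66e_h65.EPR

/-!
# MP_2cf66e_nt, part H: sums of `Smooth k` numbers (helper65)
-/

set_option autoImplicit false

noncomputable section

open MeasureTheory MvPolynomial

namespace Pool.Agent.CVol

theorem HSmooth_re {ι κ : Type} {f : (κ → ℝ) → ℝ} (hf : IsPR f) (e : κ → ι) :
    IsPR (fun z : ι → ℝ => f (fun k => z (e k))) := by
  have h := hf.comp (fun k => (X (e k) : MvPolynomial ι ℚ))
  simpa only [aeval_X] using h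

theorem HSmooth_cd {ι κ : Type} [Fintype ι] [Fintype κ] {n : ℕ} {f : (κ → ℝ) → ℝ}
    (hf : ContDiff ℝ n f) (e : κ → ι) :
    ContDiff ℝ n (fun z : ι → ℝ => f (fun k => z (e k))) :=
  hf.comp (contDiff_pi.2 fun k => contDiff_apply ℝ ℝ (e k))

theorem HSmooth_vol (ι : Type) [Fintype ι] :
    (volume.real (box ι)) = 2 ^ (Fintype.card ι) := by
  rw [measureReal_def, volume_box, ENNReal.toReal_ofReal (by positivity)]

theorem HSmooth_half (n : ℕ) : (((1 / 2 : ℚ) ^ n : ℚ) : ℝ) * 2 ^ n = 1 := by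
  push_cast
  rw [← mul_pow]
  norm_num

theorem Smooth.zero (k : ℕ) : Smooth k 0 := by
  refine ⟨Fin 0, inferInstance, fun _ => 0, ?_, contDiff_const, ?_⟩
  · have h := IsPR.poly (0 : MvPolynomial (Fin 0) ℚ)
    simpa using h
  · simp

/-- (H3) Sums. Proof: on the index type `ι ⊕ κ` take
`g z = 2^(-card κ) g₁ (z ∘ inl) + 2^(-card ι) g₂ (z ∘ inr)`: piecewise rational (`IsPR.comp` with
the variables `X (Sum.inl i)`, `IsPR.smul`, `IsPR.add`), of class `C^k`, and its integral is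
`x + y` by `int_box_sum` for each summand (continuous functions) and `volume_box`. -/
theorem Smooth.add {k : ℕ} {x y : ℝ} (hx : Smooth k x) (hy : Smooth k y) : Smooth k (x + y) := by
  obtain ⟨ι, _, g, hg, hgc, hgi⟩ := hx
  obtain ⟨κ, _, f, hf, hfc, hfi⟩ := hy
  have hG1 : ContDiff ℝ k (fun z : ι ⊕ κ → ℝ => (((1 / 2 : ℚ) ^ (Fintype.card κ) : ℚ) : ℝ) *
      g (fun i => z (Sum.inl i))) := contDiff_const.mul (HSmooth_cd hgc Sum.inl)
  have hG2 : ContDiff ℝ k (fun z : ι ⊕ κ → ℝ => (((1 / 2 : ℚ) ^ (Fintype.card ι) : ℚ) : ℝ) *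
      f (fun i => z (Sum.inr i))) := contDiff_const.mul (HSmooth_cd hfc Sum.inr)
  have hi1 : IntegrableOn (fun z : ι ⊕ κ → ℝ => (((1 / 2 : ℚ) ^ (Fintype.card κ) : ℚ) : ℝ) *
      g (fun i => z (Sum.inl i))) (box (ι ⊕ κ)) :=
    hG1.continuous.continuousOn.integrableOn_compact isCompact_Icc
  have hi2 : IntegrableOn (fun z : ι ⊕ κ → ℝ => (((1 / 2 : ℚ) ^ (Fintype.card ι) : ℚ) : ℝ) *
      f (fun i => z (Sum.inr i))) (box (ι ⊕ κ)) :=
    hG2.continuous.continuousOn.integrableOn_compact isCompact_Icc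
  refine ⟨ι ⊕ κ, inferInstance, fun z => (((1 / 2 : ℚ) ^ (Fintype.card κ) : ℚ) : ℝ) *
    g (fun i => z (Sum.inl i)) + (((1 / 2 : ℚ) ^ (Fintype.card ι) : ℚ) : ℝ) *
    f (fun i => z (Sum.inr i)), ?_, hG1.add hG2, ?_⟩
  · exact ((HSmooth_re hg Sum.inl).smul _).add ((HSmooth_re hf Sum.inr).smul _)
  · have h1 : ∫ z in box (ι ⊕ κ), (((1 / 2 : ℚ) ^ (Fintype.card κ) : ℚ) : ℝ) *
        g (fun i => z (Sum.inl i)) = x := by
      rw [int_box_sum _ hG1.continuous]
      have e1 : ∀ y : ι → ℝ, ∫ u in box κ, (((1 / 2 : ℚ) ^ (Fintype.card κ) : ℚ) : ℝ) *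
          g (fun i => (Sum.elim y u : ι ⊕ κ → ℝ) (Sum.inl i)) = g y := by
        intro y
        change ∫ u in box κ, (((1 / 2 : ℚ) ^ (Fintype.card κ) : ℚ) : ℝ) * g y = g y
        rw [setIntegral_const, HSmooth_vol, smul_eq_mul, ← mul_assoc, mul_comm (2 ^ _),
          HSmooth_half, one_mul]
      simp only [e1]
      exact hgi
    have h2 : ∫ z in box (ι ⊕ κ), (((1 / 2 : ℚ) ^ (Fintype.card ι) : ℚ) : ℝ) *
        f (fun i => z (Sum.inr i)) = y := by
      rw [int_box_sum _ hG2.continuous]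
      have e1 : ∀ y' : ι → ℝ, ∫ u in box κ, (((1 / 2 : ℚ) ^ (Fintype.card ι) : ℚ) : ℝ) *
          f (fun i => (Sum.elim y' u : ι ⊕ κ → ℝ) (Sum.inr i)) =
          (((1 / 2 : ℚ) ^ (Fintype.card ι) : ℚ) : ℝ) * y := by
        intro y'
        change ∫ u in box κ, (((1 / 2 : ℚ) ^ (Fintype.card ι) : ℚ) : ℝ) * f u = _
        rw [integral_const_mul, hfi]
      simp only [e1]
      rw [setIntegral_const, HSmooth_vol, smul_eq_mul, ← mul_assoc, mul_comm (2 ^ _),
        HSmooth_half, one_mul]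
    rw [integral_add hi1 hi2, h1, h2]

theorem Smooth.sum {k : ℕ} {α : Type} (T : Finset α) (x : α → ℝ)
    (h : ∀ a ∈ T, Smooth k (x a)) : Smooth k (∑ a ∈ T, x a) := by
  classical
  induction T using Finset.induction_on with
  | empty =>
    rw [Finset.sum_empty]
    exact Smooth.zero k
  | insert a s ha ih =>
    rw [Finset.sum_insert ha]
    exact (h a (Finset.mem_insert_self a s)).add
      (ih fun b hb => h b (Finset.mem_insert_of_mem hb))

/-- (H4) Reindexing: one may take `ι = Fin N`. Proof: `Fintype.equivFin ι`, `int_box_equiv`,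
`IsPR.comp` (with variables), `ContDiff.comp` with a linear map. -/
theorem Smooth.fin {k : ℕ} {x : ℝ} (hx : Smooth k x) :
    ∃ (N : ℕ) (g : (Fin N → ℝ) → ℝ), IsPR g ∧ ContDiff ℝ k g ∧ ∫ z in box (Fin N), g z = x := by
  obtain ⟨ι, _, g, hg, hgc, hgi⟩ := hx
  refine ⟨Fintype.card ι, fun z => g (fun i => z (Fintype.equivFin ι i)), HSmooth_re hg _,
    HSmooth_cd hgc _, ?_⟩
  rw [int_box_equiv (Fintype.equivFin ι) g, hgi]

end Pool.Agent.CVol
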