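import Pool.Agent.W_2cf66e_h65.DFlat
import Pool.Agent.W_2cf66e_h65.EPR

/-!
# MP_2cf66e_nt, part D: the pieces of the integrand (helper65)
-/

set_option autoImplicit false

noncomputable section

open MeasureTheory MvPolynomial

namespace Pool.Agent.CVol

/-- The polynomial `F(x)` in the variables `(x, u)`. -/
def Fx {n : ℕ} (μ : ℕ) (F : MvPolynomial (Fin n) ℚ) : MvPolynomial (Fin n ⊕ Fin μ) ℚ :=
  rename Sum.inl F

/-- The denominators `D_a = 4 F + (1 + u_a)^2 (1 - F)`. -/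
def Dx {n : ℕ} (μ : ℕ) (F : MvPolynomial (Fin n) ℚ) (a : Fin μ) :
    MvPolynomial (Fin n ⊕ Fin μ) ℚ :=
  4 * Fx μ F + (1 + X (Sum.inr a)) ^ 2 * (1 - Fx μ F)

/-- The numerators `h ∏_{a<i} 2 (1+u_a)(F-1) ∏_{a≥i} 1/2`. -/
def Px {n : ℕ} (μ : ℕ) (F h : MvPolynomial (Fin n) ℚ) (i : ℕ) :
    MvPolynomial (Fin n ⊕ Fin μ) ℚ :=
  rename Sum.inl h * ∏ a : Fin μ, (if (a : ℕ) < i then 2 * (1 + X (Sum.inr a)) * (Fx μ F - 1)
    else C (1 / 2))

/-- The exponents. -/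
def cx (μ i : ℕ) (a : Fin μ) : ℕ := if (a : ℕ) < i then 1 else 0

/-- The cylinder over the cell. -/
def Ux {n : ℕ} (μ : ℕ) (U : Set (Fin n → ℝ)) : Set (Fin n ⊕ Fin μ → ℝ) :=
  {z | (fun j => z (Sum.inl j)) ∈ U}

/-- The piece of the integrand. -/
def gx {n : ℕ} (μ : ℕ) (U : Set (Fin n → ℝ)) (F h : MvPolynomial (Fin n) ℚ) (K i : ℕ) :
    (Fin n ⊕ Fin μ → ℝ) → ℝ :=
  flat (Ux μ U) (re (Fx μ F)) (fun a => re (Dx μ F a)) (re (Px μ F h i)) (cx μ i) K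

theorem DCellA_Fx {n : ℕ} (μ : ℕ) (F : MvPolynomial (Fin n) ℚ) (z : Fin n ⊕ Fin μ → ℝ) :
    eval z (re (Fx μ F)) = aeval (fun j => z (Sum.inl j)) F := by
  rw [eval_re, Fx, aeval_rename]
  rfl

theorem DCellA_Dx {n : ℕ} (μ : ℕ) (F : MvPolynomial (Fin n) ℚ) (a : Fin μ)
    (z : Fin n ⊕ Fin μ → ℝ) :
    eval z (re (Dx μ F a)) = 4 * aeval (fun j => z (Sum.inl j)) F +
      (1 + z (Sum.inr a)) ^ 2 * (1 - aeval (fun j => z (Sum.inl j)) F) := by
  have h := DCellA_Fx μ F z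
  rw [eval_re] at h
  rw [eval_re, Dx]
  simp only [map_add, map_mul, map_pow, map_sub, map_one, map_ofNat, aeval_X, h]

/-- (D5) The cylinder is a real cell, and `F ≤ D_a` on it. (Frontier of a cylinder: the map
`z ↦ z ∘ inl` is continuous and open, `IsOpenMap.preimage_frontier_eq_frontier_preimage`;
`D_a ≥ 4 F` since `F ≤ 1`.) -/
theorem Ux_cell {n : ℕ} (μ : ℕ) {U : Set (Fin n → ℝ)} {F : MvPolynomial (Fin n) ℚ}
    (hc : IsCell U F) : RCell (Ux μ U) (re (Fx μ F)) ∧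
      ∀ a, ∀ z ∈ Ux μ U, eval z (re (Fx μ F)) ≤ eval z (re (Dx μ F a)) := by
  have hcont : Continuous (fun (z : Fin n ⊕ Fin μ → ℝ) (j : Fin n) => z (Sum.inl j)) :=
    continuous_pi fun j => continuous_apply _
  have hopen : IsOpenMap (fun (z : Fin n ⊕ Fin μ → ℝ) (j : Fin n) => z (Sum.inl j)) := by
    have h1 := (isOpenMap_fst (X := Fin n → ℝ) (Y := Fin μ → ℝ)).comp
      (Homeomorph.sumArrowHomeomorphProdArrow (ι := Fin n) (ι' := Fin μ) (X := ℝ)).isOpenMap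
    exact h1
  have hU : Ux μ U = (fun (z : Fin n ⊕ Fin μ → ℝ) (j : Fin n) => z (Sum.inl j)) ⁻¹' U := rfl
  refine ⟨⟨?_, ?_, ?_, ?_⟩, ?_⟩
  · rw [hU]
    exact hc.isOpen.preimage hcont
  · intro z hz
    rw [DCellA_Fx]
    exact hc.pos _ hz
  · intro z hz
    rw [DCellA_Fx]
    exact hc.le_one _ hz
  · intro z hz
    rw [hU, ← hopen.preimage_frontier_eq_frontier_preimage hcont] at hz
    rw [DCellA_Fx]
    exact hc.front _ hz
  · intro a z hz
    rw [DCellA_Fx, DCellA_Dx]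
    have h1 := hc.pos _ hz
    have h2 := hc.le_one _ hz
    nlinarith [mul_nonneg (sq_nonneg (1 + z (Sum.inr a))) (sub_nonneg.mpr h2)]

/-- (D6) The pieces are of class `C^k` if `K ≥ μ + k + 1`. -/
theorem gx_contDiff {n : ℕ} (μ : ℕ) {U : Set (Fin n → ℝ)} {F : MvPolynomial (Fin n) ℚ}
    (hc : IsCell U F) (h : MvPolynomial (Fin n) ℚ) (K i k : ℕ) (hK : μ + k + 1 ≤ K) :
    ContDiff ℝ k (gx μ U F h K i) := by
  obtain ⟨h1, h2⟩ := Ux_cell μ hc
  refine flat_contDiff h1 _ h2 k _ _ K ?_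
  have h3 : ∑ a : Fin μ, cx μ i a ≤ μ := by
    calc ∑ a : Fin μ, cx μ i a ≤ ∑ _a : Fin μ, 1 := by
          refine Finset.sum_le_sum fun a _ => ?_
          unfold cx
          split_ifs <;> norm_num
      _ = μ := by simp
  omega

/-- (D7) The pieces are piecewise rational. (`IsPR.piece` with `S = Ux μ U`, semialgebraic by
`IsSA.preimage`; `P = Px * Fx^K`, `Q = ∏ Dx^cx`, positive on `Ux`.) -/
theorem gx_isPR {n : ℕ} (μ : ℕ) {U : Set (Fin n → ℝ)} {F : MvPolynomial (Fin n) ℚ}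
    (hc : IsCell U F) (h : MvPolynomial (Fin n) ℚ) (K i : ℕ) :
    IsPR (gx μ U F h K i) := by
  have hS : IsSA (Ux μ U) := by
    have h1 := hc.sa.preimage (ι := Fin n ⊕ Fin μ) (fun j => X (Sum.inl j))
    simp only [aeval_X] at h1
    exact h1
  have h2 := Ux_cell μ hc
  have hQ : ∀ z ∈ Ux μ U, aeval z (∏ a : Fin μ, (Dx μ F a) ^ (cx μ i a)) ≠ 0 := by
    intro z hz
    rw [map_prod]
    refine Finset.prod_ne_zero_iff.mpr fun a _ => ?_
    rw [map_pow]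
    refine pow_ne_zero _ ?_
    rw [← eval_re]
    exact (lt_of_lt_of_le (h2.1.pos z hz) (h2.2 a z hz)).ne'
  have h3 := IsPR.piece hS (Px μ F h i * (Fx μ F) ^ K) (∏ a : Fin μ, (Dx μ F a) ^ (cx μ i a)) hQ
  have e : gx μ U F h K i = (Ux μ U).indicator fun z =>
      aeval z (Px μ F h i * (Fx μ F) ^ K) / aeval z (∏ a : Fin μ, (Dx μ F a) ^ (cx μ i a)) := by
    unfold gx flat
    congr 1
    funext z
    simp only [eval_re, map_mul, map_pow, map_prod]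
  rw [e]
  exact h3

end Pool.Agent.CVol
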