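import Pool.Agent.W_2cf66e_h65.EPR
import Pool.Agent.W_2cf66e_h65.CBox

/-!
# MP_2cf66e_nt, part G: the convex body (helper65)
-/

set_option autoImplicit false

noncomputable section

open MeasureTheory MvPolynomial

namespace Pool.Agent.CVol

/-- The body `{(z, t) : z ∈ [-1,1]^n, 2|t| ≤ H z}`. -/
def body {n : ℕ} (H : (Fin n → ℝ) → ℝ) : Set (Fin (n + 1) → ℝ) :=
  {z | (fun i => z (Fin.castSucc i)) ∈ box (Fin n) ∧
    2 * |z (Fin.last n)| ≤ H (fun i => z (Fin.castSucc i))}

/-- (G7) The body is semialgebraic: intersection of preimages of the cube and of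
`{0 ≤ H - 2t}`, `{0 ≤ H + 2t}` (`IsPR.comp`, `IsPR.add`, `IsPR.poly`, `IsPR.nonneg`). -/
theorem body_sa {n : ℕ} {H : (Fin n → ℝ) → ℝ} (hH : IsPR H) : IsSA (body H) := by
  have h1 : IsSA {z : Fin (n + 1) → ℝ | (fun i : Fin n =>
      aeval z (X (Fin.castSucc i) : MvPolynomial (Fin (n + 1)) ℚ)) ∈ box (Fin n)} :=
    IsSA.box.preimage fun i : Fin n => X (Fin.castSucc i)
  have h2 : IsSA {z : Fin (n + 1) → ℝ | 0 ≤ H (fun i : Fin n =>
      aeval z (X (Fin.castSucc i) : MvPolynomial (Fin (n + 1)) ℚ)) +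
        aeval z (C (-2) * X (Fin.last n) : MvPolynomial (Fin (n + 1)) ℚ)} :=
    ((hH.comp fun i : Fin n => X (Fin.castSucc i)).add (IsPR.poly _)).nonneg
  have h3 : IsSA {z : Fin (n + 1) → ℝ | 0 ≤ H (fun i : Fin n =>
      aeval z (X (Fin.castSucc i) : MvPolynomial (Fin (n + 1)) ℚ)) +
        aeval z (C 2 * X (Fin.last n) : MvPolynomial (Fin (n + 1)) ℚ)} :=
    ((hH.comp fun i : Fin n => X (Fin.castSucc i)).add (IsPR.poly _)).nonneg
  have e : body H = {z : Fin (n + 1) → ℝ | (fun i : Fin n =>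
      aeval z (X (Fin.castSucc i) : MvPolynomial (Fin (n + 1)) ℚ)) ∈ box (Fin n)} ∩
      ({z : Fin (n + 1) → ℝ | 0 ≤ H (fun i : Fin n =>
        aeval z (X (Fin.castSucc i) : MvPolynomial (Fin (n + 1)) ℚ)) +
          aeval z (C (-2) * X (Fin.last n) : MvPolynomial (Fin (n + 1)) ℚ)} ∩
      {z : Fin (n + 1) → ℝ | 0 ≤ H (fun i : Fin n =>
        aeval z (X (Fin.castSucc i) : MvPolynomial (Fin (n + 1)) ℚ)) +
          aeval z (C 2 * X (Fin.last n) : MvPolynomial (Fin (n + 1)) ℚ)}) := by
    ext z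
    simp only [body, Set.mem_inter_iff, Set.mem_ofPred_eq, aeval_X, map_mul, map_neg, map_ofNat]
    refine and_congr_right fun _ => ?_
    rw [show (2 : ℝ) * |z (Fin.last n)| = |2 * z (Fin.last n)| by
      rw [abs_mul, abs_of_pos (by norm_num : (0 : ℝ) < 2)], abs_le]
    constructor
    · rintro ⟨ha, hb⟩
      exact ⟨by linarith, by linarith⟩
    · rintro ⟨ha, hb⟩
      exact ⟨by linarith, by linarith⟩
  rw [e]
  exact h1.inter (h2.inter h3)

theorem GBody_closed {n : ℕ} {H : (Fin n → ℝ) → ℝ} (hH : Continuous H) :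
    IsClosed (body H) := by
  have hp : Continuous fun z : Fin (n + 1) → ℝ => fun i : Fin n => z (Fin.castSucc i) :=
    continuous_pi fun i => continuous_apply _
  have h1 : IsClosed {z : Fin (n + 1) → ℝ | (fun i : Fin n => z (Fin.castSucc i)) ∈ box (Fin n)} :=
    isClosed_Icc.preimage hp
  have h2 : IsClosed {z : Fin (n + 1) → ℝ | 2 * |z (Fin.last n)| ≤
      H (fun i : Fin n => z (Fin.castSucc i))} :=
    isClosed_le (continuous_const.mul (continuous_apply _).abs) (hH.comp hp)
  exact h1.inter h2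

/-- (G8) The body is compact: closed and bounded (`H` is continuous, bounded on the cube). -/
theorem body_compact {n : ℕ} {H : (Fin n → ℝ) → ℝ} (hH : Continuous H) :
    IsCompact (body H) := by
  have hbox : IsCompact (box (Fin n)) := isCompact_Icc
  obtain ⟨M, hM⟩ := hbox.exists_bound_of_continuousOn hH.continuousOn
  refine IsCompact.of_isClosed_subset
    (isCompact_Icc : IsCompact (Set.Icc (fun _ : Fin (n + 1) => -(1 + |M|))
      (fun _ : Fin (n + 1) => 1 + |M|))) (GBody_closed hH) ?_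
  intro z hz
  obtain ⟨hz1, hz2⟩ := hz
  have h3 := hM _ hz1
  rw [box_eq] at hz1
  have hMle := le_abs_self M
  have hM0 := abs_nonneg M
  have h4 : ∀ i, |z i| ≤ 1 + |M| := by
    intro i
    refine Fin.lastCases ?_ (fun j => ?_) i
    · have h5 := le_abs_self (H fun i => z (Fin.castSucc i))
      rw [Real.norm_eq_abs] at h3
      have h6 := abs_nonneg (z (Fin.last n))
      linarith
    · have h5 := hz1 j
      rw [abs_le]
      exact ⟨by linarith [h5.1], by linarith [h5.2]⟩
  exact ⟨fun i => (abs_le.1 (h4 i)).1, fun i => (abs_le.1 (h4 i)).2⟩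

/-- (G9) The body is convex. -/
theorem body_convex {n : ℕ} {H : (Fin n → ℝ) → ℝ} (hH : ConcaveOn ℝ (box (Fin n)) H) :
    Convex ℝ (body H) := by
  intro x hx y hy a b ha hb hab
  obtain ⟨hx1, hx2⟩ := hx
  obtain ⟨hy1, hy2⟩ := hy
  have e : (fun i : Fin n => (a • x + b • y) (Fin.castSucc i)) =
      a • (fun i : Fin n => x (Fin.castSucc i)) + b • (fun i : Fin n => y (Fin.castSucc i)) := rfl
  refine ⟨?_, ?_⟩
  · rw [e]
    exact (convex_Icc _ _) hx1 hy1 ha hb hab
  · rw [e]
    have h1 := hH.2 hx1 hy1 ha hb hab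
    simp only [smul_eq_mul] at h1
    have h2 : |(a • x + b • y) (Fin.last n)| ≤ a * |x (Fin.last n)| + b * |y (Fin.last n)| := by
      rw [Pi.add_apply, Pi.smul_apply, Pi.smul_apply, smul_eq_mul, smul_eq_mul]
      refine (abs_add_le _ _).trans ?_
      rw [abs_mul, abs_mul, abs_of_nonneg ha, abs_of_nonneg hb]
    have h3 := mul_le_mul_of_nonneg_left hx2 ha
    have h4 := mul_le_mul_of_nonneg_left hy2 hb
    linarith

/-- (G10) The body is invariant under sign changes. -/
theorem body_sign {n : ℕ} {H : (Fin n → ℝ) → ℝ}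
    (hH : ∀ ε : Fin n → ℝ, (∀ i, ε i = 1 ∨ ε i = -1) → ∀ z, H (fun i => ε i * z i) = H z)
    (ε : Fin (n + 1) → ℝ) (hε : ∀ i, ε i = 1 ∨ ε i = -1) (z : Fin (n + 1) → ℝ)
    (hz : z ∈ body H) : (fun i => ε i * z i) ∈ body H := by
  obtain ⟨h1, h2⟩ := hz
  refine ⟨?_, ?_⟩
  · rw [box_eq] at h1 ⊢
    intro i
    have h3 := h1 i
    rcases hε (Fin.castSucc i) with h4 | h4
    · simp only [h4, one_mul]
      exact h3
    · simp only [h4]
      exact ⟨by linarith [h3.2], by linarith [h3.1]⟩
  · have h3 := hH (fun i => ε (Fin.castSucc i)) (fun i => hε _) (fun i => z (Fin.castSucc i))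
    simp only at h3 ⊢
    rw [h3]
    have h4 : |ε (Fin.last n) * z (Fin.last n)| = |z (Fin.last n)| := by
      rcases hε (Fin.last n) with h5 | h5
      · rw [h5, one_mul]
      · rw [h5, neg_one_mul, abs_neg]
    rw [h4]
    exact h2

/-- (G11) The volume. Proof: the measure preserving equivalence
`MeasureTheory.volume_preserving_piFinSuccAbove (fun _ => ℝ) (Fin.last n)` (coordinates
`(t, z')`), `volume.prod` of the set and `MeasureTheory.Measure.prod_apply_symm` (or
`volume_regionBetween_eq_integral` for `-H/2`, `H/2`): the fibre over `z' ∈ box` is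
`[-H/2, H/2]`, of length `H z'`. -/
theorem body_volume {n : ℕ} {H : (Fin n → ℝ) → ℝ} (hH : Continuous H)
    (h0 : ∀ z ∈ box (Fin n), 0 < H z) :
    volume (body H) = ENNReal.ofReal (∫ z in box (Fin n), H z) := by
  classical
  have hm := volume_preserving_piFinSuccAbove (fun _ : Fin (n + 1) => ℝ) (Fin.last n)
  set S : Set (ℝ × (Fin n → ℝ)) := {q | q.2 ∈ box (Fin n) ∧ 2 * |q.1| ≤ H q.2} with hS
  have hSc : IsClosed S := by
    have h1 : IsClosed {q : ℝ × (Fin n → ℝ) | q.2 ∈ box (Fin n)} :=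
      isClosed_Icc.preimage continuous_snd
    have h2 : IsClosed {q : ℝ × (Fin n → ℝ) | 2 * |q.1| ≤ H q.2} :=
      isClosed_le (continuous_const.mul continuous_fst.abs) (hH.comp continuous_snd)
    exact h1.inter h2
  have hpre : body H = (MeasurableEquiv.piFinSuccAbove (fun _ : Fin (n + 1) => ℝ)
      (Fin.last n)) ⁻¹' S := by
    ext z
    have h1 : (MeasurableEquiv.piFinSuccAbove (fun _ : Fin (n + 1) => ℝ) (Fin.last n)) z =
        (z (Fin.last n), fun i => z (Fin.castSucc i)) := by
      refine Prod.ext rfl ?_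
      funext i
      change z ((Fin.last n).succAbove i) = z (Fin.castSucc i)
      rw [Fin.succAbove_last]
    rw [Set.mem_preimage, h1]
    rfl
  rw [hpre, hm.measure_preimage hSc.measurableSet.nullMeasurableSet]
  change (volume.prod volume) S = _
  rw [Measure.prod_apply_symm hSc.measurableSet]
  have hfib : ∀ y : Fin n → ℝ, volume ((fun x : ℝ => (x, y)) ⁻¹' S) =
      (box (Fin n)).indicator (fun y => ENNReal.ofReal (H y)) y := by
    intro y
    by_cases hy : y ∈ box (Fin n)
    · rw [Set.indicator_of_mem hy]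
      have h1 : (fun x : ℝ => (x, y)) ⁻¹' S = Set.Icc (-(H y / 2)) (H y / 2) := by
        ext x
        rw [Set.mem_preimage, Set.mem_Icc, ← abs_le]
        constructor
        · rintro ⟨_, h⟩
          have h' : 2 * |x| ≤ H y := h
          linarith
        · intro h
          exact ⟨hy, show 2 * |x| ≤ H y by linarith⟩
      rw [h1, Real.volume_Icc]
      congr 1
      ring
    · rw [Set.indicator_of_notMem hy]
      have h1 : (fun x : ℝ => (x, y)) ⁻¹' S = ∅ := by
        ext x
        simp only [Set.mem_preimage, Set.mem_empty_iff_false, iff_false]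
        exact fun h => hy h.1
      rw [h1, measure_empty]
  have hbm : MeasurableSet (box (Fin n)) := measurableSet_Icc
  rw [lintegral_congr hfib, lintegral_indicator hbm]
  have hint : IntegrableOn H (box (Fin n)) :=
    hH.continuousOn.integrableOn_compact isCompact_Icc
  rw [ofReal_integral_eq_lintegral_ofReal hint]
  refine (ae_restrict_iff' hbm).2 (Filter.Eventually.of_forall fun y hy => ?_)
  exact (h0 y hy).le

/-- (G12) The body contains a neighbourhood of the origin. -/
theorem body_nhds {n : ℕ} {H : (Fin n → ℝ) → ℝ} (hH : Continuous H)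
    (h0 : ∀ z ∈ box (Fin n), 0 < H z) : body H ∈ nhds (0 : Fin (n + 1) → ℝ) := by
  have hp : Continuous fun z : Fin (n + 1) → ℝ => fun i : Fin n => z (Fin.castSucc i) :=
    continuous_pi fun i => continuous_apply _
  have h00 : (0 : Fin n → ℝ) ∈ box (Fin n) := by
    rw [box_eq]
    intro i
    simp
  have h1 : ∀ᶠ z : Fin (n + 1) → ℝ in nhds 0, ∀ i : Fin n,
      -1 ≤ z (Fin.castSucc i) ∧ z (Fin.castSucc i) ≤ 1 := by
    rw [Filter.eventually_all]
    intro i
    have h2 : Filter.Tendsto (fun z : Fin (n + 1) → ℝ => z (Fin.castSucc i)) (nhds 0)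
        (nhds ((0 : Fin (n + 1) → ℝ) (Fin.castSucc i))) := (continuous_apply _).continuousAt
    rw [Pi.zero_apply] at h2
    exact h2 (Icc_mem_nhds (by norm_num) (by norm_num))
  have h3 : ∀ᶠ z : Fin (n + 1) → ℝ in nhds 0, 2 * |z (Fin.last n)| <
      H (fun i : Fin n => z (Fin.castSucc i)) := by
    have hc1 : ContinuousAt (fun z : Fin (n + 1) → ℝ => 2 * |z (Fin.last n)|) 0 :=
      (continuous_const.mul (continuous_apply _).abs).continuousAt
    have hc2 : ContinuousAt (fun z : Fin (n + 1) → ℝ => H (fun i : Fin n => z (Fin.castSucc i)))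
        0 := (hH.comp hp).continuousAt
    refine hc1.eventually_lt hc2 ?_
    have h4 := h0 0 h00
    simp only [Pi.zero_apply, abs_zero, mul_zero]
    exact h4
  filter_upwards [h1, h3] with z hz1 hz2
  refine ⟨?_, hz2.le⟩
  rw [box_eq]
  exact hz1

end Pool.Agent.CVol
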