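import Pool.Agent.W_2cf66e_h65.Defs

/-!
# MP_2cf66e_nt, part G: from a convex body to a norm (helper65)
-/

set_option autoImplicit false

noncomputable section

open MeasureTheory

namespace Pool.Agent.CVol

/-- (G13) A compact convex neighbourhood of the origin, invariant under all sign changes of the
coordinates, is the unit ball of a norm on `ℝ^n` invariant under sign changes.

Proof: the gauge of `K` (`gaugeSeminorm`; `K` is balanced over `ℝ` because it is convex and
symmetric, absorbent because it is a neighbourhood of `0`). `{gauge ≤ 1} = K` since `K` is closed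
(`gauge_le_one_iff_mem_closure` or the like); `p z = 0` implies `z = 0` because `K` is bounded
(`gauge_eq_zero` / `gauge_pos`); invariance: `gauge` is defined by `K`
(`z ∈ r • K ↔ ε z ∈ r • K`). -/
theorem exists_norm {n : ℕ} (K : Set (Fin n → ℝ)) (hc : IsCompact K) (hK : Convex ℝ K)
    (h0 : K ∈ nhds (0 : Fin n → ℝ))
    (hs : ∀ z ∈ K, ∀ ε : Fin n → ℝ, (∀ i, ε i = 1 ∨ ε i = -1) → (fun i => ε i * z i) ∈ K) :
    ∃ p : Seminorm ℝ (Fin n → ℝ), (∀ z, p z = 0 → z = 0) ∧
      (∀ (z ε : Fin n → ℝ), (∀ i, ε i = 1 ∨ ε i = -1) → p (fun i => ε i * z i) = p z) ∧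
      {z | p z ≤ 1} = K := by
  have hbal : Balanced ℝ K := by
    rw [balanced_iff_neg_mem hK]
    intro x hx
    have h1 := hs x hx (fun _ => -1) (fun _ => Or.inr rfl)
    have h2 : (fun i => (-1 : ℝ) * x i) = -x := by
      funext i
      simp
    rwa [h2] at h1
  have habs : Absorbent ℝ K := absorbent_nhds_zero h0
  have hbd : Bornology.IsVonNBounded ℝ K :=
    (NormedSpace.isVonNBounded_iff ℝ).2 hc.isBounded
  have hset : ∀ z, gauge K z ≤ 1 ↔ z ∈ K := by
    intro z
    rw [gauge_le_one_iff_mem_closure hK h0, hc.isClosed.closure_eq]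
  have hzero : ∀ z, gauge K z = 0 → z = 0 := fun z hz => (gauge_eq_zero habs hbd).1 hz
  have hle : ∀ (z ε : Fin n → ℝ), (∀ i, ε i = 1 ∨ ε i = -1) →
      gauge K (fun i => ε i * z i) ≤ gauge K z := by
    intro z ε hε
    rcases (gauge_nonneg (s := K) z).eq_or_lt with h | h
    · have hz := hzero z h.symm
      have h5 : (fun i => ε i * z i) = (0 : Fin n → ℝ) := by
        funext i
        rw [hz]
        simp
      rw [h5, gauge_zero]
      exact gauge_nonneg _
    · have h1 : gauge K ((gauge K z)⁻¹ • z) ≤ 1 := by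
        rw [gauge_smul_of_nonneg (inv_nonneg.2 h.le), smul_eq_mul, inv_mul_cancel₀ h.ne']
      have h2 := hs _ ((hset _).1 h1) ε hε
      have h3 := (hset _).2 h2
      have h4 : (fun i => ε i * ((gauge K z)⁻¹ • z) i) =
          (gauge K z)⁻¹ • (fun i => ε i * z i) := by
        funext i
        simp only [Pi.smul_apply, smul_eq_mul]
        ring
      rw [h4, gauge_smul_of_nonneg (inv_nonneg.2 h.le), smul_eq_mul, inv_mul_le_iff₀ h,
        mul_one] at h3
      exact h3
  refine ⟨gaugeSeminorm hbal hK habs, fun z hz => hzero z hz, fun z ε hε => ?_, ?_⟩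
  · refine le_antisymm (hle z ε hε) ?_
    have h1 := hle (fun i => ε i * z i) ε hε
    have h2 : (fun i => ε i * (ε i * z i)) = z := by
      funext i
      rcases hε i with h | h <;> rw [h] <;> ring
    rw [h2] at h1
    exact h1
  · ext z
    exact hset z

end Pool.Agent.CVol
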