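import Pool.Agent.W_2cf66e_h65.Defs

/-!
# MP_2cf66e_nt, part A: words and denominators (helper65)
-/

set_option autoImplicit false

noncomputable section

open Polynomial

namespace Pool.Agent.CVol

/-- (A33) Words commute with maps of the coefficient ring. Proof: induction on `l`;
`MvPolynomial.pderiv_map`, `MvPolynomial.map_C`, `map_natCast`. The level of
`word s F l (g, c)` is `c + l.length`. -/
theorem word_map {A B : Type} [CommRing A] [CommRing B] {n : ℕ} (f : A →+* B) (s : A)
    (F : MvPolynomial (Fin n) A) (l : List (Fin n)) (g : MvPolynomial (Fin n) A) (c : ℕ) :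
    word (f s) (MvPolynomial.map f F) l (MvPolynomial.map f g, c) =
      (MvPolynomial.map f (word s F l (g, c)).1, c + l.length) := by
  have hsnd : ∀ l : List (Fin n), (word s F l (g, c)).2 = c + l.length := by
    intro l
    induction l with
    | nil => rfl
    | cons i l ih =>
      change (word s F l (g, c)).2 + 1 = _
      rw [ih, List.length_cons, add_assoc]
  induction l with
  | nil => rfl
  | cons i l ih =>
    change lev (f s) (MvPolynomial.map f F) i (word (f s) (MvPolynomial.map f F) l
      (MvPolynomial.map f g, c)) = (MvPolynomial.map f (lev s F i (word s F l (g, c))).1, _)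
    rw [ih]
    simp only [lev, hsnd, MvPolynomial.pderiv_map, map_add, map_mul, map_sub, MvPolynomial.map_C,
      map_natCast, List.length_cons, add_assoc]

theorem word_snd {A : Type} [CommRing A] {n : ℕ} (s : A)
    (F : MvPolynomial (Fin n) A) (l : List (Fin n)) (g : MvPolynomial (Fin n) A) (c : ℕ) :
    (word s F l (g, c)).2 = c + l.length := by
  induction l with
  | nil => rfl
  | cons i l ih =>
    change (word s F l (g, c)).2 + 1 = _
    rw [ih, List.length_cons, add_assoc]

/-- (A34) Clearing denominators of finitely many polynomials over a fraction field.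

Proof: the set of all coefficients of all `c l`, `l ∈ c.support`, is finite; take a common
denominator `d` (`IsLocalization.exist_integer_multiples_of_finset`), and build `c'` coefficient by
coefficient; or induct on the finite support, using for one polynomial
`MvPolynomial.induction_on` with the property
`∃ d ≠ 0, ∃ p', C (algebraMap d) * p = map (algebraMap) p'`. -/
theorem clear {A K : Type} [CommRing A] [IsDomain A] [Field K] [Algebra A K]
    [IsFractionRing A K] {n : ℕ} {ι : Type} (T : Finset ι) (c : ι → MvPolynomial (Fin n) K) :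
    ∃ (d : A) (c' : ι → MvPolynomial (Fin n) A), d ≠ 0 ∧
      ∀ l ∈ T, MvPolynomial.C (algebraMap A K d) * c l =
        MvPolynomial.map (algebraMap A K) (c' l) := by
  classical
  have hone : ∀ p : MvPolynomial (Fin n) K, ∃ (d : A) (p' : MvPolynomial (Fin n) A), d ≠ 0 ∧
      MvPolynomial.C (algebraMap A K d) * p = MvPolynomial.map (algebraMap A K) p' := by
    intro p
    induction p using MvPolynomial.induction_on with
    | C a =>
      obtain ⟨x, y, hy, hxy⟩ := IsFractionRing.div_surjective (A := A) a
      have hy0 : algebraMap A K y ≠ 0 :=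
        IsLocalization.to_map_ne_zero_of_mem_nonZeroDivisors K le_rfl hy
      refine ⟨y, MvPolynomial.C x, nonZeroDivisors.ne_zero hy, ?_⟩
      rw [MvPolynomial.map_C, ← hxy, ← MvPolynomial.C_mul, mul_div_cancel₀ _ hy0]
    | add p q hp hq =>
      obtain ⟨d, p', hd, hp⟩ := hp
      obtain ⟨e, q', he, hq⟩ := hq
      refine ⟨d * e, MvPolynomial.C e * p' + MvPolynomial.C d * q', mul_ne_zero hd he, ?_⟩
      rw [RingHom.map_add (MvPolynomial.map (algebraMap A K)), RingHom.map_mul (MvPolynomial.map _),
        RingHom.map_mul (MvPolynomial.map _), MvPolynomial.map_C, MvPolynomial.map_C, ← hp, ← hq,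
        RingHom.map_mul (algebraMap A K), MvPolynomial.C_mul]
      ring
    | mul_X p i hp =>
      obtain ⟨d, p', hd, hp⟩ := hp
      refine ⟨d, p' * MvPolynomial.X i, hd, ?_⟩
      rw [map_mul, MvPolynomial.map_X, ← hp, mul_assoc]
  choose d c' hd hc' using fun l => hone (c l)
  refine ⟨∏ l ∈ T, d l, fun l => MvPolynomial.C (∏ l' ∈ T.erase l, d l') * c' l,
    Finset.prod_ne_zero_iff.mpr fun l _ => hd l, fun l hl => ?_⟩
  rw [map_mul, MvPolynomial.map_C, ← hc' l, ← mul_assoc, ← MvPolynomial.C_mul, ← map_mul,
    Finset.prod_erase_mul T d hl]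

end Pool.Agent.CVol
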