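import Pool.Agent.W_2cf66e_h65.AMem
import Pool.Agent.W_2cf66e_h65.AClear

/-!
# MP_2cf66e_nt, part A: the functional equation over `ℚ[s][x]` (helper65)
-/

set_option autoImplicit false

noncomputable section

open Polynomial

namespace Pool.Agent.CVol

/-- (A35) Bernstein-Sato functional equation, polynomial form, for `a F^(-m) F^s`.

Proof: `K = FractionRing ℚ[X]` (characteristic zero), `s = algebraMap X`. Apply `poly_eq` to the
images of `F`, `a` in `MvPolynomial (Fin n) K` (injectivity of `MvPolynomial.map` for injective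
ring homomorphisms gives `F ≠ 0`), get `j, M, c`; `clear` gives `d` and `c'`; multiply the
identity by `C d` and use `word_map`; by injectivity of
`MvPolynomial.map (algebraMap ℚ[X] K)` the identity holds in `ℚ[X][x]`. -/
theorem bs_poly {n : ℕ} (F a : MvPolynomial (Fin n) ℚ) (hF : F ≠ 0) (m : ℕ) :
    ∃ (j M : ℕ) (d : ℚ[X]) (T : Finset (List (Fin n))) (c : List (Fin n) → RS n),
      d ≠ 0 ∧ (∀ l ∈ T, l.length ≤ M) ∧
      MvPolynomial.C d * up F ^ (j + M) * up a =
        ∑ l ∈ T, c l * (word (X : ℚ[X]) (up F) l (up F ^ (j + 1) * up a, m)).1 *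
          up F ^ (M - l.length) := by
  have hφ : Function.Injective (algebraMap ℚ[X] (FractionRing ℚ[X])) :=
    IsFractionRing.injective _ _
  have hinj : Function.Injective (MvPolynomial.map (σ := Fin n)
      (algebraMap ℚ[X] (FractionRing ℚ[X]))) := MvPolynomial.map_injective _ hφ
  have hup : Function.Injective (up (n := n)) := MvPolynomial.map_injective _ Polynomial.C_injective
  have hF1 : MvPolynomial.map (algebraMap ℚ[X] (FractionRing ℚ[X])) (up F) ≠ 0 := by
    intro h0
    apply hF
    apply hup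
    apply hinj
    rw [h0, map_zero, map_zero]
  have : CharZero (FractionRing ℚ[X]) := charZero_of_injective_algebraMap hφ
  obtain ⟨j, M, c, hlen, heq⟩ := poly_eq (K := FractionRing ℚ[X])
    (algebraMap ℚ[X] (FractionRing ℚ[X]) X)
    (MvPolynomial.map (algebraMap ℚ[X] (FractionRing ℚ[X])) (up F)) hF1
    (MvPolynomial.map (algebraMap ℚ[X] (FractionRing ℚ[X])) (up a)) m
  obtain ⟨d, c', hd, hc⟩ := clear (A := ℚ[X]) (K := FractionRing ℚ[X]) c.support c
  refine ⟨j, M, d, c.support, c', hd, hlen, ?_⟩
  apply hinj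
  rw [map_mul, map_mul, map_pow, MvPolynomial.map_C, mul_assoc, heq, map_sum, Finset.mul_sum]
  refine Finset.sum_congr rfl fun l hl => ?_
  have hw := word_map (algebraMap ℚ[X] (FractionRing ℚ[X])) (X : ℚ[X]) (up F) l
    (up F ^ (j + 1) * up a) m
  rw [map_mul, map_pow] at hw
  rw [hw, map_mul, map_mul, map_pow, ← hc l hl]
  ring

end Pool.Agent.CVol
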