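import Pool.Agent.W_2cf66e_h65.ALayer

/-!
# MP_2cf66e_nt, part A: descending chains of submodules (helper65)
-/

set_option autoImplicit false

noncomputable section

open Module

namespace Pool.Agent.CVol

variable {K V : Type} [Field K] [AddCommGroup V] [Module K V] {n : ℕ}

/-- (A14) Descending chains of stable subspaces have bounded length.

Proof. Suppose `N j ≠ N (j+1)` for all `j`. Put `L = (c (4n+1))^n + 1`. For each `j < L` there is
`v ∈ N j`, `v ∉ N (j+1)`, and `v ∈ Γ (i_j)` for some `i_j` (as `N j ≤ N 0`); let `m` be the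
maximum of the `i_j`, `j < L`, so `Γ m ⊓ N j` is not contained in `N (j+1)`. By `layer` and
`tele` (with `Γ = Γ (m + 4nm)`):
`L (m+1)^n ≤ finrank (Γ (m+4nm)) ≤ (c (m + 4nm + 1))^n ≤ (c (4n+1)(m+1))^n = (c(4n+1))^n (m+1)^n`,
so `L ≤ (c(4n+1))^n`, a contradiction. -/
theorem chain [CharZero K] {X D : Fin n → Module.End K V} (h : IsWeyl X D)
    (Γ : ℕ → Submodule K V) (hmono : Monotone Γ) (hfin : ∀ i, FiniteDimensional K (Γ i))
    (hX : ∀ i j, ∀ v ∈ Γ i, X j v ∈ Γ (i + 1)) (hD : ∀ i j, ∀ v ∈ Γ i, D j v ∈ Γ (i + 1))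
    (c : ℕ) (hc : ∀ i, finrank K (Γ i) ≤ (c * (i + 1)) ^ n)
    (N : ℕ → Submodule K V) (hN : Antitone N)
    (hNX : ∀ i j, ∀ v ∈ N i, X j v ∈ N i) (hND : ∀ i j, ∀ v ∈ N i, D j v ∈ N i)
    (hN0 : ∀ v ∈ N 0, ∃ i, v ∈ Γ i) :
    ∃ j, N j = N (j + 1) := by
  by_contra hcon
  have hne : ∀ j, N j ≠ N (j + 1) := fun j hj => hcon ⟨j, hj⟩
  have hex : ∀ j, ∃ v ∈ N j, v ∉ N (j + 1) := by
    intro j
    by_contra hcon2
    apply hne j
    refine le_antisymm (fun v hv => ?_) (hN (Nat.le_succ j))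
    by_contra hv'
    exact hcon2 ⟨v, hv, hv'⟩
  choose v hv hv' using hex
  have hi : ∀ j, ∃ i, v j ∈ Γ i := fun j => hN0 (v j) (hN (Nat.zero_le j) (hv j))
  choose e he using hi
  obtain ⟨L, hL⟩ : ∃ L, L = (c * (4 * n + 1)) ^ n + 1 := ⟨_, rfl⟩
  obtain ⟨m, hm⟩ : ∃ m, m = (Finset.range L).sup e := ⟨_, rfl⟩
  have h1 : ∀ j ∈ Finset.range L, (m + 1) ^ n ≤
      finrank K ((Γ (m + 4 * n * m) ⊓ N j).map (N (j + 1)).mkQ) := by
    intro j hj
    refine layer h Γ hmono hfin hX hD (N j) (N (j + 1)) (hNX j) (hND j) (hNX (j + 1))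
      (hND (j + 1)) m ?_
    intro hle
    refine hv' j (hle ⟨?_, hv j⟩)
    rw [hm]
    exact hmono (Finset.le_sup hj) (he j)
  have h2 := Finset.sum_le_sum h1
  rw [Finset.sum_const, Finset.card_range, smul_eq_mul] at h2
  have h3 := tele (Γ (m + 4 * n * m)) N hN L
  have h4 := hc (m + 4 * n * m)
  have h5 : (c * (m + 4 * n * m + 1)) ^ n ≤ (c * (4 * n + 1)) ^ n * (m + 1) ^ n := by
    rw [← mul_pow]
    refine Nat.pow_le_pow_left ?_ n
    rw [mul_assoc c]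
    refine Nat.mul_le_mul_left c ?_
    nlinarith [Nat.zero_le n, Nat.zero_le m]
  have h6 : L * (m + 1) ^ n ≤ (c * (4 * n + 1)) ^ n * (m + 1) ^ n :=
    h2.trans (h3.trans (h4.trans h5))
  have h7 : L ≤ (c * (4 * n + 1)) ^ n :=
    Nat.le_of_mul_le_mul_right h6 (Nat.pow_pos (Nat.succ_pos m))
  omega

end Pool.Agent.CVol
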