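import Pool.Agent.W_2cf66e_h65.Defs

/-!
# MP_2cf66e_nt, part A: the connection `∂ + s dF/F` (helper65)
-/

set_option autoImplicit false

noncomputable section

namespace Pool.Agent.CVol

/-- The field of rational functions. -/
abbrev RF (K : Type) [Field K] (n : ℕ) : Type := FractionRing (MvPolynomial (Fin n) K)

/-- A family of commuting derivations of `K(x)` extending the partial derivatives. -/
structure IsPD {K : Type} [Field K] {n : ℕ} (δ : Fin n → Derivation K (RF K n) (RF K n)) :
    Prop where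
  ext : ∀ i p, δ i (algebraMap (MvPolynomial (Fin n) K) (RF K n) p) =
    algebraMap (MvPolynomial (Fin n) K) (RF K n) (MvPolynomial.pderiv i p)
  comm : ∀ i j g, δ i (δ j g) = δ j (δ i g)

variable {K : Type} [Field K] {n : ℕ}

/-- Multiplication by the variable `x_j`. -/
def Xop (K : Type) [Field K] (n : ℕ) (j : Fin n) : Module.End K (RF K n) :=
  LinearMap.mulLeft K (algebraMap (MvPolynomial (Fin n) K) (RF K n) (MvPolynomial.X j))

/-- The operator `g ↦ ∂_j g + s (∂_j F / F) g`. -/
def Dop (δ : Fin n → Derivation K (RF K n) (RF K n)) (s : K) (F : MvPolynomial (Fin n) K)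
    (j : Fin n) : Module.End K (RF K n) :=
  (δ j).toLinearMap + LinearMap.mulLeft K (algebraMap K (RF K n) s *
    (algebraMap (MvPolynomial (Fin n) K) (RF K n) (MvPolynomial.pderiv j F) /
      algebraMap (MvPolynomial (Fin n) K) (RF K n) F))

theorem Xop_apply (j : Fin n) (g : RF K n) : Xop K n j g =
    algebraMap (MvPolynomial (Fin n) K) (RF K n) (MvPolynomial.X j) * g := rfl

theorem Dop_apply (δ : Fin n → Derivation K (RF K n) (RF K n)) (s : K)
    (F : MvPolynomial (Fin n) K) (j : Fin n) (g : RF K n) : Dop δ s F j g =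
    δ j g + (algebraMap K (RF K n) s *
    (algebraMap (MvPolynomial (Fin n) K) (RF K n) (MvPolynomial.pderiv j F) /
      algebraMap (MvPolynomial (Fin n) K) (RF K n) F)) * g := rfl

/-- (A17) Leibniz rule: `D_i (p g) = (∂_i p) g + p (D_i g)` for a polynomial `p`. -/
theorem Dop_mul {δ : Fin n → Derivation K (RF K n) (RF K n)} (hδ : IsPD δ) (s : K)
    (F : MvPolynomial (Fin n) K) (i : Fin n) (p : MvPolynomial (Fin n) K) (g : RF K n) :
    Dop δ s F i (algebraMap _ _ p * g) =
      algebraMap (MvPolynomial (Fin n) K) (RF K n) (MvPolynomial.pderiv i p) * g +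
        algebraMap (MvPolynomial (Fin n) K) (RF K n) p * Dop δ s F i g := by
  rw [Dop_apply, Dop_apply, Derivation.leibniz, hδ.ext, smul_eq_mul, smul_eq_mul]
  ring

theorem AConn_ne {K : Type} [Field K] {n : ℕ} {F : MvPolynomial (Fin n) K} (hF : F ≠ 0) :
    algebraMap (MvPolynomial (Fin n) K) (RF K n) F ≠ 0 := by
  intro h
  exact hF ((IsFractionRing.injective (MvPolynomial (Fin n) K) (RF K n))
    (h.trans (map_zero _).symm))

theorem AConn_phi {δ : Fin n → Derivation K (RF K n) (RF K n)} (hδ : IsPD δ)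
    (F : MvPolynomial (Fin n) K) (hF : F ≠ 0) (i j : Fin n) :
    δ i (algebraMap (MvPolynomial (Fin n) K) (RF K n) (MvPolynomial.pderiv j F) /
      algebraMap (MvPolynomial (Fin n) K) (RF K n) F) =
    δ j (algebraMap (MvPolynomial (Fin n) K) (RF K n) (MvPolynomial.pderiv i F) /
      algebraMap (MvPolynomial (Fin n) K) (RF K n) F) := by
  have hF' := AConn_ne hF
  obtain ⟨φ, hφ⟩ : ∃ φ, φ = algebraMap (MvPolynomial (Fin n) K) (RF K n) F := ⟨_, rfl⟩
  rw [← hφ] at hF' ⊢
  have key : ∀ a b : Fin n, δ a (algebraMap (MvPolynomial (Fin n) K) (RF K n)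
      (MvPolynomial.pderiv b F) / φ) =
      (δ a (δ b φ) * φ - δ b φ * δ a φ) / φ ^ 2 := by
    intro a b
    have h1 : algebraMap (MvPolynomial (Fin n) K) (RF K n) (MvPolynomial.pderiv b F) = δ b φ := by
      rw [hφ, hδ.ext]
    rw [h1]
    have h2 : δ a (δ b φ / φ * φ) = δ a (δ b φ) := by rw [div_mul_cancel₀ _ hF']
    rw [Derivation.leibniz, smul_eq_mul, smul_eq_mul] at h2
    rw [eq_div_iff (pow_ne_zero 2 hF')]
    have h3 : φ * δ a (δ b φ / φ) = δ a (δ b φ) - δ b φ / φ * δ a φ := by
      linear_combination h2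
    calc δ a (δ b φ / φ) * φ ^ 2 = (φ * δ a (δ b φ / φ)) * φ := by ring
      _ = (δ a (δ b φ) - δ b φ / φ * δ a φ) * φ := by rw [h3]
      _ = δ a (δ b φ) * φ - δ b φ * δ a φ := by
          have h4 : δ b φ / φ * φ = δ b φ := div_mul_cancel₀ _ hF'
          linear_combination (-δ a φ) * h4
  rw [key i j, key j i, hδ.comm i j]
  ring

/-- (A18) The Weyl relations. `xx`: commutativity of multiplication. `dx`: `Dop_mul` with
`p = X j` and `MvPolynomial.pderiv_X`. `dd`: expand; the terms
`δ_i (s F_j/F) = s (F_ij F - F_i F_j)/F^2` (use `δ_i ((F_j/F) * F) = δ_i F_j`, `F ≠ 0`) are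
symmetric in `i, j` (`MvPolynomial` partial derivatives commute), the others by `hδ.comm`. -/
theorem isWeyl {δ : Fin n → Derivation K (RF K n) (RF K n)} (hδ : IsPD δ) (s : K)
    (F : MvPolynomial (Fin n) K) (hF : F ≠ 0) : IsWeyl (Xop K n) (Dop δ s F) := by
  refine ⟨?_, ?_, ?_⟩
  · intro i j
    ext g
    rw [Module.End.mul_apply, Module.End.mul_apply]
    simp only [Xop_apply]
    ring
  · intro i j
    ext g
    rw [Module.End.mul_apply, Module.End.mul_apply]
    have h1 := AConn_phi hδ F hF i j
    have h2 := hδ.comm i j g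
    have key : ∀ a b : Fin n, Dop δ s F a (Dop δ s F b g) = δ a (δ b g) +
        algebraMap K (RF K n) s * (δ a (algebraMap (MvPolynomial (Fin n) K) (RF K n)
          (MvPolynomial.pderiv b F) / algebraMap (MvPolynomial (Fin n) K) (RF K n) F)) * g +
        algebraMap K (RF K n) s * (algebraMap (MvPolynomial (Fin n) K) (RF K n)
          (MvPolynomial.pderiv b F) / algebraMap (MvPolynomial (Fin n) K) (RF K n) F) * δ a g +
        algebraMap K (RF K n) s * (algebraMap (MvPolynomial (Fin n) K) (RF K n)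
          (MvPolynomial.pderiv a F) / algebraMap (MvPolynomial (Fin n) K) (RF K n) F) * δ b g +
        (algebraMap K (RF K n) s * (algebraMap (MvPolynomial (Fin n) K) (RF K n)
          (MvPolynomial.pderiv a F) / algebraMap (MvPolynomial (Fin n) K) (RF K n) F)) *
        (algebraMap K (RF K n) s * (algebraMap (MvPolynomial (Fin n) K) (RF K n)
          (MvPolynomial.pderiv b F) / algebraMap (MvPolynomial (Fin n) K) (RF K n) F)) * g := by
      intro a b
      rw [Dop_apply, Dop_apply, map_add, Derivation.leibniz, Derivation.leibniz,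
        Derivation.map_algebraMap]
      simp only [smul_eq_mul]
      ring
    rw [key i j, key j i, h1, h2]
    ring
  · intro i j
    ext g
    rw [LinearMap.sub_apply, Module.End.mul_apply, Module.End.mul_apply, Xop_apply, Dop_mul hδ,
      Xop_apply, MvPolynomial.pderiv_X]
    by_cases hij : i = j
    · subst hij
      rw [if_pos rfl, Pi.single_eq_same, map_one, Module.End.one_apply]
      ring
    · rw [if_neg hij, Pi.single_eq_of_ne (Ne.symm hij), map_zero, LinearMap.zero_apply]
      ring

/-- (A19) One differentiation of a fraction: `D_i (g / F^c) = g' / F^(c+1)` with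
`(g', c+1) = lev s F i (g, c)`. Proof: `g = (g/F^c) F^c` and Leibniz in the field. -/
theorem Dop_frac {δ : Fin n → Derivation K (RF K n) (RF K n)} (hδ : IsPD δ) (s : K)
    (F : MvPolynomial (Fin n) K) (hF : F ≠ 0) (i : Fin n) (g : MvPolynomial (Fin n) K) (c : ℕ) :
    Dop δ s F i (algebraMap (MvPolynomial (Fin n) K) (RF K n) g /
        (algebraMap (MvPolynomial (Fin n) K) (RF K n) F) ^ c) =
      algebraMap (MvPolynomial (Fin n) K) (RF K n) (lev s F i (g, c)).1 /
        (algebraMap (MvPolynomial (Fin n) K) (RF K n) F) ^ (c + 1) := by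
  have hF' := AConn_ne hF
  obtain ⟨φ, hφ⟩ : ∃ φ, φ = algebraMap (MvPolynomial (Fin n) K) (RF K n) F := ⟨_, rfl⟩
  rw [← hφ] at hF' ⊢
  have hpow : ∀ m : ℕ, φ * δ i (φ ^ m) = (m : RF K n) * φ ^ m * δ i φ := by
    intro m
    induction m with
    | zero => simp
    | succ m ih =>
      rw [pow_succ, Derivation.leibniz, smul_eq_mul, smul_eq_mul]
      push_cast
      linear_combination φ * ih
  obtain ⟨u, hu⟩ : ∃ u, u = algebraMap (MvPolynomial (Fin n) K) (RF K n) g / φ ^ c := ⟨_, rfl⟩
  rw [← hu]
  have hφc : φ ^ c ≠ 0 := pow_ne_zero c hF'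
  have hug : u * φ ^ c = algebraMap (MvPolynomial (Fin n) K) (RF K n) g := by
    rw [hu, div_mul_cancel₀ _ hφc]
  have h1 : δ i (u * φ ^ c) = algebraMap (MvPolynomial (Fin n) K) (RF K n)
      (MvPolynomial.pderiv i g) := by rw [hug, hδ.ext]
  rw [Derivation.leibniz, smul_eq_mul, smul_eq_mul] at h1
  have h2 : δ i φ = algebraMap (MvPolynomial (Fin n) K) (RF K n) (MvPolynomial.pderiv i F) := by
    rw [hφ, hδ.ext]
  rw [Dop_apply, ← hφ, ← h2, eq_div_iff (pow_ne_zero _ hF')]
  have h3 : algebraMap (MvPolynomial (Fin n) K) (RF K n) (lev s F i (g, c)).1 =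
      φ * algebraMap (MvPolynomial (Fin n) K) (RF K n) (MvPolynomial.pderiv i g) +
        (algebraMap K (RF K n) s - (c : RF K n)) * (u * φ ^ c) * δ i φ := by
    unfold lev
    rw [hug, h2, hφ]
    simp only [map_add, map_mul, map_sub]
    have h4 : ∀ t : K, algebraMap (MvPolynomial (Fin n) K) (RF K n) (MvPolynomial.C t) =
        algebraMap K (RF K n) t := fun t => by
      rw [IsScalarTower.algebraMap_apply K (MvPolynomial (Fin n) K) (RF K n),
        MvPolynomial.algebraMap_eq]
    rw [h4, h4, map_natCast]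
  rw [h3, ← h1]
  have h5 := hpow c
  have h6 : δ i φ / φ * φ = δ i φ := div_mul_cancel₀ _ hF'
  rw [pow_succ]
  linear_combination (algebraMap K (RF K n) s * u * φ ^ c) * h6 - u * h5

/-- (A20) Words: `D^l (g / F^c) = N / F^(c + |l|)` with `(N, c + |l|) = word s F l (g, c)`.
Proof: induction on `l` with `Dop_frac`. -/
theorem word_frac {δ : Fin n → Derivation K (RF K n) (RF K n)} (hδ : IsPD δ) (s : K)
    (F : MvPolynomial (Fin n) K) (hF : F ≠ 0) (l : List (Fin n)) (g : MvPolynomial (Fin n) K)
    (c : ℕ) :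
    l.foldr (fun i u => Dop δ s F i u) (algebraMap (MvPolynomial (Fin n) K) (RF K n) g /
        (algebraMap (MvPolynomial (Fin n) K) (RF K n) F) ^ c) =
      algebraMap (MvPolynomial (Fin n) K) (RF K n) (word s F l (g, c)).1 /
        (algebraMap (MvPolynomial (Fin n) K) (RF K n) F) ^ (c + l.length) := by
  induction l with
  | nil => simp [word]
  | cons i l ih =>
    rw [List.foldr_cons, ih, Dop_frac hδ s F hF i (word s F l (g, c)).1 (c + l.length)]
    have h1 : (word s F l (g, c)).2 = c + l.length := by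
      clear ih
      induction l with
      | nil => simp [word]
      | cons k l ih =>
        unfold word at ih ⊢
        rw [List.foldr_cons]
        change (List.foldr (fun i q => lev s F i q) (g, c) l).2 + 1 = _
        rw [ih, List.length_cons]
        ring
    have h2 : lev s F i ((word s F l (g, c)).1, c + l.length) = word s F (i :: l) (g, c) := by
      rw [← h1]
      rfl
    rw [h2, List.length_cons, add_assoc]

end Pool.Agent.CVol
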