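import Pool.Agent.W_2cf66e_h65.AInj

/-!
# MP_2cf66e_nt, part A: Joseph's dimension inequality (helper65)
-/

set_option autoImplicit false

noncomputable section

open Module

namespace Pool.Agent.CVol

variable {K V : Type} [Field K] [AddCommGroup V] [Module K V] {n : ℕ}

/-- (A9) The dimension inequality.

Proof. Put `i = 2 n m`, `E = MvPolynomial (Fin n ⊕ Fin n) K`. For `f : Fin n ⊕ Fin n → Fin (m+1)`
let `γ_f` be the exponent vector; the monomials `x^γ_f` are linearly independent in `E` and have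
total degree `≤ 2 n m`. The linear map from the span of these monomials (or from
`(Fin n ⊕ Fin n → Fin (m+1)) → K`, `c ↦ ∑ f, c f • monomial γ_f 1`) to `B i →ₗ[K] B (2 i)`,
`Q ↦ ρ(Q)` restricted (`rho_mem`), is injective by `rho_inj`. So
`(m+1)^(2n) = finrank ((Fin n ⊕ Fin n → Fin (m+1)) → K) ≤ finrank (B i →ₗ[K] B (2i))
 = finrank (B i) * finrank (B (2i))` (`LinearMap.finrank_le_finrank_of_injective`,
`Module.finrank_linearMap`). -/
theorem dim_ineq [CharZero K] {X D : Fin n → Module.End K V} (h : IsWeyl X D)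
    (φ ψ : MvPolynomial (Fin n) K →ₐ[K] Module.End K V)
    (hφ : ∀ j, φ (MvPolynomial.X j) = X j) (hψ : ∀ j, ψ (MvPolynomial.X j) = D j)
    (B : ℕ → Submodule K V) (hmono : Monotone B) (hfin : ∀ i, FiniteDimensional K (B i))
    (hX : ∀ i j, ∀ v ∈ B i, X j v ∈ B (i + 1)) (hD : ∀ i j, ∀ v ∈ B i, D j v ∈ B (i + 1))
    (h0 : B 0 ≠ ⊥) (m : ℕ) :
    (m + 1) ^ (2 * n) ≤ finrank K (B (2 * n * m)) * finrank K (B (4 * n * m)) := by
  classical
  have hfin' := hfin
  let ex : (Fin n ⊕ Fin n → Fin (m + 1)) → (Fin n ⊕ Fin n →₀ ℕ) :=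
    fun f => Finsupp.equivFunOnFinite.symm (fun a => (f a : ℕ))
  have hex : Function.Injective ex := by
    intro f g hfg
    have h1 := Finsupp.equivFunOnFinite.symm.injective hfg
    funext a
    exact Fin.ext (congrFun h1 a)
  let poly : ((Fin n ⊕ Fin n → Fin (m + 1)) → K) →ₗ[K] MvPolynomial (Fin n ⊕ Fin n) K :=
    Fintype.linearCombination K (fun f => MvPolynomial.monomial (ex f) (1 : K))
  have hpoly : ∀ c, poly c = ∑ f, MvPolynomial.monomial (ex f) (c f) := by
    intro c
    simp only [poly, Fintype.linearCombination_apply]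
    refine Finset.sum_congr rfl fun f _ => ?_
    rw [MvPolynomial.smul_monomial, smul_eq_mul, mul_one]
  have hdeg : ∀ c, (poly c).totalDegree ≤ 2 * n * m := by
    intro c
    rw [hpoly]
    refine MvPolynomial.totalDegree_finsetSum_le fun f _ => ?_
    refine (MvPolynomial.totalDegree_monomial_le _ _).trans ?_
    have e : (ex f).sum (fun _ e => e) = ∑ a, (f a : ℕ) := by
      rw [Finsupp.sum_fintype _ _ (fun _ => rfl)]
      rfl
    have e2 : (ex f).sum (fun _ => id) = ∑ a, (f a : ℕ) := e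
    rw [e2]
    calc ∑ a, (f a : ℕ) ≤ ∑ _a : Fin n ⊕ Fin n, m :=
          Finset.sum_le_sum fun a _ => Nat.lt_succ_iff.mp (f a).2
      _ = 2 * n * m := by
          rw [Finset.sum_const, Finset.card_univ, Fintype.card_sum, Fintype.card_fin, smul_eq_mul]
          ring
  have hinj : ∀ c, poly c = 0 → c = 0 := by
    intro c hc
    funext f
    have h1 := congrArg (MvPolynomial.coeff (ex f)) hc
    rw [hpoly, MvPolynomial.coeff_sum, MvPolynomial.coeff_zero,
      Finset.sum_eq_single f] at h1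
    · rwa [MvPolynomial.coeff_monomial, if_pos rfl] at h1
    · intro g _ hg
      rw [MvPolynomial.coeff_monomial, if_neg fun h => hg (hex h)]
    · intro h
      exact absurd (Finset.mem_univ f) h
  have hmem : ∀ c, ∀ v ∈ B (2 * n * m), rho φ ψ (poly c) v ∈ B (2 * n * m + 2 * n * m) :=
    fun c v hv => rho_mem φ ψ hφ hψ B hmono hX hD _ _ (poly c) (hdeg c) v hv
  let T : ((Fin n ⊕ Fin n → Fin (m + 1)) → K) →ₗ[K]
      (B (2 * n * m) →ₗ[K] B (2 * n * m + 2 * n * m)) :=
    { toFun := fun c => (rho φ ψ (poly c)).restrict (hmem c)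
      map_add' := by
        intro a b
        ext v
        simp
      map_smul' := by
        intro a b
        ext v
        simp }
  have hT : Function.Injective T := by
    rw [injective_iff_map_eq_zero]
    intro c hc
    apply hinj
    apply rho_inj h φ ψ hφ hψ B hmono hX hD h0 (2 * n * m) (poly c) (hdeg c)
    intro v hv
    have h1 := congrArg (fun g : B (2 * n * m) →ₗ[K] B (2 * n * m + 2 * n * m) =>
      ((g ⟨v, hv⟩ : B (2 * n * m + 2 * n * m)) : V)) hc
    simpa [T] using h1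
  have h1 := LinearMap.finrank_le_finrank_of_injective hT
  rw [Module.finrank_linearMap, Module.finrank_fintype_fun_eq_card, Fintype.card_fun,
    Fintype.card_sum, Fintype.card_fin, Fintype.card_fin] at h1
  have e : 4 * n * m = 2 * n * m + 2 * n * m := by ring
  have e' : 2 * n = n + n := by ring
  rw [e, show (m + 1) ^ (2 * n) = (m + 1) ^ (n + n) by rw [e']]
  exact h1

/-- (A10) Consequence: `dim B (4nm) ≥ (m+1)^n`. Proof: `exists_hom` for `X` and for `D`,
`dim_ineq`, monotonicity `finrank (B (2nm)) ≤ finrank (B (4nm))` (`Submodule.finrank_mono`),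
and `a^2 ≤ b^2 → a ≤ b`. -/
theorem joseph [CharZero K] {X D : Fin n → Module.End K V} (h : IsWeyl X D)
    (B : ℕ → Submodule K V) (hmono : Monotone B) (hfin : ∀ i, FiniteDimensional K (B i))
    (hX : ∀ i j, ∀ v ∈ B i, X j v ∈ B (i + 1)) (hD : ∀ i j, ∀ v ∈ B i, D j v ∈ B (i + 1))
    (h0 : B 0 ≠ ⊥) (m : ℕ) :
    (m + 1) ^ n ≤ finrank K (B (4 * n * m)) := by
  obtain ⟨φ, hφ⟩ := exists_hom X h.xx
  obtain ⟨ψ, hψ⟩ := exists_hom D h.dd
  have h1 := dim_ineq h φ ψ hφ hψ B hmono hfin hX hD h0 m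
  have hfin' := hfin (4 * n * m)
  have h2 : finrank K (B (2 * n * m)) ≤ finrank K (B (4 * n * m)) := by
    apply Submodule.finrank_mono
    apply hmono
    nlinarith [Nat.zero_le (n * m)]
  have h3 : ((m + 1) ^ n) ^ 2 ≤ (finrank K (B (4 * n * m))) ^ 2 := by
    calc ((m + 1) ^ n) ^ 2 = (m + 1) ^ (2 * n) := by rw [← pow_mul, mul_comm n 2]
      _ ≤ _ := h1
      _ ≤ finrank K (B (4 * n * m)) * finrank K (B (4 * n * m)) := Nat.mul_le_mul_right _ h2
      _ = _ := by ring
  exact (Nat.pow_le_pow_iff_left (by norm_num)).mp h3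

end Pool.Agent.CVol
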