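import Pool.Agent.W_2cf66e_h65.Defs

/-!
# MP_2cf66e_nt, part A: partial derivatives on the field of rational functions (helper65)
-/

set_option autoImplicit false

noncomputable section

namespace Pool.Agent.CVol

/-- the ring homomorphism `r ↦ (r, δ r)` to the dual numbers -/
def AFld_phi {k R S : Type} [CommRing k] [CommRing R] [CommRing S]
    [Algebra k R] [Algebra R S] (δ : Derivation k R R) : R →+* TrivSqZeroExt S S where
  toFun r := TrivSqZeroExt.inl (algebraMap R S r) + TrivSqZeroExt.inr (algebraMap R S (δ r))
  map_one' := by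
    ext <;> simp
  map_zero' := by
    ext <;> simp
  map_add' a b := by
    ext
    · simp
    · simp only [TrivSqZeroExt.snd_add, TrivSqZeroExt.snd_inl, TrivSqZeroExt.snd_inr, map_add,
        zero_add]
  map_mul' a b := by
    ext
    · simp
    · simp only [TrivSqZeroExt.snd_add, TrivSqZeroExt.snd_inl, TrivSqZeroExt.snd_inr, map_add,
        zero_add, TrivSqZeroExt.snd_mul, TrivSqZeroExt.fst_add, TrivSqZeroExt.fst_inl,
        TrivSqZeroExt.fst_inr, add_zero, Derivation.leibniz, smul_eq_mul, map_mul,
        op_smul_eq_smul]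

theorem AFld_phi_fst {k R S : Type} [CommRing k] [CommRing R] [CommRing S]
    [Algebra k R] [Algebra R S] (δ : Derivation k R R) (r : R) :
    (AFld_phi (S := S) δ r).fst = algebraMap R S r := by
  simp [AFld_phi]

theorem AFld_phi_snd {k R S : Type} [CommRing k] [CommRing R] [CommRing S]
    [Algebra k R] [Algebra R S] (δ : Derivation k R R) (r : R) :
    (AFld_phi (S := S) δ r).snd = algebraMap R S (δ r) := by
  show (TrivSqZeroExt.inl (algebraMap R S r) + TrivSqZeroExt.inr (algebraMap R S (δ r))
    : TrivSqZeroExt S S).snd = _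
  rw [TrivSqZeroExt.snd_add, TrivSqZeroExt.snd_inl, TrivSqZeroExt.snd_inr, zero_add]

/-- (A15) A derivation extends to a localization.

Proof (dual numbers): `TrivSqZeroExt S S` with `S` acting on itself. The map
`r ↦ inl (r : S) + inr (δ r : S)` is a ring homomorphism `R → TrivSqZeroExt S S`; the image of
`m ∈ M` is a unit because its first component is a unit (`TrivSqZeroExt.isUnit_iff_isUnit_fst`).
So it lifts to `g : S → TrivSqZeroExt S S` (`IsLocalization.lift`); `fst ∘ g = id`
(`IsLocalization.ringHom_ext`); `δ' x := snd (g x)` is additive, `k`-linear and satisfies the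
Leibniz rule because `g` is multiplicative. -/
theorem exists_derivation_ext {k R S : Type} [CommRing k] [CommRing R] [CommRing S]
    [Algebra k R] [Algebra k S] [Algebra R S] [IsScalarTower k R S] (M : Submonoid R)
    [IsLocalization M S] (δ : Derivation k R R) :
    ∃ δ' : Derivation k S S, ∀ r, δ' (algebraMap R S r) = algebraMap R S (δ r) := by
  have hu : ∀ y : M, IsUnit (AFld_phi (S := S) δ y) := by
    intro y
    rw [TrivSqZeroExt.isUnit_iff_isUnit_fst, AFld_phi_fst]
    exact IsLocalization.map_units S y
  obtain ⟨g, hg⟩ : ∃ g : S →+* TrivSqZeroExt S S, ∀ r, g (algebraMap R S r) = AFld_phi δ r :=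
    ⟨IsLocalization.lift (M := M) hu, fun r => IsLocalization.lift_eq hu r⟩
  have hfst : ∀ x, (g x).fst = x := by
    have h : ((TrivSqZeroExt.fstHom S S S : TrivSqZeroExt S S →ₐ[S] S).toRingHom.comp g)
        = RingHom.id S := by
      apply IsLocalization.ringHom_ext M
      ext r
      show (g (algebraMap R S r)).fst = algebraMap R S r
      rw [hg, AFld_phi_fst]
    intro x
    exact congrArg (fun f : S →+* S => f x) h
  have hmul : ∀ x y, (g (x * y)).snd = x * (g y).snd + y * (g x).snd := by
    intro x y
    rw [map_mul, TrivSqZeroExt.snd_mul, hfst, hfst]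
    simp [mul_comm]
  have hk : ∀ c : k, (g (algebraMap k S c)).snd = 0 := by
    intro c
    rw [IsScalarTower.algebraMap_apply k R S, hg, AFld_phi_snd, Derivation.map_algebraMap, map_zero]
  refine ⟨Derivation.mk' { toFun := fun x => (g x).snd, map_add' := ?_, map_smul' := ?_ } ?_, ?_⟩
  · intro x y
    rw [map_add, TrivSqZeroExt.snd_add]
  · intro c x
    rw [Algebra.smul_def, hmul, hk, mul_zero, add_zero, RingHom.id_apply, Algebra.smul_def]
  · intro x y
    exact hmul x y
  · intro r
    show (g (algebraMap R S r)).snd = _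
    rw [hg, AFld_phi_snd]

/-- (A16) The partial derivatives on the field of rational functions, and they commute.

Proof: `exists_derivation_ext` with `M = nonZeroDivisors`; for commutation: the commutator
`⁅∂ i, ∂ j⁆` is a derivation vanishing on all polynomials (`MvPolynomial.pderiv_pderiv_comm` or the
corresponding statement by induction), hence on all fractions `p / q`
(`p = q * (p / q)` and Leibniz: `0 = 0 * (p/q) + q * d(p/q)`; `IsFractionRing.div_surjective`). -/
theorem exists_der (K : Type) [Field K] (n : ℕ) :
    ∃ δ : Fin n → Derivation K (FractionRing (MvPolynomial (Fin n) K))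
        (FractionRing (MvPolynomial (Fin n) K)),
      (∀ i p, δ i (algebraMap (MvPolynomial (Fin n) K) (FractionRing (MvPolynomial (Fin n) K)) p) =
        algebraMap _ _ (MvPolynomial.pderiv i p)) ∧
      ∀ i j g, δ i (δ j g) = δ j (δ i g) := by
  have hex : ∀ i : Fin n, ∃ δ' : Derivation K (FractionRing (MvPolynomial (Fin n) K))
      (FractionRing (MvPolynomial (Fin n) K)), ∀ r,
      δ' (algebraMap (MvPolynomial (Fin n) K) (FractionRing (MvPolynomial (Fin n) K)) r) =
        algebraMap _ _ (MvPolynomial.pderiv i r) := fun i =>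
    exists_derivation_ext (nonZeroDivisors (MvPolynomial (Fin n) K)) (MvPolynomial.pderiv i)
  choose δ hδ using hex
  refine ⟨δ, hδ, ?_⟩
  intro i j g
  have hcomm : ⁅(MvPolynomial.pderiv i : Derivation K (MvPolynomial (Fin n) K)
      (MvPolynomial (Fin n) K)), (MvPolynomial.pderiv j : Derivation K (MvPolynomial (Fin n) K)
      (MvPolynomial (Fin n) K))⁆ = 0 := by
    apply MvPolynomial.derivation_ext
    intro l
    rw [Derivation.commutator_apply, MvPolynomial.pderiv_X, MvPolynomial.pderiv_X]
    have h1 : ∀ (a b : Fin n), (MvPolynomial.pderiv a : Derivation K (MvPolynomial (Fin n) K)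
        (MvPolynomial (Fin n) K)) ((Pi.single b 1 : Fin n → MvPolynomial (Fin n) K) l) = 0 := by
      intro a b
      by_cases h : l = b
      · subst h
        simp
      · rw [Pi.single_eq_of_ne h, map_zero]
    rw [h1, h1]
    simp
  have hp : ∀ p : MvPolynomial (Fin n) K,
      ⁅δ i, δ j⁆ (algebraMap (MvPolynomial (Fin n) K) (FractionRing (MvPolynomial (Fin n) K)) p) = 0 := by
    intro p
    rw [Derivation.commutator_apply, hδ, hδ, hδ, hδ, ← map_sub]
    have := congrArg (fun D : Derivation K (MvPolynomial (Fin n) K) (MvPolynomial (Fin n) K) => D p)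
      hcomm
    rw [Derivation.commutator_apply] at this
    rw [this]
    simp
  have hg : ⁅δ i, δ j⁆ g = 0 := by
    obtain ⟨p, q, hq, hpq⟩ := IsFractionRing.div_surjective (A := MvPolynomial (Fin n) K) g
    have hq0 : algebraMap (MvPolynomial (Fin n) K) (FractionRing (MvPolynomial (Fin n) K)) q ≠ 0 :=
      IsFractionRing.to_map_ne_zero_of_mem_nonZeroDivisors hq
    have h1 : algebraMap (MvPolynomial (Fin n) K) (FractionRing (MvPolynomial (Fin n) K)) q * g
        = algebraMap _ _ p := by
      rw [← hpq]
      field_simp
    have h2 := congrArg (fun x => ⁅δ i, δ j⁆ x) h1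
    simp only [Derivation.leibniz, hp, smul_eq_mul, mul_zero, add_zero] at h2
    exact (mul_eq_zero.mp h2).resolve_left hq0
  rw [Derivation.commutator_apply] at hg
  exact sub_eq_zero.mp hg

end Pool.Agent.CVol
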