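import Pool.Agent.W_2cf66e_h65.AConn

/-!
# MP_2cf66e_nt, part A: the filtration of `K[x]_F` (helper65)
-/

set_option autoImplicit false

noncomputable section

open Module

namespace Pool.Agent.CVol

variable {K : Type} [Field K] {n : ℕ}

/-- `Γ_i = {g / F^i : all exponents of g are ≤ i (d+1)}`, a `K`-subspace of `K(x)`. -/
def Gam (F : MvPolynomial (Fin n) K) (d i : ℕ) : Submodule K (RF K n) :=
  (MvPolynomial.restrictDegree (Fin n) K (i * (d + 1))).map
    (LinearMap.mulRight K ((algebraMap (MvPolynomial (Fin n) K) (RF K n) F) ^ i)⁻¹ ∘ₗ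
      (Algebra.linearMap (MvPolynomial (Fin n) K) (RF K n)).restrictScalars K)

/-- Elements of `Γ_i`. -/
theorem mem_Gam (F : MvPolynomial (Fin n) K) (d i : ℕ) (v : RF K n) :
    v ∈ Gam F d i ↔ ∃ g ∈ MvPolynomial.restrictDegree (Fin n) K (i * (d + 1)),
      v = algebraMap (MvPolynomial (Fin n) K) (RF K n) g /
        (algebraMap (MvPolynomial (Fin n) K) (RF K n) F) ^ i := by
  unfold Gam
  rw [Submodule.mem_map]
  constructor
  · rintro ⟨g, hg, rfl⟩
    exact ⟨g, hg, by
      simp only [LinearMap.coe_comp, Function.comp_apply, LinearMap.mulRight_apply,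
        LinearMap.coe_restrictScalars, Algebra.linearMap_apply]
      rw [div_eq_mul_inv]⟩
  · rintro ⟨g, hg, rfl⟩
    exact ⟨g, hg, by
      simp only [LinearMap.coe_comp, Function.comp_apply, LinearMap.mulRight_apply,
        LinearMap.coe_restrictScalars, Algebra.linearMap_apply]
      rw [div_eq_mul_inv]⟩

/-- (A21) The space of polynomials with all exponents `≤ e` is finite dimensional, of dimension at
most `(e+1)^n`: it is spanned by the monomials with exponent vectors `Fin n → Fin (e+1)`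
(`MvPolynomial.mem_restrictDegree`, `MvPolynomial.as_sum`, `finrank_span_le_card` or
`finrank_range_le_card`). -/
theorem restrictDegree_fin (e : ℕ) :
    FiniteDimensional K (MvPolynomial.restrictDegree (Fin n) K e) ∧
      finrank K (MvPolynomial.restrictDegree (Fin n) K e) ≤ (e + 1) ^ n := by
  refine ⟨inferInstance, ?_⟩
  have h1 := Module.finrank_eq_nat_card_basis
    (MvPolynomial.basisRestrictSupport K {f : Fin n →₀ ℕ | ∀ i, f i ≤ e})
  have h2 : finrank K (MvPolynomial.restrictDegree (Fin n) K e) =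
      Nat.card {f : Fin n →₀ ℕ | ∀ i, f i ≤ e} := h1
  rw [h2]
  have h3 : Nat.card (Fin n → Fin (e + 1)) = (e + 1) ^ n := by
    simp
  rw [← h3]
  refine Nat.card_le_card_of_injective
    (fun f : {f : Fin n →₀ ℕ | ∀ i, f i ≤ e} => fun i : Fin n =>
      (⟨f.1 i, Nat.lt_succ_of_le (f.2 i)⟩ : Fin (e + 1))) ?_
  intro f g hfg
  apply Subtype.ext
  ext i
  have := congrFun hfg i
  exact congrArg Fin.val this

theorem AGam_mono {a b : ℕ} (hab : a ≤ b) {p : MvPolynomial (Fin n) K}
    (hp : p ∈ MvPolynomial.restrictDegree (Fin n) K a) :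
    p ∈ MvPolynomial.restrictDegree (Fin n) K b := by
  rw [MvPolynomial.mem_restrictDegree] at hp ⊢
  exact fun t ht i => (hp t ht i).trans hab

theorem AGam_monomial {a : ℕ} (t : Fin n →₀ ℕ) (ht : ∀ i, t i ≤ a) (c : K) :
    MvPolynomial.monomial t c ∈ MvPolynomial.restrictDegree (Fin n) K a := by
  classical
  rw [MvPolynomial.mem_restrictDegree]
  intro u hu i
  have := MvPolynomial.support_monomial_subset hu
  rw [Finset.mem_singleton] at this
  rw [this]
  exact ht i

theorem AGam_C (c : K) : MvPolynomial.C c ∈ MvPolynomial.restrictDegree (Fin n) K 0 :=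
  AGam_monomial 0 (fun _ => le_rfl) c

theorem AGam_X (j : Fin n) :
    (MvPolynomial.X j : MvPolynomial (Fin n) K) ∈ MvPolynomial.restrictDegree (Fin n) K 1 := by
  classical
  refine AGam_monomial (Finsupp.single j 1) (fun i => ?_) 1
  rw [Finsupp.single_apply]
  split_ifs
  · exact le_rfl
  · exact Nat.zero_le _

/-- Sums of exponents: closure of the degree condition under products and derivatives. -/
theorem restrictDegree_mul {a b : ℕ} {p q : MvPolynomial (Fin n) K}
    (hp : p ∈ MvPolynomial.restrictDegree (Fin n) K a)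
    (hq : q ∈ MvPolynomial.restrictDegree (Fin n) K b) :
    p * q ∈ MvPolynomial.restrictDegree (Fin n) K (a + b) := by
  classical
  rw [MvPolynomial.mem_restrictDegree] at hp hq ⊢
  intro t ht i
  obtain ⟨u, hu, v, hv, rfl⟩ := Finset.mem_add.1 (MvPolynomial.support_mul p q ht)
  rw [Finsupp.add_apply]
  exact Nat.add_le_add (hp u hu i) (hq v hv i)

theorem restrictDegree_pderiv {a : ℕ} {p : MvPolynomial (Fin n) K} (i : Fin n)
    (hp : p ∈ MvPolynomial.restrictDegree (Fin n) K a) :
    MvPolynomial.pderiv i p ∈ MvPolynomial.restrictDegree (Fin n) K a := by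
  classical
  have h1 : MvPolynomial.pderiv i p = ∑ v ∈ p.support,
      MvPolynomial.monomial (v - Finsupp.single i 1) (MvPolynomial.coeff v p * (v i : K)) := by
    conv_lhs => rw [p.as_sum]
    rw [map_sum]
    refine Finset.sum_congr rfl fun v _ => ?_
    rw [MvPolynomial.pderiv_monomial]
  rw [h1]
  rw [MvPolynomial.mem_restrictDegree] at hp
  refine Submodule.sum_mem _ fun v hv => AGam_monomial _ (fun j => ?_) _
  rw [Finsupp.tsub_apply]
  exact (Nat.sub_le _ _).trans (hp v hv j)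

/-- Every polynomial has bounded exponents. -/
theorem exists_restrictDegree (p : MvPolynomial (Fin n) K) :
    ∃ d, p ∈ MvPolynomial.restrictDegree (Fin n) K d := by
  refine ⟨p.totalDegree, ?_⟩
  apply MvPolynomial.restrictTotalDegree_le_restrictDegree
  rw [MvPolynomial.mem_restrictTotalDegree]

/-- (A22) `Γ_i` is finite dimensional. -/
theorem Gam_fin (F : MvPolynomial (Fin n) K) (d i : ℕ) : FiniteDimensional K (Gam F d i) := by
  unfold Gam
  infer_instance

/-- (A23) `dim Γ_i ≤ ((d+1)(i+1))^n`, as `i (d+1) + 1 ≤ (d+1)(i+1)`. -/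
theorem Gam_finrank (F : MvPolynomial (Fin n) K) (d i : ℕ) :
    finrank K (Gam F d i) ≤ ((d + 1) * (i + 1)) ^ n := by
  unfold Gam
  refine (Submodule.finrank_map_le _ _).trans ((restrictDegree_fin _).2.trans ?_)
  apply Nat.pow_le_pow_left
  nlinarith

theorem AGam_ne (F : MvPolynomial (Fin n) K) (hF : F ≠ 0) :
    algebraMap (MvPolynomial (Fin n) K) (RF K n) F ≠ 0 := by
  intro h
  exact hF ((IsFractionRing.injective (MvPolynomial (Fin n) K) (RF K n)) (by rw [h, map_zero]))

/-- (A24) `Γ_i ≤ Γ_(i+1)`: `g/F^i = gF/F^(i+1)`. -/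
theorem Gam_mono (F : MvPolynomial (Fin n) K) (hF : F ≠ 0) (d : ℕ)
    (hd : F ∈ MvPolynomial.restrictDegree (Fin n) K d) : Monotone (Gam F d) := by
  refine monotone_nat_of_le_succ fun i v hv => ?_
  rw [mem_Gam] at hv ⊢
  obtain ⟨g, hg, rfl⟩ := hv
  refine ⟨g * F, AGam_mono ?_ (restrictDegree_mul hg hd), ?_⟩
  · nlinarith
  · have h1 := AGam_ne F hF
    rw [map_mul, pow_succ]
    field_simp

/-- (A25) `x_j Γ_i ≤ Γ_(i+1)`: `x_j g/F^i = x_j g F/F^(i+1)`, exponents
`≤ i(d+1) + d + 1`. -/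
theorem Gam_X (F : MvPolynomial (Fin n) K) (hF : F ≠ 0) (d : ℕ)
    (hd : F ∈ MvPolynomial.restrictDegree (Fin n) K d) (i : ℕ) (j : Fin n) (v : RF K n)
    (hv : v ∈ Gam F d i) : Xop K n j v ∈ Gam F d (i + 1) := by
  rw [mem_Gam] at hv ⊢
  obtain ⟨g, hg, rfl⟩ := hv
  refine ⟨MvPolynomial.X j * (g * F),
    AGam_mono ?_ (restrictDegree_mul (AGam_X j) (restrictDegree_mul hg hd)), ?_⟩
  · nlinarith
  · have h1 := AGam_ne F hF
    rw [Xop_apply, map_mul, map_mul, pow_succ]
    field_simp

/-- (A26) `D_j Γ_i ≤ Γ_(i+1)`, by `Dop_frac`: the numerator of `lev` has exponents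
`≤ i(d+1) + d`. -/
theorem Gam_D {δ : Fin n → Derivation K (RF K n) (RF K n)} (hδ : IsPD δ) (s : K)
    (F : MvPolynomial (Fin n) K) (hF : F ≠ 0) (d : ℕ)
    (hd : F ∈ MvPolynomial.restrictDegree (Fin n) K d) (i : ℕ) (j : Fin n) (v : RF K n)
    (hv : v ∈ Gam F d i) : Dop δ s F j v ∈ Gam F d (i + 1) := by
  rw [mem_Gam] at hv ⊢
  obtain ⟨g, hg, rfl⟩ := hv
  refine ⟨(lev s F j (g, i)).1, ?_, Dop_frac hδ s F hF j g i⟩
  unfold lev
  refine Submodule.add_mem _ ?_ ?_
  · refine AGam_mono ?_ (restrictDegree_mul hd (restrictDegree_pderiv j hg))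
    nlinarith
  · refine AGam_mono ?_ (restrictDegree_mul (restrictDegree_mul
      (Submodule.sub_mem _ (AGam_C s) (AGam_C (i : K))) hg) (restrictDegree_pderiv j hd))
    nlinarith

/-- (A27) Every fraction `g/F^c` is in some `Γ_i`: `g/F^c = g F^(i-c)/F^i`; if the exponents of `g`
are `≤ e` then `i = e + c` works: exponents `≤ e + (i-c) d ≤ i (d+1)`. -/
theorem Gam_exhaust (F : MvPolynomial (Fin n) K) (hF : F ≠ 0) (d : ℕ)
    (hd : F ∈ MvPolynomial.restrictDegree (Fin n) K d) (g : MvPolynomial (Fin n) K) (c : ℕ) :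
    ∃ i, algebraMap (MvPolynomial (Fin n) K) (RF K n) g /
      (algebraMap (MvPolynomial (Fin n) K) (RF K n) F) ^ c ∈ Gam F d i := by
  obtain ⟨e, he⟩ := exists_restrictDegree g
  have hpow : ∀ k : ℕ, F ^ k ∈ MvPolynomial.restrictDegree (Fin n) K (k * d) := by
    intro k
    induction k with
    | zero =>
      rw [pow_zero]
      exact AGam_mono (Nat.zero_le _) (AGam_C (1 : K))
    | succ k ih =>
      rw [pow_succ, Nat.succ_mul]
      exact restrictDegree_mul ih hd
  refine ⟨e + c, ?_⟩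
  rw [mem_Gam]
  refine ⟨g * F ^ e, AGam_mono ?_ (restrictDegree_mul he (hpow e)), ?_⟩
  · nlinarith [Nat.zero_le (c * (d + 1))]
  · have h1 := AGam_ne F hF
    rw [map_mul, map_pow, pow_add]
    field_simp

end Pool.Agent.CVol
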