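import Pool.Agent.W_2cf66e_h65.Defs

/-!
# MP_2cf66e_nt, part A: commuting operators and commutators (helper65)
-/

set_option autoImplicit false

noncomputable section

namespace Pool.Agent.CVol

variable {K V : Type} [Field K] [AddCommGroup V] [Module K V] {n : ℕ}

/-- (A1) A commuting family of operators is the image of the variables under an algebra
homomorphism of the polynomial ring.

Proof. `S := Algebra.adjoin K (Set.range T)` is a commutative ring
(`Algebra.adjoinCommRingOfComm`), so `MvPolynomial.aeval` (or `eval₂Hom`) with values `T j` in `S`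
exists; compose with the inclusion `S.val`. (If the instances are annoying: alternatively use
`Algebra.adjoin_induction` type arguments, or `MvPolynomial.eval₂Hom`-free construction by
`Finsupp.lsum` on monomials with the commuting powers; any proof is fine.) -/
theorem exists_hom (T : Fin n → Module.End K V) (h : ∀ i j, T i * T j = T j * T i) :
    ∃ φ : MvPolynomial (Fin n) K →ₐ[K] Module.End K V, ∀ j, φ (MvPolynomial.X j) = T j := by
  letI : CommRing (Algebra.adjoin K (Set.range T)) := Algebra.adjoinCommRingOfComm K (by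
    rintro _ ⟨i, rfl⟩ _ ⟨j, rfl⟩
    exact h i j)
  let φ0 : MvPolynomial (Fin n) K →ₐ[K] Algebra.adjoin K (Set.range T) :=
    MvPolynomial.aeval (fun j => ⟨T j, Algebra.subset_adjoin ⟨j, rfl⟩⟩)
  refine ⟨(Algebra.adjoin K (Set.range T)).val.comp φ0, fun j => ?_⟩
  rw [AlgHom.comp_apply]
  have e : φ0 (MvPolynomial.X j) = ⟨T j, Algebra.subset_adjoin ⟨j, rfl⟩⟩ :=
    MvPolynomial.aeval_X _ _
  rw [e]
  rfl

/-- (A2) Commutator of a derivation-like operator with a polynomial in the `X`'s.

Proof: induction on `p` (`MvPolynomial.induction_on`): constants commute with everything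
(`φ (C a) = a • 1`, `AlgHom.commutes`, `Algebra.commutes`) and have derivative 0; sums are clear;
for `p * X i` use `h.dx`, `Derivation.leibniz`, `MvPolynomial.pderiv_X`:
`D_j φ(p) X_i - φ(p) X_i D_j = (D_j φ(p) - φ(p) D_j) X_i + φ(p) (D_j X_i - X_i D_j)`. -/
theorem comm_X {X D : Fin n → Module.End K V} (h : IsWeyl X D)
    (φ : MvPolynomial (Fin n) K →ₐ[K] Module.End K V) (hφ : ∀ j, φ (MvPolynomial.X j) = X j)
    (j : Fin n) (p : MvPolynomial (Fin n) K) :
    D j * φ p - φ p * D j = φ (MvPolynomial.pderiv j p) := by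
  induction p using MvPolynomial.induction_on with
  | C a =>
    have e : φ (MvPolynomial.C a) = algebraMap K (Module.End K V) a := by
      rw [← MvPolynomial.algebraMap_eq]
      exact φ.commutes a
    rw [e, MvPolynomial.pderiv_C, map_zero, Algebra.commutes, sub_self]
  | add p q hp hq =>
    rw [map_add, map_add, map_add, ← hp, ← hq, mul_add, add_mul]
    abel
  | mul_X p i hp =>
    have h1 : D j * φ (p * MvPolynomial.X i) - φ (p * MvPolynomial.X i) * D j =
        (D j * φ p - φ p * D j) * X i + φ p * (D j * X i - X i * D j) := by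
      rw [map_mul, hφ]
      noncomm_ring
    rw [h1, hp, h.dx j i, Derivation.leibniz, MvPolynomial.pderiv_X, smul_eq_mul, smul_eq_mul,
      map_add, map_mul, map_mul, hφ, Pi.single_apply]
    have h2 : X i * φ (MvPolynomial.pderiv j p) = φ (MvPolynomial.pderiv j p) * X i := by
      rw [← hφ i, ← map_mul, ← map_mul, mul_comm]
    rw [h2, add_comm]
    congr 2
    by_cases hij : j = i
    · rw [if_pos hij, if_pos hij.symm, map_one]
    · rw [if_neg hij, if_neg (fun h3 => hij h3.symm), map_zero]

/-- (A3) Commutator of a polynomial in the `D`'s with `X_j`. Proof: as for `comm_X`: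
`ψ(q) D_i X_j - X_j ψ(q) D_i = ψ(q)(D_i X_j - X_j D_i) + (ψ(q) X_j - X_j ψ(q)) D_i`. -/
theorem comm_D {X D : Fin n → Module.End K V} (h : IsWeyl X D)
    (ψ : MvPolynomial (Fin n) K →ₐ[K] Module.End K V) (hψ : ∀ j, ψ (MvPolynomial.X j) = D j)
    (j : Fin n) (q : MvPolynomial (Fin n) K) :
    ψ q * X j - X j * ψ q = ψ (MvPolynomial.pderiv j q) := by
  induction q using MvPolynomial.induction_on with
  | C a =>
    have e : ψ (MvPolynomial.C a) = algebraMap K (Module.End K V) a := by
      rw [← MvPolynomial.algebraMap_eq]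
      exact ψ.commutes a
    rw [e, MvPolynomial.pderiv_C, map_zero, Algebra.commutes, sub_self]
  | add p q hp hq =>
    rw [map_add, map_add, map_add, ← hp, ← hq, mul_add, add_mul]
    abel
  | mul_X p i hp =>
    have h1 : ψ (p * MvPolynomial.X i) * X j - X j * ψ (p * MvPolynomial.X i) =
        ψ p * (D i * X j - X j * D i) + (ψ p * X j - X j * ψ p) * D i := by
      rw [map_mul, hψ]
      noncomm_ring
    rw [h1, hp, h.dx i j, Derivation.leibniz, MvPolynomial.pderiv_X, smul_eq_mul, smul_eq_mul,
      map_add, map_mul, map_mul, hψ, Pi.single_apply]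
    have h2 : D i * ψ (MvPolynomial.pderiv j p) = ψ (MvPolynomial.pderiv j p) * D i := by
      rw [← hψ i, ← map_mul, ← map_mul, mul_comm]
    rw [h2]
    congr 2
    by_cases hij : i = j
    · rw [if_pos hij, if_pos hij, map_one]
    · rw [if_neg hij, if_neg hij, map_zero]

end Pool.Agent.CVol
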