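import Pool.Agent.W_2cf66e_h65.ARho

/-!
# MP_2cf66e_nt, part A: injectivity of the action (helper65)
-/

set_option autoImplicit false

noncomputable section

namespace Pool.Agent.CVol

variable {K V : Type} [Field K] [AddCommGroup V] [Module K V] {n : ℕ}

/-- A polynomial over a field of characteristic 0 all of whose partial derivatives vanish is a
constant. Proof: if `γ ≠ 0` is in the support, `γ i ≠ 0` for some `i`; the coefficient of
`γ - e_i` in `pderiv i Q` is `γ_i coeff γ Q` (`MvPolynomial.pderiv_monomial`, or there may be a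
lemma on `coeff` of `pderiv`), which is nonzero. -/
theorem eq_C_of_pderiv [CharZero K] {σ : Type} (Q : MvPolynomial σ K)
    (h : ∀ i, MvPolynomial.pderiv i Q = 0) : ∃ c : K, Q = MvPolynomial.C c := by
  classical
  refine ⟨Q.coeff 0, ?_⟩
  ext γ
  rw [MvPolynomial.coeff_C]
  split_ifs with hγ
  · rw [← hγ]
  · obtain ⟨i, hi⟩ : ∃ i, γ i ≠ 0 := by
      by_contra hcon
      push Not at hcon
      exact hγ (Finsupp.ext fun i => by simpa using (hcon i).symm)
    have h1 := congrArg (MvPolynomial.coeff (γ - Finsupp.single i 1)) (h i)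
    rw [MvPolynomial.coeff_pderiv, tsub_add_cancel_of_le
      (Finsupp.single_le_iff.mpr (Nat.one_le_iff_ne_zero.mpr hi)), MvPolynomial.coeff_zero] at h1
    rcases mul_eq_zero.mp h1 with h2 | h2
    · exact h2
    · exact absurd h2 (Nat.cast_add_one_ne_zero _)

/-- The total degree drops under partial derivatives. -/
theorem totalDegree_pderiv_le {σ : Type} (Q : MvPolynomial σ K) (i : σ) (d : ℕ)
    (hQ : Q.totalDegree ≤ d + 1) : (MvPolynomial.pderiv i Q).totalDegree ≤ d := by
  classical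
  refine Finset.sup_le fun b hb => ?_
  rw [MvPolynomial.mem_support_iff, MvPolynomial.coeff_pderiv] at hb
  have h1 : b + Finsupp.single i 1 ∈ Q.support := by
    rw [MvPolynomial.mem_support_iff]
    exact left_ne_zero_of_mul hb
  have h2 := MvPolynomial.le_totalDegree h1
  rw [Finsupp.sum_add_index' (fun _ => rfl) (fun _ _ _ => rfl), Finsupp.sum_single_index rfl] at h2
  omega

theorem AInj_const (φ ψ : MvPolynomial (Fin n) K →ₐ[K] Module.End K V) (c : K) (v : V) (hv : v ≠ 0)
    (hk : rho φ ψ (MvPolynomial.C c) v = 0) : c = 0 := by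
  have e : (MvPolynomial.C c : MvPolynomial (Fin n ⊕ Fin n) K) = c • 1 := by
    rw [MvPolynomial.smul_eq_C_mul, mul_one]
  rw [e, map_smul, rho_one, LinearMap.smul_apply, Module.End.one_apply] at hk
  exact (smul_eq_zero.mp hk).resolve_right hv

/-- (A8) (Joseph) An operator of order `≤ i` killing `B i` is zero.

Proof: induction on `i`, for all `Q`. If `i = 0`: `Q = C c` (`totalDegree = 0`), `ρ(Q) = c • 1`
(`rho_one`, linearity), and `c • v = 0` for some `v ≠ 0` in `B 0` gives `c = 0`.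
Step: let `deg Q ≤ i + 1` and `ρ(Q)` kill `B (i+1)`. For `v ∈ B i` and each `j`:
`X_j v ∈ B (i+1)` and `v ∈ B (i+1)`, so `(ρ(Q) X_j - X_j ρ(Q)) v = 0`, i.e.
`ρ(∂Q/∂ξ_j)` kills `B i` (`rho_inr`); its degree is `≤ i`, so `∂Q/∂ξ_j = 0`; likewise
`∂Q/∂x_j = 0` (`rho_inl`). Hence `Q = C c` by `eq_C_of_pderiv` and again `c = 0`
(`B 0 ≤ B (i+1)`). -/
theorem rho_inj [CharZero K] {X D : Fin n → Module.End K V} (h : IsWeyl X D)
    (φ ψ : MvPolynomial (Fin n) K →ₐ[K] Module.End K V)
    (hφ : ∀ j, φ (MvPolynomial.X j) = X j) (hψ : ∀ j, ψ (MvPolynomial.X j) = D j)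
    (B : ℕ → Submodule K V) (hmono : Monotone B)
    (hX : ∀ i j, ∀ v ∈ B i, X j v ∈ B (i + 1)) (hD : ∀ i j, ∀ v ∈ B i, D j v ∈ B (i + 1))
    (h0 : B 0 ≠ ⊥) (i : ℕ) (Q : MvPolynomial (Fin n ⊕ Fin n) K) (hQ : Q.totalDegree ≤ i)
    (hk : ∀ v ∈ B i, rho φ ψ Q v = 0) : Q = 0 := by
  obtain ⟨v0, hv0, hv0'⟩ := (Submodule.ne_bot_iff _).mp h0
  induction i generalizing Q with
  | zero =>
    have hQ0 : Q.totalDegree = 0 := by omega
    have e := MvPolynomial.totalDegree_eq_zero_iff_eq_C.mp hQ0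
    rw [e] at hk
    have := AInj_const φ ψ _ v0 hv0' (hk v0 hv0)
    rw [e, this, map_zero]
  | succ i ih =>
    have hder : ∀ a, MvPolynomial.pderiv a Q = 0 := by
      intro a
      apply ih _ (totalDegree_pderiv_le Q a i hQ)
      intro v hv
      have hv1 : v ∈ B (i + 1) := hmono (Nat.le_succ i) hv
      rcases a with j | j
      · rw [← rho_inl h φ ψ hφ hψ j Q, LinearMap.sub_apply, Module.End.mul_apply,
          Module.End.mul_apply, hk v hv1, map_zero, hk _ (hD i j v hv), sub_zero]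
      · rw [← rho_inr h φ ψ hφ hψ j Q, LinearMap.sub_apply, Module.End.mul_apply,
          Module.End.mul_apply, hk v hv1, map_zero, hk _ (hX i j v hv), sub_zero]
    obtain ⟨c, hc⟩ := eq_C_of_pderiv Q hder
    rw [hc] at hk
    have := AInj_const φ ψ _ v0 hv0' (hk v0 (hmono (Nat.zero_le _) hv0))
    rw [hc, this, map_zero]

end Pool.Agent.CVol
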