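import Pool.Agent.W_2cf66e_h65.ADim

/-!
# MP_2cf66e_nt, part A: one layer of a descending chain (helper65)
-/

set_option autoImplicit false

noncomputable section

open Module

namespace Pool.Agent.CVol

variable {K V : Type} [Field K] [AddCommGroup V] [Module K V] {n : ℕ}

/-- (A11) Telescoping of dimensions.

Proof: induction on `L` for the stronger statement
`∑_{j<L} finrank(image of Γ ⊓ N j in V ⧸ N (j+1)) + finrank (Γ ⊓ N L) = finrank (Γ ⊓ N 0)`.
The map `mkQ` restricted to `Γ ⊓ N j` has kernel `Γ ⊓ N j ⊓ N (j+1) = Γ ⊓ N (j+1)`, rank-nullity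
(`LinearMap.finrank_range_add_finrank_ker` for the composition of `mkQ` with the inclusion of
`Γ ⊓ N j`; `Submodule.range_subtype`, `Submodule.map`), `Submodule.finrank_mono` at the end. -/
theorem tele (Γ : Submodule K V) [FiniteDimensional K Γ] (N : ℕ → Submodule K V)
    (hN : Antitone N) (L : ℕ) :
    ∑ j ∈ Finset.range L, finrank K ((Γ ⊓ N j).map (N (j + 1)).mkQ) ≤ finrank K Γ := by
  have key : ∀ j, finrank K ((Γ ⊓ N j).map (N (j + 1)).mkQ) + finrank K ↥(Γ ⊓ N (j + 1)) =
      finrank K ↥(Γ ⊓ N j) := by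
    intro j
    have hfd : FiniteDimensional K ↥(Γ ⊓ N j) := Submodule.finiteDimensional_of_le inf_le_left
    let f : ↥(Γ ⊓ N j) →ₗ[K] V ⧸ N (j + 1) := (N (j + 1)).mkQ ∘ₗ (Γ ⊓ N j).subtype
    have hr : LinearMap.range f = (Γ ⊓ N j).map (N (j + 1)).mkQ := by
      rw [LinearMap.range_comp, Submodule.range_subtype]
    have hk : (LinearMap.ker f).map (Γ ⊓ N j).subtype = Γ ⊓ N (j + 1) := by
      have : LinearMap.ker f = (N (j + 1)).comap (Γ ⊓ N j).subtype := by
        rw [LinearMap.ker_comp, Submodule.ker_mkQ]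
      rw [this, Submodule.map_comap_subtype, inf_assoc, inf_eq_right.mpr (hN (Nat.le_succ j))]
    have h1 := LinearMap.finrank_range_add_finrank_ker f
    rw [hr, ← Submodule.finrank_map_subtype_eq (Γ ⊓ N j) (LinearMap.ker f), hk] at h1
    exact h1
  have hind : ∀ L, ∑ j ∈ Finset.range L, finrank K ((Γ ⊓ N j).map (N (j + 1)).mkQ) +
      finrank K ↥(Γ ⊓ N L) = finrank K ↥(Γ ⊓ N 0) := by
    intro L
    induction L with
    | zero => simp
    | succ L ih =>
      rw [Finset.sum_range_succ, add_assoc, key L, ih]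
  have h1 := hind L
  have h2 : finrank K ↥(Γ ⊓ N 0) ≤ finrank K Γ := Submodule.finrank_mono inf_le_left
  omega

/-- (A12) Induced operators on the quotient by a stable subspace satisfy the Weyl relations. -/
theorem weyl_quot {X D : Fin n → Module.End K V} (h : IsWeyl X D) (N : Submodule K V)
    (hNX : ∀ j, N ≤ N.comap (X j)) (hND : ∀ j, N ≤ N.comap (D j)) :
    IsWeyl (K := K) (V := V ⧸ N) (fun j => N.mapQ N (X j) (hNX j))
      (fun j => N.mapQ N (D j) (hND j)) := by
  refine ⟨fun i j => ?_, fun i j => ?_, fun i j => ?_⟩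
  · refine LinearMap.ext fun q => ?_
    induction q using Submodule.Quotient.induction_on with
    | _ v =>
      have := congrArg (fun g : Module.End K V => g v) (h.xx i j)
      simp only [Module.End.mul_apply] at this
      simp only [Module.End.mul_apply, Submodule.mapQ_apply, this]
  · refine LinearMap.ext fun q => ?_
    induction q using Submodule.Quotient.induction_on with
    | _ v =>
      have := congrArg (fun g : Module.End K V => g v) (h.dd i j)
      simp only [Module.End.mul_apply] at this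
      simp only [Module.End.mul_apply, Submodule.mapQ_apply, this]
  · refine LinearMap.ext fun q => ?_
    induction q using Submodule.Quotient.induction_on with
    | _ v =>
      have := congrArg (fun g : Module.End K V => g v) (h.dx i j)
      simp only [LinearMap.sub_apply, Module.End.mul_apply] at this
      simp only [LinearMap.sub_apply, Module.End.mul_apply, Submodule.mapQ_apply]
      rw [← Submodule.Quotient.mk_sub, this]
      split_ifs <;> simp

/-- (A13) One layer: if `Γ m ⊓ N` is not contained in `N'` (both stable, `N' ≤ N`), then the image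
of `Γ (m + 4nm) ⊓ N` in `V ⧸ N'` has dimension at least `(m+1)^n`.

Proof: `joseph` for `V ⧸ N'` with the operators of `weyl_quot` and
`B i := (Γ (m + i) ⊓ N).map N'.mkQ`: finite dimensional, monotone, `B 0 ≠ ⊥` because some
`v ∈ Γ m ⊓ N` is not in `N'` (`Submodule.Quotient.mk_eq_zero`), and `X_j`, `D_j` map `B i` into
`B (i+1)` (`Submodule.mapQ_apply`). -/
theorem layer [CharZero K] {X D : Fin n → Module.End K V} (h : IsWeyl X D)
    (Γ : ℕ → Submodule K V) (hmono : Monotone Γ) (hfin : ∀ i, FiniteDimensional K (Γ i))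
    (hX : ∀ i j, ∀ v ∈ Γ i, X j v ∈ Γ (i + 1)) (hD : ∀ i j, ∀ v ∈ Γ i, D j v ∈ Γ (i + 1))
    (N N' : Submodule K V)
    (hNX : ∀ j, ∀ v ∈ N, X j v ∈ N) (hND : ∀ j, ∀ v ∈ N, D j v ∈ N)
    (hNX' : ∀ j, ∀ v ∈ N', X j v ∈ N') (hND' : ∀ j, ∀ v ∈ N', D j v ∈ N')
    (m : ℕ) (hm : ¬ (Γ m ⊓ N ≤ N')) :
    (m + 1) ^ n ≤ finrank K ((Γ (m + 4 * n * m) ⊓ N).map N'.mkQ) := by
  have hw := weyl_quot h N' (fun j v hv => hNX' j v hv) (fun j v hv => hND' j v hv)
  refine joseph hw (fun i => (Γ (m + i) ⊓ N).map N'.mkQ) ?_ ?_ ?_ ?_ ?_ m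
  · intro a b hab
    exact Submodule.map_mono (inf_le_inf_right N (hmono (Nat.add_le_add_left hab m)))
  · intro i
    have hf := hfin (m + i)
    have hfd : FiniteDimensional K ↥(Γ (m + i) ⊓ N) := Submodule.finiteDimensional_of_le inf_le_left
    infer_instance
  · rintro i j _ ⟨v, ⟨hv1, hv2⟩, rfl⟩
    exact ⟨X j v, ⟨hX (m + i) j v hv1, hNX j v hv2⟩, rfl⟩
  · rintro i j _ ⟨v, ⟨hv1, hv2⟩, rfl⟩
    exact ⟨D j v, ⟨hD (m + i) j v hv1, hND j v hv2⟩, rfl⟩
  · intro hbot
    apply hm
    intro v hv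
    have h1 : N'.mkQ v ∈ (Γ (m + 0) ⊓ N).map N'.mkQ := ⟨v, hv, rfl⟩
    rw [hbot, Submodule.mem_bot] at h1
    exact (Submodule.Quotient.mk_eq_zero N').mp h1

end Pool.Agent.CVol
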