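import Pool.Agent.W_2cf66e_h65.ANsub
import Pool.Agent.W_2cf66e_h65.AFld
import Pool.Agent.W_2cf66e_h65.AChain

/-!
# MP_2cf66e_nt, part A: the cyclic submodules and the functional equation in `K(x)` (helper65)
-/

set_option autoImplicit false

noncomputable section

open Module

namespace Pool.Agent.CVol

variable {K : Type} [Field K] {n : ℕ}

/-- (A31) The functional equation in `K(x)`: `F^j w` is in the submodule generated by
`F^(j+1) w`, for some `j`; `w = a/F^m`.

Proof: `chain` with `X = Xop`, `D = Dop δ s F` (`isWeyl`, `δ` from `exists_der`),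
`Γ = Gam F d` (`exists_restrictDegree`, `c = d+1`), `N j = (Nsub δ s F (F^j • w))` as a
`K`-subspace (`Submodule.restrictScalars K`). Antitone by `Nsub_mul`
(`F^(j+1) • w = F • (F^j • w)`, `antitone_nat_of_succ_le`); stable under `X_j` (a submodule over
the polynomial ring) and `D_j` (`Nsub_D`); `N 0` is exhausted by `Nsub_exhaust`. From
`N j = N (j+1)` and `F^j • w ∈ N j` (empty word). -/
theorem exists_mem [CharZero K] {δ : Fin n → Derivation K (RF K n) (RF K n)} (hδ : IsPD δ)
    (s : K) (F : MvPolynomial (Fin n) K) (hF : F ≠ 0) (a : MvPolynomial (Fin n) K) (m : ℕ) :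
    ∃ j : ℕ, (F ^ j) • (algebraMap (MvPolynomial (Fin n) K) (RF K n) a /
        (algebraMap (MvPolynomial (Fin n) K) (RF K n) F) ^ m) ∈
      Nsub δ s F ((F ^ (j + 1)) • (algebraMap (MvPolynomial (Fin n) K) (RF K n) a /
        (algebraMap (MvPolynomial (Fin n) K) (RF K n) F) ^ m)) := by
  obtain ⟨d, hd⟩ := exists_restrictDegree F
  obtain ⟨w, hw⟩ : ∃ w : RF K n, w = algebraMap (MvPolynomial (Fin n) K) (RF K n) a /
        (algebraMap (MvPolynomial (Fin n) K) (RF K n) F) ^ m := ⟨_, rfl⟩
  rw [← hw]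
  obtain ⟨j, hj⟩ := chain (isWeyl hδ s F hF) (Gam F d) (Gam_mono F hF d hd) (Gam_fin F d)
    (fun i j v hv => Gam_X F hF d hd i j v hv) (fun i j v hv => Gam_D hδ s F hF d hd i j v hv)
    (d + 1) (fun i => Gam_finrank F d i)
    (fun j => (Nsub δ s F ((F ^ j) • w)).restrictScalars K)
    (antitone_nat_of_succ_le fun j v hv => by
      have h1 : (F ^ (j + 1)) • w = F • ((F ^ j) • w) := by
        rw [smul_smul, pow_succ']
      have h2 : v ∈ Nsub δ s F ((F ^ (j + 1)) • w) := hv
      rw [h1] at h2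
      exact Nsub_mul hδ s F _ F h2)
    (fun i j v hv => by
      have h1 : Xop K n j v = (MvPolynomial.X j : MvPolynomial (Fin n) K) • v := by
        rw [Xop_apply, Algebra.smul_def]
      rw [h1]
      have h2 : v ∈ Nsub δ s F ((F ^ i) • w) := hv
      exact Submodule.smul_mem (Nsub δ s F ((F ^ i) • w)) _ h2)
    (fun i j v hv => Nsub_D hδ s F _ j v hv)
    (fun v hv => by
      have h2 : v ∈ Nsub δ s F ((F ^ 0) • w) := hv
      rw [pow_zero, one_smul, hw] at h2
      exact Nsub_exhaust hδ s F hF d hd a m v h2)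
  refine ⟨j, ?_⟩
  have h3 : (F ^ j) • w ∈ (Nsub δ s F ((F ^ j) • w)).restrictScalars K :=
    Submodule.subset_span ⟨[], rfl⟩
  have h4 : (Nsub δ s F ((F ^ j) • w)).restrictScalars K =
      (Nsub δ s F ((F ^ (j + 1)) • w)).restrictScalars K := hj
  rw [h4] at h3
  exact h3

/-- (A32) The functional equation as an identity of polynomials over the field `K`.

Proof: from `exists_mem` (with `δ` from `exists_der`), `F^j a/F^m = ∑ c_l D^l (F^(j+1) a/F^m)`
(`Finsupp.mem_span_range_iff_exists_finsupp`), `D^l (F^(j+1) a/F^m) = N_l/F^(m+|l|)`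
(`word_frac`), `M` = maximal length of a word in the support; multiply by `F^(m+M)` and use
injectivity of `K[x] → K(x)` (`IsFractionRing.injective`). -/
theorem poly_eq [CharZero K] (s : K) (F : MvPolynomial (Fin n) K) (hF : F ≠ 0)
    (a : MvPolynomial (Fin n) K) (m : ℕ) :
    ∃ (j M : ℕ) (c : List (Fin n) →₀ MvPolynomial (Fin n) K),
      (∀ l ∈ c.support, l.length ≤ M) ∧
      F ^ (j + M) * a = ∑ l ∈ c.support, c l * (word s F l (F ^ (j + 1) * a, m)).1 *
        F ^ (M - l.length) := by
  obtain ⟨δ, h1, h2⟩ := exists_der K n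
  have hδ : IsPD δ := ⟨h1, h2⟩
  obtain ⟨j, hj⟩ := exists_mem hδ s F hF a m
  have hF0 := AGam_ne F hF
  unfold Nsub at hj
  rw [Finsupp.mem_span_range_iff_exists_finsupp] at hj
  obtain ⟨c, hc⟩ := hj
  have hw : (F ^ (j + 1)) • (algebraMap (MvPolynomial (Fin n) K) (RF K n) a /
        (algebraMap (MvPolynomial (Fin n) K) (RF K n) F) ^ m) =
      algebraMap (MvPolynomial (Fin n) K) (RF K n) (F ^ (j + 1) * a) /
        (algebraMap (MvPolynomial (Fin n) K) (RF K n) F) ^ m := by
    rw [Algebra.smul_def, map_mul, mul_div_assoc]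
  have hl : ∀ l ∈ c.support, l.length ≤ c.support.sup List.length :=
    fun l hl => Finset.le_sup (f := List.length) hl
  refine ⟨j, c.support.sup List.length, c, hl, ?_⟩
  apply IsFractionRing.injective (MvPolynomial (Fin n) K) (RF K n)
  obtain ⟨M, hM⟩ : ∃ M, M = c.support.sup List.length := ⟨_, rfl⟩
  rw [← hM] at hl ⊢
  have h3 : algebraMap (MvPolynomial (Fin n) K) (RF K n) (F ^ (j + M) * a) =
      ((F ^ j) • (algebraMap (MvPolynomial (Fin n) K) (RF K n) a /
        (algebraMap (MvPolynomial (Fin n) K) (RF K n) F) ^ m)) *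
        (algebraMap (MvPolynomial (Fin n) K) (RF K n) F) ^ (m + M) := by
    rw [Algebra.smul_def, map_mul, map_pow, map_pow, pow_add, pow_add]
    field_simp
  rw [h3, ← hc, Finsupp.sum, Finset.sum_mul, map_sum]
  refine Finset.sum_congr rfl fun l hlc => ?_
  have hlM := hl l hlc
  rw [hw, word_frac hδ s F hF l, Algebra.smul_def, map_mul, map_mul, map_pow]
  obtain ⟨t, rfl⟩ : ∃ t, M = l.length + t := ⟨M - l.length, by omega⟩
  have h4 : l.length + t - l.length = t := by omega
  rw [h4]
  have h5 := AGam_ne F hF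
  rw [pow_add (algebraMap (MvPolynomial (Fin n) K) (RF K n) F) m l.length,
    pow_add (algebraMap (MvPolynomial (Fin n) K) (RF K n) F) m (l.length + t),
    pow_add (algebraMap (MvPolynomial (Fin n) K) (RF K n) F) l.length t]
  field_simp

end Pool.Agent.CVol
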