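import Pool.Agent.W_2cf66e_h65.AGam

/-!
# MP_2cf66e_nt, part A: the cyclic submodules and the functional equation in `K(x)` (helper65)
-/

set_option autoImplicit false

noncomputable section

open Module

namespace Pool.Agent.CVol

variable {K : Type} [Field K] {n : ℕ}

/-- The `K[x]`-span of all `D`-words applied to `w`. -/
def Nsub (δ : Fin n → Derivation K (RF K n) (RF K n)) (s : K) (F : MvPolynomial (Fin n) K)
    (w : RF K n) : Submodule (MvPolynomial (Fin n) K) (RF K n) :=
  Submodule.span _ (Set.range fun l : List (Fin n) => l.foldr (fun i u => Dop δ s F i u) w)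

/-- (A28) `Nsub` is stable under the `D_i`. Proof: `Submodule.span_induction`; generators:
`D_i (D^l w) = D^(i::l) w`; sums; for `p • u`: `D_i (p u) = (∂_i p) u + p D_i u` (`Dop_mul`,
`Algebra.smul_def`). -/
theorem Nsub_D {δ : Fin n → Derivation K (RF K n) (RF K n)} (hδ : IsPD δ) (s : K)
    (F : MvPolynomial (Fin n) K) (w : RF K n) (i : Fin n) (v : RF K n)
    (hv : v ∈ Nsub δ s F w) : Dop δ s F i v ∈ Nsub δ s F w := by
  refine Submodule.span_induction (p := fun v _ => Dop δ s F i v ∈ Nsub δ s F w) ?_ ?_ ?_ ?_ hv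
  · rintro _ ⟨l, rfl⟩
    exact Submodule.subset_span ⟨i :: l, rfl⟩
  · rw [map_zero]
    exact zero_mem _
  · intro x y _ _ hx hy
    rw [map_add]
    exact add_mem hx hy
  · intro p u hu hD
    rw [Algebra.smul_def, Dop_mul hδ, ← Algebra.smul_def, ← Algebra.smul_def]
    exact add_mem (Submodule.smul_mem _ _ hu) (Submodule.smul_mem _ _ hD)

/-- (A29) `Nsub` of a polynomial multiple is contained in `Nsub`: all words of `p • w` are in the
`D`-stable submodule `Nsub w`, by induction on the word. -/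
theorem Nsub_mul {δ : Fin n → Derivation K (RF K n) (RF K n)} (hδ : IsPD δ) (s : K)
    (F : MvPolynomial (Fin n) K) (w : RF K n) (p : MvPolynomial (Fin n) K) :
    Nsub δ s F (p • w) ≤ Nsub δ s F w := by
  refine Submodule.span_le.2 ?_
  rintro _ ⟨l, rfl⟩
  induction l with
  | nil => exact Submodule.smul_mem _ _ (Submodule.subset_span ⟨[], rfl⟩)
  | cons i l ih =>
    exact Nsub_D hδ s F w i _ ih

/-- (A30) The elements of `Nsub` of a fraction `a/F^m` are fractions `g/F^c`, hence in some
`Γ_i`. Proof: every element is a finite sum of `p • D^l w`, and `D^l w = N/F^(m+|l|)`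
(`word_frac`); finite sums by `Submodule.span_induction` for the property
`∃ g c, v = g/F^c` (common denominators); then `Gam_exhaust`. -/
theorem Nsub_exhaust {δ : Fin n → Derivation K (RF K n) (RF K n)} (hδ : IsPD δ) (s : K)
    (F : MvPolynomial (Fin n) K) (hF : F ≠ 0) (d : ℕ)
    (hd : F ∈ MvPolynomial.restrictDegree (Fin n) K d) (a : MvPolynomial (Fin n) K) (m : ℕ)
    (v : RF K n) (hv : v ∈ Nsub δ s F (algebraMap (MvPolynomial (Fin n) K) (RF K n) a /
      (algebraMap (MvPolynomial (Fin n) K) (RF K n) F) ^ m)) : ∃ i, v ∈ Gam F d i := by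
  have hF0 : algebraMap (MvPolynomial (Fin n) K) (RF K n) F ≠ 0 :=
    (map_ne_zero_iff _ (IsFractionRing.injective _ _)).2 hF
  have key : ∃ (g : MvPolynomial (Fin n) K) (c : ℕ),
      v = algebraMap (MvPolynomial (Fin n) K) (RF K n) g /
        (algebraMap (MvPolynomial (Fin n) K) (RF K n) F) ^ c := by
    refine Submodule.span_induction (p := fun v _ => ∃ (g : MvPolynomial (Fin n) K) (c : ℕ),
      v = algebraMap (MvPolynomial (Fin n) K) (RF K n) g /
        (algebraMap (MvPolynomial (Fin n) K) (RF K n) F) ^ c) ?_ ?_ ?_ ?_ hv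
    · rintro _ ⟨l, rfl⟩
      exact ⟨_, _, word_frac hδ s F hF l a m⟩
    · exact ⟨0, 0, by rw [map_zero, zero_div]⟩
    · rintro x y _ _ ⟨g, c, rfl⟩ ⟨g', c', rfl⟩
      refine ⟨g * F ^ c' + g' * F ^ c, c + c', ?_⟩
      rw [map_add, map_mul, map_mul, map_pow, map_pow, pow_add]
      field_simp
    · rintro p u _ ⟨g, c, rfl⟩
      refine ⟨p * g, c, ?_⟩
      rw [Algebra.smul_def, map_mul, mul_div_assoc]
  obtain ⟨g, c, rfl⟩ := key
  exact Gam_exhaust F hF d hd g c

end Pool.Agent.CVol
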