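import Pool.Agent.W_2cf66e_h65.AHom

/-!
# MP_2cf66e_nt, part A: the normal ordered action (helper65)
-/

set_option autoImplicit false

noncomputable section

namespace Pool.Agent.CVol

variable {K V : Type} [Field K] [AddCommGroup V] [Module K V] {n : ℕ}

/-- The exponents of the first group of variables. -/
def lft (γ : Fin n ⊕ Fin n →₀ ℕ) : Fin n →₀ ℕ := γ.comapDomain Sum.inl Sum.inl_injective.injOn

/-- The exponents of the second group of variables. -/
def rgt (γ : Fin n ⊕ Fin n →₀ ℕ) : Fin n →₀ ℕ := γ.comapDomain Sum.inr Sum.inr_injective.injOn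

/-- The normal ordered action: `x^α ξ^β ↦ φ(x^α) ψ(x^β)`; the variables `x` are indexed by
`Sum.inl`, the variables `ξ` by `Sum.inr`. -/
def rho (φ ψ : MvPolynomial (Fin n) K →ₐ[K] Module.End K V) :
    MvPolynomial (Fin n ⊕ Fin n) K →ₗ[K] Module.End K V :=
  (MvPolynomial.basisMonomials (Fin n ⊕ Fin n) K).constr K fun γ =>
    φ (MvPolynomial.monomial (lft γ) 1) * ψ (MvPolynomial.monomial (rgt γ) 1)

/-- `Module.Basis.constr_basis`, `MvPolynomial.coe_basisMonomials`. -/
theorem rho_monomial (φ ψ : MvPolynomial (Fin n) K →ₐ[K] Module.End K V)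
    (γ : Fin n ⊕ Fin n →₀ ℕ) (a : K) :
    rho φ ψ (MvPolynomial.monomial γ a) =
      a • (φ (MvPolynomial.monomial (lft γ) 1) * ψ (MvPolynomial.monomial (rgt γ) 1)) := by
  have h1 : (MvPolynomial.monomial γ a : MvPolynomial (Fin n ⊕ Fin n) K) =
      a • (MvPolynomial.basisMonomials (Fin n ⊕ Fin n) K) γ := by
    rw [MvPolynomial.coe_basisMonomials, MvPolynomial.smul_monomial, smul_eq_mul, mul_one]
  rw [h1, map_smul]
  unfold rho
  rw [Module.Basis.constr_basis]

/-- (A4) `rho 1 = 1` (`1 = monomial 0 1`). -/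
theorem rho_one (φ ψ : MvPolynomial (Fin n) K →ₐ[K] Module.End K V) : rho φ ψ 1 = 1 := by
  have h1 : (1 : MvPolynomial (Fin n ⊕ Fin n) K) = MvPolynomial.monomial 0 1 := rfl
  have h2 : lft (0 : Fin n ⊕ Fin n →₀ ℕ) = 0 := by
    ext i
    simp [lft]
  have h3 : rgt (0 : Fin n ⊕ Fin n →₀ ℕ) = 0 := by
    ext i
    simp [rgt]
  have h4 : (MvPolynomial.monomial 0 1 : MvPolynomial (Fin n) K) = 1 := rfl
  rw [h1, rho_monomial, h2, h3, h4, map_one, map_one, one_mul, one_smul]

theorem ARho_lft_apply (γ : Fin n ⊕ Fin n →₀ ℕ) (i : Fin n) : lft γ i = γ (Sum.inl i) := rfl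

theorem ARho_rgt_apply (γ : Fin n ⊕ Fin n →₀ ℕ) (i : Fin n) : rgt γ i = γ (Sum.inr i) := rfl

theorem ARho_pd (ψ : MvPolynomial (Fin n) K →ₐ[K] Module.End K V) (j : Fin n) (β : Fin n →₀ ℕ) :
    ψ (MvPolynomial.pderiv j (MvPolynomial.monomial β 1)) =
      (β j : K) • ψ (MvPolynomial.monomial (β - Finsupp.single j 1) 1) := by
  rw [MvPolynomial.pderiv_monomial, one_mul]
  have h1 : (MvPolynomial.monomial (β - Finsupp.single j 1) (β j : K) : MvPolynomial (Fin n) K) =
      (β j : K) • MvPolynomial.monomial (β - Finsupp.single j 1) 1 := by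
    rw [MvPolynomial.smul_monomial, smul_eq_mul, mul_one]
  rw [h1, map_smul]

/-- (A5) Commutator with `X_j`. Both sides are linear in `Q`, so it suffices to treat
`Q = monomial γ 1` (`MvPolynomial.induction_on'` or linear maps agreeing on the basis). There
`ρ(Q) X_j - X_j ρ(Q) = φ(x^α) (ψ(x^β) X_j - X_j ψ(x^β))` because `X_j = φ(X j)` commutes with
`φ(x^α)`, and by `comm_D` this is `φ(x^α) ψ(∂_j x^β)`; finally
`MvPolynomial.pderiv_monomial` on both sides. -/
theorem rho_inr {X D : Fin n → Module.End K V} (h : IsWeyl X D)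
    (φ ψ : MvPolynomial (Fin n) K →ₐ[K] Module.End K V)
    (hφ : ∀ j, φ (MvPolynomial.X j) = X j) (hψ : ∀ j, ψ (MvPolynomial.X j) = D j)
    (j : Fin n) (Q : MvPolynomial (Fin n ⊕ Fin n) K) :
    rho φ ψ Q * X j - X j * rho φ ψ Q = rho φ ψ (MvPolynomial.pderiv (Sum.inr j) Q) := by
  induction Q using MvPolynomial.induction_on' with
  | add p q hp hq =>
    rw [map_add, map_add, map_add, ← hp, ← hq]
    noncomm_ring
  | monomial γ a =>
    rw [MvPolynomial.pderiv_monomial, rho_monomial, rho_monomial]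
    have hl : lft (γ - Finsupp.single (Sum.inr j) 1) = lft γ := by
      ext i
      rw [ARho_lft_apply, ARho_lft_apply, Finsupp.tsub_apply, Finsupp.single_apply,
        if_neg (by simp), Nat.sub_zero]
    have hr : rgt (γ - Finsupp.single (Sum.inr j) 1) = rgt γ - Finsupp.single j 1 := by
      ext i
      rw [ARho_rgt_apply, Finsupp.tsub_apply, Finsupp.tsub_apply, ARho_rgt_apply,
        Finsupp.single_apply, Finsupp.single_apply]
      simp only [Sum.inr.injEq]
    have h1 := comm_D h ψ hψ j (MvPolynomial.monomial (rgt γ) 1)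
    rw [ARho_pd, ARho_rgt_apply] at h1
    have h2 : X j * φ (MvPolynomial.monomial (lft γ) 1) =
        φ (MvPolynomial.monomial (lft γ) 1) * X j := by
      rw [← hφ j, ← map_mul, ← map_mul, mul_comm]
    rw [hl, hr]
    set A := φ (MvPolynomial.monomial (lft γ) 1) with hA
    set B := ψ (MvPolynomial.monomial (rgt γ) 1) with hB
    have h3 : a • (A * B) * X j - X j * a • (A * B) = a • (A * (B * X j - X j * B)) := by
      rw [smul_mul_assoc, mul_smul_comm, ← smul_sub, mul_sub, ← mul_assoc (X j), h2]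
      simp only [mul_assoc]
    rw [h3, h1, mul_smul_comm, smul_smul]

/-- (A6) Commutator with `D_j`. As `rho_inr`, with `comm_X`. -/
theorem rho_inl {X D : Fin n → Module.End K V} (h : IsWeyl X D)
    (φ ψ : MvPolynomial (Fin n) K →ₐ[K] Module.End K V)
    (hφ : ∀ j, φ (MvPolynomial.X j) = X j) (hψ : ∀ j, ψ (MvPolynomial.X j) = D j)
    (j : Fin n) (Q : MvPolynomial (Fin n ⊕ Fin n) K) :
    D j * rho φ ψ Q - rho φ ψ Q * D j = rho φ ψ (MvPolynomial.pderiv (Sum.inl j) Q) := by
  induction Q using MvPolynomial.induction_on' with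
  | add p q hp hq =>
    rw [map_add, map_add, map_add, ← hp, ← hq]
    noncomm_ring
  | monomial γ a =>
    rw [MvPolynomial.pderiv_monomial, rho_monomial, rho_monomial]
    have hr : rgt (γ - Finsupp.single (Sum.inl j) 1) = rgt γ := by
      ext i
      rw [ARho_rgt_apply, ARho_rgt_apply, Finsupp.tsub_apply, Finsupp.single_apply,
        if_neg (by simp), Nat.sub_zero]
    have hl : lft (γ - Finsupp.single (Sum.inl j) 1) = lft γ - Finsupp.single j 1 := by
      ext i
      rw [ARho_lft_apply, Finsupp.tsub_apply, Finsupp.tsub_apply, ARho_lft_apply,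
        Finsupp.single_apply, Finsupp.single_apply]
      simp only [Sum.inl.injEq]
    have h1 := comm_X h φ hφ j (MvPolynomial.monomial (lft γ) 1)
    rw [ARho_pd, ARho_lft_apply] at h1
    have h2 : ψ (MvPolynomial.monomial (rgt γ) 1) * D j =
        D j * ψ (MvPolynomial.monomial (rgt γ) 1) := by
      rw [← hψ j, ← map_mul, ← map_mul, mul_comm]
    rw [hl, hr]
    set A := φ (MvPolynomial.monomial (lft γ) 1) with hA
    set B := ψ (MvPolynomial.monomial (rgt γ) 1) with hB
    have h3 : D j * a • (A * B) - a • (A * B) * D j = a • ((D j * A - A * D j) * B) := by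
      rw [smul_mul_assoc, mul_smul_comm, ← smul_sub, sub_mul, mul_assoc A B, h2]
      simp only [mul_assoc]
    rw [h3, h1, smul_mul_assoc, smul_smul]

theorem ARho_pow {T : Module.End K V} (B : ℕ → Submodule K V)
    (hT : ∀ i, ∀ v ∈ B i, T v ∈ B (i + 1)) (b k : ℕ) (v : V) (hv : v ∈ B k) :
    (T ^ b) v ∈ B (k + b) := by
  induction b with
  | zero => simpa using hv
  | succ b ih =>
    rw [pow_succ', Module.End.mul_apply, ← add_assoc]
    exact hT _ _ ih

theorem ARho_mem {T : Fin n → Module.End K V} (φ : MvPolynomial (Fin n) K →ₐ[K] Module.End K V)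
    (hφ : ∀ j, φ (MvPolynomial.X j) = T j) (B : ℕ → Submodule K V)
    (hT : ∀ i j, ∀ v ∈ B i, T j v ∈ B (i + 1)) (α : Fin n →₀ ℕ) :
    ∀ (k : ℕ) (v : V), v ∈ B k →
      φ (MvPolynomial.monomial α 1) v ∈ B (k + ∑ i, α i) := by
  induction α using Finsupp.induction_linear with
  | zero =>
    intro k v hv
    have h4 : (MvPolynomial.monomial 0 1 : MvPolynomial (Fin n) K) = 1 := rfl
    rw [h4, map_one]
    simpa using hv
  | add f g hf hg =>
    intro k v hv
    have h1 : (MvPolynomial.monomial (f + g) 1 : MvPolynomial (Fin n) K) =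
        MvPolynomial.monomial f 1 * MvPolynomial.monomial g 1 := by
      rw [MvPolynomial.monomial_mul, one_mul]
    rw [h1, map_mul, Module.End.mul_apply]
    have h2 := hf _ _ (hg k v hv)
    have h3 : k + ∑ i, (f + g) i = k + ∑ i, g i + ∑ i, f i := by
      simp only [Finsupp.add_apply, Finset.sum_add_distrib]
      ring
    rw [h3]
    exact h2
  | single a b =>
    intro k v hv
    have h1 : (MvPolynomial.monomial (Finsupp.single a b) 1 : MvPolynomial (Fin n) K) =
        MvPolynomial.X a ^ b := by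
      rw [MvPolynomial.X_pow_eq_monomial]
    have h2 : ∑ i, (Finsupp.single a b) i = b := by
      simp [Finsupp.single_apply]
    rw [h1, map_pow, hφ, h2]
    exact ARho_pow B (fun i v hv => hT i a v hv) b k v hv

/-- (A7) Degree bound: operators of order `≤ i` map `B k` into `B (k + i)`.

Proof. `Q` is the sum of its monomials, each of degree `≤ i` (`MvPolynomial.totalDegree`,
`MvPolynomial.le_totalDegree`). For a monomial: `φ(x^α)` is a product of `|α|` operators `X_j`
(induction on `α`, e.g. `Finsupp.induction` or `MvPolynomial.monomial_eq`, or prove by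
induction on the exponent that `φ (monomial α 1)` maps `B k` into `B (k + α.sum fun _ e => e)`),
similarly `ψ(x^β)`, and `|α| + |β| = |γ|`; use monotonicity of `B`. -/
theorem rho_mem {X D : Fin n → Module.End K V}
    (φ ψ : MvPolynomial (Fin n) K →ₐ[K] Module.End K V)
    (hφ : ∀ j, φ (MvPolynomial.X j) = X j) (hψ : ∀ j, ψ (MvPolynomial.X j) = D j)
    (B : ℕ → Submodule K V) (hmono : Monotone B)
    (hX : ∀ i j, ∀ v ∈ B i, X j v ∈ B (i + 1)) (hD : ∀ i j, ∀ v ∈ B i, D j v ∈ B (i + 1))
    (i k : ℕ) (Q : MvPolynomial (Fin n ⊕ Fin n) K) (hQ : Q.totalDegree ≤ i)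
    (v : V) (hv : v ∈ B k) : rho φ ψ Q v ∈ B (k + i) := by
  rw [Q.as_sum, map_sum, LinearMap.sum_apply]
  refine Submodule.sum_mem _ fun γ hγ => ?_
  rw [rho_monomial, LinearMap.smul_apply, Module.End.mul_apply]
  refine Submodule.smul_mem _ _ ?_
  have h1 := ARho_mem ψ hψ B hD (rgt γ) k v hv
  have h2 := ARho_mem φ hφ B hX (lft γ) _ _ h1
  refine hmono ?_ h2
  have h3 := (MvPolynomial.le_totalDegree hγ).trans hQ
  rw [Finsupp.sum_fintype _ _ (fun _ => rfl), Fintype.sum_sum_type] at h3
  simp only [ARho_lft_apply, ARho_rgt_apply]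
  omega

end Pool.Agent.CVol
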