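import Pool.Agent.W_2cf66e_h65.Defs

/-!
# MP_2cf66e_nt, part B: integration by parts on a cell (helper65)
-/

set_option autoImplicit false

noncomputable section

open MeasureTheory MvPolynomial

namespace Pool.Agent.CVol

/-- A real cell: `U` is open, `0 < F ≤ 1` on `U` and `F = 0` on the frontier. -/
structure RCell {ι : Type} [Fintype ι] (U : Set (ι → ℝ)) (F : MvPolynomial ι ℝ) : Prop where
  isOpen : IsOpen U
  pos : ∀ x ∈ U, 0 < eval x F
  le_one : ∀ x ∈ U, eval x F ≤ 1
  front : ∀ x ∈ frontier U, eval x F = 0

theorem IsCell.rcell {n : ℕ} {U : Set (Fin n → ℝ)} {F : MvPolynomial (Fin n) ℚ}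
    (h : IsCell U F) : RCell U (re F) :=
  ⟨h.isOpen, fun x hx => by rw [eval_re]; exact h.pos x hx,
    fun x hx => by rw [eval_re]; exact h.le_one x hx,
    fun x hx => by rw [eval_re]; exact h.front x hx⟩

/-- (B0) Derivative of a polynomial in a coordinate direction (induction on `p`). -/
theorem lineDeriv_poly {ι : Type} [Fintype ι] [DecidableEq ι] (p : MvPolynomial ι ℝ) (i : ι)
    (x : ι → ℝ) :
    HasLineDerivAt ℝ (fun x => eval x p) (eval x (pderiv i p)) x (Pi.single i 1) := by
  unfold HasLineDerivAt
  induction p using MvPolynomial.induction_on with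
  | C a =>
    simp only [eval_C, pderiv_C, map_zero]
    exact hasDerivAt_const _ _
  | add p q hp hq =>
    simp only [map_add]
    exact hp.add hq
  | mul_X p j hp =>
    have h1 : HasDerivAt (fun t : ℝ => (x + t • (Pi.single i 1 : ι → ℝ)) j)
        ((Pi.single i 1 : ι → ℝ) j) 0 := by
      have h2 : HasDerivAt (fun t : ℝ => x j + t * (Pi.single i 1 : ι → ℝ) j)
          (1 * (Pi.single i 1 : ι → ℝ) j) 0 :=
        ((hasDerivAt_id (0 : ℝ)).mul_const _).const_add _
      rw [one_mul] at h2
      exact h2
    have h3 := hp.mul h1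
    simp only [map_mul, eval_X, Derivation.leibniz, smul_eq_mul, pderiv_X, map_add]
    have h4 : eval x (Pi.single (M := fun _ => MvPolynomial ι ℝ) i 1 j)
        = (Pi.single i 1 : ι → ℝ) j := by
      rcases eq_or_ne j i with h | h
      · subst h
        simp
      · simp [Pi.single_eq_of_ne h]
    rw [h4]
    refine h3.congr_deriv ?_
    simp only [zero_smul, add_zero]
    ring

/-- (B1) The function `1_U g F^e`, `e > 1` real, is differentiable in the direction of each
coordinate at every point, with derivative `1_U (F g_i + e g F_i) F^(e-1)`.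

Proof. If `x ∈ U` (open): `lineDeriv_poly`, product rule, `HasDerivAt.rpow_const` with
`F(x) > 0`; the function agrees with `g F^e` near `x` (`U ∈ 𝓝 x`). If `x` is not in the closure of
`U`: the function vanishes near `x`. If `x ∈ frontier U` (so `x ∉ U`, `F(x) = 0`): the function is
`0` at `x`, and for `t` small `|1_U g F^e (x + t e_i)| ≤ C |F(x + t e_i)|^e ≤ C (C' |t|)^e = o(t)`,
because `t ↦ F(x + t e_i)` is differentiable, hence `|F(x + t e_i)| ≤ C' |t|` near `0`, and `g` is
bounded near `x`. -/
theorem lineDeriv_ind {ι : Type} [Fintype ι] [DecidableEq ι] {U : Set (ι → ℝ)}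
    {F : MvPolynomial ι ℝ} (hc : RCell U F) (g : MvPolynomial ι ℝ) (e : ℝ) (he : 1 < e) (i : ι)
    (x : ι → ℝ) :
    HasLineDerivAt ℝ (U.indicator fun x => eval x g * (eval x F) ^ e)
      (U.indicator (fun x => eval x (F * pderiv i g + C e * g * pderiv i F) *
        (eval x F) ^ (e - 1)) x) x (Pi.single i 1) := by
  have hline : Continuous fun t : ℝ => x + t • (Pi.single i 1 : ι → ℝ) := by fun_prop
  have hline0 : x + (0 : ℝ) • (Pi.single i 1 : ι → ℝ) = x := by simp
  have hF := lineDeriv_poly F i x
  have hg := lineDeriv_poly g i x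
  unfold HasLineDerivAt at hF hg ⊢
  by_cases hx : x ∈ U
  · have hFx := hc.pos x hx
    have hev : (fun t : ℝ => U.indicator (fun x => eval x g * (eval x F) ^ e)
        (x + t • (Pi.single i 1 : ι → ℝ))) =ᶠ[nhds 0]
        fun t => eval (x + t • (Pi.single i 1 : ι → ℝ)) g *
          (eval (x + t • (Pi.single i 1 : ι → ℝ)) F) ^ e := by
      have h1 : ∀ᶠ t in nhds (0 : ℝ), x + t • (Pi.single i 1 : ι → ℝ) ∈ U := by
        refine hline.continuousAt.eventually_mem ?_
        rw [hline0]
        exact hc.isOpen.mem_nhds hx
      filter_upwards [h1] with t ht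
      rw [Set.indicator_of_mem ht]
    refine HasDerivAt.congr_of_eventuallyEq ?_ hev
    have h0 : eval (x + (0 : ℝ) • (Pi.single i 1 : ι → ℝ)) F ≠ 0 := by
      rw [hline0]; exact hFx.ne'
    have h2 := hg.mul (hF.rpow_const (p := e) (Or.inl h0))
    rw [Set.indicator_of_mem hx]
    refine h2.congr_deriv ?_
    rw [hline0]
    simp only [map_add, map_mul, eval_C]
    have h3 : (eval x F) ^ e = eval x F * (eval x F) ^ (e - 1) := by
      rw [Real.rpow_sub_one hFx.ne']
      field_simp
    rw [h3]
    ring
  · rw [Set.indicator_of_notMem hx]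
    by_cases hx2 : x ∈ closure U
    · have hfr : x ∈ frontier U := by
        rw [frontier, hc.isOpen.interior_eq]
        exact ⟨hx2, hx⟩
      have hF0 := hc.front x hfr
      have hpsi : (fun t : ℝ => |eval (x + t • (Pi.single i 1 : ι → ℝ)) F|)
          =O[nhds 0] fun t : ℝ => |t| := by
        have h1 := hF.isBigO_sub
        simp only [hline0, hF0, sub_zero] at h1
        exact h1.abs_left.abs_right
      have hpow : (fun t : ℝ => |eval (x + t • (Pi.single i 1 : ι → ℝ)) F| ^ e)
          =O[nhds 0] fun t : ℝ => |t| ^ e :=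
        hpsi.rpow (by linarith) (Filter.Eventually.of_forall fun t => abs_nonneg t)
      have hgO : (fun t : ℝ => eval (x + t • (Pi.single i 1 : ι → ℝ)) g)
          =O[nhds 0] fun _ : ℝ => (1 : ℝ) :=
        hg.continuousAt.norm.isBoundedUnder_le.isBigO_one ℝ
      have hlit : (fun t : ℝ => |t| ^ e) =o[nhds 0] fun t : ℝ => t := by
        have h1 : (fun t : ℝ => |t| ^ (e - 1)) =o[nhds 0] fun _ : ℝ => (1 : ℝ) := by
          rw [Asymptotics.isLittleO_one_iff]
          have h2 : ContinuousAt (fun t : ℝ => |t| ^ (e - 1)) 0 :=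
            continuous_abs.continuousAt.rpow_const (Or.inr (by linarith))
          have h3 := h2.tendsto
          simp only [abs_zero] at h3
          rwa [Real.zero_rpow (by linarith)] at h3
        have h4 := h1.mul_isBigO ((Asymptotics.isBigO_refl (fun t : ℝ => t) (nhds 0)).abs_left)
        simp only [one_mul] at h4
        refine h4.congr_left fun t => ?_
        rcases eq_or_ne t 0 with h5 | h5
        · rw [h5, abs_zero, mul_zero, Real.zero_rpow (by linarith)]
        · rw [Real.rpow_sub_one (abs_pos.mpr h5).ne']
          field_simp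
      have hφ : (fun t : ℝ => U.indicator (fun x => eval x g * (eval x F) ^ e)
          (x + t • (Pi.single i 1 : ι → ℝ))) =O[nhds 0]
          fun t => eval (x + t • (Pi.single i 1 : ι → ℝ)) g *
            |eval (x + t • (Pi.single i 1 : ι → ℝ)) F| ^ e := by
        refine Asymptotics.IsBigO.of_bound 1 (Filter.Eventually.of_forall fun t => ?_)
        rw [one_mul]
        by_cases ht : x + t • (Pi.single i 1 : ι → ℝ) ∈ U
        · rw [Set.indicator_of_mem ht, abs_of_pos (hc.pos _ ht)]
        · rw [Set.indicator_of_notMem ht, norm_zero]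
          exact norm_nonneg _
      have hfin := (hφ.trans (hgO.mul hpow)).trans_isLittleO (by simpa using hlit)
      rw [hasDerivAt_iff_isLittleO_nhds_zero]
      refine hfin.congr_left fun t => ?_
      rw [hline0, Set.indicator_of_notMem hx, zero_add]
      simp
    · have hev : (fun t : ℝ => U.indicator (fun x => eval x g * (eval x F) ^ e)
          (x + t • (Pi.single i 1 : ι → ℝ))) =ᶠ[nhds 0] fun _ => (0 : ℝ) := by
        have h1 : ∀ᶠ t in nhds (0 : ℝ), x + t • (Pi.single i 1 : ι → ℝ) ∈ (closure U)ᶜ := by
          refine hline.continuousAt.eventually_mem ?_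
          rw [hline0]
          exact isClosed_closure.isOpen_compl.mem_nhds hx2
        filter_upwards [h1] with t ht
        rw [Set.indicator_of_notMem (fun h => ht (subset_closure h))]
      exact (hasDerivAt_const (0 : ℝ) (0 : ℝ)).congr_of_eventuallyEq hev

theorem BDeriv_cont {ι : Type} [Fintype ι] (g : MvPolynomial ι ℝ) :
    Continuous fun x : ι → ℝ => eval x g := MvPolynomial.continuous_eval g

theorem BDeriv_bound {ι : Type} [Fintype ι] (g : MvPolynomial ι ℝ) :
    ∃ M : ℝ, ∀ x ∈ box ι, |eval x g| ≤ M := by
  obtain ⟨M, hM⟩ := (isCompact_Icc (a := fun _ : ι => (-1 : ℝ)) (b := fun _ => (1 : ℝ))).exists_bound_of_continuousOn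
    (BDeriv_cont g).continuousOn
  exact ⟨M, fun x hx => hM x hx⟩

/-- (B2) Integrability on bounded cells: the function `g F^e` (`e ≥ 0`) is bounded and
measurable on the bounded open set `U`. -/
theorem int_flat {ι : Type} [Fintype ι] {U : Set (ι → ℝ)}
    {F : MvPolynomial ι ℝ} (hc : RCell U F) (hU : U ⊆ box ι) (g : MvPolynomial ι ℝ) (e : ℝ)
    (he : 0 ≤ e) : IntegrableOn (fun x => eval x g * (eval x F) ^ e) U := by
  obtain ⟨M, hM⟩ := BDeriv_bound g
  have hfin : volume U ≠ ⊤ := by
    refine ne_top_of_le_ne_top ?_ (measure_mono hU)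
    exact (isCompact_Icc (a := fun _ : ι => (-1 : ℝ)) (b := fun _ => (1 : ℝ))).measure_lt_top.ne
  have hmeas : Measurable fun x : ι → ℝ => eval x g * (eval x F) ^ e :=
    (BDeriv_cont g).measurable.mul ((BDeriv_cont F).measurable.pow_const e)
  refine Measure.integrableOn_of_bounded (M := M) hfin hmeas.aestronglyMeasurable ?_
  rw [ae_restrict_iff' hc.isOpen.measurableSet]
  refine Filter.Eventually.of_forall fun x hx => ?_
  have h1 := hM x (hU hx)
  have h2 : 0 ≤ (eval x F) ^ e := Real.rpow_nonneg (hc.pos x hx).le e
  have h3 : (eval x F) ^ e ≤ 1 := Real.rpow_le_one (hc.pos x hx).le (hc.le_one x hx) he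
  rw [Real.norm_eq_abs, abs_mul, abs_of_nonneg h2]
  calc |eval x g| * (eval x F) ^ e ≤ |eval x g| * 1 := by gcongr
    _ ≤ M := by rw [mul_one]; exact h1

/-- (B3) Integration by parts.

Proof. `integral_bilinear_hasLineDerivAt_right_eq_neg_left_of_integrable` (with `B` =
multiplication, `ContinuousLinearMap.mul ℝ ℝ`, `f = r`, `g` = the function of `lineDeriv_ind`,
`v = Pi.single i 1`), `lineDeriv_poly`, `lineDeriv_ind`; the three integrability hypotheses follow
from `int_flat` (`integrable_indicator_iff`, products of polynomials are polynomials); then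
`integral_indicator`. -/
theorem ibp {ι : Type} [Fintype ι] [DecidableEq ι] {U : Set (ι → ℝ)}
    {F : MvPolynomial ι ℝ} (hc : RCell U F) (hU : U ⊆ box ι) (g r : MvPolynomial ι ℝ) (e : ℝ)
    (he : 1 < e) (i : ι) :
    ∫ x in U, eval x r * (eval x (F * pderiv i g + C e * g * pderiv i F) * (eval x F) ^ (e - 1)) =
      ∫ x in U, eval x (- pderiv i r) * (eval x g * (eval x F) ^ e) := by
  have hmU := hc.isOpen.measurableSet
  have key := integral_bilinear_hasLineDerivAt_right_eq_neg_left_of_integrable
    (μ := (volume : Measure (ι → ℝ))) (B := ContinuousLinearMap.mul ℝ ℝ)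
    (f := fun x => eval x r) (f' := fun x => eval x (pderiv i r))
    (g := U.indicator fun x => eval x g * (eval x F) ^ e)
    (g' := U.indicator fun x => eval x (F * pderiv i g + C e * g * pderiv i F) *
        (eval x F) ^ (e - 1)) (v := Pi.single i 1) ?_ ?_ ?_
    (fun x _ => lineDeriv_poly r i x) (fun x _ => lineDeriv_ind hc g e he i x)
  · have h1 : ∀ x : ι → ℝ, ContinuousLinearMap.mul ℝ ℝ (eval x r)
        (U.indicator (fun x => eval x (F * pderiv i g + C e * g * pderiv i F) *
          (eval x F) ^ (e - 1)) x)
        = U.indicator (fun x => eval x r * (eval x (F * pderiv i g + C e * g * pderiv i F) *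
          (eval x F) ^ (e - 1))) x := by
      intro x
      by_cases hx : x ∈ U
      · rw [Set.indicator_of_mem hx, Set.indicator_of_mem hx]
        rfl
      · rw [Set.indicator_of_notMem hx, Set.indicator_of_notMem hx]
        simp
    have h2 : ∀ x : ι → ℝ, ContinuousLinearMap.mul ℝ ℝ (eval x (pderiv i r))
        (U.indicator (fun x => eval x g * (eval x F) ^ e) x)
        = U.indicator (fun x => eval x (pderiv i r) * (eval x g * (eval x F) ^ e)) x := by
      intro x
      by_cases hx : x ∈ U
      · rw [Set.indicator_of_mem hx, Set.indicator_of_mem hx]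
        rfl
      · rw [Set.indicator_of_notMem hx, Set.indicator_of_notMem hx]
        simp
    simp only [h1, h2] at key
    rw [integral_indicator hmU, integral_indicator hmU] at key
    rw [key, ← integral_neg]
    refine integral_congr_ae (Filter.Eventually.of_forall fun x => ?_)
    simp
  · have h := int_flat hc hU (pderiv i r * g) e (by linarith)
    rw [← integrable_indicator_iff hmU] at h
    refine h.congr (Filter.Eventually.of_forall fun x => ?_)
    by_cases hx : x ∈ U
    · simp only [Set.indicator_of_mem hx, map_mul, ContinuousLinearMap.mul_apply']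
      ring
    · simp only [Set.indicator_of_notMem hx, ContinuousLinearMap.mul_apply', mul_zero]
  · have h := int_flat hc hU (r * (F * pderiv i g + C e * g * pderiv i F)) (e - 1) (by linarith)
    rw [← integrable_indicator_iff hmU] at h
    refine h.congr (Filter.Eventually.of_forall fun x => ?_)
    by_cases hx : x ∈ U
    · simp only [Set.indicator_of_mem hx, map_mul, ContinuousLinearMap.mul_apply']
      ring
    · simp only [Set.indicator_of_notMem hx, ContinuousLinearMap.mul_apply', mul_zero]
  · have h := int_flat hc hU (r * g) e (by linarith)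
    rw [← integrable_indicator_iff hmU] at h
    refine h.congr (Filter.Eventually.of_forall fun x => ?_)
    by_cases hx : x ∈ U
    · simp only [Set.indicator_of_mem hx, map_mul, ContinuousLinearMap.mul_apply']
      ring
    · simp only [Set.indicator_of_notMem hx, ContinuousLinearMap.mul_apply', mul_zero]

end Pool.Agent.CVol
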