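import Pool.Agent.W_2cf66e_h65.BWord
import Pool.Agent.W_2cf66e_h65.ABS

/-!
# MP_2cf66e_nt, part B: the functional equation for integrals, large exponents (helper65)
-/

set_option autoImplicit false

noncomputable section

open MeasureTheory MvPolynomial

namespace Pool.Agent.CVol

theorem BFun_pt {n : ℕ} {F f : MvPolynomial (Fin n) ℚ} {j M : ℕ} {d : Polynomial ℚ}
    {T : Finset (List (Fin n))} {c : List (Fin n) → RS n} (hlen : ∀ l ∈ T, l.length ≤ M)
    (heq : MvPolynomial.C d * up F ^ (j + M) * up f =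
      ∑ l ∈ T, c l * (word (Polynomial.X : Polynomial ℚ) (up F) l (up F ^ (j + 1) * up f, 1)).1 *
        up F ^ (M - l.length)) (σ : ℝ) (r : RS n) (x : Fin n → ℝ) (hx : 0 < aeval x F) :
    (Polynomial.aeval σ d) * (eval x (spec σ r) * (aeval x f * (aeval x F) ^ (σ + j - 1))) =
      ∑ l ∈ T, eval x (spec σ (r * c l)) *
        (eval x (word σ (re F) l (re F ^ (j + 1) * re f, 1)).1 *
          (eval x (re F)) ^ (σ - (((1 : ℕ) : ℝ) + l.length))) := by
  have h1 := congrArg (fun q => eval x (spec σ q)) heq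
  simp only [map_mul, map_pow, map_sum, spec_up, eval_re] at h1
  have h2 : eval x (spec σ (MvPolynomial.C d : RS n)) = Polynomial.aeval σ d := by
    unfold spec
    rw [MvPolynomial.map_C, MvPolynomial.eval_C]
    rfl
  rw [h2] at h1
  have h3 : ∀ l ∈ T, eval x (spec σ (r * c l)) *
      (eval x (word σ (re F) l (re F ^ (j + 1) * re f, 1)).1 *
        (eval x (re F)) ^ (σ - (((1 : ℕ) : ℝ) + l.length))) =
      (eval x (spec σ r) * (aeval x F) ^ (σ - 1 - M)) * (eval x (spec σ (c l)) *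
        eval x (spec σ (word (Polynomial.X : Polynomial ℚ) (up F) l
          (up F ^ (j + 1) * up f, 1)).1) * (aeval x F) ^ (M - l.length)) := by
    intro l hl
    have h4 := spec_word σ F l (up F ^ (j + 1) * up f) 1
    rw [map_mul, map_pow, spec_up, spec_up] at h4
    rw [h4, map_mul, map_mul, eval_re]
    have h5 : (aeval x F : ℝ) ^ (σ - (((1 : ℕ) : ℝ) + l.length)) =
        (aeval x F : ℝ) ^ (σ - 1 - M) * (aeval x F : ℝ) ^ (M - l.length) := by
      rw [← Real.rpow_natCast, ← Real.rpow_add hx, Nat.cast_sub (hlen l hl)]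
      congr 1
      push_cast
      ring
    rw [h5]
    ring
  rw [Finset.sum_congr rfl h3, ← Finset.mul_sum, ← h1]
  have h6 : (aeval x F : ℝ) ^ (σ + j - 1) =
      (aeval x F : ℝ) ^ (σ - 1 - M) * (aeval x F : ℝ) ^ (j + M) := by
    rw [← Real.rpow_natCast, ← Real.rpow_add hx]
    congr 1
    push_cast
    ring
  rw [h6]
  ring

/-- (B6) One step of the functional equation.

Proof. `bs_poly F f hF 1` gives `j, M, d, T, c`. Put `h = ∑ l ∈ T, dual l (r * c l)` and
`σ0 = M + 2`. Apply `spec σ` to the polynomial identity and evaluate at `x ∈ U`: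
`d(σ) F^(j+M) f = ∑ c_l N_l F^(M-|l|)`, with `N_l = (word σ F l (F^(j+1) f, 1)).1`
(`spec_word`, `spec_up`). Multiply by `r F^(σ-1-M)` (`F(x) > 0`, `Real.rpow_natCast`,
`Real.rpow_add`): `d(σ) r f F^(σ+j-1) = ∑ r c_l N_l F^(σ-(1+|l|))`. Integrate over `U`
(`setIntegral_congr_fun`, `integral_finset_sum`, integrability from `int_flat`), and use
`ibp_word` with `g = F^(j+1) f`, `c = 1`: each term is
`∫ dual l (r c_l) f F^(j+1) F^(σ-1) = ∫ dual l (r c_l) f F^(σ+j)`. -/
theorem fe_one {n : ℕ} {U : Set (Fin n → ℝ)} {F : MvPolynomial (Fin n) ℚ} (hc : IsCell U F)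
    (hF : F ≠ 0) (f : MvPolynomial (Fin n) ℚ) :
    ∃ (j : ℕ) (d : Polynomial ℚ), d ≠ 0 ∧ ∀ r : RS n, ∃ (h : RS n) (σ0 : ℝ), ∀ σ : ℝ, σ0 ≤ σ →
      (Polynomial.aeval σ d) * ∫ x in U, eval x (spec σ r) *
          (aeval x f * (aeval x F) ^ (σ + j - 1)) =
        ∫ x in U, eval x (spec σ h) * (aeval x f * (aeval x F) ^ (σ + j)) := by
  obtain ⟨j, M, d, T, c, hd, hlen, heq⟩ := bs_poly F f hF 1
  refine ⟨j, d, hd, fun r => ⟨∑ l ∈ T, dual l (r * c l), (M : ℝ) + 2, fun σ hσ => ?_⟩⟩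
  have hR := hc.rcell
  have hM : ∀ l ∈ T, ((1 : ℕ) : ℝ) + l.length < σ := by
    intro l hl
    have h1 : (l.length : ℝ) ≤ M := by exact_mod_cast hlen l hl
    push_cast
    linarith
  have hj : (0 : ℝ) ≤ j := Nat.cast_nonneg j
  have hM0 : (0 : ℝ) ≤ M := Nat.cast_nonneg M
  have hint1 : ∀ l ∈ T, IntegrableOn (fun x => eval x (spec σ (r * c l)) *
      (eval x (word σ (re F) l (re F ^ (j + 1) * re f, 1)).1 *
        (eval x (re F)) ^ (σ - (((1 : ℕ) : ℝ) + l.length)))) U := by
    intro l hl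
    have h1 := int_flat hR hc.sub (spec σ (r * c l) *
      (word σ (re F) l (re F ^ (j + 1) * re f, 1)).1) (σ - (((1 : ℕ) : ℝ) + l.length))
      (sub_nonneg.2 (hM l hl).le)
    refine h1.congr_fun (fun x _ => ?_) hR.isOpen.measurableSet
    simp only [map_mul]
    ring
  have hint2 : ∀ l ∈ T, IntegrableOn (fun x => eval x (spec σ (dual l (r * c l))) *
      (aeval x f * (aeval x F) ^ (σ + j))) U := by
    intro l hl
    have h1 := int_flat hR hc.sub (spec σ (dual l (r * c l)) * re f) (σ + j) (by linarith)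
    refine h1.congr_fun (fun x _ => ?_) hR.isOpen.measurableSet
    simp only [map_mul, eval_re]
    ring
  have hL : (Polynomial.aeval σ d) * ∫ x in U, eval x (spec σ r) *
      (aeval x f * (aeval x F) ^ (σ + j - 1)) =
      ∑ l ∈ T, ∫ x in U, eval x (spec σ (r * c l)) *
        (eval x (word σ (re F) l (re F ^ (j + 1) * re f, 1)).1 *
          (eval x (re F)) ^ (σ - (((1 : ℕ) : ℝ) + l.length))) := by
    rw [← integral_const_mul, ← integral_finsetSum _ hint1]
    refine setIntegral_congr_fun hR.isOpen.measurableSet fun x hx => ?_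
    exact BFun_pt hlen heq σ r x (hc.pos x hx)
  have hRt : ∫ x in U, eval x (spec σ (∑ l ∈ T, dual l (r * c l))) *
      (aeval x f * (aeval x F) ^ (σ + j)) =
      ∑ l ∈ T, ∫ x in U, eval x (spec σ (dual l (r * c l))) *
        (aeval x f * (aeval x F) ^ (σ + j)) := by
    rw [← integral_finsetSum _ hint2]
    refine setIntegral_congr_fun hR.isOpen.measurableSet fun x _ => ?_
    rw [map_sum, map_sum, Finset.sum_mul]
  rw [hL, hRt]
  refine Finset.sum_congr rfl fun l hl => ?_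
  rw [ibp_word hR hc.sub σ (re F ^ (j + 1) * re f) 1 l (spec σ (r * c l)) (hM l hl)]
  refine setIntegral_congr_fun hR.isOpen.measurableSet fun x hx => ?_
  have hpos := hc.pos x hx
  change eval x (dual l (spec σ (r * c l))) * (eval x (re F ^ (j + 1) * re f) *
    (eval x (re F)) ^ (σ - ((1 : ℕ) : ℝ))) = eval x (spec σ (dual l (r * c l))) *
    (aeval x f * (aeval x F) ^ (σ + j))
  rw [spec_dual, map_mul (eval x), map_pow (eval x), eval_re, eval_re]
  have h6 : (aeval x F : ℝ) ^ (σ + j) =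
      (aeval x F : ℝ) ^ (j + 1) * (aeval x F : ℝ) ^ (σ - ((1 : ℕ) : ℝ)) := by
    rw [← Real.rpow_natCast, ← Real.rpow_add hpos]
    congr 1
    push_cast
    ring
  rw [h6]
  ring

/-- Shift of the variable `s` by a rational number. -/
def sh {n : ℕ} (t : ℚ) : RS n →+* RS n :=
  MvPolynomial.map (Polynomial.compRingHom (Polynomial.X + Polynomial.C t))

/-- (B7) Specialization of a shifted polynomial. -/
theorem spec_sh {n : ℕ} (σ : ℝ) (t : ℚ) (p : RS n) : spec σ (sh t p) = spec (σ + t) p := by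
  have h : ((Polynomial.aeval σ : Polynomial ℚ →ₐ[ℚ] ℝ).toRingHom).comp
      (Polynomial.compRingHom (Polynomial.X + Polynomial.C t)) =
      (Polynomial.aeval (σ + t) : Polynomial ℚ →ₐ[ℚ] ℝ).toRingHom := by
    refine RingHom.ext fun q => ?_
    change Polynomial.aeval σ (q.comp (Polynomial.X + Polynomial.C t)) =
      Polynomial.aeval (σ + t) q
    rw [Polynomial.aeval_comp, map_add, Polynomial.aeval_X, Polynomial.aeval_C]
    rfl
  unfold spec sh
  rw [MvPolynomial.map_map, h]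

/-- (B8) The functional equation in normal form. Proof: in `fe_one` replace `σ` by `σ - j`:
`b = d.comp (X - C j)`, `r` replaced by `sh j r`, `h` by `sh (-j) h`, `σ0` by `σ0 + j`. -/
theorem fe_shift {n : ℕ} {U : Set (Fin n → ℝ)} {F : MvPolynomial (Fin n) ℚ} (hc : IsCell U F)
    (hF : F ≠ 0) (f : MvPolynomial (Fin n) ℚ) :
    ∃ b : Polynomial ℚ, b ≠ 0 ∧ ∀ r : RS n, ∃ (h : RS n) (σ0 : ℝ), ∀ σ : ℝ, σ0 ≤ σ →
      (Polynomial.aeval σ b) * ∫ x in U, eval x (spec σ r) *
          (aeval x f * (aeval x F) ^ (σ - 1)) =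
        ∫ x in U, eval x (spec σ h) * (aeval x f * (aeval x F) ^ σ) := by
  obtain ⟨j, d, hd, H⟩ := fe_one hc hF f
  refine ⟨d.comp (Polynomial.X - Polynomial.C (j : ℚ)), ?_, fun r => ?_⟩
  · intro h0
    rcases Polynomial.comp_eq_zero_iff.1 h0 with h1 | ⟨_, h1⟩
    · exact hd h1
    · have h2 := congrArg Polynomial.natDegree h1
      rw [Polynomial.natDegree_X_sub_C, Polynomial.natDegree_C] at h2
      exact one_ne_zero h2
  · obtain ⟨h, σ0, Hh⟩ := H (sh (j : ℚ) r)
    refine ⟨sh (-(j : ℚ)) h, σ0 + j, fun σ hσ => ?_⟩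
    have h1 := Hh (σ - j) (by linarith)
    have e1 : Polynomial.aeval (σ - j) d =
        Polynomial.aeval σ (d.comp (Polynomial.X - Polynomial.C (j : ℚ))) := by
      rw [Polynomial.aeval_comp, map_sub, Polynomial.aeval_X, Polynomial.aeval_C]
      simp
    have e2 : spec (σ - j) (sh (j : ℚ) r) = spec σ r := by
      rw [spec_sh]
      congr 2
      push_cast
      ring
    have e3 : spec (σ - j) h = spec σ (sh (-(j : ℚ)) h) := by
      rw [spec_sh]
      congr 2
      push_cast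
      ring
    have e4 : σ - (j : ℝ) + j - 1 = σ - 1 := by ring
    have e5 : σ - (j : ℝ) + j = σ := by ring
    rw [e1, e2, e3, e4, e5] at h1
    exact h1

/-- (B9) Iteration `K` times, starting with `r = 1`.

Proof: induction on `K`. `K = 0`: `h = 1`. Step: `h` for `K`, valid for `σ ≥ σ0`; apply
`fe_shift` to `r := sh (-K) h` at `σ + K` (so `spec (σ+K) r = spec σ h`) and get `h'`; then
`sh K h'` works. -/
theorem fe_iter {n : ℕ} {U : Set (Fin n → ℝ)} {F : MvPolynomial (Fin n) ℚ} (hc : IsCell U F)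
    (hF : F ≠ 0) (f : MvPolynomial (Fin n) ℚ) :
    ∃ b : Polynomial ℚ, b ≠ 0 ∧ ∀ K : ℕ, ∃ (h : RS n) (σ0 : ℝ), ∀ σ : ℝ, σ0 ≤ σ →
      (∏ l ∈ Finset.range K, Polynomial.aeval (σ + l) b) * ∫ x in U,
          aeval x f * (aeval x F) ^ (σ - 1) =
        ∫ x in U, eval x (spec σ h) * (aeval x f * (aeval x F) ^ (σ - 1 + K)) := by
  obtain ⟨b, hb, H⟩ := fe_shift hc hF f
  refine ⟨b, hb, fun K => ?_⟩
  induction K with
  | zero =>
    refine ⟨1, 0, fun σ _ => ?_⟩
    rw [Finset.prod_range_zero, one_mul]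
    refine setIntegral_congr_fun hc.isOpen.measurableSet fun x _ => ?_
    rw [map_one, map_one, one_mul, Nat.cast_zero, add_zero]
  | succ K ih =>
    obtain ⟨h, σ0, Hh⟩ := ih
    obtain ⟨h', σ1, Hh'⟩ := H (sh (-(K : ℚ)) h)
    refine ⟨sh (K : ℚ) h', max σ0 (σ1 - K), fun σ hσ => ?_⟩
    have h1 := Hh σ ((le_max_left _ _).trans hσ)
    have h2 := Hh' (σ + K) (by
      have := (le_max_right σ0 (σ1 - K)).trans hσ
      linarith)
    have e2 : spec (σ + K) (sh (-(K : ℚ)) h) = spec σ h := by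
      rw [spec_sh]
      congr 2
      push_cast
      ring
    have e3 : spec (σ + K) h' = spec σ (sh (K : ℚ) h') := by
      rw [spec_sh]
      congr 2
    have e4 : σ + (K : ℝ) - 1 = σ - 1 + K := by ring
    have e5 : σ - 1 + ((K + 1 : ℕ) : ℝ) = σ + K := by
      push_cast
      ring
    rw [e2, e3, e4] at h2
    rw [Finset.prod_range_succ, e5, ← h2, ← h1]
    ring

end Pool.Agent.CVol
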