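import Pool.Agent.W_2cf66e_h65.BDeriv
import Pool.Agent.W_2cf66e_h65.AClear

/-!
# MP_2cf66e_nt, part B: integration by parts along words (helper65)
-/

set_option autoImplicit false

noncomputable section

open MeasureTheory MvPolynomial

namespace Pool.Agent.CVol

/-- (B4) Integration by parts along a word.

Proof: induction on `l`, for all `r`. `l = []`: both sides agree. `l = i :: l'`:
`word σ F (i :: l') (g, c) = lev σ F i (N, c')` with `(N, c') = word σ F l' (g, c)`,
`c' = c + |l'|` (`word_snd`), so its first component is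
`F N_i + (C σ - C c') N F_i = F N_i + C e N F_i`, `e = σ - c'`. As `e > 1`, `ibp` gives
`∫ r (...) F^(e-1) = ∫ (- ∂_i r) N F^e`, and the induction hypothesis for `- ∂_i r` finishes;
`dual (i :: l') r = dual l' (- ∂_i r)` by definition. -/
theorem ibp_word {n : ℕ} {U : Set (Fin n → ℝ)} {F : MvPolynomial (Fin n) ℝ} (hc : RCell U F)
    (hU : U ⊆ box (Fin n)) (σ : ℝ) (g : MvPolynomial (Fin n) ℝ) (c : ℕ) (l : List (Fin n))
    (r : MvPolynomial (Fin n) ℝ) (hσ : (c : ℝ) + l.length < σ) :
    ∫ x in U, eval x r * (eval x (word σ F l (g, c)).1 *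
        (eval x F) ^ (σ - ((c : ℝ) + l.length))) =
      ∫ x in U, eval x (dual l r) * (eval x g * (eval x F) ^ (σ - (c : ℝ))) := by
  induction l generalizing r with
  | nil =>
    simp [word, dual]
  | cons i l ih =>
    have hlen : ((i :: l).length : ℝ) = l.length + 1 := by
      rw [List.length_cons]
      push_cast
      ring
    rw [hlen] at hσ ⊢
    set N := (word σ F l (g, c)).1 with hN
    set e : ℝ := σ - ((c : ℝ) + l.length) with he
    have he1 : 1 < e := by
      rw [he]
      linarith
    have h1 : (word σ F (i :: l) (g, c)).1 = F * pderiv i N + C e * N * pderiv i F := by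
      change (lev σ F i (word σ F l (g, c))).1 = _
      unfold lev
      simp only
      rw [word_snd, ← hN, ← C_sub]
      congr 4
      rw [he]
      push_cast
      ring
    have h2 : σ - ((c : ℝ) + (l.length + 1)) = e - 1 := by
      rw [he]
      ring
    have h3 : dual (i :: l) r = dual l (-pderiv i r) := rfl
    rw [h1, h2, h3, ← ih (-pderiv i r) (by linarith), ← ibp hc hU N r e he1 i]

/-- (B5) `dual` commutes with specialization. -/
theorem spec_dual {n : ℕ} (σ : ℝ) (l : List (Fin n)) (r : RS n) :
    spec σ (dual l r) = dual l (spec σ r) := by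
  induction l generalizing r with
  | nil => rfl
  | cons i l ih =>
    have h1 : dual (i :: l) r = dual l (-pderiv i r) := rfl
    have h2 : dual (i :: l) (spec σ r) = dual l (-pderiv i (spec σ r)) := rfl
    rw [h1, h2, ih, map_neg]
    unfold spec
    rw [pderiv_map]

/-- (B5') specialization of a word. -/
theorem spec_word {n : ℕ} (σ : ℝ) (F : MvPolynomial (Fin n) ℚ) (l : List (Fin n)) (g : RS n)
    (c : ℕ) : spec σ (word (Polynomial.X : Polynomial ℚ) (up F) l (g, c)).1 =
      (word σ (re F) l (spec σ g, c)).1 := by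
  have h1 := word_map (Polynomial.aeval σ : Polynomial ℚ →ₐ[ℚ] ℝ).toRingHom
    (Polynomial.X : Polynomial ℚ) (up F) l g c
  have h2 : (Polynomial.aeval σ : Polynomial ℚ →ₐ[ℚ] ℝ).toRingHom Polynomial.X = σ := by
    simp
  have h3 : MvPolynomial.map (Polynomial.aeval σ : Polynomial ℚ →ₐ[ℚ] ℝ).toRingHom (up F) =
      re F := spec_up σ F
  rw [h2, h3] at h1
  have h4 := congrArg Prod.fst h1
  exact h4.symm

end Pool.Agent.CVol
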