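import Pool.Agent.W_2cf66e_h65.BDeriv

/-!
# MP_2cf66e_nt, part D: flat extensions are of class `C^k` (helper65)
-/

set_option autoImplicit false

noncomputable section

open MvPolynomial Filter Topology

namespace Pool.Agent.CVol

/-- The flat function `1_U P F^e / ∏ D_a^(c_a)`. -/
def flat {ι : Type} {μ : ℕ} (U : Set (ι → ℝ)) (F : MvPolynomial ι ℝ)
    (D : Fin μ → MvPolynomial ι ℝ) (P : MvPolynomial ι ℝ) (c : Fin μ → ℕ) (e : ℕ) :
    (ι → ℝ) → ℝ :=
  U.indicator fun z => eval z P * (eval z F) ^ e / ∏ a, (eval z (D a)) ^ (c a)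

theorem DFlat_of_mem {ι : Type} {μ : ℕ} {U : Set (ι → ℝ)} {F : MvPolynomial ι ℝ}
    {D : Fin μ → MvPolynomial ι ℝ} {P : MvPolynomial ι ℝ} {c : Fin μ → ℕ} {e : ℕ} {z : ι → ℝ}
    (hz : z ∈ U) :
    flat U F D P c e z = eval z P * (eval z F) ^ e / ∏ a, (eval z (D a)) ^ (c a) := by
  unfold flat
  rw [Set.indicator_of_mem hz]

theorem DFlat_of_notMem {ι : Type} {μ : ℕ} {U : Set (ι → ℝ)} {F : MvPolynomial ι ℝ}
    {D : Fin μ → MvPolynomial ι ℝ} {P : MvPolynomial ι ℝ} {c : Fin μ → ℕ} {e : ℕ} {z : ι → ℝ}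
    (hz : z ∉ U) : flat U F D P c e z = 0 := by
  unfold flat
  rw [Set.indicator_of_notMem hz]

/-- (D1) Bound: `|flat| ≤ |P| F^(e - ∑ c)` on `U`, because `0 < F ≤ D_a`. -/
theorem flat_bound {ι : Type} [Fintype ι] {μ : ℕ} {U : Set (ι → ℝ)} {F : MvPolynomial ι ℝ}
    (hc : RCell U F) (D : Fin μ → MvPolynomial ι ℝ)
    (hD : ∀ a, ∀ z ∈ U, eval z F ≤ eval z (D a)) (P : MvPolynomial ι ℝ) (c : Fin μ → ℕ) (e m : ℕ)
    (he : ∑ a, c a + m ≤ e) (z : ι → ℝ) (hz : z ∈ U) :
    |flat U F D P c e z| ≤ |eval z P| * (eval z F) ^ m := by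
  rw [DFlat_of_mem hz]
  have hF := hc.pos z hz
  have hF1 := hc.le_one z hz
  have hprod : (eval z F) ^ (∑ a, c a) ≤ ∏ a, (eval z (D a)) ^ (c a) := by
    rw [← Finset.prod_pow_eq_pow_sum]
    exact Finset.prod_le_prod (fun a _ => (pow_pos hF _).le)
      fun a _ => pow_le_pow_left₀ hF.le (hD a z hz) _
  have hpos : 0 < (eval z F) ^ (∑ a, c a) := pow_pos hF _
  rw [abs_div, abs_mul, abs_of_pos (pow_pos hF e), abs_of_pos (hpos.trans_le hprod),
    div_le_iff₀ (hpos.trans_le hprod), mul_assoc]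
  refine mul_le_mul_of_nonneg_left ?_ (abs_nonneg _)
  calc (eval z F) ^ e ≤ (eval z F) ^ (∑ a, c a + m) := pow_le_pow_of_le_one hF.le hF1 he
    _ = (eval z F) ^ m * (eval z F) ^ (∑ a, c a) := by rw [pow_add, mul_comm]
    _ ≤ _ := mul_le_mul_of_nonneg_left hprod (pow_pos hF m).le

/-- The bound on the whole space. -/
theorem DFlat_bound' {ι : Type} [Fintype ι] {μ : ℕ} {U : Set (ι → ℝ)} {F : MvPolynomial ι ℝ}
    (hc : RCell U F) (D : Fin μ → MvPolynomial ι ℝ)
    (hD : ∀ a, ∀ z ∈ U, eval z F ≤ eval z (D a)) (P : MvPolynomial ι ℝ) (c : Fin μ → ℕ) (e m : ℕ)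
    (he : ∑ a, c a + m ≤ e) (z : ι → ℝ) :
    ‖flat U F D P c e z‖ ≤ ‖eval z P * (eval z F) ^ m‖ := by
  by_cases hz : z ∈ U
  · have h := flat_bound hc D hD P c e m he z hz
    rw [norm_mul, norm_pow, Real.norm_eq_abs, Real.norm_eq_abs, Real.norm_eq_abs,
      abs_of_pos (hc.pos z hz)]
    exact h
  · rw [DFlat_of_notMem hz, norm_zero]
    exact norm_nonneg _

theorem DFlat_prod_pos {ι : Type} [Fintype ι] {μ : ℕ} {U : Set (ι → ℝ)} {F : MvPolynomial ι ℝ}
    (hc : RCell U F) (D : Fin μ → MvPolynomial ι ℝ)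
    (hD : ∀ a, ∀ z ∈ U, eval z F ≤ eval z (D a)) {z : ι → ℝ} (hz : z ∈ U) (a : Fin μ) :
    0 < eval z (D a) := (hc.pos z hz).trans_le (hD a z hz)

theorem DFlat_ev_mem {ι : Type} [Fintype ι] {μ : ℕ} {U : Set (ι → ℝ)} {F : MvPolynomial ι ℝ}
    (hc : RCell U F) (D : Fin μ → MvPolynomial ι ℝ) (P : MvPolynomial ι ℝ) (c : Fin μ → ℕ) (e : ℕ)
    {x : ι → ℝ} (hx : x ∈ U) :
    flat U F D P c e =ᶠ[𝓝 x] fun z => eval z P * (eval z F) ^ e * ∏ a, ((eval z (D a)) ^ (c a))⁻¹ := by
  filter_upwards [hc.isOpen.mem_nhds hx] with z hz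
  rw [DFlat_of_mem hz, div_eq_mul_inv, Finset.prod_inv_distrib]

theorem DFlat_ev_out {ι : Type} [Fintype ι] {μ : ℕ} {U : Set (ι → ℝ)} {F : MvPolynomial ι ℝ}
    (D : Fin μ → MvPolynomial ι ℝ) (P : MvPolynomial ι ℝ) (c : Fin μ → ℕ) (e : ℕ)
    {x : ι → ℝ} (hx : x ∉ closure U) :
    flat U F D P c e =ᶠ[𝓝 x] fun _ => 0 := by
  filter_upwards [isClosed_closure.isOpen_compl.mem_nhds hx] with z hz
  exact DFlat_of_notMem fun h => hz (subset_closure h)

theorem DFlat_cont {ι : Type} [Fintype ι] (g : MvPolynomial ι ℝ) :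
    Continuous fun x : ι → ℝ => eval x g := MvPolynomial.continuous_eval g

/-- (D2) Continuity when `e ≥ ∑ c + 1`. On `U` (open) and off the closure it is clear; at a point
of the frontier use `flat_bound` with `m = 1` and `F = 0` there. -/
theorem flat_cont {ι : Type} [Fintype ι] {μ : ℕ} {U : Set (ι → ℝ)} {F : MvPolynomial ι ℝ}
    (hc : RCell U F) (D : Fin μ → MvPolynomial ι ℝ)
    (hD : ∀ a, ∀ z ∈ U, eval z F ≤ eval z (D a)) (P : MvPolynomial ι ℝ) (c : Fin μ → ℕ) (e : ℕ)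
    (he : ∑ a, c a + 1 ≤ e) : Continuous (flat U F D P c e) := by
  rw [continuous_iff_continuousAt]
  intro x
  by_cases hx : x ∈ U
  · refine ContinuousAt.congr ?_ (DFlat_ev_mem hc D P c e hx).symm
    refine ContinuousAt.mul (ContinuousAt.mul (DFlat_cont P).continuousAt
      ((DFlat_cont F).continuousAt.pow e)) ?_
    refine tendsto_finsetProd _ fun a _ => ?_
    exact ((DFlat_cont (D a)).continuousAt.pow (c a)).inv₀
      (pow_ne_zero _ (DFlat_prod_pos hc D hD hx a).ne')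
  · by_cases hx2 : x ∈ closure U
    · have hfr : x ∈ frontier U := by
        rw [frontier, hc.isOpen.interior_eq]
        exact ⟨hx2, hx⟩
      have hF0 := hc.front x hfr
      unfold ContinuousAt
      rw [DFlat_of_notMem hx]
      refine squeeze_zero_norm (DFlat_bound' hc D hD P c e 1 he) ?_
      have h1 : Continuous fun z : ι → ℝ => ‖eval z P * (eval z F) ^ 1‖ :=
        ((DFlat_cont P).mul ((DFlat_cont F).pow 1)).norm
      have h2 := h1.tendsto x
      simp only [hF0, pow_one, mul_zero, norm_zero] at h2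
      simpa using h2
    · exact ContinuousAt.congr continuousAt_const (DFlat_ev_out D P c e hx2).symm

/-- Two linear forms which agree on the coordinate vectors are equal. -/
theorem DFlat_ext {ι : Type} [Fintype ι] [DecidableEq ι] {L M : (ι → ℝ) →L[ℝ] ℝ}
    (h : ∀ i, L (Pi.single i 1) = M (Pi.single i 1)) : L = M := by
  apply ContinuousLinearMap.coe_injective
  refine LinearMap.pi_ext' fun i => ?_
  ext
  simpa using h i

/-- The differential of a polynomial. -/
def DFlat_L {ι : Type} [Fintype ι] (p : MvPolynomial ι ℝ) (x : ι → ℝ) : (ι → ℝ) →L[ℝ] ℝ :=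
  ∑ i, eval x (pderiv i p) • (ContinuousLinearMap.proj i : (ι → ℝ) →L[ℝ] ℝ)

theorem DFlat_L_single {ι : Type} [Fintype ι] [DecidableEq ι] (p : MvPolynomial ι ℝ) (x : ι → ℝ)
    (i : ι) : DFlat_L p x (Pi.single i 1) = eval x (pderiv i p) := by
  unfold DFlat_L
  rw [_root_.sum_apply, Finset.sum_eq_single i]
  · simp
  · intro j _ hj
    simp [Pi.single_eq_of_ne hj]
  · intro h
    exact absurd (Finset.mem_univ i) h

theorem DFlat_poly {ι : Type} [Fintype ι] [DecidableEq ι] (p : MvPolynomial ι ℝ) (x : ι → ℝ) :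
    HasFDerivAt (fun x => eval x p) (DFlat_L p x) x := by
  induction p using MvPolynomial.induction_on with
  | C a =>
    have h : DFlat_L (C a : MvPolynomial ι ℝ) x = 0 := by
      unfold DFlat_L
      simp
    rw [h]
    simp only [eval_C]
    exact hasFDerivAt_const _ _
  | add p q hp hq =>
    have h : DFlat_L (p + q) x = DFlat_L p x + DFlat_L q x := by
      unfold DFlat_L
      simp only [map_add, add_smul, Finset.sum_add_distrib]
    rw [h]
    simp only [map_add]
    exact hp.add hq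
  | mul_X p j hp =>
    have h1 : HasFDerivAt (fun x : ι → ℝ => x j)
        (ContinuousLinearMap.proj j : (ι → ℝ) →L[ℝ] ℝ) x :=
      (ContinuousLinearMap.proj j : (ι → ℝ) →L[ℝ] ℝ).hasFDerivAt
    have h2 := hp.mul h1
    simp only [map_mul, eval_X]
    refine h2.congr_fderiv (DFlat_ext fun i => ?_)
    simp only [_root_.add_apply, _root_.smul_apply, DFlat_L_single,
      ContinuousLinearMap.proj_apply, Derivation.leibniz, smul_eq_mul, pderiv_X, map_add, map_mul,
      eval_X]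
    have h4 : eval x (Pi.single (M := fun _ => MvPolynomial ι ℝ) i 1 j)
        = (Pi.single i 1 : ι → ℝ) j := by
      rcases eq_or_ne j i with h | h
      · subst h
        simp
      · simp [Pi.single_eq_of_ne h]
    rw [h4]

theorem DFlat_sum_single {ι : Type} [Fintype ι] [DecidableEq ι] (A : ι → ℝ) (i : ι) :
    (∑ j, A j • (ContinuousLinearMap.proj j : (ι → ℝ) →L[ℝ] ℝ)) (Pi.single i 1) = A i := by
  rw [_root_.sum_apply, Finset.sum_eq_single i]
  · simp
  · intro j _ hj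
    simp [Pi.single_eq_of_ne hj]
  · intro h
    exact absurd (Finset.mem_univ i) h

theorem DFlat_inv_pow {t : ℝ} (ht : t ≠ 0) (c : ℕ) :
    HasDerivAt (fun t : ℝ => (t ^ c)⁻¹) (-((c : ℝ) * ((t ^ c)⁻¹ * t⁻¹))) t := by
  have h := (hasDerivAt_pow c t).inv (pow_ne_zero c ht)
  refine h.congr_deriv ?_
  rcases c with _ | c
  · simp
  · rw [Nat.add_sub_cancel]
    field_simp
    ring

/-- The derivative at a point of `U`. -/
theorem DFlat_inside {ι : Type} [Fintype ι] [DecidableEq ι] {μ : ℕ} {U : Set (ι → ℝ)}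
    {F : MvPolynomial ι ℝ}
    (hc : RCell U F) (D : Fin μ → MvPolynomial ι ℝ)
    (hD : ∀ a, ∀ z ∈ U, eval z F ≤ eval z (D a)) (P : MvPolynomial ι ℝ) (c : Fin μ → ℕ) (e : ℕ)
    (he : 1 ≤ e) {x : ι → ℝ} (hx : x ∈ U) :
    HasFDerivAt (flat U F D P c e)
      (∑ i, (flat U F D (pderiv i P * F + C (e : ℝ) * P * pderiv i F) c (e - 1) x -
        ∑ a, (c a : ℝ) * flat U F D (P * pderiv i (D a)) (c + Pi.single a 1) e x) •
          (ContinuousLinearMap.proj i : (ι → ℝ) →L[ℝ] ℝ)) x := by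
  refine HasFDerivAt.congr_of_eventuallyEq ?_ (DFlat_ev_mem hc D P c e hx)
  have hP := DFlat_poly P x
  have hF : HasFDerivAt (fun z : ι → ℝ => (eval z F) ^ e)
      (((e : ℝ) * (eval x F) ^ (e - 1)) • DFlat_L F x) x :=
    HasDerivAt.comp_hasFDerivAt (h₂ := fun t : ℝ => t ^ e) x (hasDerivAt_pow e (eval x F))
      (DFlat_poly F x)
  have hPF : HasFDerivAt (fun z : ι → ℝ => eval z P * (eval z F) ^ e)
      (eval x P • (((e : ℝ) * (eval x F) ^ (e - 1)) • DFlat_L F x) + (eval x F) ^ e • DFlat_L P x) x :=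
    hP.mul hF
  have hg : ∀ a ∈ (Finset.univ : Finset (Fin μ)),
      HasFDerivAt (fun z : ι → ℝ => ((eval z (D a)) ^ (c a))⁻¹)
      ((-((c a : ℝ) * (((eval x (D a)) ^ (c a))⁻¹ * (eval x (D a))⁻¹))) • DFlat_L (D a) x) x :=
    fun a _ => HasDerivAt.comp_hasFDerivAt (h₂ := fun t : ℝ => (t ^ (c a))⁻¹) x
      (DFlat_inv_pow (DFlat_prod_pos hc D hD hx a).ne' (c a)) (DFlat_poly (D a) x)
  have hG := HasFDerivAt.finsetProd hg
  refine (hPF.mul hG).congr_fderiv (DFlat_ext fun i => ?_)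
  rw [DFlat_sum_single]
  simp only [_root_.add_apply, _root_.smul_apply, _root_.sum_apply, DFlat_L_single, smul_eq_mul,
    DFlat_of_mem hx, map_add, map_mul, eval_C]
  obtain ⟨G, hGd⟩ : ∃ G : ℝ, G = ∏ a, ((eval x (D a)) ^ (c a))⁻¹ := ⟨_, rfl⟩
  have hG1 : (∏ a, (eval x (D a)) ^ (c a)) = G⁻¹ := by
    rw [hGd, Finset.prod_inv_distrib, inv_inv]
  have hG2 : ∀ a, (∏ b, (eval x (D b)) ^ ((c + Pi.single a 1 : Fin μ → ℕ) b)) =
      G⁻¹ * eval x (D a) := by
    intro a
    have h1 : ∀ b, (eval x (D b)) ^ ((c + Pi.single a 1 : Fin μ → ℕ) b) =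
        (eval x (D b)) ^ (c b) * (if b = a then eval x (D a) else 1) := by
      intro b
      rw [Pi.add_apply, pow_add]
      rcases eq_or_ne b a with h | h
      · subst h
        simp
      · simp [h]
    rw [Finset.prod_congr rfl fun b _ => h1 b, Finset.prod_mul_distrib, hG1,
      Finset.prod_ite_eq' Finset.univ a]
    simp
  have hG3 : ∀ a, (∏ j ∈ Finset.univ.erase a, ((eval x (D j)) ^ (c j))⁻¹) *
      ((eval x (D a)) ^ (c a))⁻¹ = G := by
    intro a
    rw [hGd, Finset.prod_erase_mul _ _ (Finset.mem_univ a)]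
  have he2 : eval x F ^ e = eval x F * eval x F ^ (e - 1) := by
    rw [← pow_succ', Nat.sub_add_cancel he]
  rw [hG1, ← hGd]
  simp only [hG2]
  have hsum : eval x P * eval x F ^ e * ∑ a, (∏ j ∈ Finset.univ.erase a,
      ((eval x (D j)) ^ (c j))⁻¹) * (-((c a : ℝ) * (((eval x (D a)) ^ (c a))⁻¹ *
        (eval x (D a))⁻¹)) * eval x (pderiv i (D a))) =
      -∑ a, (c a : ℝ) * (eval x P * eval x (pderiv i (D a)) * eval x F ^ e /
        (G⁻¹ * eval x (D a))) := by
    rw [Finset.mul_sum, ← Finset.sum_neg_distrib]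
    refine Finset.sum_congr rfl fun a _ => ?_
    calc eval x P * eval x F ^ e * ((∏ j ∈ Finset.univ.erase a,
          ((eval x (D j)) ^ (c j))⁻¹) * (-((c a : ℝ) * (((eval x (D a)) ^ (c a))⁻¹ *
            (eval x (D a))⁻¹)) * eval x (pderiv i (D a))))
        = -((c a : ℝ) * (eval x P * eval x (pderiv i (D a)) * eval x F ^ e *
            (((∏ j ∈ Finset.univ.erase a, ((eval x (D j)) ^ (c j))⁻¹) *
              ((eval x (D a)) ^ (c a))⁻¹) * (eval x (D a))⁻¹))) := by ring
      _ = _ := by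
          rw [hG3 a, div_eq_mul_inv, mul_inv, inv_inv]
  rw [hsum]
  rw [he2]
  simp only [div_eq_mul_inv, inv_inv]
  ring

theorem DFlat_zero {ι : Type} [Fintype ι] {μ : ℕ} {U : Set (ι → ℝ)}
    {F : MvPolynomial ι ℝ} (D : Fin μ → MvPolynomial ι ℝ) (P : ι → MvPolynomial ι ℝ)
    (R : ι → Fin μ → MvPolynomial ι ℝ) (c : Fin μ → ℕ) (c' : Fin μ → Fin μ → ℕ) (e e' : ℕ)
    {x : ι → ℝ} (hx : x ∉ U) :
    (∑ i, (flat U F D (P i) c e' x - ∑ a, (c a : ℝ) * flat U F D (R i a) (c' a) e x) •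
          (ContinuousLinearMap.proj i : (ι → ℝ) →L[ℝ] ℝ)) = 0 := by
  refine Finset.sum_eq_zero fun i _ => ?_
  rw [DFlat_of_notMem hx, Finset.sum_eq_zero fun a _ => ?_, sub_zero, zero_smul]
  rw [DFlat_of_notMem hx, mul_zero]

/-- (D3) Derivative when `e ≥ ∑ c + 2`: the function is differentiable everywhere and its
derivative is `∑_i (partial_i) dx_i` with
`partial_i = flat (P_i F + e P F_i) c (e-1) - ∑_a c_a flat (P D_{a,i}) (c + e_a) e`.

Proof. On `U`: the quotient rule (`HasFDerivAt` of polynomials: `∑ i, eval z (pderiv i P) • dx_i`,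
this is a helper lemma by induction on the polynomial). Off the closure: `0` near the point. At a
point `x` of the frontier: the value is `0`, all the `flat` functions vanish at `x ∉ U`, and by
`flat_bound` with `m = 2`, `|flat (y)| ≤ |P(y)| F(y)^2 ≤ C |y - x|^2` for `y` near `x`
(`F` is differentiable with `F(x) = 0`), so the derivative is `0`
(`HasFDerivAt` from `IsBigO`/`isLittleO`). -/
theorem flat_hasFDerivAt {ι : Type} [Fintype ι] [DecidableEq ι] {μ : ℕ} {U : Set (ι → ℝ)}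
    {F : MvPolynomial ι ℝ}
    (hc : RCell U F) (D : Fin μ → MvPolynomial ι ℝ)
    (hD : ∀ a, ∀ z ∈ U, eval z F ≤ eval z (D a)) (P : MvPolynomial ι ℝ) (c : Fin μ → ℕ) (e : ℕ)
    (he : ∑ a, c a + 2 ≤ e) (x : ι → ℝ) :
    HasFDerivAt (flat U F D P c e)
      (∑ i, (flat U F D (pderiv i P * F + C (e : ℝ) * P * pderiv i F) c (e - 1) x -
        ∑ a, (c a : ℝ) * flat U F D (P * pderiv i (D a)) (c + Pi.single a 1) e x) •
          (ContinuousLinearMap.proj i : (ι → ℝ) →L[ℝ] ℝ)) x := by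
  by_cases hx : x ∈ U
  · exact DFlat_inside hc D hD P c e (by omega) hx
  · have h0 := DFlat_zero (F := F) D (fun i => pderiv i P * F + C (e : ℝ) * P * pderiv i F)
      (fun i a => P * pderiv i (D a)) c (fun a => c + Pi.single a 1) e (e - 1) hx
    rw [h0]
    by_cases hx2 : x ∈ closure U
    · have hfr : x ∈ frontier U := by
        rw [frontier, hc.isOpen.interior_eq]
        exact ⟨hx2, hx⟩
      have hF0 := hc.front x hfr
      have h1 : (fun y : ι → ℝ => eval y F) =O[𝓝 x] fun y => y - x := by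
        have h2 := (DFlat_poly F x).isBigO_sub
        simpa only [hF0, sub_zero] using h2
      have h2 : (fun y : ι → ℝ => eval y P) =O[𝓝 x] fun _ => (1 : ℝ) :=
        (DFlat_cont P).continuousAt.norm.isBoundedUnder_le.isBigO_one ℝ
      have h3 : (fun y : ι → ℝ => eval y F) =o[𝓝 x] fun _ => (1 : ℝ) := by
        rw [Asymptotics.isLittleO_one_iff]
        have h4 := (DFlat_cont F).tendsto x
        rwa [hF0] at h4
      have h5 : (fun y : ι → ℝ => eval y P * (eval y F) ^ 2) =o[𝓝 x] fun y => y - x := by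
        have h6 := (h2.mul_isLittleO h3).mul_isBigO h1.norm_right
        have h7 : (fun y : ι → ℝ => eval y P * (eval y F) ^ 2) =o[𝓝 x] fun y => ‖y - x‖ := by
          refine h6.congr (fun y => by ring) (fun y => by simp)
        exact Asymptotics.isLittleO_norm_right.1 h7
      have h8 : flat U F D P c e =O[𝓝 x] fun y : ι → ℝ => eval y P * (eval y F) ^ 2 :=
        Asymptotics.IsBigO.of_bound 1 (Filter.Eventually.of_forall fun y => by
          rw [one_mul]
          exact DFlat_bound' hc D hD P c e 2 he y)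
      refine HasFDerivAt.of_isLittleO ?_
      have h9 := h8.trans_isLittleO h5
      refine h9.congr_left fun y => ?_
      rw [DFlat_of_notMem hx]
      simp
    · exact (hasFDerivAt_const (0 : ℝ) x).congr_of_eventuallyEq (DFlat_ev_out D P c e hx2)

/-- (D4) Flat functions are of class `C^k` when `e ≥ ∑ c + k + 1`.

Proof: induction on `k`, for all `P, c, e`. `k = 0`: `contDiff_zero`, `flat_cont`. Step:
`contDiff_succ_iff_hasFDerivAt` (or `contDiff_succ_iff_fderiv`) with the derivative of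
`flat_hasFDerivAt`, which is of class `C^k` as a finite sum of products of functions
`flat ...` (with `e - ∑ c` smaller by one: `(e-1) - ∑ c` and `e - (∑ c + 1)`) with constant
linear forms. -/
theorem flat_contDiff {ι : Type} [Fintype ι] {μ : ℕ} {U : Set (ι → ℝ)}
    {F : MvPolynomial ι ℝ} (hc : RCell U F) (D : Fin μ → MvPolynomial ι ℝ)
    (hD : ∀ a, ∀ z ∈ U, eval z F ≤ eval z (D a)) (k : ℕ) (P : MvPolynomial ι ℝ)
    (c : Fin μ → ℕ) (e : ℕ) (he : ∑ a, c a + k + 1 ≤ e) :
    ContDiff ℝ k (flat U F D P c e) := by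
  classical
  induction k generalizing P c e with
  | zero =>
    rw [Nat.cast_zero, contDiff_zero]
    exact flat_cont hc D hD P c e (by omega)
  | succ k ih =>
    rw [Nat.cast_add, Nat.cast_one, contDiff_succ_iff_hasFDerivAt]
    refine ⟨_, ?_, fun x => flat_hasFDerivAt hc D hD P c e (by omega) x⟩
    refine ContDiff.sum fun i _ => ContDiff.smul_const ?_ _
    refine ContDiff.sub (ih _ _ _ (by omega)) (ContDiff.sum fun a _ => ?_)
    refine contDiff_const.mul (ih _ _ _ ?_)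
    have h1 : ∑ b, (c + Pi.single a 1 : Fin μ → ℕ) b = ∑ b, c b + 1 := by
      simp only [Pi.add_apply, Finset.sum_add_distrib]
      rw [Finset.sum_pi_single']
      simp
    omega

end Pool.Agent.CVol
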