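import Pool.Agent.W_2cf66e_h65.Defs

/-!
# MP_2cf66e_nt, part F: polynomial kernels and convolution (helper65)
-/

set_option autoImplicit false

noncomputable section

open MeasureTheory MvPolynomial

namespace Pool.Agent.CVol

/-- The cube of half side `R`. -/
def bx (ι : Type) (R : ℝ) : Set (ι → ℝ) := Set.Icc (fun _ => -R) (fun _ => R)

/-- The polynomial `1 - |u|^2 / (card R^2 + 1)`. -/
def kpol (ι : Type) [Fintype ι] (R : ℝ) : MvPolynomial ι ℝ :=
  1 - C (1 / ((Fintype.card ι : ℝ) * R ^ 2 + 1)) * ∑ i, (X i) ^ 2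

theorem FKer_eval {ι : Type} [Fintype ι] (R : ℝ) (u : ι → ℝ) :
    eval u (kpol ι R) = 1 - (1 / ((Fintype.card ι : ℝ) * R ^ 2 + 1)) * ∑ i, (u i) ^ 2 := by
  simp [kpol]

theorem FKer_sum_le {ι : Type} [Fintype ι] (R : ℝ) (hR : 0 < R) (u : ι → ℝ)
    (hu : u ∈ bx ι R) : ∑ i, (u i) ^ 2 ≤ (Fintype.card ι : ℝ) * R ^ 2 := by
  have h1 : ∀ i ∈ (Finset.univ : Finset ι), (u i) ^ 2 ≤ R ^ 2 := by
    intro i _
    have h2 := hu.1 i
    have h3 := hu.2 i
    simp only at h2 h3
    nlinarith
  have h4 := Finset.sum_le_card_nsmul Finset.univ (fun i => (u i) ^ 2) (R ^ 2) h1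
  simpa [nsmul_eq_mul] using h4

theorem FKer_den {ι : Type} [Fintype ι] (R : ℝ) :
    0 < (Fintype.card ι : ℝ) * R ^ 2 + 1 := by positivity

/-- (F5) The kernel is between `0` and `1` on the cube, positive there. -/
theorem kpol_pos {ι : Type} [Fintype ι] (R : ℝ) (hR : 0 < R) (u : ι → ℝ) (hu : u ∈ bx ι R) :
    0 < eval u (kpol ι R) ∧ eval u (kpol ι R) ≤ 1 := by
  have h1 := FKer_sum_le R hR u hu
  have h2 := FKer_den (ι := ι) R
  have h3 : 0 ≤ ∑ i, (u i) ^ 2 := Finset.sum_nonneg (fun i _ => sq_nonneg _)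
  rw [FKer_eval]
  constructor
  · rw [sub_pos, one_div, inv_mul_lt_iff₀ h2]
    linarith
  · have : 0 ≤ (1 / ((Fintype.card ι : ℝ) * R ^ 2 + 1)) * ∑ i, (u i) ^ 2 := by positivity
    linarith

theorem FKer_lt_one {ι : Type} [Fintype ι] (R : ℝ) (u : ι → ℝ) (hu : u ≠ 0) :
    eval u (kpol ι R) < 1 := by
  rw [FKer_eval]
  have h2 := FKer_den (ι := ι) R
  obtain ⟨i, hi⟩ : ∃ i, u i ≠ 0 := by
    by_contra h
    push Not at h
    exact hu (funext h)
  have h3 : 0 < ∑ i, (u i) ^ 2 :=
    Finset.sum_pos' (fun i _ => sq_nonneg _) ⟨i, Finset.mem_univ i, by positivity⟩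
  have : 0 < (1 / ((Fintype.card ι : ℝ) * R ^ 2 + 1)) * ∑ i, (u i) ^ 2 := by positivity
  linarith

theorem FKer_ball {ι : Type} [Fintype ι] (R : ℝ) (hR : 0 < R) :
    Metric.ball (0 : ι → ℝ) R ⊆ bx ι R := by
  intro u hu
  rw [mem_ball_zero_iff] at hu
  constructor
  · intro i
    have := norm_le_pi_norm u i
    rw [Real.norm_eq_abs] at this
    have h2 := neg_abs_le (u i)
    simp only
    linarith
  · intro i
    have := norm_le_pi_norm u i
    rw [Real.norm_eq_abs] at this
    have h2 := le_abs_self (u i)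
    simp only
    linarith

/-- (F6) Concentration: the normalized powers of the kernel have small first moment.

Proof: `tendsto_setIntegral_pow_smul_of_unique_maximum_of_isCompact_of_continuousOn` (Mathlib,
file PeakFunction) with `s = bx ι R` (compact, `s ⊆ closure (interior s)`), `c = kpol`,
`x₀ = 0` (unique maximum: `kpol u < 1` for `u ≠ 0`), `g u = ‖u‖`, whose value at `0` is `0`. -/
theorem ker_conc {ι : Type} [Fintype ι] (R : ℝ) (hR : 0 < R) (ε : ℝ) (hε : 0 < ε) :
    ∃ N : ℕ, 0 < ∫ u in bx ι R, (eval u (kpol ι R)) ^ N ∧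
      ∫ u in bx ι R, (eval u (kpol ι R)) ^ N * ‖u‖ ≤
        ε * ∫ u in bx ι R, (eval u (kpol ι R)) ^ N := by
  have hs : IsCompact (bx ι R) := isCompact_Icc
  have hcont : Continuous (fun u : ι → ℝ => eval u (kpol ι R)) := MvPolynomial.continuous_eval _
  have h0 : eval (0 : ι → ℝ) (kpol ι R) = 1 := by rw [FKer_eval]; simp
  have hmem : (0 : ι → ℝ) ∈ interior (bx ι R) := by
    rw [mem_interior_iff_mem_nhds]
    exact Filter.mem_of_superset (Metric.ball_mem_nhds 0 hR) (FKer_ball R hR)
  have hT := tendsto_setIntegral_pow_smul_of_unique_maximum_of_isCompact_of_continuousOn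
    (μ := (volume : Measure (ι → ℝ))) (s := bx ι R) (x₀ := (0 : ι → ℝ))
    (g := fun u : ι → ℝ => ‖u‖)
    hs (c := fun u : ι → ℝ => eval u (kpol ι R)) hcont.continuousOn
    (fun y _ hy => by simp only [h0]; exact FKer_lt_one R y hy)
    (fun x hx => (kpol_pos R hR x hx).1.le) (by simp only [h0]; exact one_pos)
    (subset_closure hmem) continuous_norm.continuousOn
  simp only [norm_zero, smul_eq_mul] at hT
  have hev := hT.eventually (gt_mem_nhds hε)
  obtain ⟨N, hN⟩ := hev.exists
  have hint : IntegrableOn (fun u : ι → ℝ => (eval u (kpol ι R)) ^ N) (bx ι R) :=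
    (hcont.pow N).continuousOn.integrableOn_compact hs
  have hpos : 0 < ∫ u in bx ι R, (eval u (kpol ι R)) ^ N := by
    rw [setIntegral_pos_iff_support_of_nonneg_ae _ hint]
    · have hsub : Metric.ball (0 : ι → ℝ) R ⊆
          (Function.support fun u : ι → ℝ => (eval u (kpol ι R)) ^ N) ∩ bx ι R := by
        intro u hu
        have hb := FKer_ball R hR hu
        refine ⟨?_, hb⟩
        rw [Function.mem_support]
        exact (pow_pos (kpol_pos R hR u hb).1 N).ne'
      exact lt_of_lt_of_le (Metric.measure_ball_pos volume 0 hR) (measure_mono hsub)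
    · filter_upwards [ae_restrict_mem hs.measurableSet] with x hx
      exact pow_nonneg (kpol_pos R hR x hx).1.le N
  refine ⟨N, hpos, ?_⟩
  rw [inv_mul_lt_iff₀ hpos] at hN
  linarith [hN]

theorem FKer_cont {ι : Type} [Fintype ι] (p : MvPolynomial (ι ⊕ ι) ℝ) (z : ι → ℝ) :
    Continuous (fun u : ι → ℝ => eval (Sum.elim z u) p) := by
  refine (MvPolynomial.continuous_eval p).comp (continuous_pi ?_)
  intro i
  rcases i with i | i
  · exact continuous_const
  · exact continuous_apply i

theorem FKer_aux {ι : Type} [Fintype ι] (p : MvPolynomial (ι ⊕ ι) ℝ) :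
    ∀ g : (ι → ℝ) → ℝ, Continuous g → HasCompactSupport g →
    ∃ q : MvPolynomial ι ℝ, ∀ z, eval z q = ∫ u, eval (Sum.elim z u) p * g u := by
  induction p using MvPolynomial.induction_on with
  | C a =>
    intro g hg hc
    refine ⟨C (∫ u, a * g u), fun z => ?_⟩
    simp
  | add p1 p2 h1 h2 =>
    intro g hg hc
    obtain ⟨q1, hq1⟩ := h1 g hg hc
    obtain ⟨q2, hq2⟩ := h2 g hg hc
    refine ⟨q1 + q2, fun z => ?_⟩
    rw [map_add, hq1, hq2, ← integral_add]
    · congr 1
      ext u
      rw [map_add, add_mul]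
    · exact ((FKer_cont p1 z).mul hg).integrable_of_hasCompactSupport hc.mul_left
    · exact ((FKer_cont p2 z).mul hg).integrable_of_hasCompactSupport hc.mul_left
  | mul_X p i h =>
    intro g hg hc
    rcases i with i | i
    · obtain ⟨q, hq⟩ := h g hg hc
      refine ⟨q * X i, fun z => ?_⟩
      rw [map_mul, hq, eval_X, ← integral_mul_const]
      congr 1
      ext u
      rw [map_mul, eval_X, Sum.elim_inl]
      ring
    · obtain ⟨q, hq⟩ := h (fun u => u i * g u) ((continuous_apply i).mul hg) hc.mul_left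
      refine ⟨q, fun z => ?_⟩
      rw [hq]
      congr 1
      ext u
      rw [map_mul, eval_X, Sum.elim_inr]
      ring

/-- (F7) The convolution of a polynomial with a continuous function of compact support is a
polynomial.

Proof. More generally for `p : MvPolynomial (ι ⊕ ι) ℝ` the function
`z ↦ ∫ u, eval (Sum.elim z u) p * g u` is a polynomial function of `z`: by
`MvPolynomial.induction_on'` it suffices to treat a monomial, where it is
`z^α ∫ u^β g(u) du` times the coefficient; sums are clear (all functions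
`u ↦ polynomial * g` are integrable, continuous with compact support). Apply this to
`p(z - u)` = the polynomial obtained by `X i ↦ X (inl i) - X (inr i)`. -/
theorem conv_poly {ι : Type} [Fintype ι] (p : MvPolynomial ι ℝ) (g : (ι → ℝ) → ℝ)
    (hg : Continuous g) (hc : HasCompactSupport g) :
    ∃ q : MvPolynomial ι ℝ, ∀ z, eval z q = ∫ u, eval (z - u) p * g u := by
  obtain ⟨q, hq⟩ := FKer_aux
    (bind₁ (fun i => (X (Sum.inl i) - X (Sum.inr i) : MvPolynomial (ι ⊕ ι) ℝ)) p) g hg hc
  refine ⟨q, fun z => ?_⟩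
  rw [hq]
  congr 1
  ext u
  congr 1
  have h1 : eval (Sum.elim z u)
      (bind₁ (fun i => (X (Sum.inl i) - X (Sum.inr i) : MvPolynomial (ι ⊕ ι) ℝ)) p)
      = eval (fun i => eval (Sum.elim z u)
        (X (Sum.inl i) - X (Sum.inr i) : MvPolynomial (ι ⊕ ι) ℝ)) p :=
    MvPolynomial.eval₂Hom_bind₁ (RingHom.id ℝ) (Sum.elim z u)
      (fun i => (X (Sum.inl i) - X (Sum.inr i) : MvPolynomial (ι ⊕ ι) ℝ)) p
  rw [h1]
  congr 2
  ext i
  simp

end Pool.Agent.CVol
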