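import Pool.Agent.W_2cf66e_h65.FSeg
import Pool.Agent.W_2cf66e_h65.FKer

/-!
# MP_2cf66e_nt, part F: approximation by rational polynomials (helper65)
-/

set_option autoImplicit false

noncomputable section

open MeasureTheory MvPolynomial

namespace Pool.Agent.CVol

attribute [local fun_prop] MvPolynomial.continuous_eval

theorem FApp_aux1 {ι : Type} [Fintype ι] (R : ℝ) (hR : 0 ≤ R) (v : ι → ℝ) :
    v ∈ bx ι R ↔ ‖v‖ ≤ R := by
  rw [pi_norm_le_iff_of_nonneg hR]
  simp only [bx, Set.mem_Icc, Pi.le_def, Real.norm_eq_abs, abs_le]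
  exact forall_and.symm

theorem FApp_aux2 {ι : Type} [Fintype ι] (g : (ι → ℝ) → ℝ) (hc : HasCompactSupport g) :
    ∃ ρ : ℝ, 0 ≤ ρ ∧ ∀ w : ι → ℝ, ρ < ‖w‖ → g w = 0 := by
  obtain ⟨r, hr⟩ := hc.isCompact.isBounded.exists_norm_le
  refine ⟨max r 0, le_max_right _ _, fun w hw => ?_⟩
  by_contra h
  have h1 := hr w (subset_tsupport g h)
  exact absurd (h1.trans (le_max_left r 0)) (not_le.mpr hw)

theorem FApp_aux3 {ι : Type} [Fintype ι] (ρ : ℝ) (hρ : 0 ≤ ρ) (z v : ι → ℝ) (hz : z ∈ box ι)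
    (hv : v ∉ bx ι (ρ + 1)) : ρ < ‖z - v‖ := by
  rw [FApp_aux1 (ρ + 1) (by linarith)] at hv
  have hz1 : ‖z‖ ≤ 1 := (FApp_aux1 1 zero_le_one z).mp hz
  have h1 := norm_sub_norm_le v z
  rw [norm_sub_rev] at h1
  have h2 := not_le.mp hv
  linarith

theorem FApp_aux4 {ι : Type} [Fintype ι] (R : ℝ) (h : (ι → ℝ) → ℝ) (hh : Continuous h) :
    IntegrableOn h (bx ι R) volume :=
  hh.continuousOn.integrableOn_compact isCompact_Icc

theorem FApp_aux5 {ι : Type} [Fintype ι] (R : ℝ) (hR : 0 < R) (N : ℕ) (ε : ℝ)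
    (hI : 0 < ∫ u in bx ι R, (eval u (kpol ι R)) ^ N)
    (hN : ∫ u in bx ι R, (eval u (kpol ι R)) ^ N * ‖u‖ ≤
        ε * ∫ u in bx ι R, (eval u (kpol ι R)) ^ N)
    (h : (ι → ℝ) → ℝ) (hh : Continuous h) (M : ℝ) (hM : 0 ≤ M) (hb : ∀ v, |h v| ≤ M * ‖v‖) :
    |(∫ u in bx ι R, (eval u (kpol ι R)) ^ N)⁻¹ *
        ∫ v in bx ι R, (eval v (kpol ι R)) ^ N * h v| ≤ M * ε := by
  have hm : MeasurableSet (bx ι R) := measurableSet_Icc
  have h1 : |∫ v in bx ι R, (eval v (kpol ι R)) ^ N * h v| ≤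
      ∫ v in bx ι R, M * ((eval v (kpol ι R)) ^ N * ‖v‖) := by
    rw [← Real.norm_eq_abs]
    refine (norm_integral_le_integral_norm _).trans ?_
    refine setIntegral_mono_on (FApp_aux4 R _ (by fun_prop)) (FApp_aux4 R _ (by fun_prop)) hm
      fun v hv => ?_
    have hk := (kpol_pos R hR v hv).1
    rw [norm_mul, norm_pow, Real.norm_of_nonneg hk.le]
    calc (eval v (kpol ι R)) ^ N * ‖h v‖ ≤ (eval v (kpol ι R)) ^ N * (M * ‖v‖) :=
          mul_le_mul_of_nonneg_left (hb v) (pow_nonneg hk.le _)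
      _ = M * ((eval v (kpol ι R)) ^ N * ‖v‖) := by ring
  rw [integral_const_mul] at h1
  rw [abs_mul, abs_inv, abs_of_pos hI, inv_mul_le_iff₀ hI]
  calc |∫ v in bx ι R, (eval v (kpol ι R)) ^ N * h v| ≤
        M * ∫ v in bx ι R, (eval v (kpol ι R)) ^ N * ‖v‖ := h1
    _ ≤ M * (ε * ∫ u in bx ι R, (eval u (kpol ι R)) ^ N) := mul_le_mul_of_nonneg_left hN hM
    _ = (∫ u in bx ι R, (eval u (kpol ι R)) ^ N) * (M * ε) := by ring

/-- (F8) Approximation by real polynomials, compact support.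

Proof. `C` from `shift_bound`. Let `ρ` be such that the support of `g` is in `bx ι ρ`,
`R = ρ + 1`, `ε = δ / (C + 1)`, `N` from `ker_conc`, `I = ∫_{bx R} k^N > 0`, `k = kpol`.
Put `q = I⁻¹ • (polynomial of conv_poly for p = k^N and g)`. For `z ∈ box`:
`∫ u, k(z-u)^N g u = ∫_{v ∈ bx R} k(v)^N g(z - v)` (substitute `v = z - u`,
`integral_sub_left_eq_self`; `g (z - v) = 0` unless `v ∈ bx R`). So
`g z - q z = I⁻¹ ∫_{bx R} k(v)^N (g z - g (z - v)) dv`, of absolute value
`≤ I⁻¹ ∫ k^N C ‖v‖ ≤ C ε ≤ δ`. For the defect `E` (linear in the function, with values at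
`x, y, a x + b y`, all in the cube): `E(g - q) = I⁻¹ ∫_{bx R} k(v)^N E(g - g(· - v)) dv`, of
absolute value `≤ I⁻¹ ∫ k^N C ‖v‖ a b ‖x-y‖^2 ≤ δ a b ‖x-y‖^2`. -/
theorem approx_cpt {ι : Type} [Fintype ι] (g : (ι → ℝ) → ℝ) (hg : ContDiff ℝ 3 g)
    (hc : HasCompactSupport g) (δ : ℝ) (hδ : 0 < δ) :
    ∃ q : MvPolynomial ι ℝ, (∀ z ∈ box ι, |g z - eval z q| ≤ δ) ∧
      EB (box ι) (fun z => g z - eval z q) δ := by

  classical
  obtain ⟨C, hC0, hC⟩ := shift_bound g hg hc
  obtain ⟨ρ, hρ0, hρ⟩ := FApp_aux2 g hc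
  have hR : 0 < ρ + 1 := by linarith
  have hC1 : 0 < C + 1 := by linarith
  have hε : 0 < δ / (C + 1) := div_pos hδ hC1
  obtain ⟨N, hI, hN⟩ := ker_conc (ι := ι) (ρ + 1) hR (δ / (C + 1)) hε
  obtain ⟨q0, hq0⟩ := conv_poly ((kpol ι (ρ + 1)) ^ N) g hg.continuous hc
  have hle : C * (δ / (C + 1)) ≤ δ := by
    rw [mul_div_assoc', div_le_iff₀ hC1]
    nlinarith
  have hgc : Continuous g := hg.continuous
  -- the difference as an integral
  have key : ∀ z ∈ box ι, g z - eval z (MvPolynomial.C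
      ((∫ u in bx ι (ρ + 1), (eval u (kpol ι (ρ + 1))) ^ N)⁻¹) * q0) =
      (∫ u in bx ι (ρ + 1), (eval u (kpol ι (ρ + 1))) ^ N)⁻¹ *
        ∫ v in bx ι (ρ + 1), (eval v (kpol ι (ρ + 1))) ^ N * (g z - g (z - v)) := by
    intro z hz
    rw [eval_mul, eval_C, hq0 z]
    have h1 : (∫ u, eval (z - u) ((kpol ι (ρ + 1)) ^ N) * g u) =
        ∫ v, eval v ((kpol ι (ρ + 1)) ^ N) * g (z - v) := by
      rw [← integral_sub_left_eq_self
        (fun v => eval v ((kpol ι (ρ + 1)) ^ N) * g (z - v)) volume z]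
      refine integral_congr_ae (Filter.Eventually.of_forall fun u => ?_)
      simp only [sub_sub_cancel]
    have h2 : (∫ v, eval v ((kpol ι (ρ + 1)) ^ N) * g (z - v)) =
        ∫ v in bx ι (ρ + 1), eval v ((kpol ι (ρ + 1)) ^ N) * g (z - v) := by
      symm
      refine setIntegral_eq_integral_of_forall_compl_eq_zero fun v hv => ?_
      rw [hρ (z - v) (FApp_aux3 ρ hρ0 z v hz hv), mul_zero]
    rw [h1, h2]
    have h3 : ∀ v : ι → ℝ, (eval v (kpol ι (ρ + 1))) ^ N * (g z - g (z - v)) =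
        (eval v (kpol ι (ρ + 1))) ^ N * g z - eval v ((kpol ι (ρ + 1)) ^ N) * g (z - v) := by
      intro v
      rw [map_pow]
      ring
    simp only [h3]
    rw [integral_sub, integral_mul_const]
    · field_simp
    · exact FApp_aux4 (ρ + 1) _ (by fun_prop)
    · exact FApp_aux4 (ρ + 1) _ (by fun_prop)
  have bd : ∀ (h : (ι → ℝ) → ℝ) (M : ℝ), Continuous h → 0 ≤ M → (∀ v, |h v| ≤ M * ‖v‖) →
      |(∫ u in bx ι (ρ + 1), (eval u (kpol ι (ρ + 1))) ^ N)⁻¹ *
        ∫ v in bx ι (ρ + 1), (eval v (kpol ι (ρ + 1))) ^ N * h v| ≤ M * (δ / (C + 1)) :=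
    fun h M hh hM hb => FApp_aux5 (ρ + 1) hR N (δ / (C + 1)) hI hN h hh M hM hb
  refine ⟨MvPolynomial.C ((∫ u in bx ι (ρ + 1), (eval u (kpol ι (ρ + 1))) ^ N)⁻¹) * q0,
    fun z hz => ?_, fun x hx y hy a b ha hb hab => ?_⟩
  · rw [key z hz]
    exact (bd (fun v => g z - g (z - v)) C (by fun_prop) hC0 (fun v => (hC v).1 z)).trans hle
  · have hw : a • x + b • y ∈ box ι := (convex_Icc (𝕜 := ℝ) _ _) hx hy ha hb hab
    beta_reduce
    rw [key _ hw, key _ hx, key _ hy]
    have h4 : ∀ z, IntegrableOn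
        (fun v => (eval v (kpol ι (ρ + 1))) ^ N * (g z - g (z - v))) (bx ι (ρ + 1)) volume :=
      fun z => FApp_aux4 (ρ + 1) _ (by fun_prop)
    have h5 : (∫ u in bx ι (ρ + 1), (eval u (kpol ι (ρ + 1))) ^ N)⁻¹ *
        (∫ v in bx ι (ρ + 1), (eval v (kpol ι (ρ + 1))) ^ N *
          (g (a • x + b • y) - g (a • x + b • y - v))) -
        a * ((∫ u in bx ι (ρ + 1), (eval u (kpol ι (ρ + 1))) ^ N)⁻¹ *
          ∫ v in bx ι (ρ + 1), (eval v (kpol ι (ρ + 1))) ^ N * (g x - g (x - v))) -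
        b * ((∫ u in bx ι (ρ + 1), (eval u (kpol ι (ρ + 1))) ^ N)⁻¹ *
          ∫ v in bx ι (ρ + 1), (eval v (kpol ι (ρ + 1))) ^ N * (g y - g (y - v))) =
        (∫ u in bx ι (ρ + 1), (eval u (kpol ι (ρ + 1))) ^ N)⁻¹ *
          ∫ v in bx ι (ρ + 1), (eval v (kpol ι (ρ + 1))) ^ N *
            ((g (a • x + b • y) - g (a • x + b • y - v)) - a * (g x - g (x - v)) -
              b * (g y - g (y - v))) := by
      have h6 : ∀ v : ι → ℝ, (eval v (kpol ι (ρ + 1))) ^ N *
            ((g (a • x + b • y) - g (a • x + b • y - v)) - a * (g x - g (x - v)) -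
              b * (g y - g (y - v))) =
          (eval v (kpol ι (ρ + 1))) ^ N * (g (a • x + b • y) - g (a • x + b • y - v)) -
            a * ((eval v (kpol ι (ρ + 1))) ^ N * (g x - g (x - v))) -
            b * ((eval v (kpol ι (ρ + 1))) ^ N * (g y - g (y - v))) := fun v => by ring
      simp only [h6]
      rw [integral_sub, integral_sub, integral_const_mul, integral_const_mul]
      · ring
      · exact h4 _
      · exact (h4 x).const_mul a
      · exact (h4 _).sub ((h4 x).const_mul a)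
      · exact (h4 y).const_mul b
    rw [h5]
    have hM : 0 ≤ C * (a * b) * ‖x - y‖ ^ 2 := by positivity
    refine (bd (fun v => (g (a • x + b • y) - g (a • x + b • y - v)) - a * (g x - g (x - v)) -
              b * (g y - g (y - v))) _ (by fun_prop) hM (fun v => ?_)).trans ?_
    · refine ((hC v).2 x (Set.mem_univ _) y (Set.mem_univ _) a b ha hb hab).trans (le_of_eq ?_)
      ring
    · have h7 : 0 ≤ (a * b) * ‖x - y‖ ^ 2 := by positivity
      calc C * (a * b) * ‖x - y‖ ^ 2 * (δ / (C + 1)) = C * (δ / (C + 1)) *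
            ((a * b) * ‖x - y‖ ^ 2) := by ring
        _ ≤ δ * ((a * b) * ‖x - y‖ ^ 2) := mul_le_mul_of_nonneg_right hle h7
        _ = δ * (a * b) * ‖x - y‖ ^ 2 := by ring

theorem FApp_aux6 {ι : Type} [Fintype ι] {k : WithTop ℕ∞} (p : MvPolynomial ι ℝ) :
    ContDiff ℝ k (fun z : ι → ℝ => eval z p) := by
  classical
  induction p using MvPolynomial.induction_on with
  | C a => simpa using contDiff_const
  | add p q hp hq => simpa using hp.add hq
  | mul_X p i hp => simpa using hp.mul (contDiff_apply ℝ ℝ i)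

/-- (F9) Rational coefficients: a real polynomial is close to a rational one.

Proof. `q` is the finite sum of its monomials `c_α x^α`; on the cube `|x^α| ≤ 1` and
`EB (box) (x^α) C_α` for some `C_α` (`EB_box`, polynomials are smooth). Choose rational `c'_α` with
`∑ |c_α - c'_α| (1 + C_α) ≤ δ` (`exists_rat_btwn`). Or induction on `q`
(`MvPolynomial.induction_on'`) for all `δ`. -/
theorem approx_coeff {ι : Type} [Fintype ι] (q : MvPolynomial ι ℝ) (δ : ℝ) (hδ : 0 < δ) :
    ∃ q' : MvPolynomial ι ℚ, (∀ z ∈ box ι, |eval z q - aeval z q'| ≤ δ) ∧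
      EB (box ι) (fun z => eval z q - aeval z q') δ := by

  classical
  induction q using MvPolynomial.induction_on' generalizing δ with
  | monomial u a =>
    have hcd : ContDiff ℝ 2 (fun z : ι → ℝ => eval z (monomial u (1 : ℝ))) := FApp_aux6 _
    obtain ⟨C, hC0, hC⟩ := EB_box (fun z : ι → ℝ => eval z (monomial u (1 : ℝ))) hcd
    obtain ⟨M, hM⟩ := (isCompact_Icc (a := fun _ : ι => (-1 : ℝ)) (b := fun _ : ι => (1 : ℝ))
      ).exists_bound_of_continuousOn hcd.continuous.continuousOn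
    have hM0 : 0 ≤ |M| := abs_nonneg M
    have hD : 0 < |M| + C + 1 := by linarith
    obtain ⟨r, hr1, hr2⟩ := exists_rat_btwn (show a < a + δ / (|M| + C + 1) by
      have := div_pos hδ hD
      linarith)
    have hr : |a - r| * (|M| + C + 1) ≤ δ := by
      have h1 : |a - r| ≤ δ / (|M| + C + 1) := by
        rw [abs_sub_comm, abs_of_pos (by linarith)]
        linarith
      calc |a - r| * (|M| + C + 1) ≤ δ / (|M| + C + 1) * (|M| + C + 1) :=
            mul_le_mul_of_nonneg_right h1 hD.le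
        _ = δ := div_mul_cancel₀ _ hD.ne'
    have hfun : ∀ z : ι → ℝ, eval z (monomial u a) - aeval z (monomial u r) =
        (a - r) * eval z (monomial u (1 : ℝ)) := by
      intro z
      rw [eval_monomial, aeval_monomial, eval_monomial]
      simp only [eq_ratCast]
      ring
    have hn := abs_nonneg (a - (r : ℝ))
    refine ⟨monomial u r, fun z hz => ?_, ?_⟩
    · rw [hfun z, abs_mul]
      have h2 : |eval z (monomial u (1 : ℝ))| ≤ |M| := (hM z hz).trans (le_abs_self M)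
      calc |a - (r : ℝ)| * |eval z (monomial u (1 : ℝ))| ≤ |a - (r : ℝ)| * (|M| + C + 1) :=
            mul_le_mul_of_nonneg_left (by linarith) hn
        _ ≤ δ := hr
    · have h3 := (hC.smul (a - (r : ℝ))).mono (C' := δ) (T := box ι)
        (le_trans (mul_le_mul_of_nonneg_left (by linarith) hn) hr) (le_refl _)
      have h4 : (fun z : ι → ℝ => eval z (monomial u a) - aeval z (monomial u r)) =
          fun z => (a - (r : ℝ)) * eval z (monomial u (1 : ℝ)) := funext hfun
      rw [h4]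
      exact h3
  | add p q hp hq =>
    obtain ⟨p', hp1, hp2⟩ := hp (δ / 2) (half_pos hδ)
    obtain ⟨q', hq1, hq2⟩ := hq (δ / 2) (half_pos hδ)
    refine ⟨p' + q', fun z hz => ?_, ?_⟩
    · have h1 := hp1 z hz
      have h2 := hq1 z hz
      rw [map_add, map_add]
      have h3 : eval z p + eval z q - (aeval z p' + aeval z q') =
          (eval z p - aeval z p') + (eval z q - aeval z q') := by ring
      rw [h3]
      refine (abs_add_le _ _).trans ?_
      linarith
    · have h4 := hp2.add hq2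
      rw [add_halves] at h4
      have h5 : (fun z : ι → ℝ => eval z (p + q) - aeval z (p' + q')) =
          fun z => (eval z p - aeval z p') + (eval z q - aeval z q') := by
        funext z
        rw [map_add, map_add]
        ring
      rw [h5]
      exact h4

/-- (F10) Approximation of a `C^3` function on the cube by rational polynomials.

Proof. Multiply `g` by a smooth function of compact support which is `1` on the cube
(`exists_contDiff_tsupport_subset` / `ContDiffBump` centered at `0` with `rIn = 2`, `rOut = 3`: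
in the sup norm the cube is the closed unit ball): this does not change `g` on the cube.
`approx_cpt` and `approx_coeff` with `δ/2`, `EB.add`, `EB.congr`. -/
theorem approx_rat {ι : Type} [Fintype ι] (g : (ι → ℝ) → ℝ) (hg : ContDiff ℝ 3 g)
    (δ : ℝ) (hδ : 0 < δ) :
    ∃ q : MvPolynomial ι ℚ, (∀ z ∈ box ι, |g z - aeval z q| ≤ δ) ∧
      EB (box ι) (fun z => g z - aeval z q) δ := by

  classical
  let f : ContDiffBump (0 : ι → ℝ) := ⟨2, 3, by norm_num, by norm_num⟩
  have hf : ContDiff ℝ 3 (fun z => f z * g z) := by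
    exact (f.contDiff (n := 3)).mul hg
  have hcs : HasCompactSupport (fun z => f z * g z) := f.hasCompactSupport.mul_right
  have h1 : ∀ z ∈ box ι, f z * g z = g z := by
    intro z hz
    have hz1 : ‖z‖ ≤ 1 := (FApp_aux1 1 zero_le_one z).mp hz
    have hb : f z = 1 := f.one_of_mem_closedBall (by
      rw [Metric.mem_closedBall, dist_zero_right]
      change ‖z‖ ≤ 2
      linarith)
    rw [hb, one_mul]
  obtain ⟨q, hq1, hq2⟩ := approx_cpt (fun z => f z * g z) hf hcs (δ / 2) (half_pos hδ)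
  obtain ⟨q', hq'1, hq'2⟩ := approx_coeff q (δ / 2) (half_pos hδ)
  refine ⟨q', fun z hz => ?_, ?_⟩
  · have h2 := hq1 z hz
    have h3 := hq'1 z hz
    rw [h1 z hz] at h2
    have h4 : g z - aeval z q' = (g z - eval z q) + (eval z q - aeval z q') := by ring
    rw [h4]
    refine (abs_add_le _ _).trans ?_
    linarith
  · have h2 := hq2.add hq'2
    rw [add_halves] at h2
    refine EB.congr (convex_Icc (𝕜 := ℝ) _ _) h2 fun z hz => ?_
    beta_reduce
    rw [h1 z hz]
    ring

end Pool.Agent.CVol
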