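import Pool.Agent.W_2cf66e_h65.Defs

/-!
# MP_2cf66e_nt, part F: convexity defects (helper65)
-/

set_option autoImplicit false

noncomputable section

namespace Pool.Agent.CVol

theorem FSeg_half (φ φ' φ'' : ℝ → ℝ) (M : ℝ)
    (h1 : ∀ t : ℝ, HasDerivAt φ (φ' t) t) (h2 : ∀ t : ℝ, HasDerivAt φ' (φ'' t) t)
    (hM : ∀ t ∈ Set.Icc (0 : ℝ) 1, -M ≤ φ'' t) (a b : ℝ) (ha : 0 ≤ a) (hb : 0 ≤ b)
    (hab : a + b = 1) : φ b - a * φ 0 - b * φ 1 ≤ M * (a * b) / 2 := by
  have hg1 : ∀ t : ℝ, HasDerivAt (fun t => φ t + M * t ^ 2 / 2) (φ' t + M * t) t := by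
    intro t
    have h3 : HasDerivAt (fun t : ℝ => M * t ^ 2 / 2) (M * t) t := by
      have h4 := ((hasDerivAt_pow 2 t).const_mul M).div_const 2
      refine h4.congr_deriv ?_
      rw [show (2 - 1 : ℕ) = 1 from rfl, pow_one]
      push_cast
      ring
    exact (h1 t).add h3
  have hg2 : ∀ t : ℝ, HasDerivAt (fun t => φ' t + M * t) (φ'' t + M) t := by
    intro t
    have h3 : HasDerivAt (fun t : ℝ => M * t) M t := by
      have h4 := (hasDerivAt_id t).const_mul M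
      simpa using h4
    exact (h2 t).add h3
  have hconv : ConvexOn ℝ (Set.Icc (0 : ℝ) 1) (fun t => φ t + M * t ^ 2 / 2) := by
    refine convexOn_of_hasDerivWithinAt2_nonneg (convex_Icc 0 1)
      (fun t _ => (hg1 t).continuousAt.continuousWithinAt)
      (fun t _ => (hg1 t).hasDerivWithinAt) (fun t _ => (hg2 t).hasDerivWithinAt) ?_
    intro t ht
    have h3 := hM t (interior_subset ht)
    linarith
  have h3 := hconv.2 (Set.left_mem_Icc.2 zero_le_one) (Set.right_mem_Icc.2 zero_le_one) ha hb hab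
  simp only [smul_eq_mul, mul_zero, mul_one, zero_add] at h3
  have h4 : a = 1 - b := by linarith
  subst h4
  nlinarith

/-- (F1) One variable: a function with second derivative bounded by `M` on `[0,1]` has convexity
defect at most `M a b` (even `M a b / 2`).

Proof: `φ + M t^2/2` and `-φ + M t^2/2` are convex on `[0,1]` (`convexOn_of_deriv2_nonneg` or
monotone derivative), and the defect of `M t^2/2` at `b = a·0 + b·1` is
`M b^2/2 - M b/2 = - M a b/2`. -/
theorem seg_bound (φ φ' φ'' : ℝ → ℝ) (M : ℝ)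
    (h1 : ∀ t : ℝ, HasDerivAt φ (φ' t) t) (h2 : ∀ t : ℝ, HasDerivAt φ' (φ'' t) t)
    (hM : ∀ t ∈ Set.Icc (0 : ℝ) 1, |φ'' t| ≤ M) (a b : ℝ) (ha : 0 ≤ a) (hb : 0 ≤ b)
    (hab : a + b = 1) : |φ b - a * φ 0 - b * φ 1| ≤ M * (a * b) := by
  have hM0 : 0 ≤ M := (abs_nonneg _).trans (hM 0 (Set.left_mem_Icc.2 zero_le_one))
  have h3 := FSeg_half φ φ' φ'' M h1 h2 (fun t ht => (abs_le.1 (hM t ht)).1) a b ha hb hab
  have h4 := FSeg_half (fun t => -φ t) (fun t => -φ' t) (fun t => -φ'' t) M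
    (fun t => (h1 t).neg) (fun t => (h2 t).neg)
    (fun t ht => neg_le_neg (abs_le.1 (hM t ht)).2) a b ha hb hab
  have h5 : 0 ≤ M * (a * b) := by positivity
  have h6 : -φ b - a * -φ 0 - b * -φ 1 ≤ M * (a * b) / 2 := h4
  rw [abs_le]
  constructor <;> linarith

/-- (F2) Several variables: `a x + b y = x + b (y - x)`, apply `seg_bound` to
`φ t = u (x + t (y - x))`, `φ' t = fderiv u (x + t(y-x)) (y - x)`,
`φ'' t = fderiv (fderiv u) (x + t(y-x)) (y - x) (y - x)`, `|φ''| ≤ C ‖y - x‖^2`. -/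
theorem EB_of_hess {ι : Type} [Fintype ι] (S : Set (ι → ℝ)) (hS : Convex ℝ S)
    (u : (ι → ℝ) → ℝ) (hu : ContDiff ℝ 2 u) (C : ℝ)
    (hC : ∀ z ∈ S, ‖fderiv ℝ (fderiv ℝ u) z‖ ≤ C) : EB S u C := by
  intro x hx y hy a b ha hb hab
  have hu1 : Differentiable ℝ u := hu.differentiable (by norm_num)
  have hfu : ContDiff ℝ 1 (fderiv ℝ u) := hu.fderiv_right (by norm_num)
  have hu2 : Differentiable ℝ (fderiv ℝ u) := hfu.differentiable (by norm_num)
  have hline : ∀ t : ℝ, HasDerivAt (fun t : ℝ => x + t • (y - x)) (y - x) t := by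
    intro t
    have h3 := ((hasDerivAt_id t).smul_const (y - x)).const_add x
    simpa using h3
  have h1 : ∀ t : ℝ, HasDerivAt (fun t : ℝ => u (x + t • (y - x)))
      (fderiv ℝ u (x + t • (y - x)) (y - x)) t := fun t =>
    (hu1 (x + t • (y - x))).hasFDerivAt.comp_hasDerivAt t (hline t)
  have h2 : ∀ t : ℝ, HasDerivAt (fun t : ℝ => fderiv ℝ u (x + t • (y - x)) (y - x))
      (fderiv ℝ (fderiv ℝ u) (x + t • (y - x)) (y - x) (y - x)) t := by
    intro t
    have h3 : HasDerivAt (fun t : ℝ => fderiv ℝ u (x + t • (y - x)))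
        (fderiv ℝ (fderiv ℝ u) (x + t • (y - x)) (y - x)) t :=
      (hu2 (x + t • (y - x))).hasFDerivAt.comp_hasDerivAt t (hline t)
    have h4 := h3.clm_apply (hasDerivAt_const t (y - x))
    simpa using h4
  have hM : ∀ t ∈ Set.Icc (0 : ℝ) 1,
      |fderiv ℝ (fderiv ℝ u) (x + t • (y - x)) (y - x) (y - x)| ≤ C * ‖y - x‖ ^ 2 := by
    intro t ht
    have h3 := hC _ (hS.add_smul_sub_mem hx hy ht)
    have h4 : ‖fderiv ℝ (fderiv ℝ u) (x + t • (y - x)) (y - x) (y - x)‖ ≤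
        ‖fderiv ℝ (fderiv ℝ u) (x + t • (y - x))‖ * ‖y - x‖ * ‖y - x‖ :=
      ContinuousLinearMap.le_opNorm₂ _ _ _
    have h5 : ‖fderiv ℝ (fderiv ℝ u) (x + t • (y - x))‖ * (‖y - x‖ * ‖y - x‖) ≤
        C * (‖y - x‖ * ‖y - x‖) := mul_le_mul_of_nonneg_right h3 (by positivity)
    rw [← Real.norm_eq_abs]
    calc _ ≤ ‖fderiv ℝ (fderiv ℝ u) (x + t • (y - x))‖ * ‖y - x‖ * ‖y - x‖ := h4
      _ = ‖fderiv ℝ (fderiv ℝ u) (x + t • (y - x))‖ * (‖y - x‖ * ‖y - x‖) := by ring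
      _ ≤ C * (‖y - x‖ * ‖y - x‖) := h5
      _ = C * ‖y - x‖ ^ 2 := by ring
  have h3 := seg_bound _ _ _ _ h1 h2 hM a b ha hb hab
  simp only [zero_smul, add_zero, one_smul, add_sub_cancel] at h3
  have h4 : a • x + b • y = x + b • (y - x) := by
    have h5 : a = 1 - b := by linarith
    rw [h5, sub_smul, one_smul, smul_sub]
    abel
  rw [h4, norm_sub_rev x y]
  refine h3.trans (le_of_eq ?_)
  ring

theorem FSeg_bd {E F : Type*} [NormedAddCommGroup E] [NormedAddCommGroup F] (f : E → F)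
    (hf : Continuous f) {S : Set E} (hS : IsCompact S) :
    ∃ C : ℝ, 0 ≤ C ∧ ∀ z ∈ S, ‖f z‖ ≤ C := by
  obtain ⟨C, hC⟩ := hS.exists_bound_of_continuousOn hf.continuousOn
  exact ⟨max C 0, le_max_right _ _, fun z hz => (hC z hz).trans (le_max_left _ _)⟩

/-- (F3) On the cube a `C^2` function has bounded convexity defect (compactness). -/
theorem EB_box {ι : Type} [Fintype ι] (u : (ι → ℝ) → ℝ) (hu : ContDiff ℝ 2 u) :
    ∃ C : ℝ, 0 ≤ C ∧ EB (box ι) u C := by
  have hfu : ContDiff ℝ 1 (fderiv ℝ u) := hu.fderiv_right (by norm_num)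
  have hbox : IsCompact (box ι) := isCompact_Icc
  obtain ⟨C, hC0, hC⟩ := FSeg_bd (fderiv ℝ (fderiv ℝ u)) (hfu.continuous_fderiv one_ne_zero) hbox
  exact ⟨C, hC0, EB_of_hess (box ι) (convex_Icc _ _) u hu C hC⟩

theorem FSeg_lip {E F : Type*} [NormedAddCommGroup E] [NormedSpace ℝ E]
    [NormedAddCommGroup F] [NormedSpace ℝ F] (f : E → F) (hf : ContDiff ℝ 1 f)
    (hc : HasCompactSupport f) :
    ∃ C : ℝ, 0 ≤ C ∧ ∀ x y, ‖f x - f y‖ ≤ C * ‖x - y‖ := by
  obtain ⟨C, hC⟩ := ContDiff.lipschitzWith_of_hasCompactSupport (𝕂 := ℝ) hc hf one_ne_zero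
  refine ⟨C, C.2, fun x y => ?_⟩
  have h1 := hC.dist_le_mul x y
  rwa [dist_eq_norm, dist_eq_norm] at h1

/-- (F4) Differences with shifted functions, for `C^3` functions of compact support.

Proof. `fderiv u` is bounded and `fderiv (fderiv u)` is of class `C^1` with compact support, so
Lipschitz (`ContDiff.lipschitzWith_of_hasCompactSupport` or bounded derivative); so
`‖fderiv (fderiv (z ↦ u z - u (z - v))) z‖ ≤ C ‖v‖` and `EB_of_hess`; the first claim is the
Lipschitz property of `u`. -/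
theorem shift_bound {ι : Type} [Fintype ι] (u : (ι → ℝ) → ℝ) (hu : ContDiff ℝ 3 u)
    (hc : HasCompactSupport u) :
    ∃ C : ℝ, 0 ≤ C ∧ ∀ v : ι → ℝ, (∀ z, |u z - u (z - v)| ≤ C * ‖v‖) ∧
      EB Set.univ (fun z => u z - u (z - v)) (C * ‖v‖) := by
  have hfu : ContDiff ℝ 2 (fderiv ℝ u) := hu.fderiv_right (by norm_num)
  have hffu : ContDiff ℝ 1 (fderiv ℝ (fderiv ℝ u)) := hfu.fderiv_right (by norm_num)
  obtain ⟨C1, hC10, hC1⟩ := FSeg_lip u (hu.of_le (by norm_num)) hc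
  obtain ⟨C2, hC20, hC2⟩ := FSeg_lip (fderiv ℝ (fderiv ℝ u)) hffu ((hc.fderiv ℝ).fderiv ℝ)
  refine ⟨max C1 C2, le_max_of_le_left hC10, fun v => ⟨fun z => ?_, ?_⟩⟩
  · have h1 := hC1 z (z - v)
    rw [Real.norm_eq_abs, sub_sub_cancel] at h1
    exact h1.trans (mul_le_mul_of_nonneg_right (le_max_left _ _) (norm_nonneg v))
  · have hsub : ContDiff ℝ 3 (fun z : ι → ℝ => u (z - v)) :=
      hu.comp (contDiff_id.sub contDiff_const)
    have hw : ContDiff ℝ 3 (fun z : ι → ℝ => u z - u (z - v)) := hu.sub hsub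
    refine EB_of_hess Set.univ convex_univ _ (hw.of_le (by norm_num)) _ ?_
    intro z _
    have hu1 : Differentiable ℝ u := hu.differentiable (by norm_num)
    have hu2 : Differentiable ℝ (fderiv ℝ u) := hfu.differentiable (by norm_num)
    have h1 : fderiv ℝ (fun z : ι → ℝ => u z - u (z - v)) =
        fun z => fderiv ℝ u z - fderiv ℝ u (z - v) := by
      funext z
      have h2 : DifferentiableAt ℝ (fun z : ι → ℝ => u (z - v)) z :=
        (differentiableAt_comp_sub v).2 (hu1 (z - v))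
      rw [fderiv_fun_sub (hu1 z) h2, fderiv_comp_sub]
    rw [h1]
    have h2 : DifferentiableAt ℝ (fun z : ι → ℝ => fderiv ℝ u (z - v)) z :=
      (differentiableAt_comp_sub v).2 (hu2 (z - v))
    rw [fderiv_fun_sub (hu2 z) h2, fderiv_comp_sub]
    have h3 := hC2 z (z - v)
    rw [sub_sub_cancel] at h3
    exact h3.trans (mul_le_mul_of_nonneg_right (le_max_right _ _) (norm_nonneg v))

theorem EB.add {ι : Type} [Fintype ι] {S : Set (ι → ℝ)} {u v : (ι → ℝ) → ℝ} {C C' : ℝ}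
    (h : EB S u C) (h' : EB S v C') : EB S (fun z => u z + v z) (C + C') := by
  intro x hx y hy a b ha hb hab
  have h1 := h x hx y hy a b ha hb hab
  have h2 := h' x hx y hy a b ha hb hab
  have h3 := (abs_add_le _ _).trans (add_le_add h1 h2)
  simp only
  have h4 : u (a • x + b • y) + v (a • x + b • y) - a * (u x + v x) - b * (u y + v y) =
      (u (a • x + b • y) - a * u x - b * u y) + (v (a • x + b • y) - a * v x - b * v y) := by
    ring
  rw [h4]
  refine h3.trans (le_of_eq ?_)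
  ring

theorem EB.smul {ι : Type} [Fintype ι] {S : Set (ι → ℝ)} {u : (ι → ℝ) → ℝ} {C : ℝ}
    (h : EB S u C) (r : ℝ) : EB S (fun z => r * u z) (|r| * C) := by
  intro x hx y hy a b ha hb hab
  have h1 := mul_le_mul_of_nonneg_left (h x hx y hy a b ha hb hab) (abs_nonneg r)
  rw [← abs_mul] at h1
  simp only
  have h4 : r * u (a • x + b • y) - a * (r * u x) - b * (r * u y) =
      r * (u (a • x + b • y) - a * u x - b * u y) := by
    ring
  rw [h4]
  refine h1.trans (le_of_eq ?_)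
  ring

theorem EB.mono {ι : Type} [Fintype ι] {S T : Set (ι → ℝ)} {u : (ι → ℝ) → ℝ} {C C' : ℝ}
    (h : EB S u C) (hC : C ≤ C') (hT : T ⊆ S) : EB T u C' := by
  intro x hx y hy a b ha hb hab
  refine (h x (hT hx) y (hT hy) a b ha hb hab).trans ?_
  have h1 : 0 ≤ a * b := mul_nonneg ha hb
  gcongr

/-- Depends only on the values on a convex set. -/
theorem EB.congr {ι : Type} [Fintype ι] {S : Set (ι → ℝ)} (hS : Convex ℝ S)
    {u v : (ι → ℝ) → ℝ} {C : ℝ} (h : EB S u C) (huv : ∀ z ∈ S, u z = v z) : EB S v C := by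
  intro x hx y hy a b ha hb hab
  have h1 := h x hx y hy a b ha hb hab
  rw [huv x hx, huv y hy, huv _ (hS hx hy ha hb hab)] at h1
  exact h1

end Pool.Agent.CVol
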