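import Pool.Agent.W_2cf66e_h65.GAvg
import Pool.Agent.W_2cf66e_h65.FApp
import Pool.Agent.W_2cf66e_h65.HSmooth

/-!
# MP_2cf66e_nt, part G: the concave function (helper65)
-/

set_option autoImplicit false

noncomputable section

open MeasureTheory MvPolynomial

namespace Pool.Agent.CVol

/-- (G4) Convexity defect of `|z|^2 = ∑ z_i^2`: for `a + b = 1`,
`∑ (a x_i + b y_i)^2 - a ∑ x_i^2 - b ∑ y_i^2 = - a b ∑ (x_i - y_i)^2`, and
`‖x - y‖^2 ≤ ∑ (x_i - y_i)^2` (sup norm). -/
theorem sq_defect {n : ℕ} (x y : Fin n → ℝ) (a b : ℝ) (ha : 0 ≤ a) (hb : 0 ≤ b)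
    (hab : a + b = 1) :
    ∑ i, (a * x i + b * y i) ^ 2 - a * ∑ i, (x i) ^ 2 - b * ∑ i, (y i) ^ 2 ≤
      - ((a * b) * ‖x - y‖ ^ 2) := by
  have h1 : ∑ i, (a * x i + b * y i) ^ 2 - a * ∑ i, (x i) ^ 2 - b * ∑ i, (y i) ^ 2 =
      - ((a * b) * ∑ i, (x i - y i) ^ 2) := by
    rw [Finset.mul_sum, Finset.mul_sum, Finset.mul_sum, ← Finset.sum_sub_distrib,
      ← Finset.sum_sub_distrib, ← Finset.sum_neg_distrib]
    refine Finset.sum_congr rfl fun i _ => ?_
    have hb' : b = 1 - a := by linarith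
    subst hb'
    ring
  rw [h1]
  have h2 : ‖x - y‖ ^ 2 ≤ ∑ i, (x i - y i) ^ 2 := by
    have h3 : ‖x - y‖ ≤ Real.sqrt (∑ i, (x i - y i) ^ 2) := by
      refine (pi_norm_le_iff_of_nonneg (Real.sqrt_nonneg _)).2 fun i => ?_
      rw [Pi.sub_apply, Real.norm_eq_abs]
      refine Real.abs_le_sqrt ?_
      exact Finset.single_le_sum (f := fun i => (x i - y i) ^ 2)
        (fun j _ => sq_nonneg _) (Finset.mem_univ i)
    calc ‖x - y‖ ^ 2 ≤ (Real.sqrt (∑ i, (x i - y i) ^ 2)) ^ 2 :=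
          pow_le_pow_left₀ (norm_nonneg _) h3 2
      _ = ∑ i, (x i - y i) ^ 2 := Real.sq_sqrt (Finset.sum_nonneg fun i _ => sq_nonneg _)
  have h4 : 0 ≤ a * b := mul_nonneg ha hb
  have := mul_le_mul_of_nonneg_left h2 h4
  linarith

theorem GFun_cont {n : ℕ} (p : MvPolynomial (Fin n) ℚ) :
    Continuous fun z : Fin n → ℝ => aeval z p := by
  have h := MvPolynomial.continuous_eval (re p)
  simpa only [eval_re] using h

/-- (G5) The concave function, not yet symmetric.

Proof. Let `V = 2^n`, `δ` rational with `0 < δ` and `δ (2 n + 4) V < x`. `q` from `approx_rat g δ`,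
`r` from `int_rat q` (so `r / V` is rational), `s` from `int_rat (∑ X_i^2)`, `0 ≤ s ≤ n V`.
`G z = g z - q z + r/V - δ (∑ z_i^2 - s/V)`. It is piecewise rational, continuous,
`∫_box G = x - r + r - δ (s - s) = x`. Concave on the cube: for `x, y` in the cube
`G(ax+by) - a G x - b G y = E(g - q) - δ E(|z|^2) ≥ - δ a b ‖x-y‖^2 + δ a b ‖x-y‖^2 = 0`
(`EB`, `sq_defect`). Lower bound: `r = x - ∫ (g - q) ≥ x - δ V`, so
`G ≥ - δ + x/V - δ - δ n > 0`. -/
theorem exists_concave {n : ℕ} (x : ℝ) (hx : 0 < x) (g : (Fin n → ℝ) → ℝ) (hg : IsPR g)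
    (hg3 : ContDiff ℝ 3 g) (hint : ∫ z in box (Fin n), g z = x) :
    ∃ G : (Fin n → ℝ) → ℝ, IsPR G ∧ Continuous G ∧ ConcaveOn ℝ (box (Fin n)) G ∧
      (∀ z ∈ box (Fin n), 0 < G z) ∧ ∫ z in box (Fin n), G z = x := by
  have hV : (0 : ℝ) < 2 ^ n := by positivity
  have hcont : ∀ p : MvPolynomial (Fin n) ℚ, Continuous fun z : Fin n → ℝ => aeval z p :=
    GFun_cont
  have hint' : ∀ f : (Fin n → ℝ) → ℝ, Continuous f → IntegrableOn f (box (Fin n)) :=
    fun f hf => hf.continuousOn.integrableOn_compact isCompact_Icc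
  obtain ⟨δ, hδ0, hδ1⟩ : ∃ δ : ℚ, (0 : ℝ) < (δ : ℝ) ∧ (δ : ℝ) < x / ((2 * n + 4) * 2 ^ n) :=
    exists_rat_btwn (by positivity)
  have hδ2 : (δ : ℝ) * ((2 * n + 4) * 2 ^ n) < x := by
    rwa [lt_div_iff₀ (by positivity)] at hδ1
  obtain ⟨q, hq1, hq2⟩ := approx_rat g hg3 (δ : ℝ) hδ0
  obtain ⟨r, hr⟩ := int_rat q
  obtain ⟨s, hs⟩ := int_rat (∑ i : Fin n, (X i : MvPolynomial (Fin n) ℚ) ^ 2)
  have hs' : ∫ z in box (Fin n), ∑ i : Fin n, (z i) ^ 2 = (s : ℝ) := by
    rw [← hs]
    refine integral_congr_ae (Filter.Eventually.of_forall fun z => ?_)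
    simp
  have hcQ : Continuous fun z : Fin n → ℝ => ∑ i : Fin n, (z i) ^ 2 := by fun_prop
  have hconst : ∀ c : ℝ, ∫ _z in box (Fin n), c = c * 2 ^ n := by
    intro c
    rw [← int_one n, ← integral_const_mul]
    simp
  have hs0 : (0 : ℝ) ≤ s := by
    rw [← hs']
    exact integral_nonneg fun z => Finset.sum_nonneg fun i _ => sq_nonneg _
  have hr0 : x - (δ : ℝ) * 2 ^ n ≤ r := by
    have h1 : ∫ z in box (Fin n), (g z - aeval z q) ≤ ∫ _z in box (Fin n), (δ : ℝ) := by
      refine setIntegral_mono_on (hint' _ (hg3.continuous.sub (hcont q)))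
        (hint' _ continuous_const) measurableSet_Icc fun z hz => ?_
      exact (le_abs_self _).trans (hq1 z hz)
    rw [integral_sub (hint' _ hg3.continuous) (hint' _ (hcont q)), hint, hr, hconst] at h1
    linarith
  have hpoly : ∀ z : Fin n → ℝ, aeval z (-q + C (r / 2 ^ n) -
      C δ * (∑ i : Fin n, (X i : MvPolynomial (Fin n) ℚ) ^ 2 - C (s / 2 ^ n))) =
      - aeval z q + (r : ℝ) / 2 ^ n - δ * (∑ i : Fin n, (z i) ^ 2 - (s : ℝ) / 2 ^ n) := by
    intro z
    simp
  refine ⟨fun z => g z + aeval z (-q + C (r / 2 ^ n) -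
      C δ * (∑ i : Fin n, (X i : MvPolynomial (Fin n) ℚ) ^ 2 - C (s / 2 ^ n))),
    hg.add (IsPR.poly _), hg3.continuous.add (hcont _), ⟨convex_Icc _ _, ?_⟩, ?_, ?_⟩
  · intro u hu v hv a b ha hb hab
    have h1 := hq2 u hu v hv a b ha hb hab
    have h2 := sq_defect u v a b ha hb hab
    have h3 := mul_le_mul_of_nonneg_left h2 hδ0.le
    rw [abs_le] at h1
    simp only [hpoly, smul_eq_mul]
    have h4 : ∑ i : Fin n, ((a • u + b • v) i) ^ 2 = ∑ i, (a * u i + b * v i) ^ 2 := by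
      simp
    rw [h4]
    have hb' : b = 1 - a := by linarith
    subst hb'
    nlinarith [h1.1, h3]
  · intro z hz
    have h1 := hq1 z hz
    rw [abs_le] at h1
    beta_reduce
    rw [hpoly]
    have h2 : ∑ i : Fin n, (z i) ^ 2 ≤ n := by
      have h3 : ∑ i : Fin n, (z i) ^ 2 ≤ ∑ _i : Fin n, (1 : ℝ) := by
        refine Finset.sum_le_sum fun i _ => ?_
        have h4 := hz.1 i
        have h5 := hz.2 i
        simp only at h4 h5
        nlinarith
      simpa using h3
    have h3 := mul_le_mul_of_nonneg_left h2 hδ0.le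
    have h6 : (0 : ℝ) ≤ δ * (s / 2 ^ n) := by positivity
    have h7 : x / 2 ^ n - δ ≤ (r : ℝ) / 2 ^ n := by
      rw [le_div_iff₀ hV, sub_mul, div_mul_cancel₀ _ hV.ne']
      exact hr0
    have h8 : (δ : ℝ) * (n + 2) < x / 2 ^ n := by
      rw [lt_div_iff₀ hV]
      have : (0 : ℝ) ≤ δ * ((n + 2) * 2 ^ n) := by positivity
      nlinarith
    nlinarith [h1.1]
  · rw [integral_add (hint' _ hg3.continuous) (hint' _ (hcont _)), hint]
    simp only [hpoly]
    have e1 : (fun z : Fin n → ℝ => - aeval z q + (r : ℝ) / 2 ^ n -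
        δ * (∑ i : Fin n, (z i) ^ 2 - (s : ℝ) / 2 ^ n)) =
        fun z => (((r : ℝ) / 2 ^ n + δ * ((s : ℝ) / 2 ^ n)) - aeval z q) -
          δ * ∑ i : Fin n, (z i) ^ 2 := by
      funext z
      ring
    have i1 : IntegrableOn (fun z : Fin n → ℝ => ((r : ℝ) / 2 ^ n + δ * ((s : ℝ) / 2 ^ n)) -
        aeval z q) (box (Fin n)) := hint' _ (continuous_const.sub (hcont q))
    have i2 : IntegrableOn (fun z : Fin n → ℝ => (δ : ℝ) * ∑ i : Fin n, (z i) ^ 2)
        (box (Fin n)) := hint' _ (continuous_const.mul hcQ)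
    have i3 : IntegrableOn (fun _ : Fin n → ℝ => (r : ℝ) / 2 ^ n + δ * ((s : ℝ) / 2 ^ n))
        (box (Fin n)) := hint' _ continuous_const
    rw [e1, integral_sub i1 i2, integral_sub i3 (hint' _ (hcont q)), hconst,
      integral_const_mul, hs', hr]
    have h9 : (2 : ℝ) ^ n ≠ 0 := hV.ne'
    field_simp
    ring

/-- (G6) Symmetrization: average `G` over the `2^n` sign changes
(`∑ ε : Fin n → Bool`, signs `if ε i then 1 else -1`, divided by `2^n`): piecewise rational
(`IsPR.comp` with the polynomials `± X i`, `IsPR.sum`, `IsPR.smul`), continuous, concave on the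
cube (the cube is invariant; the composition of a concave function with a linear map), positive,
same integral (`int_sign_box`), and invariant under sign changes (reindex the sum). -/
theorem exists_symm {n : ℕ} (x : ℝ) (G : (Fin n → ℝ) → ℝ) (hG : IsPR G) (hG1 : Continuous G)
    (hG2 : ConcaveOn ℝ (box (Fin n)) G) (hG3 : ∀ z ∈ box (Fin n), 0 < G z)
    (hG4 : ∫ z in box (Fin n), G z = x) :
    ∃ H : (Fin n → ℝ) → ℝ, IsPR H ∧ Continuous H ∧ ConcaveOn ℝ (box (Fin n)) H ∧
      (∀ z ∈ box (Fin n), 0 < H z) ∧ (∫ z in box (Fin n), H z = x) ∧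
      ∀ ε : Fin n → ℝ, (∀ i, ε i = 1 ∨ ε i = -1) → ∀ z, H (fun i => ε i * z i) = H z := by
  classical
  have hc : ∀ ε : Fin n → Bool, Continuous fun z : Fin n → ℝ =>
      G (fun i => (if ε i then (1 : ℝ) else -1) * z i) := fun ε => by
    refine hG1.comp (continuous_pi fun i => ?_)
    exact continuous_const.mul (continuous_apply i)
  have hbox : ∀ ε : Fin n → Bool, ∀ z ∈ box (Fin n),
      (fun i => (if ε i then (1 : ℝ) else -1) * z i) ∈ box (Fin n) := by
    intro ε z hz
    rw [box_eq] at hz ⊢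
    intro i
    obtain ⟨h1, h2⟩ := hz i
    show -1 ≤ (if ε i then (1 : ℝ) else -1) * z i ∧ (if ε i then (1 : ℝ) else -1) * z i ≤ 1
    split_ifs
    · constructor <;> linarith
    · constructor <;> linarith
  have hhalf : (((1 / 2 : ℚ) ^ n : ℚ) : ℝ) * 2 ^ n = 1 := by
    push_cast
    rw [← mul_pow]
    norm_num
  have hpos : (0 : ℝ) < (((1 / 2 : ℚ) ^ n : ℚ) : ℝ) := by
    push_cast
    positivity
  refine ⟨fun z => (((1 / 2 : ℚ) ^ n : ℚ) : ℝ) * ∑ ε : Fin n → Bool,
      G (fun i => (if ε i then (1 : ℝ) else -1) * z i), ?_, ?_, ⟨convex_Icc _ _, ?_⟩, ?_, ?_, ?_⟩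
  · refine IsPR.smul (IsPR.sum _ _ fun ε _ => ?_) _
    have h := hG.comp (fun i => (C (if ε i then (1 : ℚ) else -1) * X i : MvPolynomial (Fin n) ℚ))
    have e : (fun z : Fin n → ℝ => G (fun i => (if ε i then (1 : ℝ) else -1) * z i)) =
        fun z => G (fun k => aeval z (C (if ε k then (1 : ℚ) else -1) * X k :
          MvPolynomial (Fin n) ℚ)) := by
      funext z
      congr 1
      funext i
      rw [map_mul, aeval_C, aeval_X]
      split_ifs <;> simp
    rw [e]
    exact h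
  · exact continuous_const.mul (continuous_finsetSum _ fun ε _ => hc ε)
  · intro u hu v hv a b ha hb hab
    simp only [smul_eq_mul]
    have h1 : ∀ ε : Fin n → Bool, a * G (fun i => (if ε i then (1 : ℝ) else -1) * u i) +
        b * G (fun i => (if ε i then (1 : ℝ) else -1) * v i) ≤
        G (fun i => (if ε i then (1 : ℝ) else -1) * (a • u + b • v) i) := by
      intro ε
      have h2 := hG2.2 (hbox ε u hu) (hbox ε v hv) ha hb hab
      simp only [smul_eq_mul] at h2
      have e : (a • (fun i => (if ε i then (1 : ℝ) else -1) * u i) +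
          b • (fun i => (if ε i then (1 : ℝ) else -1) * v i) : Fin n → ℝ) =
          fun i => (if ε i then (1 : ℝ) else -1) * (a • u + b • v) i := by
        funext i
        simp only [Pi.add_apply, Pi.smul_apply, smul_eq_mul]
        ring
      rwa [e] at h2
    have h3 := Finset.sum_le_sum fun ε (_ : ε ∈ (Finset.univ : Finset (Fin n → Bool))) => h1 ε
    rw [Finset.sum_add_distrib, ← Finset.mul_sum, ← Finset.mul_sum] at h3
    have h4 := mul_le_mul_of_nonneg_left h3 hpos.le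
    refine le_trans (le_of_eq ?_) h4
    ring
  · intro z hz
    refine mul_pos hpos (Finset.sum_pos (fun ε _ => hG3 _ (hbox ε z hz)) ⟨fun _ => true, by simp⟩)
  · have i1 : ∀ ε ∈ (Finset.univ : Finset (Fin n → Bool)), IntegrableOn (fun z : Fin n → ℝ =>
        G (fun i => (if ε i then (1 : ℝ) else -1) * z i)) (box (Fin n)) := fun ε _ =>
      ((hc ε).continuousOn.integrableOn_compact isCompact_Icc)
    rw [integral_const_mul, integral_finsetSum _ i1]
    have h1 : ∀ ε : Fin n → Bool, ∫ z in box (Fin n),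
        G (fun i => (if ε i then (1 : ℝ) else -1) * z i) = x := by
      intro ε
      rw [← hG4]
      exact int_sign_box G (fun i => if ε i then (1 : ℝ) else -1) fun i => by
        by_cases h : ε i <;> simp [h]
    rw [Finset.sum_congr rfl fun ε _ => h1 ε]
    simp only [Finset.sum_const, Finset.card_univ, Fintype.card_pi, Fintype.card_bool,
      Finset.prod_const, Fintype.card_fin, nsmul_eq_mul, Nat.cast_pow, Nat.cast_ofNat]
    rw [← mul_assoc, hhalf, one_mul]
  · intro ε hε z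
    have hinv : Function.Involutive (fun (η : Fin n → Bool) (i : Fin n) =>
        (η i).xor (decide (ε i = -1))) := by
      intro η
      funext i
      simp
    refine congrArg (fun t => (((1 / 2 : ℚ) ^ n : ℚ) : ℝ) * t) ?_
    refine Fintype.sum_bijective (fun (η : Fin n → Bool) (i : Fin n) =>
        (η i).xor (decide (ε i = -1))) hinv.bijective _ _ fun η => ?_
    congr 1
    funext i
    rcases hε i with h | h
    · have h' : ¬ ((1 : ℝ) = -1) := by norm_num
      simp [h, h']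
    · cases hη : η i <;> simp [h, hη]

end Pool.Agent.CVol
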