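import Pool.Agent.W_2cf66e_h65.HSub
import Pool.Agent.W_2cf66e_h65.EPR

/-!
# MP_2cf66e_nt, part J: the substitution with flat ends (helper65)
-/

set_option autoImplicit false

noncomputable section

open MeasureTheory MvPolynomial

namespace Pool.Agent.CVol

/-- Product of a piecewise rational function with the indicator of a semialgebraic set and a
polynomial: `S c` is replaced by `S c ∩ T`, `P c` by `p * P c`. -/
theorem IsPR.ind_mul {ι : Type} {f : (ι → ℝ) → ℝ} (hf : IsPR f) {T : Set (ι → ℝ)} (hT : IsSA T)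
    (p : MvPolynomial ι ℚ) : IsPR (fun z => T.indicator (fun z => aeval z p * f z) z) := by
  classical
  obtain ⟨k, S, P, Q, hS, hQ, hf⟩ := hf
  refine ⟨k, fun c => S c ∩ T, fun c => p * P c, Q, fun c => (hS c).inter hT,
    fun c z hz => hQ c z hz.1, fun z => ?_⟩
  show T.indicator (fun z => aeval z p * f z) z = _
  by_cases hz : z ∈ T
  · rw [Set.indicator_of_mem hz]
    show aeval z p * f z = _
    rw [hf, Finset.mul_sum]
    refine Finset.sum_congr rfl fun c _ => ?_
    by_cases h : z ∈ S c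
    · rw [Set.indicator_of_mem h, Set.indicator_of_mem (show z ∈ S c ∩ T from ⟨h, hz⟩), map_mul,
        mul_div_assoc]
    · rw [Set.indicator_of_notMem h, Set.indicator_of_notMem (fun h' => h h'.1), mul_zero]
  · rw [Set.indicator_of_notMem hz]
    symm
    refine Finset.sum_eq_zero fun c _ => ?_
    exact Set.indicator_of_notMem (fun h' => hz h'.2) _

/-- Every rational polynomial has a primitive. -/
theorem JSub_prim (p : Polynomial ℚ) : ∃ q : Polynomial ℚ, Polynomial.derivative q = p := by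
  induction p using Polynomial.induction_on' with
  | add p q hp hq =>
    obtain ⟨P, hP⟩ := hp
    obtain ⟨Q, hQ⟩ := hq
    exact ⟨P + Q, by rw [Polynomial.derivative_add, hP, hQ]⟩
  | monomial n a =>
    refine ⟨Polynomial.monomial (n + 1) (a / ((n : ℚ) + 1)), ?_⟩
    have h : ((n : ℚ) + 1) ≠ 0 := by positivity
    rw [Polynomial.derivative_monomial, Nat.add_sub_cancel]
    push_cast
    rw [div_mul_cancel₀ _ h]

/-- Real derivative of a rational polynomial. -/
theorem JSub_hasDeriv (S : Polynomial ℚ) (t : ℝ) :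
    HasDerivAt (fun t : ℝ => Polynomial.aeval t S) (Polynomial.aeval t (Polynomial.derivative S))
      t :=
  S.hasDerivAt_aeval t

theorem JSub_sq {t : ℝ} (h : |t| < 1) : 0 < 1 - t ^ 2 := by
  have h2 : t ^ 2 < 1 := (sq_lt_one_iff_abs_lt_one _).2 h
  linarith

/-- A primitive of a positive multiple of `(1 - t^2)^m` is strictly increasing on `[-1,1]`. -/
theorem JSub_mono {m : ℕ} {S : Polynomial ℚ} {c : ℚ} (hc : 0 < c)
    (hS : Polynomial.derivative S = Polynomial.C c * (1 - Polynomial.X ^ 2) ^ m) :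
    StrictMonoOn (fun t : ℝ => Polynomial.aeval t S) (Set.Icc (-1) 1) := by
  refine strictMonoOn_of_deriv_pos (convex_Icc _ _)
    (fun t _ => (JSub_hasDeriv S t).continuousAt.continuousWithinAt) fun t ht => ?_
  rw [interior_Icc] at ht
  have h1 := JSub_sq (abs_lt.2 ⟨ht.1, ht.2⟩)
  rw [(JSub_hasDeriv S t).deriv, hS]
  simp only [map_mul, map_pow, map_sub, map_one, Polynomial.aeval_C, Polynomial.aeval_X]
  have h2 : (0 : ℝ) < algebraMap ℚ ℝ c := by
    simpa using hc
  positivity

theorem JSub_eval (S : Polynomial ℚ) (q : ℚ) :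
    Polynomial.aeval (q : ℝ) S = ((S.eval q : ℚ) : ℝ) := by
  have h := Polynomial.aeval_algebraMap_apply ℝ q S
  rw [Polynomial.coe_aeval_eq_eval] at h
  simpa using h

/-- (J1) A polynomial bijection of `[-1,1]` with flat ends: `S' = c (1 - t^2)^m`, `c > 0` rational,
`S(-1) = -1`, `S(1) = 1`. Proof: take a primitive `S0` of `(1 - t^2)^m` (a rational polynomial,
e.g. from the coefficients, or by induction/linearity), `w = S0(1) - S0(-1) > 0` (it is
`∫_{-1}^1 (1-t^2)^m dt`), `c = 2 / w`, `S = c S0 + const`. -/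
theorem exists_S (m : ℕ) : ∃ (S : Polynomial ℚ) (c : ℚ), 0 < c ∧
    Polynomial.derivative S = Polynomial.C c * (1 - Polynomial.X ^ 2) ^ m ∧
    S.eval (-1) = -1 ∧ S.eval 1 = 1 := by
  obtain ⟨S0, hS0⟩ := JSub_prim ((1 - Polynomial.X ^ 2) ^ m)
  have hw : 0 < S0.eval 1 - S0.eval (-1) := by
    have h1 : Polynomial.derivative S0 = Polynomial.C 1 * (1 - Polynomial.X ^ 2) ^ m := by
      rw [hS0, Polynomial.C_1, one_mul]
    have h2 := JSub_mono (c := 1) one_pos h1 (Set.left_mem_Icc.2 (by norm_num : (-1 : ℝ) ≤ 1))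
      (Set.right_mem_Icc.2 (by norm_num : (-1 : ℝ) ≤ 1)) (by norm_num)
    have h3 := JSub_eval S0 1
    have h4 := JSub_eval S0 (-1)
    rw [Rat.cast_one] at h3
    rw [Rat.cast_neg, Rat.cast_one] at h4
    simp only [h3, h4] at h2
    have h5 : S0.eval (-1) < S0.eval 1 := by exact_mod_cast h2
    linarith
  set w : ℚ := S0.eval 1 - S0.eval (-1) with hwd
  refine ⟨Polynomial.C (2 / w) * S0 + Polynomial.C (-1 - 2 / w * S0.eval (-1)), 2 / w,
    by positivity, ?_, ?_, ?_⟩
  · rw [Polynomial.derivative_add, Polynomial.derivative_C_mul, Polynomial.derivative_C, hS0,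
      add_zero]
  · rw [Polynomial.eval_add, Polynomial.eval_mul, Polynomial.eval_C, Polynomial.eval_C]
    ring
  · rw [Polynomial.eval_add, Polynomial.eval_mul, Polynomial.eval_C, Polynomial.eval_C]
    have h : 2 / w * S0.eval 1 + (-1 - 2 / w * S0.eval (-1)) = 2 / w * w - 1 := by
      rw [hwd]
      ring
    rw [h, div_mul_cancel₀ _ hw.ne']
    norm_num

/-- (J2) Change of variables with `S` in each coordinate.

Proof. `S` is strictly increasing and continuous on `[-1,1]`, a bijection of `(-1,1)`; the map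
`u ↦ (S u_i)_i` is injective on `ocube n`, onto `ocube n`, with diagonal derivative of determinant
`∏ S'(u_i) = ∏ c (1 - u_i^2)^m = c^n (den u)^m ≥ 0`
(`MeasureTheory.integral_image_eq_integral_abs_det_fderiv_smul`, as in `change`); `box` and `ocube`
differ by a null set. -/
theorem change_S {n : ℕ} (m : ℕ) (S : Polynomial ℚ) (c : ℚ) (hc : 0 < c)
    (hS : Polynomial.derivative S = Polynomial.C c * (1 - Polynomial.X ^ 2) ^ m)
    (h1 : S.eval (-1) = -1) (h2 : S.eval 1 = 1) (g : (Fin n → ℝ) → ℝ) :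
    ∫ z in box (Fin n), g z =
      ∫ u in ocube n, aeval u (C (c ^ n) * (den n) ^ m) *
        g (fun i => Polynomial.aeval (u i) S) := by
  have hm1 : MeasurableSet (ocube n) := by
    have h3 : IsOpen (ocube n) := by
      have h4 : ocube n = ⋂ i, {y : Fin n → ℝ | |y i| < 1} := by
        ext y
        simp [ocube]
      rw [h4]
      exact isOpen_iInter_of_finite fun i =>
        isOpen_lt (continuous_abs.comp (continuous_apply i)) continuous_const
    exact h3.measurableSet
  have hae : (box (Fin n) : Set (Fin n → ℝ)) =ᵐ[volume] ocube n := by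
    have h3 : ocube n = Set.pi Set.univ fun _ : Fin n => Set.Ioo (-1 : ℝ) 1 := by
      ext y
      simp only [ocube, Set.mem_ofPred_eq, Set.mem_pi, Set.mem_univ, true_implies, Set.mem_Ioo,
        abs_lt]
    rw [h3]
    exact (MeasureTheory.Measure.univ_pi_Ioo_ae_eq_Icc (μ := fun _ : Fin n => volume)
      (f := fun _ => (-1 : ℝ)) (g := fun _ => (1 : ℝ))).symm
  rw [setIntegral_congr_set hae]
  have hmono := JSub_mono hc hS
  have e1 : Polynomial.aeval (1 : ℝ) S = 1 := by
    have h3 := JSub_eval S 1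
    rw [Rat.cast_one, h2, Rat.cast_one] at h3
    exact h3
  have e2 : Polynomial.aeval (-1 : ℝ) S = -1 := by
    have h3 := JSub_eval S (-1)
    rw [Rat.cast_neg, Rat.cast_one, h1, Rat.cast_neg, Rat.cast_one] at h3
    exact h3
  have hcont : Continuous fun t : ℝ => Polynomial.aeval t S :=
    continuous_iff_continuousAt.2 fun t => (JSub_hasDeriv S t).continuousAt
  set σ : (Fin n → ℝ) → (Fin n → ℝ) := fun u i => Polynomial.aeval (u i) S with hσ
  have hl : (-1 : ℝ) ∈ Set.Icc (-1 : ℝ) 1 := Set.left_mem_Icc.2 (by norm_num)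
  have hr : (1 : ℝ) ∈ Set.Icc (-1 : ℝ) 1 := Set.right_mem_Icc.2 (by norm_num)
  have himg : σ '' ocube n = ocube n := by
    ext x
    constructor
    · rintro ⟨u, hu, rfl⟩ i
      have h3 := abs_lt.1 (hu i)
      have h4 : u i ∈ Set.Icc (-1 : ℝ) 1 := ⟨h3.1.le, h3.2.le⟩
      have h5 := hmono hl h4 h3.1
      have h6 := hmono h4 hr h3.2
      simp only [e1, e2] at h5 h6
      exact abs_lt.2 ⟨h5, h6⟩
    · intro hx
      have h3 : ∀ i, ∃ t : ℝ, |t| < 1 ∧ Polynomial.aeval t S = x i := by
        intro i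
        have h4 := abs_lt.1 (hx i)
        have h5 := intermediate_value_Ioo (by norm_num : (-1 : ℝ) ≤ 1) hcont.continuousOn
        simp only [e1, e2] at h5
        obtain ⟨t, ht, h6⟩ := h5 ⟨h4.1, h4.2⟩
        exact ⟨t, abs_lt.2 ⟨ht.1, ht.2⟩, h6⟩
      choose u hu hux using h3
      exact ⟨u, hu, funext hux⟩
  have hinj : Set.InjOn σ (ocube n) := by
    intro u hu v hv h
    funext i
    have h3 := abs_lt.1 (hu i)
    have h4 := abs_lt.1 (hv i)
    exact hmono.injOn ⟨h3.1.le, h3.2.le⟩ ⟨h4.1.le, h4.2.le⟩ (congrFun h i)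
  set φ' : (Fin n → ℝ) → ((Fin n → ℝ) →L[ℝ] (Fin n → ℝ)) := fun u =>
    ContinuousLinearMap.pi fun i =>
      (Polynomial.aeval (u i) (Polynomial.derivative S) : ℝ) • ContinuousLinearMap.proj i with hφ'
  have hder : ∀ u ∈ ocube n, HasFDerivWithinAt σ (φ' u) (ocube n) u := by
    intro u _
    apply HasFDerivAt.hasFDerivWithinAt
    rw [hasFDerivAt_pi']
    intro i
    have h4 : HasFDerivAt (fun z : Fin n → ℝ => z i) (ContinuousLinearMap.proj i) u :=
      (ContinuousLinearMap.proj (R := ℝ) (φ := fun _ : Fin n => ℝ) i).hasFDerivAt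
    have h5 := (JSub_hasDeriv S (u i)).comp_hasFDerivAt u h4
    refine h5.congr_fderiv ?_
    ext v
    simp [hφ']
  have hdet : ∀ u ∈ ocube n, |(φ' u).det| = aeval u (C (c ^ n) * (den n) ^ m) := by
    intro u hu
    have h3 : ((φ' u : (Fin n → ℝ) →L[ℝ] (Fin n → ℝ)) : (Fin n → ℝ) →ₗ[ℝ] (Fin n → ℝ)) =
        Matrix.toLin' (Matrix.diagonal fun i =>
          (Polynomial.aeval (u i) (Polynomial.derivative S) : ℝ)) := by
      apply LinearMap.ext
      intro v
      funext i
      rw [Matrix.toLin'_apply, Matrix.mulVec_diagonal]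
      rfl
    have h4 : (φ' u).det = ∏ i, (Polynomial.aeval (u i) (Polynomial.derivative S) : ℝ) := by
      rw [ContinuousLinearMap.det, h3, LinearMap.det_toLin', Matrix.det_diagonal]
    have h5 : ∀ t : ℝ, (Polynomial.aeval t (Polynomial.derivative S) : ℝ) =
        (c : ℝ) * (1 - t ^ 2) ^ m := by
      intro t
      rw [hS]
      simp only [map_mul, map_pow, map_sub, map_one, Polynomial.aeval_C, Polynomial.aeval_X]
      rfl
    have h6 : ∏ i, (Polynomial.aeval (u i) (Polynomial.derivative S) : ℝ) =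
        aeval u (C (c ^ n) * (den n) ^ m) := by
      rw [map_mul, aeval_C, map_pow (aeval u) (den n) m, HSub_den,
        Finset.prod_congr rfl fun i _ => h5 (u i), Finset.prod_mul_distrib, Finset.prod_const,
        Finset.prod_pow, Finset.card_univ, Fintype.card_fin, map_pow]
      rfl
    have h7 : 0 ≤ ∏ i, (Polynomial.aeval (u i) (Polynomial.derivative S) : ℝ) := by
      refine Finset.prod_nonneg fun i _ => ?_
      rw [h5]
      have h8 : (0 : ℝ) < c := by exact_mod_cast hc
      have h9 := HSub_sq hu i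
      positivity
    rw [h4, abs_of_nonneg h7, h6]
  have key := integral_image_eq_integral_abs_det_fderiv_smul volume hm1 hder hinj g
  rw [himg] at key
  rw [key]
  refine setIntegral_congr_fun hm1 fun u hu => ?_
  simp only [smul_eq_mul]
  rw [hdet u hu]

end Pool.Agent.CVol
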