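import Pool.Agent.W_2cf66e_h65.DFlat
import Pool.Agent.W_2cf66e_h65.JSub
import Pool.Agent.W_2cf66e_h65.ISet

/-!
# MP_2cf66e_nt, part J: compactly supported integrands (helper65)
-/

set_option autoImplicit false

noncomputable section

open MeasureTheory MvPolynomial

namespace Pool.Agent.CVol

/-- The open cube is open. -/
theorem JCpt_open (n : ℕ) : IsOpen (ocube n) := by
  have h2 : ocube n = ⋂ i, {y : Fin n → ℝ | |y i| < 1} := by
    ext y
    simp [ocube]
  rw [h2]
  exact isOpen_iInter_of_finite fun i =>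
    isOpen_lt (continuous_abs.comp (continuous_apply i)) continuous_const

/-- The open cube is a real cell for `den`. -/
theorem JCpt_cell (n : ℕ) : RCell (ocube n) (re (den n)) := by
  refine ⟨JCpt_open n, fun x hx => ?_, fun x hx => ?_, fun x hx => ?_⟩
  · rw [eval_re]
    exact den_pos hx
  · rw [eval_re, HSub_den]
    refine Finset.prod_le_one (fun i _ => (HSub_sq hx i).le) fun i _ => ?_
    have := sq_nonneg (x i)
    linarith
  · rw [eval_re, HSub_den]
    have h1 : IsClosed {y : Fin n → ℝ | ∀ i, |y i| ≤ 1} := by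
      have h2 : {y : Fin n → ℝ | ∀ i, |y i| ≤ 1} = ⋂ i, {y : Fin n → ℝ | |y i| ≤ 1} := by
        ext y
        simp
      rw [h2]
      exact isClosed_iInter fun i =>
        isClosed_le (continuous_abs.comp (continuous_apply i)) continuous_const
    have h3 : x ∈ {y : Fin n → ℝ | ∀ i, |y i| ≤ 1} :=
      closure_minimal (fun y hy i => (hy i).le) h1 (frontier_subset_closure hx)
    have h4 : x ∉ ocube n := by
      intro h
      have h5 := (JCpt_open n).interior_eq
      rw [frontier, h5] at hx
      exact hx.2 h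
    simp only [ocube, Set.mem_setOf_eq, not_forall, not_lt] at h4
    obtain ⟨i, hi⟩ := h4
    have h5 : |x i| = 1 := le_antisymm (h3 i) hi
    refine Finset.prod_eq_zero (Finset.mem_univ i) ?_
    rw [← sq_abs, h5]
    norm_num

/-- Polynomials in one coordinate. -/
theorem JCpt_poly {n : ℕ} (S : Polynomial ℚ) (u : Fin n → ℝ) (i : Fin n) :
    aeval u (Polynomial.aeval (X i : MvPolynomial (Fin n) ℚ) S) = Polynomial.aeval (u i) S := by
  rw [← Polynomial.aeval_algHom_apply, aeval_X]

/-- (J3) Every integral over the cube of a `C^k` piecewise rational function is the integral over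
`ℝ^N` of a compactly supported one.

Proof. `m = k + 1`, `S`, `c` from `exists_S`; `g1 = 1_(ocube) (c^N den^m) g(S(u))`. Piecewise
rational: `IsPR.comp` (polynomial map `u ↦ S(u_i)`; the `MvPolynomial` is
`Polynomial.aeval (X i) S`), `IsPR.ind_mul`, `IsSA.obox`. `C^k`: product of the `C^k` functions
`1_(ocube) c^N den^m = flat (ocube) (re den) ...` (`flat_contDiff` with `μ = 0`; `ocube` is a real
cell for `den`: `0 < den ≤ 1` on it, `den = 0` on the frontier) and `g ∘ S`. Support in the cube.
Integral: `change_S`, `integral_indicator`. -/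
theorem cpt_of_smooth {k n : ℕ} (g : (Fin n → ℝ) → ℝ) (hg : IsPR g) (hk : ContDiff ℝ k g) :
    ∃ g1 : (Fin n → ℝ) → ℝ, IsPR g1 ∧ ContDiff ℝ k g1 ∧ HasCompactSupport g1 ∧
      ∫ z, g1 z = ∫ z in box (Fin n), g z := by
  classical
  obtain ⟨S, c, hc, hS, h1, h2⟩ := exists_S (k + 1)
  have hpr : IsPR (fun z : Fin n → ℝ => (ocube n).indicator
      (fun z => aeval z (C (c ^ n) * (den n) ^ (k + 1)) *
        g (fun i => aeval z (Polynomial.aeval (X i : MvPolynomial (Fin n) ℚ) S))) z) :=
    IsPR.ind_mul (hg.comp fun i => Polynomial.aeval (X i : MvPolynomial (Fin n) ℚ) S)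
      IsSA.obox (C (c ^ n) * (den n) ^ (k + 1))
  simp only [JCpt_poly] at hpr
  refine ⟨_, hpr, ?_, ?_, ?_⟩
  · have h3 := flat_contDiff (JCpt_cell n) (Fin.elim0 : Fin 0 → MvPolynomial (Fin n) ℝ)
      (fun a => a.elim0) k (re (C (c ^ n))) (fun _ => 0) (k + 1) (by simp)
    have h4 : ContDiff ℝ k fun z : Fin n → ℝ => fun i => Polynomial.aeval (z i) S := by
      refine contDiff_pi.2 fun i => ?_
      have h5 : ContDiff ℝ k fun t : ℝ => Polynomial.aeval t S := by
        exact Polynomial.contDiff_aeval S k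
      exact h5.comp (contDiff_apply ℝ ℝ i)
    have h6 := h3.mul (hk.comp h4)
    have h7 : (fun z : Fin n → ℝ => (ocube n).indicator
      (fun z => aeval z (C (c ^ n) * (den n) ^ (k + 1)) *
        g (fun i => Polynomial.aeval (z i) S)) z) = fun z =>
        flat (ocube n) (re (den n)) (Fin.elim0 : Fin 0 → MvPolynomial (Fin n) ℝ)
          (re (C (c ^ n))) (fun _ => 0) (k + 1) z *
          (g ∘ fun z : Fin n → ℝ => fun i => Polynomial.aeval (z i) S) z := by
      funext z
      by_cases hz : z ∈ ocube n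
      · rw [Set.indicator_of_mem hz, DFlat_of_mem hz, eval_re, eval_re, map_mul, map_pow]
        simp
      · rw [Set.indicator_of_notMem hz, DFlat_of_notMem hz, zero_mul]
    rw [h7]
    exact h6
  · refine HasCompactSupport.of_support_subset_isCompact
      (K := box (Fin n)) isCompact_Icc ?_
    intro z hz
    rw [Function.mem_support] at hz
    have h3 : z ∈ ocube n := by
      by_contra h
      exact hz (Set.indicator_of_notMem h _)
    rw [box_eq]
    intro i
    have h4 := abs_lt.1 (h3 i)
    exact ⟨h4.1.le, h4.2.le⟩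
  · rw [change_S (k + 1) S c hc hS h1 h2 g]
    exact integral_indicator (JCpt_open n).measurableSet

/-- (J4) The integral over `ℝ^N` of a continuous compactly supported piecewise rational function
is a period.

Proof. The support is contained in `[-R, R]^N` for a natural number `R ≥ 1`. Then
`∫ g = ∫_{[-R,R]^N} g = R^N ∫_box g(R u) du` (`Measure.integral_comp_smul` or
`integral_comp_smul` type lemma for the whole space applied to the function; the function
`u ↦ g (R u)` vanishes outside the cube), and `u ↦ R^N g(R u)` is continuous and piecewise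
rational (`IsPR.comp`, `IsPR.smul`); `period_of_smooth`. -/
theorem period_of_cpt {n : ℕ} (g : (Fin n → ℝ) → ℝ) (hg : IsPR g) (hc : Continuous g)
    (hs : HasCompactSupport g) : IsPeriod (∫ z, g z) := by
  obtain ⟨r, hr⟩ := hs.isCompact.isBounded.subset_closedBall (0 : Fin n → ℝ)
  obtain ⟨R, hR⟩ := exists_nat_ge (max r 1)
  have hR1 : (1 : ℝ) ≤ R := (le_max_right _ _).trans hR
  have hR0 : (0 : ℝ) < R := by linarith
  have hzero : ∀ u : Fin n → ℝ, u ∉ box (Fin n) → g ((R : ℝ) • u) = 0 := by
    intro u hu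
    by_contra h
    have h1 : (R : ℝ) • u ∈ tsupport g := subset_tsupport g h
    have h2 := hr h1
    rw [mem_closedBall_zero_iff, norm_smul, Real.norm_of_nonneg hR0.le] at h2
    have h3 : (R : ℝ) * ‖u‖ ≤ R * 1 := by
      rw [mul_one]
      exact h2.trans ((le_max_left _ _).trans hR)
    have h4 : ‖u‖ ≤ 1 := le_of_mul_le_mul_left h3 hR0
    apply hu
    rw [box_eq]
    intro i
    have h5 : |u i| ≤ 1 := (norm_le_pi_norm u i).trans h4
    exact abs_le.1 h5
  have hpr : IsPR (fun u : Fin n → ℝ => ((((R : ℚ) ^ n : ℚ)) : ℝ) *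
      g (fun i => aeval u (C (R : ℚ) * X i : MvPolynomial (Fin n) ℚ))) :=
    (hg.comp fun i => (C (R : ℚ) * X i : MvPolynomial (Fin n) ℚ)).smul ((R : ℚ) ^ n)
  have e1 : (fun u : Fin n → ℝ => ((((R : ℚ) ^ n : ℚ)) : ℝ) *
      g (fun i => aeval u (C (R : ℚ) * X i : MvPolynomial (Fin n) ℚ))) =
      fun u => (R : ℝ) ^ n * g ((R : ℝ) • u) := by
    funext u
    have h1 : (fun i => aeval u (C (R : ℚ) * X i : MvPolynomial (Fin n) ℚ)) = (R : ℝ) • u := by
      funext i
      simp
    rw [h1]
    push_cast
    rfl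
  rw [e1] at hpr
  have hcont : Continuous fun u : Fin n → ℝ => (R : ℝ) ^ n * g ((R : ℝ) • u) :=
    continuous_const.mul (hc.comp (continuous_const_smul _))
  have h := period_of_smooth _ hpr hcont
  have e2 : ∫ u in box (Fin n), (R : ℝ) ^ n * g ((R : ℝ) • u) = ∫ z, g z := by
    rw [setIntegral_eq_integral_of_forall_compl_eq_zero, integral_const_mul,
      Measure.integral_comp_smul]
    · rw [Module.finrank_fin_fun, smul_eq_mul, ← mul_assoc, abs_of_pos (by positivity),
        mul_inv_cancel₀ (by positivity), one_mul]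
    · intro u hu
      rw [hzero u hu, mul_zero]
  rwa [e2] at h

end Pool.Agent.CVol
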