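import Pool.Agent.W_2cf66e_h65.HMain
import Pool.Agent.W_2cf66e_h65.GFun
import Pool.Agent.W_2cf66e_h65.GBody
import Pool.Agent.W_2cf66e_h65.GNorm
import Pool.Agent.W_2cf66e_h65.JCpt

/-!
# MP_2cf66e_nt: the final theorems (helper65)
-/

set_option autoImplicit false

noncomputable section

open MeasureTheory MvPolynomial

namespace Pool.Agent.CVol

/-- Periods are the integrals of compactly supported `C^k` piecewise rational functions. -/
theorem period_iff_cpt (x : ℝ) : IsPeriod x ↔ ∀ k : ℕ, ∃ (N : ℕ) (g : (Fin N → ℝ) → ℝ),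
    IsPR g ∧ ContDiff ℝ k g ∧ HasCompactSupport g ∧ ∫ z, g z = x := by
  constructor
  · intro h k
    obtain ⟨N, g, hg, hk, hi⟩ := (period_smooth h k).fin
    obtain ⟨g1, h1, h2, h3, h4⟩ := cpt_of_smooth g hg hk
    exact ⟨N, g1, h1, h2, h3, h4.trans hi⟩
  · intro h
    obtain ⟨N, g, hg, hk, hs, hi⟩ := h 0
    rw [← hi]
    exact period_of_cpt g hg hk.continuous hs

/-- Positive periods are the volumes of the convex bodies. -/
theorem period_iff_body (x : ℝ) (hx : 0 < x) : IsPeriod x ↔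
    ∃ (N : ℕ) (K : Set (Fin N → ℝ)), IsSA K ∧ IsCompact K ∧ Convex ℝ K ∧ K ∈ nhds 0 ∧
      (∀ z ∈ K, ∀ ε : Fin N → ℝ, (∀ i, ε i = 1 ∨ ε i = -1) → (fun i => ε i * z i) ∈ K) ∧
      volume K = ENNReal.ofReal x := by
  constructor
  · intro h
    obtain ⟨N, g, hg, hk, hi⟩ := (period_smooth h 3).fin
    obtain ⟨G, G1, G2, G3, G4, G5⟩ := exists_concave x hx g hg hk hi
    obtain ⟨H, H1, H2, H3, H4, H5, H6⟩ := exists_symm x G G1 G2 G3 G4 G5
    refine ⟨N + 1, body H, body_sa H1, body_compact H2, body_convex H3, body_nhds H2 H4,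
      fun z hz ε hε => body_sign H6 ε hε z hz, ?_⟩
    rw [body_volume H2 H4, H5]
  · rintro ⟨N, K, h1, -, -, -, -, h2⟩
    exact period_of_volume h1 x hx h2

/-- Positive periods are the volumes of the unit balls of norms with semialgebraic unit ball,
invariant under sign changes of the coordinates. -/
theorem period_iff_norm (x : ℝ) (hx : 0 < x) : IsPeriod x ↔
    ∃ (N : ℕ) (p : Seminorm ℝ (Fin N → ℝ)), (∀ z, p z = 0 → z = 0) ∧
      (∀ z ε : Fin N → ℝ, (∀ i, ε i = 1 ∨ ε i = -1) → p (fun i => ε i * z i) = p z) ∧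
      IsSA {z | p z ≤ 1} ∧ volume {z | p z ≤ 1} = ENNReal.ofReal x := by
  constructor
  · intro h
    obtain ⟨N, K, h1, h2, h3, h4, h5, h6⟩ := (period_iff_body x hx).1 h
    obtain ⟨p, p1, p2, p3⟩ := exists_norm K h2 h3 h4 h5
    exact ⟨N, p, p1, p2, by rw [p3]; exact h1, by rw [p3]; exact h6⟩
  · rintro ⟨N, p, -, -, h1, h2⟩
    exact period_of_volume h1 x hx h2

end Pool.Agent.CVol
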