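import Pool.Agent.W_2cf66e_h65.KSgn
import Pool.Agent.W_2cf66e_h65.KSer
import Pool.Agent.W_2cf66e_h65.KPer

/-!
# MP_2cf66e_nt, part K: extended periods are constant term series (helper65)
-/

set_option autoImplicit false

noncomputable section

open MeasureTheory MvPolynomial

namespace Pool.Agent.CVol

/-- Every period is a power of `π` times a constant term value. -/
theorem period_ct {x : ℝ} (h : IsPeriod x) : ∃ (N : ℕ) (y : ℝ), CTval y ∧
    x = Real.pi ^ N * y := by
  obtain ⟨N, k, c, q, hq, hx⟩ := period_sgn h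
  choose y hy hy' using fun j => sgn_ct (q j) (hq j)
  refine ⟨N, ∑ j, (c j : ℝ) * y j, CTval.sum _ fun j => (hy j).smul (c j), ?_⟩
  rw [hx, Finset.mul_sum]
  refine Finset.sum_congr rfl fun j _ => ?_
  rw [hy' j]
  ring

theorem period_pi_pow {x : ℝ} (h : IsPeriod x) (k : ℕ) : IsPeriod (Real.pi ^ k * x) := by
  induction k with
  | zero => simpa using h
  | succ k ih =>
    have := period_pi ih
    rwa [← mul_assoc, ← pow_succ'] at this

/-- The real number `x` is in `𝒫[1/π]` if and only if it is an integral power of `π` times the sum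
of an absolutely convergent constant term series. -/
theorem ext_period_iff (x : ℝ) : (∃ k : ℕ, IsPeriod (Real.pi ^ k * x)) ↔
    ∃ (e : ℤ) (M : ℕ) (A T : MvPolynomial (Fin M) ℚ),
      (∀ c : Fin M → ℝ, (∀ i, -1 ≤ c i ∧ c i ≤ 1) → 0 ≤ aeval c T ∧ aeval c T ≤ 1) ∧
      (Summable fun m : ℕ => ∫ θ in ucube (Fin M), |aeval (cs θ) A| * (aeval (cs θ) T) ^ m) ∧
      x = Real.pi ^ e * ∑' m : ℕ, (Lam (A * T ^ m) : ℝ) := by
  have hbox : ∀ (M : ℕ) (c : Fin M → ℝ), c ∈ box (Fin M) ↔ ∀ i, -1 ≤ c i ∧ c i ≤ 1 := by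
    intro M c
    rw [box_eq]
    rfl
  have hpi : Real.pi ≠ 0 := Real.pi_ne_zero
  constructor
  · rintro ⟨k, h⟩
    obtain ⟨N, y, ⟨M, A, T, hT1, hT, hi, hy⟩, hx⟩ := period_ct h
    obtain ⟨s1, s2⟩ := series_iff A T hT1 hT
    refine ⟨(N : ℤ) - k, M, A, T, fun c hc => hT c ((hbox M c).2 hc), s1.1 hi, ?_⟩
    rw [← s2 hi, hy, zpow_sub₀ hpi, zpow_natCast, zpow_natCast]
    field_simp
    linarith
  · rintro ⟨e, M, A, T, hT, hs, hx⟩
    have hT' : ∀ c ∈ box (Fin M), 0 ≤ aeval c T ∧ aeval c T ≤ 1 :=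
      fun c hc => hT c ((hbox M c).1 hc)
    by_cases hT1 : T = 1
    · subst hT1
      refine ⟨0, ?_⟩
      have h0 := series_one A hs
      rw [hx, h0]
      have h1 := period_of_int (n := 0) IsSA.empty 1 1 (by simp)
      simpa using h1
    · obtain ⟨s1, s2⟩ := series_iff A T hT1 hT'
      have hi := s1.2 hs
      have hp := ct_period A T hi
      rw [s2 hi] at hp
      refine ⟨M + e.natAbs, ?_⟩
      obtain ⟨r, hr⟩ : ∃ r : ℕ, (e.natAbs : ℤ) + e = r :=
        ⟨(e.natAbs + e).toNat, by omega⟩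
      have hp2 := period_pi_pow hp r
      have : Real.pi ^ (M + e.natAbs) * x = Real.pi ^ r *
          (Real.pi ^ M * ∑' m : ℕ, (Lam (A * T ^ m) : ℝ)) := by
        rw [hx, pow_add]
        have h3 : (Real.pi : ℝ) ^ e.natAbs * Real.pi ^ e = Real.pi ^ r := by
          rw [← zpow_natCast, ← zpow_add₀ hpi, hr, zpow_natCast]
        rw [← h3]
        ring
      rw [this]
      exact hp2

end Pool.Agent.CVol
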