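import Pool.Agent.W_2cf66e_h65.KDefs

/-!
# MP_2cf66e_nt, part K: the sign as an integral of a rational function (helper65)
-/

set_option autoImplicit false

noncomputable section

open MeasureTheory

namespace Pool.Agent.CVol

theorem KKer_den (a φ : ℝ) : a ^ 2 * (1 + Real.cos (2 * Real.pi * φ)) +
    (1 - Real.cos (2 * Real.pi * φ)) =
      2 * (a ^ 2 * Real.cos (Real.pi * φ) ^ 2 + Real.sin (Real.pi * φ) ^ 2) := by
  have h1 : 2 * Real.pi * φ = 2 * (Real.pi * φ) := by ring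
  have h2 := Real.sin_sq_add_cos_sq (Real.pi * φ)
  rw [h1, Real.cos_two_mul]
  linear_combination (-2) * h2

theorem KKer_pos (a : ℝ) (ha : a ≠ 0) (φ : ℝ) :
    0 < a ^ 2 * Real.cos φ ^ 2 + Real.sin φ ^ 2 := by
  have h2 := Real.sin_sq_add_cos_sq φ
  rcases eq_or_ne (Real.sin φ) 0 with h | h
  · rw [h] at h2 ⊢
    have h3 : Real.cos φ ^ 2 = 1 := by linarith
    rw [h3]
    positivity
  · positivity

theorem KKer_pos' (a : ℝ) (ha : 0 < a) (φ : ℝ) :
    0 < a * Real.cos φ ^ 2 + Real.sin φ ^ 2 := by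
  have h2 := Real.sin_sq_add_cos_sq φ
  rcases eq_or_ne (Real.sin φ) 0 with h | h
  · rw [h] at h2 ⊢
    have h3 : Real.cos φ ^ 2 = 1 := by linarith
    rw [h3]
    positivity
  · positivity

theorem KKer_deriv (a : ℝ) (ha : 0 < a) (φ : ℝ) :
    HasDerivAt (fun φ : ℝ => 1 / (2 * Real.pi) * (Real.pi * φ + Real.arctan
      ((1 - a) * (Real.sin (Real.pi * φ) * Real.cos (Real.pi * φ)) /
        (a * Real.cos (Real.pi * φ) ^ 2 + Real.sin (Real.pi * φ) ^ 2))))
      (a / (a ^ 2 * (1 + Real.cos (2 * Real.pi * φ)) + (1 - Real.cos (2 * Real.pi * φ)))) φ := by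
  have hpi := Real.pi_pos
  have hl : HasDerivAt (fun φ : ℝ => Real.pi * φ) Real.pi φ := by
    have := (hasDerivAt_id φ).const_mul Real.pi
    rwa [mul_one] at this
  have hs : HasDerivAt (fun φ : ℝ => Real.sin (Real.pi * φ))
      (Real.cos (Real.pi * φ) * Real.pi) φ := (Real.hasDerivAt_sin (Real.pi * φ)).comp φ hl
  have hc : HasDerivAt (fun φ : ℝ => Real.cos (Real.pi * φ))
      (-Real.sin (Real.pi * φ) * Real.pi) φ := (Real.hasDerivAt_cos (Real.pi * φ)).comp φ hl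
  have hD := KKer_pos' a ha (Real.pi * φ)
  have hE := KKer_pos a ha.ne' (Real.pi * φ)
  have h2 := Real.sin_sq_add_cos_sq (Real.pi * φ)
  have hnum := (hs.mul hc).const_mul (1 - a)
  have hden := ((hc.pow 2).const_mul a).add (hs.pow 2)
  have hu := hnum.div hden hD.ne'
  have hG := (hl.add hu.arctan).const_mul (1 / (2 * Real.pi))
  refine hG.congr_deriv ?_
  rw [KKer_den]
  simp only [Pi.mul_apply, Pi.add_apply, Pi.pow_apply, Pi.div_apply, Nat.cast_ofNat,
    Nat.add_one_sub_one, pow_one]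
  generalize Real.sin (Real.pi * φ) = s at *
  generalize Real.cos (Real.pi * φ) = c at *
  have e1 : 1 + ((1 - a) * (s * c) / (a * c ^ 2 + s ^ 2)) ^ 2 =
      (a ^ 2 * c ^ 2 + s ^ 2) / (a * c ^ 2 + s ^ 2) ^ 2 := by
    rw [div_pow, eq_div_iff (pow_pos hD 2).ne', add_mul, div_mul_cancel₀ _ (pow_pos hD 2).ne']
    linear_combination (a ^ 2 * c ^ 2 + s ^ 2) * h2
  rw [e1]
  have hD' := hD.ne'
  have hE' := hE.ne'
  have hpi' := hpi.ne'
  have e2 : ∀ N : ℝ, 1 / ((a ^ 2 * c ^ 2 + s ^ 2) / (a * c ^ 2 + s ^ 2) ^ 2) *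
      (N / (a * c ^ 2 + s ^ 2) ^ 2) = N / (a ^ 2 * c ^ 2 + s ^ 2) := by
    intro N
    field_simp
  rw [e2]
  have e3 : Real.pi + ((1 - a) * (c * Real.pi * c + s * (-s * Real.pi)) * (a * c ^ 2 + s ^ 2) -
      (1 - a) * (s * c) * (a * (2 * c * (-s * Real.pi)) + 2 * s * (c * Real.pi))) /
        (a ^ 2 * c ^ 2 + s ^ 2) = Real.pi * a / (a ^ 2 * c ^ 2 + s ^ 2) := by
    rw [eq_div_iff hE', add_mul, div_mul_cancel₀ _ hE']
    linear_combination (Real.pi * ((1 - a) * (a * c ^ 2 - s ^ 2) + a)) * h2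
  rw [e3]
  field_simp

/-- (K7) `∫_0^1 |H| / (H^2 (1 + cos 2πφ) + (1 - cos 2πφ)) dφ = 1/2` for `H ≠ 0`; the denominator
is positive.

Proof. The denominator is `≥ min (H^2, 1) * 2 > 0`... more precisely it is
`2 (H^2 cos^2 πφ + sin^2 πφ) > 0`. The integrand is continuous and `1`-periodic; on
`(-1/2, 1/2)` it has the primitive `(1/(2π)) arctan (tan (πφ) / |H|)`, with limits
`± 1/4` at `± 1/2`; or use `2 ∫_0^{1/2}` and the improper fundamental theorem
(`MeasureTheory.integral_Ioo...` / `intervalIntegral.integral_eq_of_hasDerivAt_of_tendsto`). -/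
theorem int_ker_abs (H : ℝ) (hH : H ≠ 0) :
    (∀ φ : ℝ, 0 < H ^ 2 * (1 + Real.cos (2 * Real.pi * φ)) +
      (1 - Real.cos (2 * Real.pi * φ))) ∧
    ∫ φ in (0 : ℝ)..1, |H| / (H ^ 2 * (1 + Real.cos (2 * Real.pi * φ)) +
      (1 - Real.cos (2 * Real.pi * φ))) = 1 / 2 := by
  have hpos : ∀ φ : ℝ, 0 < H ^ 2 * (1 + Real.cos (2 * Real.pi * φ)) +
      (1 - Real.cos (2 * Real.pi * φ)) := by
    intro φ
    rw [KKer_den]
    have := KKer_pos H hH (Real.pi * φ)
    linarith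
  refine ⟨hpos, ?_⟩
  have hcont : Continuous fun φ : ℝ => |H| / (H ^ 2 * (1 + Real.cos (2 * Real.pi * φ)) +
      (1 - Real.cos (2 * Real.pi * φ))) :=
    Continuous.div (by fun_prop) (by fun_prop) fun φ => (hpos φ).ne'
  have h1 : ∀ φ ∈ Set.uIcc (0 : ℝ) 1, HasDerivAt (fun φ : ℝ => 1 / (2 * Real.pi) *
      (Real.pi * φ + Real.arctan
      ((1 - |H|) * (Real.sin (Real.pi * φ) * Real.cos (Real.pi * φ)) /
        (|H| * Real.cos (Real.pi * φ) ^ 2 + Real.sin (Real.pi * φ) ^ 2))))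
      (|H| / (H ^ 2 * (1 + Real.cos (2 * Real.pi * φ)) +
        (1 - Real.cos (2 * Real.pi * φ)))) φ := by
    intro φ _
    have := KKer_deriv |H| (abs_pos.2 hH) φ
    rwa [sq_abs] at this
  rw [intervalIntegral.integral_eq_sub_of_hasDerivAt h1 (hcont.intervalIntegrable 0 1)]
  have hpi := Real.pi_pos.ne'
  rw [mul_one, mul_zero, Real.sin_pi, Real.sin_zero, zero_mul, zero_mul, mul_zero, zero_div,
    zero_div, Real.arctan_zero, add_zero, add_zero, mul_zero, sub_zero]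
  field_simp

/-- (K8) The signed version. -/
theorem int_ker (H : ℝ) (hH : H ≠ 0) :
    ∫ φ in (0 : ℝ)..1, H / (H ^ 2 * (1 + Real.cos (2 * Real.pi * φ)) +
      (1 - Real.cos (2 * Real.pi * φ))) = Real.sign H / 2 := by
  have h1 := (int_ker_abs H hH).2
  rcases lt_or_gt_of_ne hH with h | h
  · rw [Real.sign_of_neg h]
    rw [abs_of_neg h] at h1
    have h2 : ∀ φ : ℝ, H / (H ^ 2 * (1 + Real.cos (2 * Real.pi * φ)) +
        (1 - Real.cos (2 * Real.pi * φ))) = -(-H / (H ^ 2 * (1 + Real.cos (2 * Real.pi * φ)) +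
        (1 - Real.cos (2 * Real.pi * φ)))) := by
      intro φ
      rw [neg_div, neg_neg]
    simp only [h2]
    rw [intervalIntegral.integral_neg, h1]
    norm_num
  · rw [Real.sign_of_pos h]
    rw [abs_of_pos h] at h1
    exact h1

end Pool.Agent.CVol
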