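import Pool.Agent.W_2cf66e_h65.HMain
import Pool.Agent.W_2cf66e_h65.ISet
import Pool.Agent.W_2cf66e_h65.KDefs

/-!
# MP_2cf66e_nt, part K: periods as combinations of integrals of signs (helper65)
-/

set_option autoImplicit false

noncomputable section

open MeasureTheory MvPolynomial

namespace Pool.Agent.CVol

theorem KSgn_mul (a b : ℝ) : Real.sign (a * b) = Real.sign a * Real.sign b := by
  rcases lt_trichotomy a 0 with ha | ha | ha
  · rcases lt_trichotomy b 0 with hb | hb | hb
    · rw [Real.sign_of_neg ha, Real.sign_of_neg hb,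
        Real.sign_of_pos (mul_pos_of_neg_of_neg ha hb)]
      norm_num
    · simp [hb]
    · rw [Real.sign_of_neg ha, Real.sign_of_pos hb,
        Real.sign_of_neg (mul_neg_of_neg_of_pos ha hb)]
      norm_num
  · simp [ha]
  · rcases lt_trichotomy b 0 with hb | hb | hb
    · rw [Real.sign_of_pos ha, Real.sign_of_neg hb,
        Real.sign_of_neg (mul_neg_of_pos_of_neg ha hb)]
      norm_num
    · simp [hb]
    · rw [Real.sign_of_pos ha, Real.sign_of_pos hb, Real.sign_of_pos (mul_pos ha hb)]
      norm_num

theorem KSgn_ae {n : ℕ} (p : MvPolynomial (Fin n) ℚ) (h0 : p ≠ 0) :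
    ∀ᵐ z ∂(volume : Measure (Fin n → ℝ)), (aeval z p : ℝ) ≠ 0 := by
  rw [MeasureTheory.ae_iff]
  refine measure_mono_null (fun x hx => ?_) (null_rat p h0)
  by_contra h2
  exact hx h2

theorem KSgn_meas {n : ℕ} (q : MvPolynomial (Fin n) ℚ) :
    Measurable fun z : Fin n → ℝ => Real.sign (aeval z q) := by
  unfold Real.sign
  have hc := (HCell_cont q).measurable
  exact Measurable.ite (measurableSet_lt hc measurable_const) measurable_const
    (Measurable.ite (measurableSet_lt measurable_const hc) measurable_const measurable_const)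

theorem KSgn_abs (a : ℝ) : |Real.sign a| ≤ 1 := by
  rcases lt_trichotomy a 0 with ha | ha | ha
  · rw [Real.sign_of_neg ha]; norm_num
  · simp [ha]
  · rw [Real.sign_of_pos ha]; norm_num

theorem KSgn_int {n : ℕ} (q : MvPolynomial (Fin n) ℚ) :
    IntegrableOn (fun z : Fin n → ℝ => Real.sign (aeval z q)) (box (Fin n)) := by
  have hfin : volume (box (Fin n)) ≠ ⊤ := by
    have hK : IsCompact (box (Fin n)) := isCompact_Icc
    exact hK.measure_lt_top.ne
  refine Measure.integrableOn_of_bounded (M := 1) hfin (KSgn_meas q).aestronglyMeasurable ?_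
  exact Filter.Eventually.of_forall fun z => by
    rw [Real.norm_eq_abs]
    exact KSgn_abs _

/-- (K1) The indicator of a semialgebraic set is almost everywhere a rational combination of signs
of nonzero polynomials.

Proof: induction on `IsSA`. `pos p`, `p ≠ 0`: off the null set `{p = 0}` (`null_rat`) it is
`(sign 1 + sign p)/2`; `p = 0`: it is `0` (empty sum). Complement: `sign 1 - f`. Intersection: the
product, `sign q * sign q' = sign (q q')` (`Real.sign_mul` or `sign_mul`), `q q' ≠ 0`; index the
product by `Fin k × Fin k'`, `finProdFinEquiv`. -/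
theorem sgn_expand {n : ℕ} {s : Set (Fin n → ℝ)} (hs : IsSA s) :
    ∃ (k : ℕ) (c : Fin k → ℚ) (q : Fin k → MvPolynomial (Fin n) ℚ), (∀ j, q j ≠ 0) ∧
      ∀ᵐ z ∂(volume : Measure (Fin n → ℝ)),
        s.indicator (fun _ => (1 : ℝ)) z = ∑ j, (c j : ℝ) * Real.sign (aeval z (q j)) := by
  classical
  induction hs with
  | pos p =>
    by_cases hp : p = 0
    · refine ⟨0, Fin.elim0, Fin.elim0, fun j => j.elim0, Filter.Eventually.of_forall fun z => ?_⟩
      rw [Set.indicator_of_notMem]
      · simp
      · rw [hp]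
        simp
    · refine ⟨2, ![1 / 2, 1 / 2], ![1, p], ?_, ?_⟩
      · intro j
        fin_cases j
        · simp
        · simpa using hp
      · filter_upwards [KSgn_ae p hp] with z hz
        rw [Fin.sum_univ_two]
        simp only [Matrix.cons_val_zero, Matrix.cons_val_one, map_one]
        by_cases h1 : 0 < (aeval z p : ℝ)
        · rw [Set.indicator_of_mem (show z ∈ {x : Fin n → ℝ | 0 < aeval x p} from h1),
            Real.sign_of_pos one_pos, Real.sign_of_pos h1]
          norm_num
        · have h2 : (aeval z p : ℝ) < 0 := lt_of_le_of_ne (not_lt.mp h1) hz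
          rw [Set.indicator_of_notMem (show z ∉ {x : Fin n → ℝ | 0 < aeval x p} from h1),
            Real.sign_of_pos one_pos, Real.sign_of_neg h2]
          norm_num
  | @compl s _ ih =>
    obtain ⟨k, c, q, hq, h⟩ := ih
    refine ⟨k + 1, Fin.cons 1 (fun j => - c j), Fin.cons 1 q, ?_, ?_⟩
    · intro j
      refine Fin.cases ?_ (fun i => ?_) j
      · simp
      · simpa using hq i
    · filter_upwards [h] with z hz
      rw [Fin.sum_univ_succ]
      simp only [Fin.cons_zero, Fin.cons_succ, map_one, Real.sign_of_pos one_pos]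
      have e1 : ∑ j, ((- c j : ℚ) : ℝ) * Real.sign (aeval z (q j)) =
          - s.indicator (fun _ => (1 : ℝ)) z := by
        rw [hz, ← Finset.sum_neg_distrib]
        refine Finset.sum_congr rfl fun j _ => ?_
        push_cast
        ring
      rw [e1]
      by_cases h1 : z ∈ s
      · rw [Set.indicator_of_mem h1, Set.indicator_of_notMem
          (show z ∉ sᶜ from fun h2 : z ∈ sᶜ => h2 h1)]
        norm_num
      · rw [Set.indicator_of_notMem h1, Set.indicator_of_mem (show z ∈ sᶜ from h1)]
        norm_num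
  | @inter s t _ _ ih1 ih2 =>
    obtain ⟨k, c, q, hq, h⟩ := ih1
    obtain ⟨k', c', q', hq', h'⟩ := ih2
    refine ⟨k * k', fun a => c (finProdFinEquiv.symm a).1 * c' (finProdFinEquiv.symm a).2,
      fun a => q (finProdFinEquiv.symm a).1 * q' (finProdFinEquiv.symm a).2,
      fun a => mul_ne_zero (hq _) (hq' _), ?_⟩
    filter_upwards [h, h'] with z hz hz'
    have e1 : (s ∩ t).indicator (fun _ => (1 : ℝ)) z =
        s.indicator (fun _ => (1 : ℝ)) z * t.indicator (fun _ => (1 : ℝ)) z := by
      by_cases h1 : z ∈ s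
      · by_cases h2 : z ∈ t
        · rw [Set.indicator_of_mem h1, Set.indicator_of_mem h2,
            Set.indicator_of_mem (show z ∈ s ∩ t from ⟨h1, h2⟩)]
          norm_num
        · rw [Set.indicator_of_notMem h2,
            Set.indicator_of_notMem (show z ∉ s ∩ t from fun h3 => h2 h3.2)]
          simp
      · rw [Set.indicator_of_notMem h1,
          Set.indicator_of_notMem (show z ∉ s ∩ t from fun h3 => h1 h3.1)]
        simp
    rw [e1, hz, hz', Finset.sum_mul_sum]
    have e2 : ∑ a, ((c (finProdFinEquiv.symm a).1 * c' (finProdFinEquiv.symm a).2 : ℚ) : ℝ) *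
        Real.sign (aeval z (q (finProdFinEquiv.symm a).1 * q' (finProdFinEquiv.symm a).2)) =
        ∑ p : Fin k × Fin k', ((c p.1 * c' p.2 : ℚ) : ℝ) *
          Real.sign (aeval z (q p.1 * q' p.2)) :=
      Equiv.sum_comp finProdFinEquiv.symm (fun p : Fin k × Fin k' => ((c p.1 * c' p.2 : ℚ) : ℝ) *
          Real.sign (aeval z (q p.1 * q' p.2)))
    rw [e2, Fintype.sum_prod_type]
    refine Finset.sum_congr rfl fun i _ => Finset.sum_congr rfl fun j _ => ?_
    rw [map_mul, KSgn_mul]
    push_cast
    ring

/-- (K2) Every period is `a vol(s) + b` with `a, b` rational and `s` a semialgebraic subset of a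
cube.

Proof. `period_smooth h 0` and `Smooth.fin`: `x = ∫_box g` with `g` continuous and piecewise
rational. Let `M ≥ 1` be a natural number with `|g| < M` on the cube. In dimension `n + 1` let
`s = {(z, t) : z ∈ box, -1 ≤ t ≤ g(z)/M}` (semialgebraic: `IsPR.nonneg` for `g - M t`). Its volume
is `∫_box (g/M + 1) = x/M + 2^n` (as in `body_volume`: `volume_preserving_piFinSuccAbove`,
`measure of the fibres`). So `x = M vol(s) - M 2^n`. -/
theorem period_vol {x : ℝ} (h : IsPeriod x) :
    ∃ (N : ℕ) (s : Set (Fin N → ℝ)) (a b : ℚ), IsSA s ∧ s ⊆ box (Fin N) ∧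
      x = (a : ℝ) * (volume s).toReal + b := by
  obtain ⟨N, g, hg, hgc, hgi⟩ := (period_smooth h 0).fin
  have hcont : Continuous g := hgc.continuous
  obtain ⟨C, hC⟩ : ∃ C : ℝ, ∀ z ∈ box (Fin N), |g z| ≤ C := by
    have hK : IsCompact (box (Fin N)) := isCompact_Icc
    obtain ⟨C, hC⟩ := hK.exists_bound_of_continuousOn hcont.continuousOn
    exact ⟨C, fun z hz => by simpa using hC z hz⟩
  obtain ⟨M, hM⟩ := exists_nat_gt (max C 0)
  have hM0 : (0 : ℝ) < M := lt_of_le_of_lt (le_max_right _ _) hM
  have hMC : C < M := lt_of_le_of_lt (le_max_left _ _) hM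
  set s : Set (Fin (N + 1) → ℝ) := ({x | (fun k => x (Fin.succ k)) ∈ box (Fin N)} ∩
    {x | 0 ≤ x 0 + 1}) ∩ {x | 0 ≤ g (fun k => x (Fin.succ k)) - M * x 0} with hs
  have hmem : ∀ x : Fin (N + 1) → ℝ, x ∈ s ↔ (fun k => x (Fin.succ k)) ∈ box (Fin N) ∧
      -1 ≤ x 0 ∧ x 0 ≤ g (fun k => x (Fin.succ k)) / M := by
    intro x
    simp only [hs, Set.mem_inter_iff, Set.mem_ofPred_eq]
    rw [le_div_iff₀ hM0]
    constructor
    · rintro ⟨⟨h1, h2⟩, h3⟩
      exact ⟨h1, by linarith, by linarith⟩
    · rintro ⟨h1, h2, h3⟩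
      exact ⟨⟨h1, by linarith⟩, by linarith⟩
  have hgs : IsPR (fun x : Fin (N + 1) → ℝ => g (fun k => x (Fin.succ k))) := by
    have := hg.comp (fun k : Fin N => (X (Fin.succ k) : MvPolynomial (Fin (N + 1)) ℚ))
    simpa only [aeval_X] using this
  have hsa : IsSA s := by
    refine IsSA.inter (IsSA.inter ?_ ?_) ?_
    · have h1 := (IsSA.box (ι := Fin N)).preimage
        (fun k : Fin N => (X (Fin.succ k) : MvPolynomial (Fin (N + 1)) ℚ))
      simpa only [aeval_X] using h1
    · have h1 := IsSA.nonneg (X 0 + 1 : MvPolynomial (Fin (N + 1)) ℚ)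
      simpa only [map_add, aeval_X, map_one] using h1
    · have h1 := (hgs.add (IsPR.poly (-(MvPolynomial.C (M : ℚ)) * X 0 :
        MvPolynomial (Fin (N + 1)) ℚ))).nonneg
      have h2 : {x : Fin (N + 1) → ℝ | 0 ≤ g (fun k => x (Fin.succ k)) - M * x 0} =
          {z : Fin (N + 1) → ℝ | 0 ≤ g (fun k => z (Fin.succ k)) +
            aeval z (-(MvPolynomial.C (M : ℚ)) * X 0 : MvPolynomial (Fin (N + 1)) ℚ)} := by
        ext x
        simp only [Set.mem_ofPred_eq, map_neg, map_mul, aeval_X, aeval_C]
        have e : (algebraMap ℚ ℝ) (M : ℚ) = (M : ℝ) := by simp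
        rw [e]
        constructor <;> intro h <;> linarith
      rw [h2]
      exact h1
  have hsub : s ⊆ box (Fin (N + 1)) := by
    intro x hx
    obtain ⟨h1, h2, h3⟩ := (hmem x).mp hx
    have h4 := abs_le.mp (hC _ h1)
    have h5 : g (fun k => x (Fin.succ k)) / M ≤ 1 := by
      rw [div_le_one hM0]
      linarith
    have h7 : ∀ k : Fin N, -1 ≤ x (Fin.succ k) ∧ x (Fin.succ k) ≤ 1 := by
      rw [box_eq] at h1
      exact h1
    rw [box_eq]
    intro i
    refine Fin.cases ?_ (fun j => ?_) i
    · exact ⟨h2, h3.trans h5⟩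
    · exact h7 j
  have hvol : (volume s).toReal = x / M + 2 ^ N := by
    have hms : MeasurableSet s := hsa.measurable
    set T : Set (ℝ × (Fin N → ℝ)) := {p | p.2 ∈ box (Fin N) ∧
      -1 ≤ p.1 ∧ p.1 ≤ g p.2 / M} with hT
    have hmp := volume_preserving_piFinSuccAbove (fun _ : Fin (N + 1) => ℝ) 0
    have hpre : s = (MeasurableEquiv.piFinSuccAbove (fun _ : Fin (N + 1) => ℝ) 0) ⁻¹' T := by
      ext x
      exact hmem x
    have hTm : MeasurableSet T := by
      have h1 : T = (MeasurableEquiv.piFinSuccAbove (fun _ : Fin (N + 1) => ℝ) 0).symm ⁻¹' s := by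
        rw [hpre]
        ext p
        simp
      rw [h1]
      exact (MeasurableEquiv.measurable _) hms
    have h1 : volume s = volume T := by
      rw [hpre]
      exact hmp.measure_preimage hTm.nullMeasurableSet
    have hmbox : MeasurableSet (box (Fin N)) := (IsSA.box (ι := Fin N)).measurable
    have h2 : volume T = ∫⁻ z in box (Fin N), ENNReal.ofReal (g z / M + 1) := by
      rw [Measure.volume_eq_prod, Measure.prod_apply_symm hTm, ← lintegral_indicator hmbox]
      refine lintegral_congr fun z => ?_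
      by_cases hz : z ∈ box (Fin N)
      · rw [Set.indicator_of_mem hz]
        have h3 : (fun t : ℝ => (t, z)) ⁻¹' T = Set.Icc (-1) (g z / M) := by
          ext t
          simp [hT, hz]
        rw [h3, Real.volume_Icc, sub_neg_eq_add]
      · rw [Set.indicator_of_notMem hz]
        have h3 : (fun t : ℝ => (t, z)) ⁻¹' T = ∅ := by
          ext t
          simp [hT, hz]
        rw [h3, measure_empty]
    have hnn : 0 ≤ᵐ[volume.restrict (box (Fin N))] fun z => g z / M + 1 := by
      refine (ae_restrict_iff' hmbox).2 (Filter.Eventually.of_forall fun z hz => ?_)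
      have h4 := abs_le.mp (hC z hz)
      have h5 : -1 ≤ g z / M := by
        rw [le_div_iff₀ hM0]
        linarith
      simp only [Pi.zero_apply]
      linarith
    have hci : Continuous fun z => g z / M + 1 := by fun_prop
    have h3 := integral_eq_lintegral_of_nonneg_ae hnn hci.aestronglyMeasurable
    rw [h1, h2, ← h3]
    have hK : IsCompact (box (Fin N)) := isCompact_Icc
    have i1 : IntegrableOn (fun z => g z / M) (box (Fin N)) :=
      (hcont.div_const (M : ℝ)).continuousOn.integrableOn_compact hK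
    have i2 : IntegrableOn (fun _ : Fin N → ℝ => (1 : ℝ)) (box (Fin N)) :=
      continuous_const.continuousOn.integrableOn_compact hK
    rw [integral_add i1 i2, integral_div, hgi, setIntegral_const, HSmooth_vol]
    simp
  refine ⟨N + 1, s, M, -(M * 2 ^ N), hsa, hsub, ?_⟩
  rw [hvol]
  push_cast
  field_simp
  ring

/-- (K3) Every period is a rational combination of integrals of signs of nonzero polynomials over
one cube. Proof: `period_vol`, `sgn_expand` (`vol(s) = ∫_box 1_s`), and
`b = (b / 2^N) ∫_box sign 1`. -/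
theorem period_sgn {x : ℝ} (h : IsPeriod x) :
    ∃ (N k : ℕ) (c : Fin k → ℚ) (q : Fin k → MvPolynomial (Fin N) ℚ), (∀ j, q j ≠ 0) ∧
      x = ∑ j, (c j : ℝ) * ∫ z in box (Fin N), Real.sign (aeval z (q j)) := by
  obtain ⟨N, s, a, b, hsa, hsub, hx⟩ := period_vol h
  obtain ⟨k, c, q, hq, hae⟩ := sgn_expand hsa
  have hv : (volume s).toReal = ∑ j, (c j : ℝ) * ∫ z in box (Fin N), Real.sign (aeval z (q j)) := by
    have h1 : (volume s).toReal = ∫ z in box (Fin N), s.indicator (fun _ => (1 : ℝ)) z := by
      rw [integral_indicator hsa.measurable, Measure.restrict_restrict hsa.measurable,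
        Set.inter_eq_left.2 hsub, integral_const, measureReal_restrict_apply_univ,
        measureReal_def]
      simp
    rw [h1, integral_congr_ae (ae_restrict_of_ae hae), integral_finsetSum]
    · refine Finset.sum_congr rfl fun j _ => ?_
      rw [integral_const_mul]
    · intro j _
      exact (KSgn_int (q j)).const_mul _
  have hb : (b : ℝ) = ((b / 2 ^ N : ℚ) : ℝ) * ∫ z in box (Fin N),
      Real.sign (aeval z (1 : MvPolynomial (Fin N) ℚ)) := by
    simp only [map_one, Real.sign_of_pos one_pos]
    rw [setIntegral_const, HSmooth_vol]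
    push_cast
    simp
  refine ⟨N, k + 1, Fin.cons (b / 2 ^ N) (fun j => a * c j), Fin.cons 1 q, ?_, ?_⟩
  · intro j
    refine Fin.cases ?_ (fun i => ?_) j
    · simp
    · simpa using hq i
  · rw [Fin.sum_univ_succ]
    simp only [Fin.cons_zero, Fin.cons_succ]
    rw [← hb, hx, hv, Finset.mul_sum, add_comm]
    congr 1
    refine Finset.sum_congr rfl fun j _ => ?_
    push_cast
    ring

end Pool.Agent.CVol
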