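import Pool.Agent.W_2cf66e_h65.Defs
import Pool.Agent.W_2cf66e_h65.KCos
import Pool.Agent.W_2cf66e_h65.KKer
import Pool.Agent.W_2cf66e_h65.HCell

/-!
# MP_2cf66e_nt, part K: constant term values (helper65)
-/

set_option autoImplicit false

noncomputable section

open MeasureTheory MvPolynomial

namespace Pool.Agent.CVol

/-- `y` is a constant term value: the integral over the torus of `A/(1-T)`, where `A, T` are
rational polynomials in `c_i = cos 2πθ_i` with `0 ≤ T ≤ 1` on the cube, `T ≠ 1`. -/
def CTval (y : ℝ) : Prop :=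
  ∃ (M : ℕ) (A T : MvPolynomial (Fin M) ℚ), T ≠ 1 ∧
    (∀ c ∈ box (Fin M), 0 ≤ aeval c T ∧ aeval c T ≤ 1) ∧
    IntegrableOn (fun θ => aeval (cs θ) A / (1 - aeval (cs θ) T)) (ucube (Fin M)) ∧
    ∫ θ in ucube (Fin M), aeval (cs θ) A / (1 - aeval (cs θ) T) = y

/-- The uniform measure on the unit cube is a product of probability measures. -/
theorem KVal_pi (ι : Type) [Fintype ι] : (volume : Measure (ι → ℝ)).restrict (ucube ι) =
    Measure.pi fun _ : ι => (volume : Measure ℝ).restrict (Set.Icc 0 1) := by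
  have h1 : ucube ι = Set.univ.pi fun _ : ι => Set.Icc (0 : ℝ) 1 := by
    rw [Set.pi_univ_Icc]
    rfl
  rw [h1, volume_pi, Measure.restrict_pi_pi]

theorem KVal_prob : IsProbabilityMeasure ((volume : Measure ℝ).restrict (Set.Icc 0 1)) := by
  refine ⟨?_⟩
  rw [Measure.restrict_apply_univ, Real.volume_Icc]
  simp

/-- Projections of the cube. -/
theorem KVal_proj_left (M M' : ℕ) : MeasurePreserving
    (fun (θ : Fin (M + M') → ℝ) (i : Fin M) => θ (Fin.castAdd M' i))
    ((volume : Measure (Fin (M + M') → ℝ)).restrict (ucube (Fin (M + M'))))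
    ((volume : Measure (Fin M → ℝ)).restrict (ucube (Fin M))) := by
  have hP := KVal_prob
  have hm : Measurable (fun (θ : Fin (M + M') → ℝ) (i : Fin M) => θ (Fin.castAdd M' i)) :=
    measurable_pi_iff.2 fun i => measurable_pi_apply _
  refine ⟨hm, ?_⟩
  rw [KVal_pi, KVal_pi]
  refine (Measure.pi_eq fun s hs => ?_).symm
  rw [Measure.map_apply hm (MeasurableSet.univ_pi hs)]
  have h1 : (fun (θ : Fin (M + M') → ℝ) (i : Fin M) => θ (Fin.castAdd M' i)) ⁻¹'
      (Set.univ.pi s) = Set.univ.pi (Fin.addCases (motive := fun _ => Set ℝ) s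
        (fun _ : Fin M' => Set.univ)) := by
    ext θ
    simp only [Set.mem_preimage, Set.mem_univ_pi]
    constructor
    · intro h j
      refine Fin.addCases (fun i => ?_) (fun i => ?_) j
      · rw [Fin.addCases_left]
        exact h i
      · rw [Fin.addCases_right]
        exact Set.mem_univ _
    · intro h i
      have h2 := h (Fin.castAdd M' i)
      rwa [Fin.addCases_left] at h2
  rw [h1, Measure.pi_pi, Fin.prod_univ_add]
  simp only [Fin.addCases_left, Fin.addCases_right, measure_univ, Finset.prod_const_one, mul_one]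

theorem KVal_proj_right (M M' : ℕ) : MeasurePreserving
    (fun (θ : Fin (M + M') → ℝ) (i : Fin M') => θ (Fin.natAdd M i))
    ((volume : Measure (Fin (M + M') → ℝ)).restrict (ucube (Fin (M + M'))))
    ((volume : Measure (Fin M' → ℝ)).restrict (ucube (Fin M'))) := by
  have hP := KVal_prob
  have hm : Measurable (fun (θ : Fin (M + M') → ℝ) (i : Fin M') => θ (Fin.natAdd M i)) :=
    measurable_pi_iff.2 fun i => measurable_pi_apply _
  refine ⟨hm, ?_⟩
  rw [KVal_pi, KVal_pi]
  refine (Measure.pi_eq fun s hs => ?_).symm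
  rw [Measure.map_apply hm (MeasurableSet.univ_pi hs)]
  have h1 : (fun (θ : Fin (M + M') → ℝ) (i : Fin M') => θ (Fin.natAdd M i)) ⁻¹'
      (Set.univ.pi s) = Set.univ.pi (Fin.addCases (motive := fun _ => Set ℝ)
        (fun _ : Fin M => Set.univ) s) := by
    ext θ
    simp only [Set.mem_preimage, Set.mem_univ_pi]
    constructor
    · intro h j
      refine Fin.addCases (fun i => ?_) (fun i => ?_) j
      · rw [Fin.addCases_left]
        exact Set.mem_univ _
      · rw [Fin.addCases_right]
        exact h i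
    · intro h i
      have h2 := h (Fin.natAdd M i)
      rwa [Fin.addCases_right] at h2
  rw [h1, Measure.pi_pi, Fin.prod_univ_add]
  simp only [Fin.addCases_left, Fin.addCases_right, measure_univ, Finset.prod_const_one, one_mul]

/-- Fubini in the variable `0`. -/
theorem KVal_fub {n : ℕ} (F : (Fin (n + 1) → ℝ) → ℝ) (hF : Measurable F)
    (S : (Fin n → ℝ) → ℝ) (C : ℝ)
    (h1 : ∀ᵐ θ ∂(volume.restrict (ucube (Fin n))),
      IntegrableOn (fun t : ℝ => F (Fin.cons t θ)) (Set.Icc 0 1) ∧
      ∫ t in Set.Icc (0 : ℝ) 1, F (Fin.cons t θ) = S θ ∧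
      ∫ t in Set.Icc (0 : ℝ) 1, |F (Fin.cons t θ)| ≤ C) :
    IntegrableOn F (ucube (Fin (n + 1))) ∧
      ∫ θ in ucube (Fin (n + 1)), F θ = ∫ θ in ucube (Fin n), S θ := by
  have hP := KVal_prob
  set P : Measure ℝ := (volume : Measure ℝ).restrict (Set.Icc 0 1) with hPdef
  set ν : Measure (Fin n → ℝ) := (volume : Measure (Fin n → ℝ)).restrict (ucube (Fin n)) with hν
  have hνp : IsProbabilityMeasure ν := by
    rw [hν, KVal_pi]
    infer_instance
  let e := MeasurableEquiv.piFinSuccAbove (fun _ : Fin (n + 1) => ℝ) 0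
  have hmp : MeasurePreserving e ((volume : Measure (Fin (n + 1) → ℝ)).restrict
      (ucube (Fin (n + 1)))) (P.prod ν) := by
    rw [hν, KVal_pi, KVal_pi]
    exact measurePreserving_piFinSuccAbove (fun _ : Fin (n + 1) => P) 0
  have hsymm : ∀ z : ℝ × (Fin n → ℝ), e.symm z = Fin.cons z.1 z.2 := by
    intro z
    have h2 : (e.symm z : Fin (n + 1) → ℝ) = Fin.insertNth 0 z.1 z.2 := rfl
    rw [h2, Fin.insertNth_zero']
  let G : ℝ × (Fin n → ℝ) → ℝ := fun z => F (Fin.cons z.1 z.2)
  have hGe : G = F ∘ e.symm := by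
    funext z
    show F (Fin.cons z.1 z.2) = F (e.symm z)
    rw [hsymm]
  have hG : Measurable G := by
    rw [hGe]
    exact hF.comp e.symm.measurable
  have hGF : G ∘ e = F := by
    rw [hGe]
    funext θ
    show F (e.symm (e θ)) = F θ
    rw [MeasurableEquiv.symm_apply_apply]
  have hint : Integrable G (P.prod ν) := by
    rw [integrable_prod_iff' hG.aestronglyMeasurable]
    refine ⟨?_, ?_⟩
    · filter_upwards [h1] with θ hθ
      exact hθ.1
    · have hsm : StronglyMeasurable fun y : Fin n → ℝ => ∫ x, ‖G (x, y)‖ ∂P := by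
        refine StronglyMeasurable.integral_prod_left (f := fun x y => ‖G (x, y)‖) ?_
        exact (hG.norm).stronglyMeasurable
      refine Integrable.of_bound hsm.aestronglyMeasurable C ?_
      filter_upwards [h1] with θ hθ
      rw [Real.norm_of_nonneg (integral_nonneg fun x => norm_nonneg _)]
      exact hθ.2.2
  have hF1 : Integrable F ((volume : Measure (Fin (n + 1) → ℝ)).restrict
      (ucube (Fin (n + 1)))) := by
    have h2 := hmp.integrable_comp_of_integrable hint
    rwa [hGF] at h2
  refine ⟨hF1, ?_⟩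
  have h3 : ∫ θ in ucube (Fin (n + 1)), F θ = ∫ z, G z ∂(P.prod ν) := by
    rw [← hmp.integral_comp' (g := G)]
    refine integral_congr_ae (Filter.Eventually.of_forall fun θ => ?_)
    exact (congrFun hGF θ).symm
  rw [h3, integral_prod_symm _ hint]
  refine integral_congr_ae ?_
  filter_upwards [h1] with θ hθ
  exact hθ.2.1

/-- Continuity of the map `cs`. -/
theorem KVal_cs {ι : Type} : Continuous (cs : (ι → ℝ) → ι → ℝ) :=
  continuous_pi fun i => Real.continuous_cos.comp (continuous_const.mul (continuous_apply i))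

theorem KVal_meas {ι : Type} [Fintype ι] (A T : MvPolynomial ι ℚ) :
    Measurable fun θ : ι → ℝ => aeval (cs θ) A / (1 - aeval (cs θ) T) := by
  have h1 : Measurable fun θ : ι → ℝ => aeval (cs θ) A :=
    ((HCell_cont A).comp KVal_cs).measurable
  have h2 : Measurable fun θ : ι → ℝ => aeval (cs θ) T :=
    ((HCell_cont T).comp KVal_cs).measurable
  exact h1.div (measurable_const.sub h2)

theorem KVal_box {ι : Type} (θ : ι → ℝ) : cs θ ∈ box ι := by
  rw [box_eq]
  intro i
  exact ⟨Real.neg_one_le_cos _, Real.cos_le_one _⟩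

/-- The inner integral. -/
theorem KVal_inner (H S : ℝ) (hH : H ≠ 0) :
    IntegrableOn (fun t : ℝ => H * S / ((H ^ 2 * (1 + Real.cos (2 * Real.pi * t)) +
      (1 - Real.cos (2 * Real.pi * t))) / 2)) (Set.Icc 0 1) ∧
    ∫ t in Set.Icc (0 : ℝ) 1, H * S / ((H ^ 2 * (1 + Real.cos (2 * Real.pi * t)) +
      (1 - Real.cos (2 * Real.pi * t))) / 2) = H / |H| * S ∧
    ∫ t in Set.Icc (0 : ℝ) 1, |H * S / ((H ^ 2 * (1 + Real.cos (2 * Real.pi * t)) +
      (1 - Real.cos (2 * Real.pi * t))) / 2)| = |S| := by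
  obtain ⟨hpos, hint⟩ := int_ker_abs H hH
  have hH' : 0 < |H| := abs_pos.2 hH
  have hcont : Continuous fun t : ℝ => |H| / (H ^ 2 * (1 + Real.cos (2 * Real.pi * t)) +
      (1 - Real.cos (2 * Real.pi * t))) := by
    refine Continuous.div continuous_const (by fun_prop) fun t => (hpos t).ne'
  have hI : IntegrableOn (fun t : ℝ => |H| / (H ^ 2 * (1 + Real.cos (2 * Real.pi * t)) +
      (1 - Real.cos (2 * Real.pi * t)))) (Set.Icc 0 1) := hcont.integrableOn_Icc
  have hv : ∫ t in Set.Icc (0 : ℝ) 1, |H| / (H ^ 2 * (1 + Real.cos (2 * Real.pi * t)) +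
      (1 - Real.cos (2 * Real.pi * t))) = 1 / 2 := by
    rw [integral_Icc_eq_integral_Ioc, ← intervalIntegral.integral_of_le zero_le_one]
    exact hint
  have e1 : ∀ t : ℝ, H * S / ((H ^ 2 * (1 + Real.cos (2 * Real.pi * t)) +
      (1 - Real.cos (2 * Real.pi * t))) / 2) = (2 * (H / |H|) * S) *
        (|H| / (H ^ 2 * (1 + Real.cos (2 * Real.pi * t)) +
      (1 - Real.cos (2 * Real.pi * t)))) := by
    intro t
    have h1 := (hpos t).ne'
    have h2 := hH'.ne'
    field_simp
  have e2 : ∀ t : ℝ, |H * S / ((H ^ 2 * (1 + Real.cos (2 * Real.pi * t)) +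
      (1 - Real.cos (2 * Real.pi * t))) / 2)| = (2 * |S|) *
        (|H| / (H ^ 2 * (1 + Real.cos (2 * Real.pi * t)) +
      (1 - Real.cos (2 * Real.pi * t)))) := by
    intro t
    have h1 := hpos t
    rw [abs_div, abs_mul, abs_of_pos (show (0 : ℝ) < (H ^ 2 * (1 + Real.cos (2 * Real.pi * t)) +
      (1 - Real.cos (2 * Real.pi * t))) / 2 by positivity)]
    field_simp
  refine ⟨?_, ?_, ?_⟩
  · simp only [e1]
    exact hI.const_mul _
  · simp only [e1]
    rw [integral_const_mul, hv]
    ring
  · simp only [e2]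
    rw [integral_const_mul, hv]
    ring

theorem CTval.zero : CTval 0 := by
  refine ⟨0, 0, 0, zero_ne_one, fun c _ => ?_, ?_, ?_⟩
  · rw [map_zero]
    exact ⟨le_rfl, zero_le_one⟩
  · simp only [map_zero, zero_div]
    exact integrableOn_zero
  · simp only [map_zero, zero_div, integral_zero]

/-- Rational multiples. -/
theorem CTval.smul {y : ℝ} (h : CTval y) (r : ℚ) : CTval (r * y) := by
  obtain ⟨M, A, T, hT, hb, hi, hv⟩ := h
  have e : ∀ θ : Fin M → ℝ, aeval (cs θ) (C r * A) / (1 - aeval (cs θ) T) =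
      (r : ℝ) * (aeval (cs θ) A / (1 - aeval (cs θ) T)) := by
    intro θ
    rw [map_mul, aeval_C, mul_div_assoc]
    rfl
  refine ⟨M, C r * A, T, hT, hb, ?_, ?_⟩
  · simp only [e]
    exact hi.const_mul _
  · simp only [e]
    rw [integral_const_mul, hv]

/-- (K9) Sums. Proof: on the torus of dimension `M + M'` (coordinates `Fin.castAdd`,
`Fin.natAdd`; the projections of the unit cube `[0,1]^(M+M')` to the factors are measure preserving
for the restricted measures, as these are probability measures) let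
`A'' = A(1 - T') + A'(1 - T)`, `T'' = T + T' - T T'`, so `1 - T'' = (1 - T)(1 - T')`, `≠ 0` as a
polynomial and in `[0,1]` on the cube; almost everywhere (`null_cos`)
`A''/(1 - T'') = A/(1 - T) + A'/(1 - T')`. -/
theorem CTval.add {y y' : ℝ} (h : CTval y) (h' : CTval y') : CTval (y + y') := by
  obtain ⟨M, A, T, hT, hb, hi, hv⟩ := h
  obtain ⟨M', A', T', hT', hb', hi', hv'⟩ := h'
  have hP := KVal_prob
  have hl := KVal_proj_left M M'
  have hr := KVal_proj_right M M'
  let A1 : MvPolynomial (Fin (M + M')) ℚ := rename (Fin.castAdd M') A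
  let T1 : MvPolynomial (Fin (M + M')) ℚ := rename (Fin.castAdd M') T
  let A2 : MvPolynomial (Fin (M + M')) ℚ := rename (Fin.natAdd M) A'
  let T2 : MvPolynomial (Fin (M + M')) ℚ := rename (Fin.natAdd M) T'
  have hT1 : 1 - T1 ≠ 0 := by
    intro h
    apply hT
    have h1 : rename (Fin.castAdd M') T = rename (Fin.castAdd M') (1 : MvPolynomial (Fin M) ℚ) := by
      rw [map_one]
      exact (sub_eq_zero.1 h).symm
    exact rename_injective _ (Fin.castAdd_injective M M') h1
  have hT2 : 1 - T2 ≠ 0 := by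
    intro h
    apply hT'
    have h1 : rename (Fin.natAdd M) T' = rename (Fin.natAdd M) (1 : MvPolynomial (Fin M') ℚ) := by
      rw [map_one]
      exact (sub_eq_zero.1 h).symm
    exact rename_injective _ (Fin.natAdd_injective M' M) h1
  have eval1 : ∀ (c : Fin (M + M') → ℝ) (p : MvPolynomial (Fin M) ℚ),
      aeval c (rename (Fin.castAdd M') p) = aeval (fun i => c (Fin.castAdd M' i)) p := by
    intro c p
    rw [aeval_rename]
    rfl
  have eval2 : ∀ (c : Fin (M + M') → ℝ) (p : MvPolynomial (Fin M') ℚ),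
      aeval c (rename (Fin.natAdd M) p) = aeval (fun i => c (Fin.natAdd M i)) p := by
    intro c p
    rw [aeval_rename]
    rfl
  have hfac : 1 - (T1 + T2 - T1 * T2) = (1 - T1) * (1 - T2) := by ring
  have hae : ∀ᵐ θ ∂(volume.restrict (ucube (Fin (M + M')))),
      aeval (cs θ) (A1 * (1 - T2) + A2 * (1 - T1)) / (1 - aeval (cs θ) (T1 + T2 - T1 * T2)) =
        aeval (cs fun i => θ (Fin.castAdd M' i)) A /
          (1 - aeval (cs fun i => θ (Fin.castAdd M' i)) T) +
        aeval (cs fun i => θ (Fin.natAdd M i)) A' /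
          (1 - aeval (cs fun i => θ (Fin.natAdd M i)) T') := by
    filter_upwards [null_cos (1 - T1) hT1, null_cos (1 - T2) hT2] with θ h1 h2
    have e0 : (1 : ℝ) - aeval (cs θ) (T1 + T2 - T1 * T2) =
        (1 - aeval (cs θ) T1) * (1 - aeval (cs θ) T2) := by
      have := congrArg (fun p => aeval (cs θ) p) hfac
      simpa only [map_sub, map_one, map_mul] using this
    rw [e0]
    have e1 : aeval (cs fun i => θ (Fin.castAdd M' i)) A = aeval (cs θ) A1 :=
      (eval1 (cs θ) A).symm
    have e2 : aeval (cs fun i => θ (Fin.castAdd M' i)) T = aeval (cs θ) T1 :=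
      (eval1 (cs θ) T).symm
    have e3 : aeval (cs fun i => θ (Fin.natAdd M i)) A' = aeval (cs θ) A2 :=
      (eval2 (cs θ) A').symm
    have e4 : aeval (cs fun i => θ (Fin.natAdd M i)) T' = aeval (cs θ) T2 :=
      (eval2 (cs θ) T').symm
    rw [e1, e2, e3, e4]
    simp only [map_sub, map_one] at h1 h2
    simp only [map_add, map_mul, map_sub, map_one]
    field_simp
  have hint1 : Integrable (fun θ : Fin (M + M') → ℝ =>
      aeval (cs fun i => θ (Fin.castAdd M' i)) A /
          (1 - aeval (cs fun i => θ (Fin.castAdd M' i)) T))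
      (volume.restrict (ucube (Fin (M + M')))) :=
    hl.integrable_comp_of_integrable (g := fun θ => aeval (cs θ) A / (1 - aeval (cs θ) T)) hi
  have hint2 : Integrable (fun θ : Fin (M + M') → ℝ =>
      aeval (cs fun i => θ (Fin.natAdd M i)) A' /
          (1 - aeval (cs fun i => θ (Fin.natAdd M i)) T'))
      (volume.restrict (ucube (Fin (M + M')))) :=
    hr.integrable_comp_of_integrable (g := fun θ => aeval (cs θ) A' / (1 - aeval (cs θ) T')) hi'
  have hval1 : ∫ θ in ucube (Fin (M + M')), aeval (cs fun i => θ (Fin.castAdd M' i)) A /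
          (1 - aeval (cs fun i => θ (Fin.castAdd M' i)) T) = y := by
    have h1 := integral_map (μ := volume.restrict (ucube (Fin (M + M')))) hl.aemeasurable
      (f := fun θ => aeval (cs θ) A / (1 - aeval (cs θ) T)) (by
        rw [hl.map_eq]
        exact (KVal_meas A T).aestronglyMeasurable)
    rw [hl.map_eq, hv] at h1
    exact h1.symm
  have hval2 : ∫ θ in ucube (Fin (M + M')), aeval (cs fun i => θ (Fin.natAdd M i)) A' /
          (1 - aeval (cs fun i => θ (Fin.natAdd M i)) T') = y' := by
    have h1 := integral_map (μ := volume.restrict (ucube (Fin (M + M')))) hr.aemeasurable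
      (f := fun θ => aeval (cs θ) A' / (1 - aeval (cs θ) T')) (by
        rw [hr.map_eq]
        exact (KVal_meas A' T').aestronglyMeasurable)
    rw [hr.map_eq, hv'] at h1
    exact h1.symm
  refine ⟨M + M', A1 * (1 - T2) + A2 * (1 - T1), T1 + T2 - T1 * T2, ?_, ?_, ?_, ?_⟩
  · intro h
    have h1 : (1 - T1) * (1 - T2) = 0 := by rw [← hfac, h, sub_self]
    rcases mul_eq_zero.1 h1 with h2 | h2
    · exact hT1 h2
    · exact hT2 h2
  · intro c hc
    rw [box_eq] at hc
    have h1 := hb (fun i => c (Fin.castAdd M' i)) (by rw [box_eq]; exact fun i => hc _)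
    have h2 := hb' (fun i => c (Fin.natAdd M i)) (by rw [box_eq]; exact fun i => hc _)
    rw [← eval1] at h1
    rw [← eval2] at h2
    have e0 : aeval c (T1 + T2 - T1 * T2) = aeval c T1 + aeval c T2 - aeval c T1 * aeval c T2 := by
      simp only [map_add, map_sub, map_mul]
    rw [e0]
    have h3 : 0 ≤ aeval c T1 ∧ aeval c T1 ≤ 1 := h1
    have h4 : 0 ≤ aeval c T2 ∧ aeval c T2 ≤ 1 := h2
    constructor
    · nlinarith [mul_nonneg h3.1 (sub_nonneg.2 h4.2)]
    · nlinarith [mul_nonneg (sub_nonneg.2 h3.2) (sub_nonneg.2 h4.2)]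
  · exact (hint1.add hint2).congr (hae.mono fun θ h => h.symm)
  · rw [integral_congr_ae hae, integral_add hint1 hint2, hval1, hval2]

theorem CTval.sum {k : ℕ} (y : Fin k → ℝ) (h : ∀ j, CTval (y j)) : CTval (∑ j, y j) := by
  induction k with
  | zero =>
    rw [Finset.univ_eq_empty, Finset.sum_empty]
    exact CTval.zero
  | succ k ih =>
    rw [Fin.sum_univ_castSucc]
    exact (ih _ fun j => h _).add (h _)

/-- (K10) The integral of a sign over the cube is `π^n` times a constant term value.

Proof. Let `P = q ∏ (1 - c_i^2)^...`; precisely, choose a rational `λ > 0` with `λ |q| ≤ 1` on the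
cube (`exists_bound`), and put, for `θ ∈ [0,1]^n`, `H(θ) = λ q(cos) ∏ sin 2πθ_i`, so `|H| ≤ 1`.
By `int_cos`: `∫_box sign q = π^n ∫ sign(q(cos)) ∏ |sin 2πθ_i|
 = π^n ∫ sign(H) ∏ sin 2πθ_i` (as `|s| = sign(s) s` and `λ > 0`).
By `int_ker` (for almost all `θ`, `H ≠ 0` by `null_cos`): `sign H = 2 ∫_0^1 H/(...) dφ`. Hence, with
the extra variable `c' = cos 2πφ` (dimension `n + 1`, `Fin.snoc` or `Fin.cons` coordinates),
`∫_box sign q = π^n ∫ A/(1 - T)` with `A = λ q ∏ (1 - c_i^2)` (`H ∏ sin = λ q ∏ sin^2`) and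
`1 - T = (H^2 (1 + c') + (1 - c'))/2`, `H^2 = λ^2 q^2 ∏ (1 - c_i^2)`. `0 ≤ 1 - T ≤ 1` because
`0 ≤ H^2 ≤ 1`, `T ≠ 1` because `1 - T` is `1` at `c' = -1`; absolute integrability: the integral
over `φ` of the absolute value is `|∏ sin| / 2 · 2` by `int_ker_abs`, bounded
(`MeasureTheory.integrable_prod_iff`, measurability by continuity off the zeros of the
denominator, i.e. of polynomials; Fubini with `volume_preserving_piFinSuccAbove`). -/
theorem sgn_ct {n : ℕ} (q : MvPolynomial (Fin n) ℚ) (hq : q ≠ 0) :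
    ∃ y : ℝ, CTval y ∧ ∫ z in box (Fin n), Real.sign (aeval z q) = Real.pi ^ n * y := by
  obtain ⟨B, hB, hBb⟩ := exists_bound q
  have hBr : (0 : ℝ) < B := by exact_mod_cast hB
  let D : MvPolynomial (Fin (n + 1)) ℚ := ∏ i : Fin n, (1 - (X i.succ) ^ 2)
  let q1 : MvPolynomial (Fin (n + 1)) ℚ := rename Fin.succ q
  let A : MvPolynomial (Fin (n + 1)) ℚ := C (1 / B) * q1 * D
  let H2 : MvPolynomial (Fin (n + 1)) ℚ := (C (1 / B) * q1) ^ 2 * D
  let T : MvPolynomial (Fin (n + 1)) ℚ := 1 - C (1 / 2) * (H2 * (1 + X 0) + (1 - X 0))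
  have hD : ∀ c : Fin (n + 1) → ℝ, aeval c D = ∏ i : Fin n, (1 - (c i.succ) ^ 2) := by
    intro c
    simp [D]
  have hq1 : ∀ c : Fin (n + 1) → ℝ, aeval c q1 = aeval (fun i : Fin n => c i.succ) q := by
    intro c
    show aeval c (rename Fin.succ q) = _
    rw [aeval_rename]
    rfl
  have hCB : ∀ c : Fin (n + 1) → ℝ, aeval c (C (1 / B) : MvPolynomial (Fin (n + 1)) ℚ) =
      1 / (B : ℝ) := by
    intro c
    rw [aeval_C]
    simp
  have hA : ∀ c : Fin (n + 1) → ℝ, aeval c A =
      1 / (B : ℝ) * aeval (fun i : Fin n => c i.succ) q * ∏ i : Fin n, (1 - (c i.succ) ^ 2) := by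
    intro c
    show aeval c (C (1 / B) * q1 * D) = _
    rw [map_mul, map_mul, hCB, hq1, hD]
  have hT : ∀ c : Fin (n + 1) → ℝ, 1 - aeval c T =
      ((1 / (B : ℝ) * aeval (fun i : Fin n => c i.succ) q) ^ 2 *
        (∏ i : Fin n, (1 - (c i.succ) ^ 2)) * (1 + c 0) + (1 - c 0)) / 2 := by
    intro c
    have h2 : aeval c (C (1 / 2) : MvPolynomial (Fin (n + 1)) ℚ) = 1 / (2 : ℝ) := by
      rw [aeval_C]
      simp
    show 1 - aeval c (1 - C (1 / 2) * ((C (1 / B) * q1) ^ 2 * D * (1 + X 0) + (1 - X 0))) = _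
    simp only [map_sub, map_add, map_mul, map_pow, map_one, aeval_X, h2, hCB, hq1, hD]
    ring
  refine ⟨∫ θ in ucube (Fin (n + 1)), aeval (cs θ) A / (1 - aeval (cs θ) T), ?_, ?_⟩
  all_goals
    have key := KVal_fub (fun θ : Fin (n + 1) → ℝ => aeval (cs θ) A / (1 - aeval (cs θ) T))
      (KVal_meas A T)
      (fun θ => Real.sign (aeval (cs θ) q) * ∏ i, |Real.sin (2 * Real.pi * θ i)|) 1 (by
        have hne : q * den n ≠ 0 := by
          refine mul_ne_zero hq fun h => ?_
          have h1 : (0 : ℝ) < aeval (fun _ : Fin n => (0 : ℝ)) (den n) :=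
            den_pos (fun i => by simp)
          rw [h, map_zero] at h1
          exact lt_irrefl _ h1
        filter_upwards [null_cos _ hne] with θ hθ
        rw [map_mul, HCell_den] at hθ
        have hsin : ∀ i, 1 - (cs θ i) ^ 2 = Real.sin (2 * Real.pi * θ i) ^ 2 := by
          intro i
          have := Real.sin_sq_add_cos_sq (2 * Real.pi * θ i)
          simp only [cs]
          linarith
        set S : ℝ := ∏ i, Real.sin (2 * Real.pi * θ i) with hS
        have hS2 : ∏ i, (1 - (cs θ i) ^ 2) = S ^ 2 := by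
          rw [hS, ← Finset.prod_pow]
          exact Finset.prod_congr rfl fun i _ => hsin i
        rw [hS2] at hθ
        have hq0 : aeval (cs θ) q ≠ 0 := left_ne_zero_of_mul hθ
        have hS0 : S ≠ 0 := fun h => right_ne_zero_of_mul hθ (by rw [h]; ring)
        set H : ℝ := 1 / (B : ℝ) * aeval (cs θ) q * S with hH
        have hH0 : H ≠ 0 := by
          rw [hH]
          have : (B : ℝ) ≠ 0 := hBr.ne'
          positivity
        have hcs0 : ∀ t : ℝ, cs (Fin.cons t θ : Fin (n + 1) → ℝ) 0 =
            Real.cos (2 * Real.pi * t) := by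
          intro t
          simp [cs]
        have hcs1 : ∀ t : ℝ, (fun i : Fin n => cs (Fin.cons t θ : Fin (n + 1) → ℝ) i.succ) =
            cs θ := by
          intro t
          funext i
          simp [cs]
        have hcs2 : ∀ (t : ℝ) (i : Fin n), cs (Fin.cons t θ : Fin (n + 1) → ℝ) i.succ =
            cs θ i := fun t i => congrFun (hcs1 t) i
        have e1 : ∀ t : ℝ, aeval (cs (Fin.cons t θ : Fin (n + 1) → ℝ)) A /
            (1 - aeval (cs (Fin.cons t θ : Fin (n + 1) → ℝ)) T) =
            H * S / ((H ^ 2 * (1 + Real.cos (2 * Real.pi * t)) +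
              (1 - Real.cos (2 * Real.pi * t))) / 2) := by
          intro t
          rw [hA, hT, hcs0, hcs1]
          simp only [hcs2]
          rw [hS2, hH]
          congr 1
          · ring
          · ring
        obtain ⟨k1, k2, k3⟩ := KVal_inner H S hH0
        have habsS : |S| = ∏ i, |Real.sin (2 * Real.pi * θ i)| := by
          rw [hS, Finset.abs_prod]
        simp only [e1]
        refine ⟨k1, ?_, ?_⟩
        · rw [k2, ← habsS]
          have hq' : 0 < |aeval (cs θ) q| := abs_pos.2 hq0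
          have hS' : 0 < |S| := abs_pos.2 hS0
          rw [hH, abs_mul, abs_mul, abs_of_pos (show (0 : ℝ) < 1 / (B : ℝ) by positivity)]
          have h5 : Real.sign (aeval (cs θ) q) * |aeval (cs θ) q| = aeval (cs θ) q := by
            rcases lt_or_gt_of_ne hq0 with h | h
            · rw [Real.sign_of_neg h, abs_of_neg h]
              ring
            · rw [Real.sign_of_pos h, abs_of_pos h]
              ring
          have h6 : S * S = |S| * |S| := (abs_mul_abs_self S).symm
          have hq'' := hq'.ne'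
          have hS'' := hS'.ne'
          have hB'' := hBr.ne'
          rw [div_mul_eq_mul_div, div_eq_iff (by positivity)]
          calc 1 / (B : ℝ) * aeval (cs θ) q * S * S = 1 / (B : ℝ) * aeval (cs θ) q * (S * S) := by
                ring
            _ = 1 / (B : ℝ) * (Real.sign (aeval (cs θ) q) * |aeval (cs θ) q|) * (|S| * |S|) := by
                rw [h5, h6]
            _ = _ := by ring
        · rw [k3, habsS]
          exact Finset.prod_le_one (fun i _ => abs_nonneg _)
            fun i _ => Real.abs_sin_le_one _)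
  · refine ⟨n + 1, A, T, ?_, ?_, key.1, rfl⟩
    · intro h
      have h1 := hT (Fin.cons (-1) fun _ => 0)
      rw [h, map_one, sub_self] at h1
      simp at h1
    · intro c hc
      rw [box_eq] at hc
      have h1 := hT c
      have h2 : |aeval (fun i : Fin n => c i.succ) q| ≤ B :=
        hBb _ (by rw [box_eq]; exact fun i => hc _)
      have h3 : (1 / (B : ℝ) * aeval (fun i : Fin n => c i.succ) q) ^ 2 ≤ 1 := by
        rw [sq_le_one_iff_abs_le_one, abs_mul,
          abs_of_pos (show (0 : ℝ) < 1 / (B : ℝ) by positivity), one_div, ← div_eq_inv_mul,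
          div_le_one hBr]
        exact h2
      have h4 : ∀ i : Fin n, 0 ≤ 1 - (c i.succ) ^ 2 ∧ 1 - (c i.succ) ^ 2 ≤ 1 := by
        intro i
        have h5 := hc i.succ
        constructor
        · nlinarith
        · nlinarith [sq_nonneg (c i.succ)]
      have h5 : 0 ≤ ∏ i : Fin n, (1 - (c i.succ) ^ 2) :=
        Finset.prod_nonneg fun i _ => (h4 i).1
      have h6 : ∏ i : Fin n, (1 - (c i.succ) ^ 2) ≤ 1 :=
        Finset.prod_le_one (fun i _ => (h4 i).1) fun i _ => (h4 i).2
      have h7 := hc 0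
      set a : ℝ := (1 / (B : ℝ) * aeval (fun i : Fin n => c i.succ) q) ^ 2 with ha
      set b : ℝ := ∏ i : Fin n, (1 - (c i.succ) ^ 2) with hb
      have ha0 : 0 ≤ a := sq_nonneg _
      have hab0 : 0 ≤ a * b := mul_nonneg ha0 h5
      have hab1 : a * b ≤ 1 := mul_le_one₀ h3 h5 h6
      constructor
      · have h8 : a * b * (1 + c 0) ≤ 1 * (1 + c 0) :=
          mul_le_mul_of_nonneg_right hab1 (by linarith)
        linarith
      · have h8 : 0 ≤ a * b * (1 + c 0) := mul_nonneg hab0 (by linarith)
        linarith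
  · rw [key.2, int_cos (fun z => Real.sign (aeval z q))
      (Measurable.comp (g := Real.sign) (by
        unfold Real.sign
        exact Measurable.ite measurableSet_Iio measurable_const
          (Measurable.ite measurableSet_Ioi measurable_const measurable_const))
        (HCell_cont q).measurable) 1 (fun z => by
          rcases Real.sign_apply_eq (aeval z q) with h | h | h <;> rw [h] <;> simp)]
    rw [← integral_const_mul]
    refine integral_congr_ae (Filter.Eventually.of_forall fun θ => ?_)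
    show Real.sign (aeval (cs θ) q) * ∏ i, (Real.pi * |Real.sin (2 * Real.pi * θ i)|) =
      Real.pi ^ n * (Real.sign (aeval (cs θ) q) * ∏ i, |Real.sin (2 * Real.pi * θ i)|)
    rw [Finset.prod_mul_distrib, Finset.prod_const, Finset.card_univ, Fintype.card_fin]
    ring

end Pool.Agent.CVol
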