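import Mathlib

/-!
# MP_2cf66e_nt (periods): definitions used in the statements (helper65)
-/

set_option autoImplicit false

noncomputable section

open MeasureTheory

namespace Pool.Agent.CVol

/-- The semialgebraic sets over `ℚ`: the Boolean algebra of subsets of `ℝ^ι` generated by the sets
`{x | 0 < p x}`, `p` a polynomial with rational coefficients. -/
inductive IsSA {ι : Type} : Set (ι → ℝ) → Prop
  | pos (p : MvPolynomial ι ℚ) : IsSA {x : ι → ℝ | 0 < MvPolynomial.aeval x p}
  | compl {s : Set (ι → ℝ)} : IsSA s → IsSA sᶜ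
  | inter {s t : Set (ι → ℝ)} : IsSA s → IsSA t → IsSA (s ∩ t)

/-- `x` is a real period: an absolutely convergent integral of a rational function with rational
coefficients over a set given by finitely many rational polynomial inequalities (exactly the form
of the frozen statement of MP_2cf66e_nt, with `x` in place of `Real.exp 1`). -/
def IsPeriod (x : ℝ) : Prop :=
  ∃ (n : ℕ) (P Q : MvPolynomial (Fin n) ℚ) (k m : ℕ)
    (p : Fin k → Fin m → MvPolynomial (Fin n) ℚ),
    IntegrableOn
      (fun x : Fin n → ℝ => MvPolynomial.aeval x P / MvPolynomial.aeval x Q)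
      {x : Fin n → ℝ | ∃ j, ∀ i, 0 < MvPolynomial.aeval x (p j i)} volume ∧
    (∫ x in {x : Fin n → ℝ | ∃ j, ∀ i, 0 < MvPolynomial.aeval x (p j i)},
        MvPolynomial.aeval x P / MvPolynomial.aeval x Q) = x

/-- `f` is piecewise rational over `ℚ`: a finite sum of functions `1_S P / Q` with `S`
semialgebraic over `ℚ`, `P`, `Q` polynomials with rational coefficients, `Q` without zeros on
`S`. -/
def IsPR {ι : Type} (f : (ι → ℝ) → ℝ) : Prop :=
  ∃ (k : ℕ) (S : Fin k → Set (ι → ℝ)) (P Q : Fin k → MvPolynomial ι ℚ),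
    (∀ c, IsSA (S c)) ∧ (∀ c, ∀ z ∈ S c, MvPolynomial.aeval z (Q c) ≠ 0) ∧
    ∀ z, f z = ∑ c, (S c).indicator
      (fun z => MvPolynomial.aeval z (P c) / MvPolynomial.aeval z (Q c)) z

end Pool.Agent.CVol
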